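import Pool.Agent.Run7.h932.U.Stm

/-!
# Assembling the finite lemma
-/

set_option autoImplicit false

namespace Run7.h932

open SimpleGraph Pool.Q11.TwoEnd Pool.Q6.CI

/-- deleting one edge -/
def dlE {V : Type} (K : SimpleGraph V) (x y : V) : SimpleGraph V where
  Adj a b := K.Adj a b ∧ ¬ (a = x ∧ b = y) ∧ ¬ (a = y ∧ b = x)
  symm := ⟨fun _ _ h => ⟨h.1.symm, fun h' => h.2.2 ⟨h'.2, h'.1⟩, fun h' => h.2.1 ⟨h'.2, h'.1⟩⟩⟩
  loopless := ⟨fun _ h => h.1.ne rfl⟩

theorem VC_fix {V : Type} {K : SimpleGraph V} {k : ℕ} {Φ : V → Finset ℕ} {x y : V}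
    (hxy : K.Adj x y) {c : V → V → ℕ} (hc : VC (dlE K x y) k Φ c) {a : ℕ} (ha : a < k)
    (hx : a ∉ Φ x) (hy : a ∉ Φ y) (hmx : Miss (dlE K x y) c x a) (hmy : Miss (dlE K x y) c y a) :
    ∃ c, VC K k Φ c := by
  classical
  have hsp : ∀ u v, K.Adj u v → ((u = x ∧ v = y) ∨ (u = y ∧ v = x)) ∨
      (¬ ((u = x ∧ v = y) ∨ (u = y ∧ v = x)) ∧ (dlE K x y).Adj u v) := by
    intro u v h
    by_cases h1 : (u = x ∧ v = y) ∨ (u = y ∧ v = x)
    · exact Or.inl h1
    · refine Or.inr ⟨h1, h, fun h2 => h1 (Or.inl h2), fun h2 => h1 (Or.inr h2)⟩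
  refine ⟨fun u v => if (u = x ∧ v = y) ∨ (u = y ∧ v = x) then a else c u v, ⟨?_, ?_, ?_⟩, ?_⟩
  · intro u v h
    beta_reduce
    rcases hsp u v h with h1 | ⟨h1, h2⟩
    · rw [if_pos h1]; exact ha
    · rw [if_neg h1]; exact hc.pc.lt u v h2
  · intro u v h
    beta_reduce
    rcases hsp u v h with h1 | ⟨h1, h2⟩
    · rw [if_pos h1, if_pos (by tauto)]
    · rw [if_neg h1, if_neg (by tauto)]; exact hc.pc.symm u v h2
  · intro u v w h h' he
    beta_reduce at he
    rcases hsp u v h with h1 | ⟨h1, h2⟩ <;> rcases hsp u w h' with h1' | ⟨h1', h2'⟩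
    · rcases h1 with ⟨h3, h4⟩ | ⟨h3, h4⟩ <;> rcases h1' with ⟨h5, h6⟩ | ⟨h5, h6⟩
      · rw [h4, h6]
      · exact absurd (h3.symm.trans h5) hxy.ne
      · exact absurd (h5.symm.trans h3) hxy.ne
      · rw [h4, h6]
    · rw [if_pos h1, if_neg h1'] at he
      rcases h1 with ⟨h3, h4⟩ | ⟨h3, h4⟩
      · subst h3; exact absurd he.symm (hmx w h2')
      · subst h3; exact absurd he.symm (hmy w h2')
    · rw [if_neg h1, if_pos h1'] at he
      rcases h1' with ⟨h3, h4⟩ | ⟨h3, h4⟩
      · subst h3; exact absurd he (hmx v h2)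
      · subst h3; exact absurd he (hmy v h2)
    · rw [if_neg h1, if_neg h1'] at he
      exact hc.pc.inj u v w h2 h2' he
  · intro u v h
    beta_reduce
    rcases hsp u v h with h1 | ⟨h1, h2⟩
    · rw [if_pos h1]
      rcases h1 with ⟨h3, h4⟩ | ⟨h3, h4⟩
      · rw [h3]; exact hx
      · rw [h3]; exact hy
    · rw [if_neg h1]; exact hc.av u v h2

theorem t_A0 : S_A0 := by
  classical
  intro hA1 hA2 Δ n K
  induction K using WellFoundedLT.induction with
  | ind K ih =>
  intro Φ hΦ hdg hsum hcl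
  by_contra hno
  have hcrit : ∀ K' : SimpleGraph (Fin n), K' < K → ∃ c, VC K' (Δ + 1) Φ c := by
    intro K' hK'
    exact ih K' hK' Φ hΦ (fun i => by
      have h1 := dg_mono hK'.le i
      have h2 := hdg i
      omega) hsum hcl
  have hdg' : ∀ v, dg K v + (Φ v).card + 1 ≤ Δ + 1 := fun v => by
    have := hdg v
    omega
  by_cases hx : ∃ x, (Φ x).card ≤ 1 ∧ (nb K x).Nonempty
  · obtain ⟨x, hx1, hx2⟩ := hx
    have hbn : bn Φ x ≤ 1 := le_trans (Finset.card_filter_le _ _) hx1
    obtain ⟨h1, h2, h3⟩ := hA1 (Fin n) K (Δ + 1) Φ hΦ hdg' hcl hno hcrit x hbn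
    exact hA2 (Fin n) K (Δ + 1) Φ hΦ hdg' hcl (by omega) x hx1 h1 h2 (h3 hx2)
  · push Not at hx
    have hB : ∀ u v, K.Adj u v → 2 ≤ (Φ u).card := by
      intro u v huv
      by_contra h
      have h1 := hx u (by omega)
      have h2 : v ∈ nb K u := by
        unfold nb
        exact Finset.mem_filter.2 ⟨Finset.mem_univ _, huv⟩
      rw [h1] at h2
      exact absurd h2 (Finset.notMem_empty _)
    by_cases hE : ∃ x y, K.Adj x y
    · obtain ⟨x, y, hxy⟩ := hE
      have hlt : dlE K x y < K := by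
        refine lt_of_le_of_ne (fun a b h => h.1) fun h => ?_
        have h1 : (dlE K x y).Adj x y := by rw [h]; exact hxy
        exact h1.2.1 ⟨rfl, rfl⟩
      obtain ⟨c, hc⟩ := hcrit _ hlt
      let B : Finset (Fin n) := Finset.univ.filter fun v => 2 ≤ (Φ v).card
      let Nx : Finset (Fin n) := Finset.univ.filter fun w => (dlE K x y).Adj x w
      let Ny : Finset (Fin n) := Finset.univ.filter fun w => (dlE K x y).Adj y w
      have hxB : x ∈ B := Finset.mem_filter.2 ⟨Finset.mem_univ _, hB x y hxy⟩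
      have hyB : y ∈ B := Finset.mem_filter.2 ⟨Finset.mem_univ _, hB y x hxy.symm⟩
      have hBc : ((B.erase x).erase y).card + 2 = B.card := by
        have h1 := Finset.card_erase_add_one hxB
        have h2 := Finset.card_erase_add_one (Finset.mem_erase.2 ⟨hxy.ne', hyB⟩)
        omega
      have hNx : Nx.card ≤ ((B.erase x).erase y).card := by
        apply Finset.card_le_card
        intro w hw
        have h1 := (Finset.mem_filter.1 hw).2
        refine Finset.mem_erase.2 ⟨fun h => h1.2.1 ⟨rfl, h⟩, Finset.mem_erase.2 ⟨h1.1.ne',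
          Finset.mem_filter.2 ⟨Finset.mem_univ _, hB w x h1.1.symm⟩⟩⟩
      have hNy : Ny.card ≤ ((B.erase x).erase y).card := by
        apply Finset.card_le_card
        intro w hw
        have h1 := (Finset.mem_filter.1 hw).2
        refine Finset.mem_erase.2 ⟨h1.1.ne', Finset.mem_erase.2 ⟨fun h => h1.2.2 ⟨rfl, h⟩,
          Finset.mem_filter.2 ⟨Finset.mem_univ _, hB w y h1.1.symm⟩⟩⟩
      have hsum2 : (Φ x).card + (Φ y).card + 2 * ((B.erase x).erase y).card ≤
          ∑ i, (Φ i).card := by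
        have h1 : ∑ i ∈ (B.erase x).erase y, (Φ i).card ≥ 2 * ((B.erase x).erase y).card := by
          rw [mul_comm, ← smul_eq_mul]
          apply Finset.card_nsmul_le_sum
          intro i hi
          exact (Finset.mem_filter.1 (Finset.mem_of_mem_erase (Finset.mem_of_mem_erase hi))).2
        have h2 := Finset.add_sum_erase B (fun i => (Φ i).card) hxB
        have h3 := Finset.add_sum_erase (B.erase x) (fun i => (Φ i).card)
          (Finset.mem_erase.2 ⟨hxy.ne', hyB⟩)
        have h4 : ∑ i ∈ B, (Φ i).card ≤ ∑ i, (Φ i).card :=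
          Finset.sum_le_sum_of_subset (Finset.subset_univ _)
        beta_reduce at h2 h3
        omega
      obtain ⟨a, ha, haB⟩ : ∃ a ∈ Finset.range (Δ + 1),
          a ∉ ((Φ x ∪ Φ y) ∪ (Nx.image (c x) ∪ Ny.image (c y))) := by
        refine Finset.exists_mem_notMem_of_card_lt_card ?_
        rw [Finset.card_range]
        have h1 := Finset.card_union_le (Φ x ∪ Φ y) (Nx.image (c x) ∪ Ny.image (c y))
        have h2 := Finset.card_union_le (Φ x) (Φ y)
        have h3 := Finset.card_union_le (Nx.image (c x)) (Ny.image (c y))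
        have h4 := Finset.card_image_le (s := Nx) (f := c x)
        have h5 := Finset.card_image_le (s := Ny) (f := c y)
        omega
      simp only [Finset.mem_union, not_or, Finset.mem_image, not_exists, not_and] at haB
      refine hno (VC_fix hxy hc (Finset.mem_range.1 ha) haB.1.1 haB.1.2 ?_ ?_)
      · intro w hw
        exact haB.2.1 w (Finset.mem_filter.2 ⟨Finset.mem_univ _, hw⟩)
      · intro w hw
        exact haB.2.2 w (Finset.mem_filter.2 ⟨Finset.mem_univ _, hw⟩)
    · refine hno ⟨fun _ _ => 0, ⟨?_, ?_, ?_⟩, ?_⟩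
      · intro u v h; exact absurd ⟨u, v, h⟩ hE
      · intro u v h; exact absurd ⟨u, v, h⟩ hE
      · intro u v w h; exact absurd ⟨u, v, h⟩ hE
      · intro u v h; exact absurd ⟨u, v, h⟩ hE

end Run7.h932
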