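import Pool.Agent.Run7.h932.U.Stm

/-!
# LemP2, part 1: Kempe swaps and Hall's theorem
-/

set_option autoImplicit false
set_option linter.unusedVariables false
set_option linter.unusedSectionVars false

namespace Run7.h932

open Set MeasureTheory SimpleGraph Pool.Q11.TwoEnd Pool.Q6.CI

namespace A1

variable {V : Type} [Fintype V] [DecidableEq V]

theorem mem_avl {K : SimpleGraph V} {k : ℕ} {Φ : V → Finset ℕ} {c : V → V → ℕ} {w : V} {a : ℕ} :
    a ∈ avl K k Φ c w ↔ a < k ∧ a ∉ Φ w ∧ Miss K c w a := by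
  unfold avl
  simp [Finset.mem_filter]

theorem mem_FR {k : ℕ} {Φ : V → Finset ℕ} {a : ℕ} : a ∈ FR k Φ ↔ a < k ∧ ∀ v, a ∉ Φ v := by
  unfold FR
  simp [Finset.mem_filter]

theorem mem_NF {k : ℕ} {Φ : V → Finset ℕ} {x : V} {a : ℕ} :
    a ∈ NF k Φ x ↔ a < k ∧ (∃ v, a ∈ Φ v) ∧ a ∉ Φ x := by
  unfold NF
  simp [Finset.mem_filter]

theorem mem_nb {K : SimpleGraph V} {x w : V} : w ∈ nb K x ↔ K.Adj x w := by
  unfold nb
  simp [Finset.mem_filter]

/-! ### swaps -/

section swap

variable {G : SimpleGraph V} {k : ℕ} {Φ : V → Finset ℕ} {c : V → V → ℕ} {α g : ℕ}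

/-- the swapped colouring -/
def sw (α g : ℕ) (Q : V → Prop) [DecidablePred Q] (c : V → V → ℕ) : V → V → ℕ :=
  fun v w => if Q v then Equiv.swap α g (c v w) else c v w

theorem swap_VC (hc : VC G k Φ c) (hα : α < k) (hg : g < k) (Q : V → Prop) [DecidablePred Q]
    (hQ : ∀ v w, G.Adj v w → (c v w = α ∨ c v w = g) → (Q v ↔ Q w)) (hαΦ : ∀ v, α ∉ Φ v)
    (hcl : ∀ v, Q v → g ∉ Φ v) : VC G k Φ (sw α g Q c) := by
  refine ⟨swap_PC hc.pc hα hg Q hQ, ?_⟩
  intro i j hij
  change (if Q i then Equiv.swap α g (c i j) else c i j) ∉ Φ i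
  by_cases hi : Q i
  · rw [if_pos hi, Equiv.swap_apply_def]
    split_ifs with h1 h2
    · exact hcl i hi
    · exact hαΦ i
    · exact hc.av i j hij
  · rw [if_neg hi]
    exact hc.av i j hij

theorem sw_keep (Q : V → Prop) [DecidablePred Q] {z : V} {a : ℕ} (h : a ∈ avl G k Φ c z)
    (h1 : (a ≠ α ∧ a ≠ g) ∨ ¬ Q z) : a ∈ avl G k Φ (sw α g Q c) z := by
  rw [mem_avl] at h ⊢
  refine ⟨h.1, h.2.1, fun w hw => ?_⟩
  change (if Q z then Equiv.swap α g (c z w) else c z w) ≠ a
  by_cases hz : Q z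
  · rw [if_pos hz]
    rcases h1 with h1 | h1
    · intro h2
      apply h.2.2 w hw
      have h3 := congrArg (Equiv.swap α g) h2
      rw [Equiv.swap_apply_self, Equiv.swap_apply_of_ne_of_ne h1.1 h1.2] at h3
      exact h3
    · exact absurd hz h1
  · rw [if_neg hz]
    exact h.2.2 w hw

theorem sw_new (Q : V → Prop) [DecidablePred Q] {z : V} (hQ : Q z) (h : g ∈ avl G k Φ c z)
    (hα : α < k) (hαΦ : α ∉ Φ z) : α ∈ avl G k Φ (sw α g Q c) z := by
  rw [mem_avl] at h ⊢
  refine ⟨hα, hαΦ, fun w hw => ?_⟩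
  change (if Q z then Equiv.swap α g (c z w) else c z w) ≠ α
  rw [if_pos hQ]
  intro h2
  apply h.2.2 w hw
  have h3 := congrArg (Equiv.swap α g) h2
  rw [Equiv.swap_apply_self, Equiv.swap_apply_left] at h3
  exact h3

theorem kem_def (hc : PC G k c) {z : V} (h : ∀ u, G.Adj z u → c z u ≠ g) :
    ∀ a d, (Kem G c hc.symm α g).Adj z a → (Kem G c hc.symm α g).Adj z d → a = d := by
  intro a d ha hd
  have h1 : c z a = α := by
    rcases ha.2 with h1 | h1
    · exact h1
    · exact absurd h1 (h a ha.1)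
  have h2 : c z d = α := by
    rcases hd.2 with h2 | h2
    · exact h2
    · exact absurd h2 (h d hd.1)
  exact hc.inj z a d ha.1 hd.1 (h1.trans h2.symm)

theorem kem_two (hc : PC G k c) :
    ∀ v a b d, (Kem G c hc.symm α g).Adj v a → (Kem G c hc.symm α g).Adj v b →
      (Kem G c hc.symm α g).Adj v d → a = b ∨ a = d ∨ b = d := by
  intro v a b d ha hb hd
  rcases ha.2 with h3 | h3 <;> rcases hb.2 with h4 | h4 <;> rcases hd.2 with h5 | h5
  · left; exact hc.inj v a b ha.1 hb.1 (h3.trans h4.symm)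
  · left; exact hc.inj v a b ha.1 hb.1 (h3.trans h4.symm)
  · right; left; exact hc.inj v a d ha.1 hd.1 (h3.trans h5.symm)
  · right; right; exact hc.inj v b d hb.1 hd.1 (h4.trans h5.symm)
  · right; right; exact hc.inj v b d hb.1 hd.1 (h4.trans h5.symm)
  · right; left; exact hc.inj v a d ha.1 hd.1 (h3.trans h5.symm)
  · left; exact hc.inj v a b ha.1 hb.1 (h3.trans h4.symm)
  · left; exact hc.inj v a b ha.1 hb.1 (h3.trans h4.symm)

end swap

/-! ### Hall's theorem -/

theorem hall (T : Finset V) (N : V → Finset ℕ) (h : ∀ Y ⊆ T, Y.card ≤ (Y.biUnion N).card) :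
    ∃ f : V → ℕ, Set.InjOn f (T : Set V) ∧ ∀ z ∈ T, f z ∈ N z := by
  classical
  have h1 : ∀ s : Finset T, s.card ≤ (s.biUnion fun z => N z).card := by
    intro s
    have h2 := h (s.map (Function.Embedding.subtype _)) (by
      intro z hz
      rw [Finset.mem_map] at hz
      obtain ⟨y, _, rfl⟩ := hz
      exact y.2)
    rw [Finset.card_map] at h2
    refine h2.trans (Finset.card_le_card ?_)
    intro a ha
    rw [Finset.mem_biUnion] at ha ⊢
    obtain ⟨z, hz, haz⟩ := ha
    rw [Finset.mem_map] at hz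
    obtain ⟨y, hy, rfl⟩ := hz
    exact ⟨y, hy, haz⟩
  obtain ⟨f, hf, hf2⟩ :=
    (Finset.all_card_le_biUnion_card_iff_exists_injective (fun z : T => N z)).1 h1
  refine ⟨fun z => if hz : z ∈ T then f ⟨z, hz⟩ else 0, ?_, ?_⟩
  · intro z hz z' hz' he
    have hz : z ∈ T := hz
    have hz' : z' ∈ T := hz'
    simp only [hz, hz', dif_pos] at he
    exact congrArg Subtype.val (hf he)
  · intro z hz
    simp only [hz, dif_pos]
    exact hf2 ⟨z, hz⟩

/-! ### labellings -/

/-- an injective labelling of `T0` by colours that are available and allowed at `x` -/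
structure Lab (G : SimpleGraph V) (k : ℕ) (Φ : V → Finset ℕ) (c : V → V → ℕ) (x : V)
    (T0 : Finset V) (U : Finset ℕ) (f : V → ℕ) : Prop where
  inj : Set.InjOn f (T0 : Set V)
  img : T0.image f = U
  mem : ∀ z ∈ T0, f z ∈ avl G k Φ c z
  px : ∀ z ∈ T0, f z ∉ Φ x

/-- gluing of labellings -/
theorem glue_lab {G : SimpleGraph V} {k : ℕ} {Φ : V → Finset ℕ} {c c' : V → V → ℕ} {x : V}
    {T0 T' S S0 : Finset V} {U NU : Finset ℕ} {f : V → ℕ} (hf : Lab G k Φ c x T0 U f)
    (hST : S ⊆ T') (hS0 : S0 ⊆ S) (hT0 : T0 = S0 ∪ (T' \ S)) (hNU : S0.image f = NU)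
    {γ : ℕ} (hγ : γ ∉ U) {h : V → ℕ} (hinj : Set.InjOn h (S : Set V))
    (himg : S.image h = insert γ NU) (hmem : ∀ z ∈ S, h z ∈ avl G k Φ c' z)
    (hpx : ∀ z ∈ S, h z ∉ Φ x) (hout : ∀ z ∈ T' \ S, f z ∈ avl G k Φ c' z) :
    ∃ f', Lab G k Φ c' x T' (insert γ U) f' := by
  classical
  have hsub : ∀ z ∈ T' \ S, z ∈ T0 := fun z hz => by
    rw [hT0]
    exact Finset.mem_union_right _ hz
  have hS0T : ∀ z ∈ S0, z ∈ T0 := fun z hz => by
    rw [hT0]
    exact Finset.mem_union_left _ hz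
  have hd : ∀ z ∈ T' \ S, f z ∉ NU := by
    intro z hz hzN
    rw [← hNU, Finset.mem_image] at hzN
    obtain ⟨y, hy, hyz⟩ := hzN
    have h1 := hf.inj (hS0T y hy) (hsub z hz) hyz
    rw [h1] at hy
    exact (Finset.mem_sdiff.1 hz).2 (hS0 hy)
  have hfU : ∀ z ∈ T0, f z ∈ U := fun z hz => by
    rw [← hf.img]
    exact Finset.mem_image_of_mem f hz
  refine ⟨fun z => if z ∈ S then h z else f z, ?_, ?_, ?_, ?_⟩
  · intro z hz z' hz' he
    have hz : z ∈ T' := hz
    have hz' : z' ∈ T' := hz'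
    have he : (if z ∈ S then h z else f z) = (if z' ∈ S then h z' else f z') := he
    have hcross : ∀ a b, a ∈ S → b ∈ T' \ S → h a = f b → False := by
      intro a b ha hb hab
      have h1 : h a ∈ insert γ NU := by
        rw [← himg]
        exact Finset.mem_image_of_mem h ha
      rcases Finset.mem_insert.1 h1 with h2 | h2
      · apply hγ
        rw [← h2, hab]
        exact hfU b (hsub b hb)
      · rw [hab] at h2
        exact hd b hb h2
    by_cases h1 : z ∈ S <;> by_cases h2 : z' ∈ S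
    · rw [if_pos h1, if_pos h2] at he
      exact hinj h1 h2 he
    · rw [if_pos h1, if_neg h2] at he
      exact (hcross z z' h1 (Finset.mem_sdiff.2 ⟨hz', h2⟩) he).elim
    · rw [if_neg h1, if_pos h2] at he
      exact (hcross z' z h2 (Finset.mem_sdiff.2 ⟨hz, h1⟩) he.symm).elim
    · rw [if_neg h1, if_neg h2] at he
      exact hf.inj (hsub z (Finset.mem_sdiff.2 ⟨hz, h1⟩)) (hsub z' (Finset.mem_sdiff.2 ⟨hz', h2⟩)) he
  · have e1 : T' = S ∪ (T' \ S) := (Finset.union_sdiff_of_subset hST).symm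
    have e2 : (T').image (fun z => if z ∈ S then h z else f z) =
        S.image h ∪ (T' \ S).image f := by
      conv_lhs => rw [e1]
      rw [Finset.image_union]
      congr 1
      · apply Finset.image_congr
        intro z hz
        exact if_pos hz
      · apply Finset.image_congr
        intro z hz
        exact if_neg (Finset.mem_sdiff.1 hz).2
    rw [e2, himg, Finset.insert_union, ← hNU, ← Finset.image_union, ← hT0, hf.img]
  · intro z hz
    by_cases h1 : z ∈ S
    · simp only [h1, if_true]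
      exact hmem z h1
    · simp only [h1, if_false]
      exact hout z (Finset.mem_sdiff.2 ⟨hz, h1⟩)
  · intro z hz
    by_cases h1 : z ∈ S
    · simp only [h1, if_true]
      exact hpx z h1
    · simp only [h1, if_false]
      exact hf.px z (hsub z (Finset.mem_sdiff.2 ⟨hz, h1⟩))

/-- the counting argument -/
theorem count {G : SimpleGraph V} {k : ℕ} {Φ : V → Finset ℕ} {x : V} (hxi : ∀ y, ¬ G.Adj x y)
    (hcl : ∀ a, cl Φ a ≤ 2) (hbn : bn Φ x ≤ 1) {c : V → V → ℕ} (hc : VC G k Φ c) {α : ℕ}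
    {S : Finset V} (hxS : x ∉ S) {NU : Finset ℕ} (hcard : NU.card + 1 = S.card)
    (hM : ∀ w ∈ S, 2 ≤ (avl G k Φ c w).card)
    (hsub : ∀ w ∈ S, avl G k Φ c w ⊆ NU ∪ Φ x) (hdisj : ∀ a ∈ NU, a ∉ Φ x) :
    ∃ w ∈ S, ∃ g ∈ avl G k Φ c w,
      (∀ v, (Kem G c hc.pc.symm α g).Reachable w v → g ∉ Φ v) ∧
      (g ∈ Φ x ∨ ∃ w2 ∈ S, g ∈ avl G k Φ c w2 ∧ ¬ (Kem G c hc.pc.symm α g).Reachable w w2) := by
  classical
  by_contra hcon
  push Not at hcon
  have hdf : ∀ g w, g ∈ avl G k Φ c w → ∀ a d, (Kem G c hc.pc.symm α g).Adj w a →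
      (Kem G c hc.pc.symm α g).Adj w d → a = d := fun g w hg =>
    kem_def hc.pc (mem_avl.1 hg).2.2
  have hdv : ∀ g v, g ∈ Φ v → ∀ a d, (Kem G c hc.pc.symm α g).Adj v a →
      (Kem G c hc.pc.symm α g).Adj v d → a = d := fun g v hg =>
    kem_def hc.pc (fun u hu h => hc.av v u hu (h ▸ hg))
  set W : ℕ → Finset V := fun g => S.filter fun w => g ∈ avl G k Φ c w with hW
  have hWm : ∀ g w, w ∈ W g ↔ w ∈ S ∧ g ∈ avl G k Φ c w := fun g w => Finset.mem_filter
  have a1 : ∀ g, (g ∈ Φ x ∨ 3 ≤ (W g).card) → ∀ w ∈ W g, ∃ v,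
      (Kem G c hc.pc.symm α g).Reachable w v ∧ g ∈ Φ v := by
    intro g hg w hw
    by_contra hno
    push Not at hno
    have hw' := (hWm g w).1 hw
    obtain ⟨h1, h2⟩ := hcon w hw'.1 g hw'.2 hno
    rcases hg with hg | hg
    · exact h1 hg
    · have h3 : 1 < ((W g).erase w).card := by
        rw [Finset.card_erase_of_mem hw]
        omega
      obtain ⟨a, ha, b, hb, hab⟩ := Finset.one_lt_card.1 h3
      rw [Finset.mem_erase] at ha hb
      have ha' := (hWm g a).1 ha.2
      have hb' := (hWm g b).1 hb.2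
      exact hab (comp_two _ (kem_two hc.pc) (hdf g w hw'.2) (hdf g a ha'.2) (hdf g b hb'.2)
        ha.1.symm hb.1.symm (h2 a ha'.1 ha'.2) (h2 b hb'.1 hb'.2))
  have a2 : ∀ g, (g ∈ Φ x ∨ 3 ≤ (W g).card) →
      (W g).card ≤ ((Finset.univ.filter fun v => g ∈ Φ v).erase x).card := by
    intro g hg
    have h1 := a1 g hg
    choose! v hv using h1
    refine Finset.card_le_card_of_injOn v ?_ ?_
    · intro w hw
      have hw : w ∈ W g := hw
      obtain ⟨h2, h3⟩ := hv w hw
      have hw' := (hWm g w).1 hw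
      change v w ∈ (Finset.univ.filter fun v => g ∈ Φ v).erase x
      rw [Finset.mem_erase, Finset.mem_filter]
      refine ⟨?_, Finset.mem_univ _, h3⟩
      intro h4
      rw [h4] at h2
      obtain ⟨p⟩ := h2.symm
      cases p with
      | nil => exact hxS hw'.1
      | cons h _ => exact hxi _ h.1
    · intro w hw w' hw' he
      have hw : w ∈ W g := hw
      have hw' : w' ∈ W g := hw'
      obtain ⟨h2, h3⟩ := hv w hw
      obtain ⟨h4, h5⟩ := hv w' hw'
      have m1 := (hWm g w).1 hw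
      have m2 := (hWm g w').1 hw'
      by_contra hne
      have n1 : v w ≠ w := fun h => (mem_avl.1 m1.2).2.1 (by rw [← h]; exact h3)
      have n2 : v w ≠ w' := fun h => (mem_avl.1 m2.2).2.1 (by rw [← h]; exact h3)
      have he : v w = v w' := he
      rw [← he] at h4
      exact hne (comp_two _ (kem_two hc.pc) (hdv g (v w) h3) (hdf g w m1.2) (hdf g w' m2.2)
        n1 n2 h2.symm h4.symm)
  have a3 : ∀ g ∈ NU, (W g).card ≤ 2 := by
    intro g _
    by_contra h
    push Not at h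
    have h1 := a2 g (Or.inr h)
    have h2 : ((Finset.univ.filter fun v => g ∈ Φ v).erase x).card ≤ cl Φ g :=
      Finset.card_le_card (Finset.erase_subset _ _)
    have h3 := hcl g
    omega
  have a4 : ∀ g ∈ Φ x, (W g).card ≤ if cl Φ g = 2 then 1 else 0 := by
    intro g hg
    have h1 := a2 g (Or.inl hg)
    have h2 : x ∈ Finset.univ.filter fun v => g ∈ Φ v :=
      Finset.mem_filter.2 ⟨Finset.mem_univ _, hg⟩
    rw [Finset.card_erase_of_mem h2] at h1
    have h3 : (Finset.univ.filter fun v => g ∈ Φ v).card = cl Φ g := rfl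
    rw [h3] at h1
    have h4 := hcl g
    split_ifs with h5 <;> omega
  have a5 : ∑ w ∈ S, (avl G k Φ c w).card = ∑ g ∈ NU ∪ Φ x, (W g).card := by
    have h1 := Finset.sum_card_bipartiteAbove_eq_sum_card_bipartiteBelow (s := S) (t := NU ∪ Φ x)
      (fun w g => g ∈ avl G k Φ c w)
    refine Eq.trans ?_ h1
    refine Finset.sum_congr rfl fun w hw => ?_
    congr 1
    ext g
    rw [Finset.mem_bipartiteAbove]
    exact ⟨fun h => ⟨hsub w hw h, h⟩, fun h => h.2⟩
  have a6 : ∑ g ∈ NU ∪ Φ x, (W g).card = ∑ g ∈ NU, (W g).card + ∑ g ∈ Φ x, (W g).card :=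
    Finset.sum_union (Finset.disjoint_left.2 hdisj)
  have a7 : ∑ g ∈ NU, (W g).card ≤ NU.card * 2 := by
    have := Finset.sum_le_card_nsmul NU (fun g => (W g).card) 2 a3
    simpa using this
  have a8 : ∑ g ∈ Φ x, (W g).card ≤ bn Φ x := by
    refine (Finset.sum_le_sum a4).trans ?_
    rw [← Finset.sum_filter, Finset.sum_const, smul_eq_mul, mul_one]
    exact le_refl _
  have a9 : S.card * 2 ≤ ∑ w ∈ S, (avl G k Φ c w).card := by
    have := Finset.card_nsmul_le_sum S (fun w => (avl G k Φ c w).card) 2 hM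
    simpa using this
  omega

/-- one more label -/
theorem stepI {G : SimpleGraph V} {k : ℕ} {Φ : V → Finset ℕ} {x : V} (hxi : ∀ y, ¬ G.Adj x y)
    (hcl : ∀ a, cl Φ a ≤ 2) (hbn : bn Φ x ≤ 1) {c : V → V → ℕ} (hc : VC G k Φ c)
    {T0 : Finset V} {U : Finset ℕ} {f : V → ℕ}
    (hf : Lab G k Φ c x T0 U f) {y0 : V} (hy0 : y0 ∉ T0) (hxT : x ∉ insert y0 T0)
    (hM : ∀ w ∈ insert y0 T0, 2 ≤ (avl G k Φ c w).card) {α : ℕ} (hα : α ∈ FR k Φ)
    (hαU : α ∉ U) :
    ∃ (c' : V → V → ℕ) (f' : V → ℕ) (γ : ℕ), VC G k Φ c' ∧ γ ∉ U ∧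
      Lab G k Φ c' x (insert y0 T0) (insert γ U) f' ∧
      ∀ w b, b ∈ FR k Φ → b ∈ U → b ∈ avl G k Φ c w →
        ∃ b' ∈ FR k Φ, b' ∈ insert γ U ∧ b' ∈ avl G k Φ c' w := by
  classical
  have hα' := mem_FR.1 hα
  set T' := insert y0 T0 with hT'
  set Nn : V → Finset ℕ := fun w => avl G k Φ c w ∩ insert α U with hNn
  have hT0T : T0 ⊆ T' := Finset.subset_insert _ _
  have hfU : ∀ z ∈ T0, f z ∈ U := fun z hz => by
    rw [← hf.img]
    exact Finset.mem_image_of_mem f hz
  have hUx : ∀ a ∈ U, a ∉ Φ x := by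
    intro a ha
    rw [← hf.img, Finset.mem_image] at ha
    obtain ⟨z, hz, rfl⟩ := ha
    exact hf.px z hz
  have hUc : U.card = T0.card := by
    rw [← hf.img, Finset.card_image_of_injOn hf.inj]
  have hfN : ∀ z ∈ T0, f z ∈ Nn z := fun z hz =>
    Finset.mem_inter.2 ⟨hf.mem z hz, Finset.mem_insert_of_mem (hfU z hz)⟩
  by_cases H : ∀ Y ⊆ T', Y.card ≤ (Y.biUnion Nn).card
  · obtain ⟨f', hf1, hf2⟩ := hall T' Nn H
    refine ⟨c, f', α, hc, hαU, ⟨hf1, ?_, ?_, ?_⟩, ?_⟩
    · apply Finset.eq_of_subset_of_card_le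
      · intro a ha
        rw [Finset.mem_image] at ha
        obtain ⟨z, hz, rfl⟩ := ha
        exact (Finset.mem_inter.1 (hf2 z hz)).2
      · rw [Finset.card_image_of_injOn hf1, Finset.card_insert_of_notMem hαU, hUc,
          Finset.card_insert_of_notMem hy0]
    · exact fun z hz => (Finset.mem_inter.1 (hf2 z hz)).1
    · intro z hz
      rcases Finset.mem_insert.1 (Finset.mem_inter.1 (hf2 z hz)).2 with h1 | h1
      · rw [h1]
        exact hα'.2 x
      · exact hUx _ h1
    · exact fun w b hb hbU hbw => ⟨b, hb, Finset.mem_insert_of_mem hbU, hbw⟩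
  -- a minimal violator
  push Not at H
  have hex : ∃ n, ∃ Y ⊆ T', Y.card = n ∧ (Y.biUnion Nn).card < Y.card := by
    obtain ⟨Y, hY, h1⟩ := H
    exact ⟨Y.card, Y, hY, rfl, h1⟩
  obtain ⟨S, hST, hSn, hSv⟩ := Nat.find_spec hex
  have hmin : ∀ Y ⊆ T', Y.card < S.card → Y.card ≤ (Y.biUnion Nn).card := by
    intro Y hY hlt
    by_contra hcon
    push Not at hcon
    exact Nat.find_min hex (m := Y.card) (by omega) ⟨Y, hY, rfl, hcon⟩
  obtain ⟨NU, hNU⟩ : ∃ NU, NU = S.biUnion Nn := ⟨_, rfl⟩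
  have hfcard : ∀ Y ⊆ T0, Y.card ≤ (Y.biUnion Nn).card := by
    intro Y hY
    have h1 : (Y.image f).card = Y.card :=
      Finset.card_image_of_injOn (hf.inj.mono (by exact_mod_cast hY))
    rw [← h1]
    apply Finset.card_le_card
    intro a ha
    rw [Finset.mem_image] at ha
    obtain ⟨z, hz, rfl⟩ := ha
    exact Finset.mem_biUnion.2 ⟨z, hz, hfN z (hY hz)⟩
  have hyS : y0 ∈ S := by
    by_contra h
    have h1 : S ⊆ T0 := by
      intro z hz
      rcases Finset.mem_insert.1 (hST hz) with h2 | h2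
      · exact absurd (h2 ▸ hz) h
      · exact h2
    have := hfcard S h1
    omega
  set S0 := S.erase y0 with hS0
  have hS0T : S0 ⊆ T0 := by
    intro z hz
    rw [hS0, Finset.mem_erase] at hz
    rcases Finset.mem_insert.1 (hST hz.2) with h2 | h2
    · exact absurd h2 hz.1
    · exact h2
  have hS0c : S0.card + 1 = S.card := Finset.card_erase_add_one hyS
  have himS0 : S0.image f ⊆ NU := by
    intro a ha
    rw [Finset.mem_image] at ha
    obtain ⟨z, hz, rfl⟩ := ha
    rw [hNU]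
    exact Finset.mem_biUnion.2 ⟨z, Finset.mem_of_mem_erase hz, hfN z (hS0T hz)⟩
  have himc : (S0.image f).card = S0.card :=
    Finset.card_image_of_injOn (hf.inj.mono (by exact_mod_cast hS0T))
  have himeq : S0.image f = NU := by
    apply Finset.eq_of_subset_of_card_le himS0
    rw [himc, hNU]
    omega
  have hNUc : NU.card + 1 = S.card := by rw [← himeq, himc, hS0c]
  have hNUU : NU ⊆ U := by
    rw [← himeq, ← hf.img]
    exact Finset.image_subset_image hS0T
  have hαN : α ∉ NU := fun h => hαU (hNUU h)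
  have hαS : ∀ w ∈ S, α ∉ avl G k Φ c w := by
    intro w hw h
    apply hαN
    rw [hNU]
    exact Finset.mem_biUnion.2 ⟨w, hw, Finset.mem_inter.2 ⟨h, Finset.mem_insert_self _ _⟩⟩
  have hUN : ∀ w ∈ S, ∀ a ∈ avl G k Φ c w, a ∈ U → a ∈ NU := by
    intro w hw a ha haU
    rw [hNU]
    exact Finset.mem_biUnion.2 ⟨w, hw, Finset.mem_inter.2 ⟨ha, Finset.mem_insert_of_mem haU⟩⟩
  have hT0eq : T0 = S0 ∪ (T' \ S) := by
    ext z
    rw [Finset.mem_union, Finset.mem_sdiff, hS0, Finset.mem_erase]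
    constructor
    · intro hz
      have h1 : z ≠ y0 := fun h => hy0 (h ▸ hz)
      by_cases h2 : z ∈ S
      · exact Or.inl ⟨h1, h2⟩
      · exact Or.inr ⟨hT0T hz, h2⟩
    · rintro (⟨h1, h2⟩ | ⟨h1, h2⟩)
      · exact hS0T (Finset.mem_erase.2 ⟨h1, h2⟩)
      · rcases Finset.mem_insert.1 h1 with h3 | h3
        · exact absurd (h3 ▸ hyS) h2
        · exact h3
  have hNUx : ∀ a ∈ NU, a ∉ Φ x := fun a ha => hUx a (hNUU ha)
  -- a new colour
  by_cases hA : ∃ w ∈ S, ∃ γ ∈ avl G k Φ c w, γ ∉ U ∧ γ ∉ Φ x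
  · obtain ⟨w, hw, γ, hγ, hγU, hγx⟩ := hA
    have hSw : S.erase w ⊆ T' := (Finset.erase_subset _ _).trans hST
    have hSwc : (S.erase w).card + 1 = S.card := Finset.card_erase_add_one hw
    obtain ⟨h0, hh1, hh2⟩ := hall (S.erase w) Nn (by
      intro Y hY
      refine hmin Y (hY.trans hSw) ?_
      have := Finset.card_le_card hY
      omega)
    have hh3 : ∀ z ∈ S.erase w, h0 z ∈ NU := by
      intro z hz
      rw [hNU]
      exact Finset.mem_biUnion.2 ⟨z, Finset.mem_of_mem_erase hz, hh2 z hz⟩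
    have him : (S.erase w).image h0 = NU := by
      apply Finset.eq_of_subset_of_card_le
      · intro a ha
        rw [Finset.mem_image] at ha
        obtain ⟨z, hz, rfl⟩ := ha
        exact hh3 z hz
      · rw [Finset.card_image_of_injOn hh1]
        omega
    set h : V → ℕ := Function.update h0 w γ with hh
    have hhw : h w = γ := Function.update_self _ _ _
    have hhz : ∀ z, z ≠ w → h z = h0 z := fun z hz => Function.update_of_ne hz _ _
    obtain ⟨f', hf'⟩ := glue_lab (c' := c) hf hST (Finset.erase_subset _ _) hT0eq himeq hγU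
      (h := h) (by
        intro z hz z' hz' he
        by_cases h1 : z = w <;> by_cases h2 : z' = w
        · rw [h1, h2]
        · exfalso
          rw [h1, hhw, hhz z' h2] at he
          apply hγU
          rw [he]
          exact hNUU (hh3 z' (Finset.mem_erase.2 ⟨h2, hz'⟩))
        · exfalso
          rw [h2, hhw, hhz z h1] at he
          apply hγU
          rw [← he]
          exact hNUU (hh3 z (Finset.mem_erase.2 ⟨h1, hz⟩))
        · rw [hhz z h1, hhz z' h2] at he
          exact hh1 (Finset.mem_coe.2 (Finset.mem_erase.2 ⟨h1, hz⟩))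
            (Finset.mem_coe.2 (Finset.mem_erase.2 ⟨h2, hz'⟩)) he)
      (by
        have e1 : S = insert w (S.erase w) := (Finset.insert_erase hw).symm
        conv_lhs => rw [e1]
        rw [Finset.image_insert, hhw]
        congr 1
        rw [← him]
        apply Finset.image_congr
        intro z hz
        exact hhz z (Finset.mem_erase.1 hz).1)
      (by
        intro z hz
        by_cases h1 : z = w
        · rw [h1, hhw]
          exact hγ
        · rw [hhz z h1]
          exact (Finset.mem_inter.1 (hh2 z (Finset.mem_erase.2 ⟨h1, hz⟩))).1)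
      (by
        intro z hz
        by_cases h1 : z = w
        · rw [h1, hhw]
          exact hγx
        · rw [hhz z h1]
          exact hNUx _ (hh3 z (Finset.mem_erase.2 ⟨h1, hz⟩)))
      (by
        intro z hz
        refine hf.mem z ?_
        rw [hT0eq]
        exact Finset.mem_union_right _ hz)
    exact ⟨c, f', γ, hc, hγU, hf', fun w b hb hbU hbw =>
      ⟨b, hb, Finset.mem_insert_of_mem hbU, hbw⟩⟩
  -- a swap
  push Not at hA
  have hsub : ∀ w ∈ S, avl G k Φ c w ⊆ NU ∪ Φ x := by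
    intro w hw a ha
    rw [Finset.mem_union]
    by_cases haU : a ∈ U
    · exact Or.inl (hUN w hw a ha haU)
    · exact Or.inr (hA w hw a ha haU)
  obtain ⟨w, hw, g, hg, hclean, hgg⟩ := count (α := α) hxi hcl hbn hc (S := S)
    (fun h => hxT (hST h)) hNUc (fun w hw => hM w (hST hw)) hsub hNUx
  set KK := Kem G c hc.pc.symm α g with hKK
  set Q : V → Prop := fun v => KK.Reachable w v with hQ
  have hQw : Q w := Reachable.refl _
  have hQadj : ∀ v u, G.Adj v u → (c v u = α ∨ c v u = g) → (Q v ↔ Q u) := by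
    intro v u h h1
    have h2 : KK.Adj v u := ⟨h, h1⟩
    exact ⟨fun h3 => h3.trans h2.reachable, fun h3 => h3.trans h2.symm.reachable⟩
  have hgk := (mem_avl.1 hg).1
  have hVC := swap_VC hc hα'.1 hgk Q hQadj hα'.2 hclean
  have hgα : g ≠ α := fun h => hαS w hw (h ▸ hg)
  -- Hall's condition after the swap
  set N' : V → Finset ℕ := fun z => avl G k Φ (sw α g Q c) z ∩ insert α NU with hN'
  have hkeep : ∀ z ∈ S, ∀ a ∈ avl G k Φ c z, (a ≠ g ∨ ¬ Q z) →
      a ∈ avl G k Φ (sw α g Q c) z := by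
    intro z hz a ha h1
    refine sw_keep Q ha ?_
    rcases h1 with h1 | h1
    · exact Or.inl ⟨fun h => hαS z hz (h ▸ ha), h1⟩
    · exact Or.inr h1
  have hH : ∀ Y ⊆ S, Y.card ≤ (Y.biUnion N').card := by
    intro Y hY
    rcases (Finset.card_le_card hY).eq_or_lt with hYS | hYS
    · have hYeq : Y = S := Finset.eq_of_subset_of_card_le hY hYS.ge
      subst hYeq
      have h1 : insert α NU ⊆ Y.biUnion N' := by
        intro a ha
        rw [Finset.mem_biUnion]
        have ha0 := ha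
        rcases Finset.mem_insert.1 ha with h2 | h2
        · refine ⟨w, hw, Finset.mem_inter.2 ⟨?_, ha0⟩⟩
          rw [h2]
          exact sw_new Q hQw hg hα'.1 (hα'.2 w)
        · by_cases h3 : a = g
          · have h4 : g ∉ Φ x := by
              rw [← h3]
              exact hNUx a h2
            rcases hgg with h5 | ⟨w2, hw2, hg2, hn2⟩
            · exact absurd h5 h4
            · refine ⟨w2, hw2, Finset.mem_inter.2 ⟨?_, ha0⟩⟩
              rw [h3]
              exact hkeep w2 hw2 g hg2 (Or.inr hn2)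
          · have h4 := h2
            rw [hNU, Finset.mem_biUnion] at h4
            obtain ⟨z, hz, hza⟩ := h4
            exact ⟨z, hz, Finset.mem_inter.2
              ⟨hkeep z hz a (Finset.mem_inter.1 hza).1 (Or.inl h3), ha0⟩⟩
      have h2 := Finset.card_le_card h1
      rw [Finset.card_insert_of_notMem hαN] at h2
      omega
    · have hY1 := hmin Y (hY.trans hST) hYS
      have hYN : Y.biUnion Nn ⊆ NU := by
        rw [hNU]
        exact Finset.biUnion_subset_biUnion_of_subset_left _ hY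
      by_cases h1 : ∃ z ∈ Y, Q z ∧ g ∈ avl G k Φ c z
      · obtain ⟨z, hz, hQz, hgz⟩ := h1
        have h2 : insert α ((Y.biUnion Nn).erase g) ⊆ Y.biUnion N' := by
          intro a ha
          rw [Finset.mem_biUnion]
          rcases Finset.mem_insert.1 ha with h3 | h3
          · refine ⟨z, hz, Finset.mem_inter.2 ⟨?_, ?_⟩⟩
            · rw [h3]
              exact sw_new Q hQz hgz hα'.1 (hα'.2 z)
            · rw [h3]
              exact Finset.mem_insert_self _ _
          · rw [Finset.mem_erase, Finset.mem_biUnion] at h3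
            obtain ⟨h4, u, hu, hua⟩ := h3
            refine ⟨u, hu, Finset.mem_inter.2 ⟨hkeep u (hY hu) a (Finset.mem_inter.1 hua).1
              (Or.inl h4), Finset.mem_insert_of_mem (hYN ?_)⟩⟩
            exact Finset.mem_biUnion.2 ⟨u, hu, hua⟩
        have h3 := Finset.card_le_card h2
        rw [Finset.card_insert_of_notMem (fun h => hαN (hYN (Finset.mem_of_mem_erase h)))] at h3
        have h4 : (Y.biUnion Nn).card ≤ ((Y.biUnion Nn).erase g).card + 1 := by
          have := Finset.pred_card_le_card_erase (s := Y.biUnion Nn) (a := g)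
          omega
        omega
      · push Not at h1
        refine hY1.trans (Finset.card_le_card ?_)
        intro a ha
        have ha0 := hYN ha
        rw [Finset.mem_biUnion] at ha ⊢
        obtain ⟨u, hu, hua⟩ := ha
        refine ⟨u, hu, Finset.mem_inter.2 ⟨hkeep u (hY hu) a (Finset.mem_inter.1 hua).1 ?_,
          Finset.mem_insert_of_mem ha0⟩⟩
        by_cases h3 : a = g
        · right
          intro h4
          exact h1 u hu h4 (h3 ▸ (Finset.mem_inter.1 hua).1)
        · exact Or.inl h3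
  obtain ⟨h, hh1, hh2⟩ := hall S N' hH
  have him : S.image h = insert α NU := by
    apply Finset.eq_of_subset_of_card_le
    · intro a ha
      rw [Finset.mem_image] at ha
      obtain ⟨z, hz, rfl⟩ := ha
      exact (Finset.mem_inter.1 (hh2 z hz)).2
    · rw [Finset.card_image_of_injOn hh1, Finset.card_insert_of_notMem hαN]
      omega
  have hgNU : g ∈ Φ x ∨ g ∈ NU := by
    rcases Finset.mem_union.1 (hsub w hw hg) with h1 | h1
    · exact Or.inr h1
    · exact Or.inl h1
  obtain ⟨f', hf'⟩ := glue_lab (c' := sw α g Q c) hf hST (Finset.erase_subset _ _) hT0eq himeq hαU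
    hh1 him (fun z hz => (Finset.mem_inter.1 (hh2 z hz)).1)
    (by
      intro z hz
      rcases Finset.mem_insert.1 (Finset.mem_inter.1 (hh2 z hz)).2 with h1 | h1
      · rw [h1]
        exact hα'.2 x
      · exact hNUx _ h1)
    (by
      intro z hz
      have hz0 : z ∈ T0 := by
        rw [hT0eq]
        exact Finset.mem_union_right _ hz
      refine sw_keep Q (hf.mem z hz0) (Or.inl ⟨fun h1 => hαU (h1 ▸ hfU z hz0), fun h1 => ?_⟩)
      rcases hgNU with h2 | h2
      · exact hf.px z hz0 (h1 ▸ h2)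
      · rw [← h1, ← himeq, Finset.mem_image] at h2
        obtain ⟨y, hy, hyz⟩ := h2
        have h3 := hf.inj (hS0T hy) hz0 hyz
        rw [h3] at hy
        exact (Finset.mem_sdiff.1 hz).2 (Finset.mem_of_mem_erase hy))
  refine ⟨sw α g Q c, f', α, hVC, hαU, hf', ?_⟩
  intro u b hb hbU hbu
  have hbα : b ≠ α := fun h => hαU (h ▸ hbU)
  by_cases h1 : b = g ∧ Q u
  · refine ⟨α, hα, Finset.mem_insert_self _ _, sw_new Q h1.2 (h1.1 ▸ hbu) hα'.1 (hα'.2 u)⟩
  · refine ⟨b, hb, Finset.mem_insert_of_mem hbU, sw_keep Q hbu ?_⟩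
    by_cases h2 : b = g
    · exact Or.inr fun h3 => h1 ⟨h2, h3⟩
    · exact Or.inl ⟨hbα, h2⟩

/-- iteration -/
theorem iter {K : SimpleGraph V} {k : ℕ} {Φ : V → Finset ℕ} {x : V}
    (hcl : ∀ a, cl Φ a ≤ 2) (hbn : bn Φ x ≤ 1)
    (hM : ∀ c w, w ∈ nb K x → 2 ≤ (avl (delV K x) k Φ c w).card) :
    ∀ (n : ℕ) (c : V → V → ℕ) (T0 T1 : Finset V) (U : Finset ℕ) (f : V → ℕ),
      VC (delV K x) k Φ c → Lab (delV K x) k Φ c x T0 U f → T0 ⊆ T1 → T1 ⊆ nb K x →
      (T1 \ T0).card = n → (U ∩ FR k Φ).card + n ≤ (FR k Φ).card →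
      ∃ (c' : V → V → ℕ) (f' : V → ℕ) (U' : Finset ℕ), VC (delV K x) k Φ c' ∧
        Lab (delV K x) k Φ c' x T1 U' f' ∧
        ∀ w b, b ∈ FR k Φ → b ∈ U → b ∈ avl (delV K x) k Φ c w →
          ∃ b' ∈ FR k Φ, b' ∈ U' ∧ b' ∈ avl (delV K x) k Φ c' w := by
  classical
  intro n
  induction n with
  | zero =>
    intro c T0 T1 U f hc hf h01 h1 hn _
    have h2 : T1 = T0 := by
      apply Finset.Subset.antisymm _ h01
      rw [← Finset.sdiff_eq_empty_iff_subset]
      exact Finset.card_eq_zero.1 hn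
    subst h2
    exact ⟨c, f, U, hc, hf, fun w b hb hbU hbw => ⟨b, hb, hbU, hbw⟩⟩
  | succ n ih =>
    intro c T0 T1 U f hc hf h01 h1 hn hr
    obtain ⟨y0, hy0⟩ : (T1 \ T0).Nonempty := by
      rw [← Finset.card_pos]
      omega
    rw [Finset.mem_sdiff] at hy0
    obtain ⟨α, hα, hαU⟩ : ∃ α ∈ FR k Φ, α ∉ U := by
      by_contra hcon
      push Not at hcon
      have h2 : U ∩ FR k Φ = FR k Φ := Finset.inter_eq_right.2 hcon
      rw [h2] at hr
      omega
    have hsub : insert y0 T0 ⊆ T1 := Finset.insert_subset hy0.1 h01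
    have hxi : ∀ y, ¬ (delV K x).Adj x y := fun y h => h.2.1 rfl
    have hxT : x ∉ insert y0 T0 := by
      intro h
      have := mem_nb.1 (h1 (hsub h))
      exact this.ne rfl
    obtain ⟨c1, f1, γ, hc1, hγ, hf1, htr⟩ := stepI hxi hcl hbn hc hf hy0.2 hxT
      (fun w hw => hM c w (h1 (hsub hw))) hα hαU
    have hn1 : (T1 \ insert y0 T0).card = n := by
      have h2 : T1 \ insert y0 T0 = (T1 \ T0).erase y0 := by
        ext z
        simp only [Finset.mem_sdiff, Finset.mem_insert, Finset.mem_erase, not_or]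
        tauto
      rw [h2, Finset.card_erase_of_mem (Finset.mem_sdiff.2 hy0)]
      omega
    have hr1 : (insert γ U ∩ FR k Φ).card + n ≤ (FR k Φ).card := by
      have h2 : insert γ U ∩ FR k Φ ⊆ insert γ (U ∩ FR k Φ) := by
        intro a ha
        rw [Finset.mem_inter, Finset.mem_insert] at ha
        rw [Finset.mem_insert, Finset.mem_inter]
        tauto
      have h3 := Finset.card_le_card h2
      have h4 := Finset.card_insert_le γ (U ∩ FR k Φ)
      omega
    obtain ⟨c2, f2, U2, hc2, hf2, htr2⟩ := ih c1 (insert y0 T0) T1 (insert γ U) f1 hc1 hf1 hsub h1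
      hn1 hr1
    refine ⟨c2, f2, U2, hc2, hf2, fun w b hb hbU hbw => ?_⟩
    obtain ⟨b', hb', hbU', hbw'⟩ := htr w b hb hbU hbw
    exact htr2 w b' hb' hbU' hbw'

/-! ### extension -/

/-- the colouring with the edges at `x` coloured by the labels -/
def cext (x : V) (f : V → ℕ) (c : V → V → ℕ) : V → V → ℕ :=
  fun a b => if a = x then f b else if b = x then f a else c a b

theorem cext_left (x : V) (f : V → ℕ) (c : V → V → ℕ) (b : V) : cext x f c x b = f b := by
  unfold cext
  rw [if_pos rfl]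

theorem cext_right {x : V} (f : V → ℕ) (c : V → V → ℕ) {a : V} (ha : a ≠ x) :
    cext x f c a x = f a := by
  unfold cext
  rw [if_neg ha, if_pos rfl]

theorem cext_ne {x : V} (f : V → ℕ) (c : V → V → ℕ) {a b : V} (ha : a ≠ x) (hb : b ≠ x) :
    cext x f c a b = c a b := by
  unfold cext
  rw [if_neg ha, if_neg hb]

theorem vc_mono {K K' : SimpleGraph V} {k : ℕ} {Φ : V → Finset ℕ} {c : V → V → ℕ}
    (h : VC K k Φ c) (hle : K' ≤ K) : VC K' k Φ c :=
  ⟨⟨fun v w h1 => h.pc.lt v w (hle h1), fun v w h1 => h.pc.symm v w (hle h1),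
    fun v w w' h1 h2 => h.pc.inj v w w' (hle h1) (hle h2)⟩, fun i j h1 => h.av i j (hle h1)⟩

theorem extV {K : SimpleGraph V} {k : ℕ} {Φ : V → Finset ℕ} {x : V} {c : V → V → ℕ}
    (hc : VC (delV K x) k Φ c) {T1 : Finset V} {U : Finset ℕ} {f : V → ℕ}
    (hf : Lab (delV K x) k Φ c x T1 U f) : VC (part K x T1) k Φ (cext x f c) := by
  have hadj : ∀ a b, (part K x T1).Adj a b → a ≠ x → b ≠ x → (delV K x).Adj a b :=
    fun a b h ha hb => ⟨h.1, ha, hb⟩
  have hmT : ∀ b, (part K x T1).Adj x b → b ∈ T1 := fun b h => h.2.1 rfl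
  have hmT' : ∀ b, (part K x T1).Adj b x → b ∈ T1 := fun b h => h.2.2 rfl
  refine ⟨⟨?_, ?_, ?_⟩, ?_⟩
  · intro v w h
    by_cases hv : v = x
    · subst hv
      rw [cext_left]
      exact (mem_avl.1 (hf.mem w (hmT w h))).1
    · by_cases hw : w = x
      · subst hw
        rw [cext_right f c hv]
        exact (mem_avl.1 (hf.mem v (hmT' v h))).1
      · rw [cext_ne f c hv hw]
        exact hc.pc.lt v w (hadj v w h hv hw)
  · intro v w h
    by_cases hv : v = x
    · subst hv
      rw [cext_left, cext_right f c h.ne.symm]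
    · by_cases hw : w = x
      · subst hw
        rw [cext_right f c hv, cext_left]
      · rw [cext_ne f c hv hw, cext_ne f c hw hv]
        exact hc.pc.symm v w (hadj v w h hv hw)
  · intro v w w' h h' he
    by_cases hv : v = x
    · subst hv
      rw [cext_left, cext_left] at he
      exact hf.inj (hmT w h) (hmT w' h') he
    · by_cases hw : w = x <;> by_cases hw' : w' = x
      · rw [hw, hw']
      · exfalso
        subst hw
        rw [cext_right f c hv, cext_ne f c hv hw'] at he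
        exact (mem_avl.1 (hf.mem v (hmT' v h))).2.2 w' (hadj v w' h' hv hw') he.symm
      · exfalso
        subst hw'
        rw [cext_right f c hv, cext_ne f c hv hw] at he
        exact (mem_avl.1 (hf.mem v (hmT' v h'))).2.2 w (hadj v w h hv hw) he
      · rw [cext_ne f c hv hw, cext_ne f c hv hw'] at he
        exact hc.pc.inj v w w' (hadj v w h hv hw) (hadj v w' h' hv hw') he
  · intro i j h
    by_cases hi : i = x
    · subst hi
      rw [cext_left]
      exact hf.px j (hmT j h)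
    · by_cases hj : j = x
      · subst hj
        rw [cext_right f c hi]
        exact (mem_avl.1 (hf.mem i (hmT' i h))).2.1
      · rw [cext_ne f c hi hj]
        exact hc.av i j (hadj i j h hi hj)

theorem part_full (K : SimpleGraph V) (x : V) : K ≤ part K x (nb K x) := by
  intro a b h
  exact ⟨h, fun ha => mem_nb.2 (ha ▸ h), fun hb => mem_nb.2 (hb ▸ h.symm)⟩

theorem extV_full {K : SimpleGraph V} {k : ℕ} {Φ : V → Finset ℕ} {x : V} {c : V → V → ℕ}
    (hc : VC (delV K x) k Φ c) {U : Finset ℕ} {f : V → ℕ}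
    (hf : Lab (delV K x) k Φ c x (nb K x) U f) : ∃ c', VC K k Φ c' :=
  ⟨_, vc_mono (extV hc hf) (part_full K x)⟩

theorem two_le_avl {K : SimpleGraph V} {k : ℕ} {Φ : V → Finset ℕ}
    (hdeg : ∀ v, dg K v + (Φ v).card + 1 ≤ k) {x : V} (c : V → V → ℕ) {w : V}
    (hw : w ∈ nb K x) : 2 ≤ (avl (delV K x) k Φ c w).card := by
  classical
  have hxw := mem_nb.1 hw
  have h1 : Finset.range k ⊆ avl (delV K x) k Φ c w ∪ (Φ w ∪
      (Finset.univ.filter fun u => (delV K x).Adj w u).image (c w)) := by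
    intro a ha
    rw [Finset.mem_union, Finset.mem_union, mem_avl]
    by_cases h2 : a ∈ Φ w
    · exact Or.inr (Or.inl h2)
    · by_cases h3 : Miss (delV K x) c w a
      · exact Or.inl ⟨Finset.mem_range.1 ha, h2, h3⟩
      · unfold Miss at h3
        push Not at h3
        obtain ⟨u, hu, hcu⟩ := h3
        exact Or.inr (Or.inr (Finset.mem_image.2 ⟨u, Finset.mem_filter.2
          ⟨Finset.mem_univ _, hu⟩, hcu⟩))
  have h2 := Finset.card_le_card h1
  rw [Finset.card_range] at h2
  have h3 := Finset.card_union_le (avl (delV K x) k Φ c w) (Φ w ∪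
      (Finset.univ.filter fun u => (delV K x).Adj w u).image (c w))
  have h4 := Finset.card_union_le (Φ w)
    ((Finset.univ.filter fun u => (delV K x).Adj w u).image (c w))
  have h5 : ((Finset.univ.filter fun u => (delV K x).Adj w u).image (c w)).card ≤
      (Finset.univ.filter fun u => (delV K x).Adj w u).card := Finset.card_image_le
  have h6 : (Finset.univ.filter fun u => (delV K x).Adj w u).card + 1 ≤ dg K w := by
    have h7 : insert x (Finset.univ.filter fun u => (delV K x).Adj w u) ⊆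
        Finset.univ.filter fun u => K.Adj w u := by
      intro u hu
      rw [Finset.mem_filter]
      refine ⟨Finset.mem_univ _, ?_⟩
      rcases Finset.mem_insert.1 hu with h8 | h8
      · rw [h8]
        exact hxw.symm
      · exact (Finset.mem_filter.1 h8).2.1
    have h8 := Finset.card_le_card h7
    rw [Finset.card_insert_of_notMem] at h8
    · unfold dg
      exact h8.trans (le_of_eq (by congr 1))
    · intro h9
      exact (Finset.mem_filter.1 h9).2.2.2 rfl
  have h7 := hdeg w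
  omega

theorem nf_fr {k : ℕ} {Φ : V → Finset ℕ} {x : V} {U : Finset ℕ} (h : ∀ a ∈ U, a ∈ NF k Φ x) :
    U ∩ FR k Φ = ∅ := by
  rw [Finset.eq_empty_iff_forall_notMem]
  intro a ha
  rw [Finset.mem_inter] at ha
  obtain ⟨v, hv⟩ := (mem_NF.1 (h a ha.1)).2.1
  exact (mem_FR.1 ha.2).2 v hv

theorem MP1 {K : SimpleGraph V} {k : ℕ} {Φ : V → Finset ℕ}
    (hdeg : ∀ v, dg K v + (Φ v).card + 1 ≤ k) (hcl : ∀ a, cl Φ a ≤ 2)
    (hno : ¬ ∃ c, VC K k Φ c) {x : V} (hbn : bn Φ x ≤ 1) {c : V → V → ℕ}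
    (hc : VC (delV K x) k Φ c) {F : Finset V} (hF : F ⊆ nb K x)
    (hL : Lb (avl (delV K x) k Φ c) (NF k Φ x) (nb K x \ F)) : (FR k Φ).card + 1 ≤ F.card := by
  classical
  by_contra hcon
  push Not at hcon
  obtain ⟨f, hf1, hf2⟩ := hL
  have hlab : Lab (delV K x) k Φ c x (nb K x \ F) ((nb K x \ F).image f) f :=
    ⟨hf1, rfl, fun z hz => (hf2 z hz).1, fun z hz => (mem_NF.1 (hf2 z hz).2).2.2⟩
  have h0 : ((nb K x \ F).image f) ∩ FR k Φ = ∅ := by
    apply nf_fr (x := x)
    intro a ha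
    rw [Finset.mem_image] at ha
    obtain ⟨z, hz, rfl⟩ := ha
    exact (hf2 z hz).2
  have hn : (nb K x \ (nb K x \ F)).card ≤ F.card := by
    apply Finset.card_le_card
    intro z hz
    rw [Finset.mem_sdiff, Finset.mem_sdiff] at hz
    by_contra h
    exact hz.2 ⟨hz.1, h⟩
  obtain ⟨c', f', U', hc', hf', _⟩ := iter hcl hbn (fun c w hw => two_le_avl hdeg c hw) _ c
    (nb K x \ F) (nb K x) _ f hc hlab Finset.sdiff_subset (Finset.Subset.refl _) rfl (by
      rw [h0, Finset.card_empty]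
      omega)
  exact hno (extV_full hc' hf')

theorem MP2 {K : SimpleGraph V} {k : ℕ} {Φ : V → Finset ℕ}
    (hdeg : ∀ v, dg K v + (Φ v).card + 1 ≤ k) (hcl : ∀ a, cl Φ a ≤ 2)
    (hno : ¬ ∃ c, VC K k Φ c) {x : V} (hbn : bn Φ x ≤ 1) {c : V → V → ℕ}
    (hc : VC (delV K x) k Φ c) {F : Finset V} (hF : F ⊆ nb K x)
    (hFc : F.card = (FR k Φ).card + 1)
    (hL : Lb (avl (delV K x) k Φ c) (NF k Φ x) (nb K x \ F)) {w z : V} (hw : w ∈ F) (hz : z ∈ F)
    (hwz : w ≠ z) (hbw : bn Φ w ≤ 1) {b : ℕ} (hb : b ∈ FR k Φ)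
    (hbaw : b ∈ avl (delV K x) k Φ c w) (hbaz : b ∈ avl (delV K x) k Φ c z) : False := by
  classical
  obtain ⟨f, hf1, hf2⟩ := hL
  have hbR := mem_FR.1 hb
  set T0 := insert z (nb K x \ F) with hT0
  have hzn : z ∉ nb K x \ F := fun h => (Finset.mem_sdiff.1 h).2 hz
  set f0 : V → ℕ := Function.update f z b with hf0
  have hfz : f0 z = b := Function.update_self _ _ _
  have hfo : ∀ u, u ≠ z → f0 u = f u := fun u hu => Function.update_of_ne hu _ _
  have hfne : ∀ u ∈ nb K x \ F, f u ≠ b := by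
    intro u hu h
    obtain ⟨v, hv⟩ := (mem_NF.1 (hf2 u hu).2).2.1
    rw [h] at hv
    exact hbR.2 v hv
  have hne : ∀ u ∈ nb K x \ F, u ≠ z := fun u hu h => hzn (h ▸ hu)
  have hlab : Lab (delV K x) k Φ c x T0 (T0.image f0) f0 := by
    refine ⟨?_, rfl, ?_, ?_⟩
    · intro u hu u' hu' he
      rcases Finset.mem_insert.1 (Finset.mem_coe.1 hu) with h1 | h1 <;>
        rcases Finset.mem_insert.1 (Finset.mem_coe.1 hu') with h2 | h2
      · rw [h1, h2]
      · exfalso
        rw [h1, hfz, hfo u' (hne u' h2)] at he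
        exact hfne u' h2 he.symm
      · exfalso
        rw [h2, hfz, hfo u (hne u h1)] at he
        exact hfne u h1 he
      · rw [hfo u (hne u h1), hfo u' (hne u' h2)] at he
        exact hf1 (Finset.mem_coe.2 h1) (Finset.mem_coe.2 h2) he
    · intro u hu
      rcases Finset.mem_insert.1 hu with h1 | h1
      · rw [h1, hfz]
        exact hbaz
      · rw [hfo u (hne u h1)]
        exact (hf2 u h1).1
    · intro u hu
      rcases Finset.mem_insert.1 hu with h1 | h1
      · rw [h1, hfz]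
        exact hbR.2 x
      · rw [hfo u (hne u h1)]
        exact (mem_NF.1 (hf2 u h1).2).2.2
  have hbU : b ∈ T0.image f0 :=
    Finset.mem_image.2 ⟨z, Finset.mem_insert_self _ _, hfz⟩
  have hUR : (T0.image f0 ∩ FR k Φ).card ≤ 1 := by
    have h1 : T0.image f0 ∩ FR k Φ ⊆ {b} := by
      intro a ha
      rw [Finset.mem_inter, Finset.mem_image] at ha
      obtain ⟨⟨u, hu, hua⟩, haR⟩ := ha
      rw [Finset.mem_singleton]
      rcases Finset.mem_insert.1 hu with h1 | h1
      · rw [← hua, h1, hfz]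
      · exfalso
        rw [hfo u (hne u h1)] at hua
        obtain ⟨v, hv⟩ := (mem_NF.1 (hf2 u h1).2).2.1
        rw [hua] at hv
        exact (mem_FR.1 haR).2 v hv
    exact (Finset.card_le_card h1).trans (by simp)
  set T1 := (nb K x).erase w with hT1
  have hwn : w ∈ nb K x := hF hw
  have h01 : T0 ⊆ T1 := by
    intro u hu
    rw [hT1, Finset.mem_erase]
    rcases Finset.mem_insert.1 hu with h1 | h1
    · exact ⟨fun h => hwz (h.symm.trans h1), h1 ▸ hF hz⟩
    · rw [Finset.mem_sdiff] at h1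
      exact ⟨fun h => h1.2 (h ▸ hw), h1.1⟩
  have hcard : (T1 \ T0).card + 2 ≤ F.card := by
    have h1 : T1 \ T0 ⊆ (F.erase w).erase z := by
      intro u hu
      rw [Finset.mem_sdiff, hT1, Finset.mem_erase] at hu
      rw [Finset.mem_erase, Finset.mem_erase]
      refine ⟨fun h => hu.2 (h ▸ Finset.mem_insert_self _ _), hu.1.1, ?_⟩
      by_contra h
      exact hu.2 (Finset.mem_insert_of_mem (Finset.mem_sdiff.2 ⟨hu.1.2, h⟩))
    have h2 := Finset.card_le_card h1
    rw [Finset.card_erase_of_mem (Finset.mem_erase.2 ⟨hwz.symm, hz⟩),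
      Finset.card_erase_of_mem hw] at h2
    have h3 : 1 < F.card := Finset.one_lt_card.2 ⟨w, hw, z, hz, hwz⟩
    omega
  obtain ⟨c', f', U', hc', hf', htr⟩ := iter hcl hbn (fun c w hw => two_le_avl hdeg c hw) _ c
    T0 T1 _ f0 hc hlab h01 (Finset.erase_subset _ _) rfl (by omega)
  obtain ⟨b', hb', _, hbw'⟩ := htr w b hb hbU hbaw
  -- the colouring of `K` without the edge `x w`
  have hxw : w ≠ x := fun h => (mem_nb.1 hwn).ne h.symm
  have hV1 := extV hc' hf'
  set c1 := cext x f' c' with hc1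
  have hle : delV K w ≤ part K x T1 := by
    intro a b h
    refine ⟨h.1, fun ha => ?_, fun hb => ?_⟩
    · rw [hT1, Finset.mem_erase]
      exact ⟨h.2.2, mem_nb.2 (ha ▸ h.1)⟩
    · rw [hT1, Finset.mem_erase]
      exact ⟨h.2.1, mem_nb.2 (hb ▸ h.1.symm)⟩
  have hV2 := vc_mono hV1 hle
  have hadjw : ∀ u ∈ (nb K w).erase x, (part K x T1).Adj w u := by
    intro u hu
    rw [Finset.mem_erase] at hu
    exact ⟨mem_nb.1 hu.2, fun h => absurd h hxw, fun h => absurd h hu.1⟩
  have hlab2 : Lab (delV K w) k Φ c1 w ((nb K w).erase x)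
      (((nb K w).erase x).image (c1 w)) (c1 w) := by
    refine ⟨?_, rfl, ?_, ?_⟩
    · intro u hu u' hu' he
      exact hV1.pc.inj w u u' (hadjw u hu) (hadjw u' hu') he
    · intro u hu
      have h1 := hadjw u hu
      rw [mem_avl]
      refine ⟨hV1.pc.lt w u h1, ?_, ?_⟩
      · rw [hV1.pc.symm w u h1]
        exact hV1.av u w h1.symm
      · intro y hy he
        rw [hV1.pc.symm w u h1] at he
        have h2 := hV1.pc.inj u y w (hle hy) h1.symm he
        exact hy.2.2 h2
    · intro u hu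
      exact hV1.av w u (hadjw u hu)
  have hbU' : b' ∉ ((nb K w).erase x).image (c1 w) := by
    intro h
    rw [Finset.mem_image] at h
    obtain ⟨u, hu, hcu⟩ := h
    rw [Finset.mem_erase] at hu
    rw [hc1, cext_ne f' c' hxw hu.1] at hcu
    exact (mem_avl.1 hbw').2.2 u ⟨mem_nb.1 hu.2, hxw, hu.1⟩ hcu
  have hins : insert x ((nb K w).erase x) = nb K w :=
    Finset.insert_erase (mem_nb.2 (mem_nb.1 hwn).symm)
  obtain ⟨c3, f3, γ, hc3, _, hf3, _⟩ := stepI (G := delV K w) (x := w) (fun y h => h.2.1 rfl) hcl hbw hV2 hlab2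
    (Finset.notMem_erase x _) (by
      rw [hins]
      intro h
      exact (mem_nb.1 h).ne rfl) (by
      rw [hins]
      exact fun u hu => two_le_avl hdeg c1 hu) hb' hbU'
  rw [hins] at hf3
  exact hno (extV_full hc3 hf3)

end A1

open A1 in
theorem t_A1 : S_A1 := by
  intro V _ _ K k Φ hΦ hdeg hcl hno hcrit x hbn
  classical
  refine ⟨fun c hc F hF hL => MP1 hdeg hcl hno hbn hc hF hL,
    fun c hc F hF hFc hL w hw z hz hwz hbw b hb hbaw hbaz =>
      MP2 hdeg hcl hno hbn hc hF hFc hL hw hz hwz hbw hb hbaw hbaz, ?_⟩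
  rintro ⟨y0, hy0⟩
  have hxy := mem_nb.1 hy0
  -- remove the edge `x y0`
  have hlt : part K x ((nb K x).erase y0) < K := by
    refine lt_of_le_of_ne (part_le _ _ _) ?_
    intro h
    have h1 : (part K x ((nb K x).erase y0)).Adj x y0 := by
      rw [h]
      exact hxy
    exact Finset.notMem_erase _ _ (h1.2.1 rfl)
  obtain ⟨c, hc⟩ := hcrit _ hlt
  have hle : delV K x ≤ part K x ((nb K x).erase y0) :=
    fun a b h => ⟨h.1, fun ha => absurd ha h.2.1, fun hb => absurd hb h.2.2⟩
  have hc1 : VC (delV K x) k Φ c := vc_mono hc hle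
  have hadj : ∀ z, z ∈ nb K x → z ≠ y0 → (part K x ((nb K x).erase y0)).Adj x z := by
    intro z hz hzy
    exact ⟨mem_nb.1 hz, fun _ => Finset.mem_erase.2 ⟨hzy, hz⟩,
      fun h => absurd h (mem_nb.1 hz).ne.symm⟩
  set F := insert y0 ((nb K x).filter fun z => z ≠ y0 ∧ c x z ∈ FR k Φ) with hF
  have hFs : F ⊆ nb K x := by
    intro z hz
    rcases Finset.mem_insert.1 hz with h | h
    · rw [h]
      exact hy0
    · exact (Finset.mem_filter.1 h).1
  have hL : Lb (avl (delV K x) k Φ c) (NF k Φ x) (nb K x \ F) := by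
    have hz1 : ∀ z ∈ nb K x \ F, z ∈ nb K x ∧ z ≠ y0 ∧ c x z ∉ FR k Φ := by
      intro z hz
      rw [Finset.mem_sdiff, hF, Finset.mem_insert, Finset.mem_filter] at hz
      push Not at hz
      exact ⟨hz.1, hz.2.1, hz.2.2 hz.1 hz.2.1⟩
    refine ⟨c x, ?_, ?_⟩
    · intro z hz z' hz' he
      have h1 := hz1 z hz
      have h2 := hz1 z' hz'
      exact hc.pc.inj x z z' (hadj z h1.1 h1.2.1) (hadj z' h2.1 h2.2.1) he
    · intro z hz
      obtain ⟨h1, h2, h3⟩ := hz1 z hz
      have h4 := hadj z h1 h2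
      have h5 := hc.pc.symm x z h4
      have h6 := hc.pc.lt x z h4
      rw [mem_avl, mem_NF]
      refine ⟨⟨h6, ?_, ?_⟩, h6, ?_, hc.av x z h4⟩
      · rw [h5]
        exact hc.av z x h4.symm
      · intro u hu he
        rw [h5] at he
        exact hu.2.2 (hc.pc.inj z u x (hle hu) h4.symm he)
      · by_contra h7
        push Not at h7
        exact h3 (mem_FR.2 ⟨h6, h7⟩)
  have h1 := MP1 hdeg hcl hno hbn hc1 hFs hL
  have h2 : F.card ≤ (FR k Φ).card + 1 := by
    have h3 : ((nb K x).filter fun z => z ≠ y0 ∧ c x z ∈ FR k Φ).card ≤ (FR k Φ).card := by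
      refine Finset.card_le_card_of_injOn (c x) ?_ ?_
      · intro z hz
        exact (Finset.mem_filter.1 (Finset.mem_coe.1 hz)).2.2
      · intro z hz z' hz' he
        have h4 := Finset.mem_filter.1 (Finset.mem_coe.1 hz)
        have h5 := Finset.mem_filter.1 (Finset.mem_coe.1 hz')
        exact hc.pc.inj x z z' (hadj z h4.1 h4.2.1) (hadj z' h5.1 h5.2.1) he
    have h4 : F.card ≤ ((nb K x).filter fun z => z ≠ y0 ∧ c x z ∈ FR k Φ).card + 1 :=
      Finset.card_insert_le _ _
    omega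
  exact ⟨c, hc1, F, hFs, by omega, hL⟩

end Run7.h932
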