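import Pool.Agent.Run7.h932.U.Ext

/-!
# Basic lemmas for Borel graphs with units, colouring with finite components
-/

set_option autoImplicit false

namespace Run7.h932

open Set MeasureTheory SimpleGraph Pool.Q11.TwoEnd Pool.Q6.CI

section Gen

variable {X : Type}

theorem cg_adj {H : SimpleGraph X} {E : X → X → Prop} (hE : Equivalence E) {x y : X} :
    (cg H E).Adj x y ↔ x ≠ y ∧ (H.Adj x y ∨ E x y) := by
  unfold cg
  rw [SimpleGraph.fromRel_adj]
  constructor
  · rintro ⟨h, h1 | h1⟩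
    · exact ⟨h, h1⟩
    · exact ⟨h, h1.elim (fun h2 => Or.inl h2.symm) fun h2 => Or.inr (hE.symm h2)⟩
  · rintro ⟨h, h1⟩
    exact ⟨h, Or.inl h1⟩

theorem cg_mono {H H' : SimpleGraph X} {E : X → X → Prop} (h : H ≤ H') : cg H E ≤ cg H' E := by
  intro a b hab
  unfold cg at hab ⊢
  rw [SimpleGraph.fromRel_adj] at hab ⊢
  refine ⟨hab.1, ?_⟩
  rcases hab.2 with (h1 | h1) | (h1 | h1)
  · exact Or.inl (Or.inl (h h1))
  · exact Or.inl (Or.inr h1)
  · exact Or.inr (Or.inl (h h1))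
  · exact Or.inr (Or.inr h1)

theorem cg_lf {H : SimpleGraph X} {E : X → X → Prop} (hE : Equivalence E) (hlf : LF H)
    (hf : ∀ x, {y | E x y}.Finite) : LF (cg H E) := by
  intro x
  refine ((hlf x).union (hf x)).subset fun y hy => ?_
  exact ((cg_adj hE).1 hy).2

/-- finite classes -/
theorem dt_finite {H : SimpleGraph X} {E : X → X → Prop} (hlf : LF H)
    (hf : ∀ x, {y | E x y}.Finite) (x : X) : (dt H E x).Finite := by
  refine ((hf x).biUnion fun y _ => (hlf y).image fun z => (y, z)).subset ?_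
  rintro ⟨a, b⟩ ⟨h1, h2⟩
  exact mem_biUnion h1 ⟨b, h2, rfl⟩

theorem dt_congr {H : SimpleGraph X} {E : X → X → Prop} (hE : Equivalence E) {x y : X}
    (h : E x y) : dt H E x = dt H E y := by
  ext p
  exact ⟨fun hp => ⟨hE.trans (hE.symm h) hp.1, hp.2⟩, fun hp => ⟨hE.trans h hp.1, hp.2⟩⟩

theorem tg_congr {H : SimpleGraph X} {E : X → X → Prop} (hE : Equivalence E) {x y : X}
    (h : E x y) : tg H E x = tg H E y := by
  unfold tg
  rw [dt_congr hE h]

/-- class edges and restrictions -/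
theorem reach_cg_rs {H : SimpleGraph X} {E : X → X → Prop} (hE : Equivalence E) {Y : Set X}
    (hY : ∀ x y, E x y → x ∈ Y → y ∈ Y) {x y : X} (h : (cg (rs H Y) E).Reachable x y) :
    (x ∈ Y ∧ (rs (cg H E) Y).Reachable x y) ∨ (x ∉ Y ∧ E x y) := by
  obtain ⟨p⟩ := h
  induction p with
  | @nil u =>
    by_cases hu : u ∈ Y
    · exact Or.inl ⟨hu, SimpleGraph.Reachable.refl u⟩
    · exact Or.inr ⟨hu, hE.refl u⟩
  | @cons a b d h p ih =>
    rw [cg_adj hE] at h
    rcases h.2 with h1 | h1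
    · have hab : (rs (cg H E) Y).Adj a b := ⟨(cg_adj hE).2 ⟨h.1, Or.inl h1.1⟩, h1.2⟩
      rcases ih with h2 | h2
      · exact Or.inl ⟨h1.2.1, hab.reachable.trans h2.2⟩
      · exact absurd h1.2.2 h2.1
    · by_cases ha : a ∈ Y
      · have hb := hY a b h1 ha
        have hab : (rs (cg H E) Y).Adj a b := ⟨(cg_adj hE).2 ⟨h.1, Or.inr h1⟩, ha, hb⟩
        rcases ih with h2 | h2
        · exact Or.inl ⟨ha, hab.reachable.trans h2.2⟩
        · exact absurd hb h2.1
      · rcases ih with h2 | h2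
        · exact absurd (hY b a (hE.symm h1) h2.1) ha
        · exact Or.inr ⟨ha, hE.trans h1 h2.2⟩

theorem ind_one {P : X → X → Prop} : (fun x y => ind (P x y) = 1) = P := by
  funext x y
  exact propext ind_eq

/-- a colouring of an enumerated class gives a colouring -/
theorem UC_of_local {H : SimpleGraph X} {E : X → X → Prop} {k : ℕ} {s : X → X → ℕ}
    (hloc : ∀ x, ∃ (n : ℕ) (e : Fin n → X), Function.Injective e ∧ x ∈ range e ∧
      (∀ y, E x y → y ∈ range e ∧ ∀ z, H.Adj y z → z ∈ range e) ∧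
      (∀ z, H.Adj x z → z ∈ range e) ∧
      UC (H.comap e) (fun i j => E (e i) (e j)) k (fun i j => s (e i) (e j))) : UC H E k s := by
  refine ⟨⟨?_, ?_, ?_⟩, ?_⟩
  · intro v w h
    obtain ⟨n, e, he, ⟨i, rfl⟩, h1, h2, h3⟩ := hloc v
    obtain ⟨j, rfl⟩ := h2 w h
    exact h3.pc.lt i j h
  · intro v w h
    obtain ⟨n, e, he, ⟨i, rfl⟩, h1, h2, h3⟩ := hloc v
    obtain ⟨j, rfl⟩ := h2 w h
    exact h3.pc.symm i j h
  · intro v w w' h h' hww
    obtain ⟨n, e, he, ⟨i, rfl⟩, h1, h2, h3⟩ := hloc v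
    obtain ⟨j, rfl⟩ := h2 w h
    obtain ⟨j', rfl⟩ := h2 w' h'
    rw [h3.pc.inj i j j' h h' hww]
  · intro x a
    obtain ⟨n, e, he, ⟨i, rfl⟩, h1, h2, h3⟩ := hloc x
    have h4 : {p | p ∈ dt H E (e i) ∧ s p.1 p.2 = a} = Prod.map e e ''
        {q | q ∈ dt (H.comap e) (fun i j => E (e i) (e j)) i ∧ s (e q.1) (e q.2) = a} := by
      ext ⟨y, z⟩
      constructor
      · rintro ⟨⟨h5, h6⟩, h7⟩
        obtain ⟨⟨j, rfl⟩, h8⟩ := h1 y h5
        obtain ⟨j', rfl⟩ := h8 z h6
        exact ⟨(j, j'), ⟨⟨h5, h6⟩, h7⟩, rfl⟩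
      · rintro ⟨⟨j, j'⟩, ⟨⟨h5, h6⟩, h7⟩, h8⟩
        rw [Prod.map_apply, Prod.mk.injEq] at h8
        obtain ⟨rfl, rfl⟩ := h8
        exact ⟨⟨h5, h6⟩, h7⟩
    rw [h4, (he.prodMap he).encard_image]
    exact h3.cap i a

end Gen

section Meas

variable {X : Type} [MeasurableSpace X] [StandardBorelSpace X]

theorem diag_meas : MeasurableSet {p : X × X | p.1 = p.2} :=
  measurableSet_eq_fun measurable_fst measurable_snd

theorem cg_bg {H : SimpleGraph X} {E : X → X → Prop} (hE : Equivalence E) (hH : BG H)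
    (hm : MeasurableSet {p : X × X | E p.1 p.2}) : BG (cg H E) := by
  have h1 : {p : X × X | (cg H E).Adj p.1 p.2} =
      {p : X × X | p.1 = p.2}ᶜ ∩ ({p | H.Adj p.1 p.2} ∪ {p | E p.1 p.2}) := by
    ext p
    exact cg_adj hE
  unfold BG
  rw [h1]
  exact diag_meas.compl.inter (MeasurableSet.union hH hm)

theorem St.rs {H : SimpleGraph X} {E : X → X → Prop} (h : St H E) {Y : Set X}
    (hY : MeasurableSet Y) : St (Run7.h932.rs H Y) E :=
  ⟨h.bg.rs hY, h.lf.mono (rs_le _ _), h.eq, h.eb, h.ef, fun x y hxy => h.ni x y hxy.1⟩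

theorem t_COLC : S_COLC := by
  classical
  intro X _ _ H E hSt Y hYm hYE hfin k hcol
  have hE := hSt.eq
  set G := Run7.h932.rs H Y with hG
  have hStG : St G E := hSt.rs hYm
  have hlf : LF (cg G E) := cg_lf hE hStG.lf hStG.ef
  have hfinG : FinC (cg G E) := by
    intro x
    refine ((hfin x).union (hSt.ef x)).subset fun y hy => ?_
    rcases reach_cg_rs hE hYE hy with h | h
    · exact Or.inl h.2
    · exact Or.inr h.2
  have hθ : Measurable fun p : X × X => (ind (G.Adj p.1 p.2), ind (E p.1 p.2)) :=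
    (meas_ind hStG.bg).prodMk (meas_ind hSt.eb)
  obtain ⟨s, hs1, -, hs3⟩ := BC (E := (cg G E).Reachable) (reach_equiv _)
    (reach_meas (cg_bg hE hStG.bg hSt.eb) fun x => (hlf x).countable) hfinG
    (fun x y => (ind (G.Adj x y), ind (E x y))) hθ
    (fun n t s => UC (gr fun i j => (t i j).1) (fun i j => (t i j).2 = 1) k s) (by
      intro x n e he _
      obtain ⟨c, hc⟩ := hcol n e he
      refine ⟨c, ?_⟩
      beta_reduce
      show UC (gr fun i j => ind (G.Adj (e i) (e j))) (fun i j => ind (E (e i) (e j)) = 1) k c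
      rw [gr_ind, ind_one (P := fun i j => E (e i) (e j))]
      exact hc)
  refine ⟨s, hs1, UC_of_local fun x => ?_⟩
  obtain ⟨n, e, he, hr, h1⟩ := hs3 x
  have h1' : UC (gr fun i j => ind (G.Adj (e i) (e j))) (fun i j => ind (E (e i) (e j)) = 1) k
    (fun i j => s (e i) (e j)) := h1
  rw [gr_ind, ind_one (P := fun i j => E (e i) (e j))] at h1'
  have hmem : ∀ y, y ∈ range e ↔ (cg G E).Reachable x y := by
    intro y
    rw [hr]
    rfl
  have hEr : ∀ y z, E y z → (cg G E).Reachable y z := by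
    intro y z h
    by_cases hyz : y = z
    · rw [hyz]
    · exact SimpleGraph.Adj.reachable ((cg_adj hE).2 ⟨hyz, Or.inr h⟩)
  have hGr : ∀ y z, G.Adj y z → (cg G E).Reachable y z := fun y z h =>
    SimpleGraph.Adj.reachable ((cg_adj hE).2 ⟨h.ne, Or.inl h⟩)
  refine ⟨n, e, he, (hmem x).2 (SimpleGraph.Reachable.refl x), ?_, ?_, h1'⟩
  · intro y hy
    exact ⟨(hmem y).2 (hEr x y hy), fun z hz => (hmem z).2 ((hEr x y hy).trans (hGr y z hz))⟩
  · intro z hz
    exact (hmem z).2 (hGr x z hz)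

end Meas

end Run7.h932
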