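import Pool.Agent.Run7.h932.U.Stm

/-!
# The covering lemma for graphs with units (helper803)
-/

set_option autoImplicit false
set_option linter.all false

namespace Run7.h932

open SimpleGraph
open scoped Classical

namespace Cov

section rep

variable {V : Type} {r : V → V → Prop}

/-- a representative of the class -/
noncomputable def rp (hr : Equivalence r) (x : V) : V := (Quotient.mk ⟨r, hr⟩ x).out

lemma rp_rel (hr : Equivalence r) (x : V) : r (rp hr x) x :=
  Quotient.mk_out (s := ⟨r, hr⟩) x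

lemma rp_eq (hr : Equivalence r) {a b : V} (h : r a b) : rp hr a = rp hr b := by
  unfold rp
  congr 1
  exact Quotient.sound (s := ⟨r, hr⟩) h

lemma rel_of_rp (hr : Equivalence r) {a b : V} (h : rp hr a = rp hr b) : r a b :=
  hr.trans (hr.symm (rp_rel hr a)) (h ▸ rp_rel hr b)

lemma rp_rp (hr : Equivalence r) (a : V) : rp hr (rp hr a) = rp hr a := rp_eq hr (rp_rel hr a)

/-- the gadget graph -/
def GG (G : SimpleGraph V) (hr : Equivalence r) : SimpleGraph (V ⊕ V) where
  Adj x y := match x, y with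
    | Sum.inl a, Sum.inl b => G.Adj a b
    | Sum.inl a, Sum.inr v => r a v ∧ v ≠ rp hr v
    | Sum.inr v, Sum.inl a => r a v ∧ v ≠ rp hr v
    | Sum.inr u, Sum.inr v => r u v ∧ ((u = rp hr u ∧ v ≠ rp hr v) ∨ (v = rp hr v ∧ u ≠ rp hr u))
  symm := ⟨by
    rintro (a | a) (b | b) h
    · exact h.symm
    · exact h
    · exact h
    · exact ⟨hr.symm h.1, h.2.symm⟩⟩
  loopless := ⟨by
    rintro (a | a) h
    · exact h.ne rfl
    · rcases h.2 with h | h
      · exact h.2 h.1
      · exact h.2 h.1⟩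

/-- the vertices to be covered -/
def TT (hr : Equivalence r) (T : Set V) : Set (V ⊕ V) := fun x => match x with
  | Sum.inl a => a ∈ T
  | Sum.inr v => v ≠ rp hr v

end rep

section weights

variable {V : Type} [Fintype V] (G : SimpleGraph V) {r : V → V → Prop} (hr : Equivalence r) (Δ : ℕ)

noncomputable def dd (a : V) : ℚ := ∑ b, if G.Adj a b then 1 else 0
noncomputable def tt (r : V → V → Prop) (a : V) : ℚ := ∑ b, if r a b then dd G b else 0
noncomputable def pp (r : V → V → Prop) (a : V) : ℚ := ∑ b, if r a b then 1 else 0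
noncomputable def be (r : V → V → Prop) (Δ : ℕ) (a : V) : ℚ :=
  ((Δ : ℚ) - dd G a) * Δ / (pp r a * Δ - tt G r a)

lemma tg_eq (x : V) : (tg G r x : ℚ) = tt G r x := by
  unfold tg dt tt dd
  have h1 : {p : V × V | r x p.1 ∧ G.Adj p.1 p.2} =
      ((Finset.univ.filter fun p : V × V => r x p.1 ∧ G.Adj p.1 p.2 : Finset (V × V)) : Set (V × V)) := by
    ext p; simp
  rw [h1, Set.ncard_coe_finset, Finset.card_filter]
  push_cast
  rw [Fintype.sum_prod_type]
  refine Finset.sum_congr rfl fun a _ => ?_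
  by_cases h : r x a
  · simp [h]
  · simp [h]

lemma idg_eq (D : Finset V) : (idg G D : ℚ) = ∑ a ∈ D, ∑ b ∈ D, if G.Adj a b then 1 else 0 := by
  unfold idg
  have h1 : {p : V × V | p.1 ∈ D ∧ p.2 ∈ D ∧ G.Adj p.1 p.2} =
      (((D ×ˢ D).filter fun p : V × V => G.Adj p.1 p.2 : Finset (V × V)) : Set (V × V)) := by
    ext p; simp [and_assoc]
  rw [h1, Set.ncard_coe_finset, Finset.card_filter]
  push_cast
  rw [Finset.sum_product]

lemma idg_even (D : Finset V) : Even (idg G D) := by
  let H : SimpleGraph V :=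
    { Adj := fun a b => a ∈ D ∧ b ∈ D ∧ G.Adj a b
      symm := ⟨fun a b h => ⟨h.2.1, h.1, h.2.2.symm⟩⟩
      loopless := ⟨fun a h => h.2.2.ne rfl⟩ }
  have h1 := H.sum_degrees_eq_twice_card_edges
  have h2 : idg G D = ∑ v, H.degree v := by
    unfold idg
    have h3 : {p : V × V | p.1 ∈ D ∧ p.2 ∈ D ∧ G.Adj p.1 p.2} =
        ((Finset.univ.filter fun p : V × V => H.Adj p.1 p.2 : Finset (V × V)) : Set (V × V)) := by
      ext p; simp [H]
    rw [h3, Set.ncard_coe_finset, Finset.card_filter, Fintype.sum_prod_type]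
    refine Finset.sum_congr rfl fun a _ => ?_
    rw [← Finset.card_filter]
    rw [← SimpleGraph.card_neighborFinset_eq_degree]
    congr 1
    ext b
    simp
  rw [h2, h1]
  exact even_two_mul _

lemma dd_nonneg (a : V) : 0 ≤ dd G a := Finset.sum_nonneg fun b _ => by split_ifs <;> norm_num

lemma tt_congr {a b : V} (h : r a b) (hr : Equivalence r) : tt G r a = tt G r b := by
  unfold tt
  refine Finset.sum_congr rfl fun c _ => ?_
  have : r a c ↔ r b c := ⟨fun h' => hr.trans (hr.symm h) h', fun h' => hr.trans h h'⟩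
  simp [this]

lemma pp_congr {a b : V} (h : r a b) (hr : Equivalence r) : pp r a = pp r b := by
  unfold pp
  refine Finset.sum_congr rfl fun c _ => ?_
  have : r a c ↔ r b c := ⟨fun h' => hr.trans (hr.symm h) h', fun h' => hr.trans h h'⟩
  simp [this]

lemma dd_le_tt (hr : Equivalence r) (a : V) : dd G a ≤ tt G r a := by
  unfold tt
  calc dd G a = if r a a then dd G a else 0 := by simp [hr.refl a]
    _ ≤ _ := Finset.single_le_sum (f := fun b => if r a b then dd G b else 0)
      (fun b _ => by split_ifs <;> simp [dd_nonneg]) (Finset.mem_univ a)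

lemma dd_add_le (hr : Equivalence r) {a b : V} (hne : a ≠ b) (h : r a b) :
    dd G a + dd G b ≤ tt G r a := by
  unfold tt
  have h1 : ∑ c ∈ ({a, b} : Finset V), (if r a c then dd G c else 0) = dd G a + dd G b := by
    rw [Finset.sum_pair hne]; simp [hr.refl a, h]
  rw [← h1]
  exact Finset.sum_le_sum_of_subset_of_nonneg (Finset.subset_univ _)
    fun b _ _ => by split_ifs <;> simp [dd_nonneg]

lemma pp_ge_one (hr : Equivalence r) (a : V) : 1 ≤ pp r a := by
  unfold pp
  calc (1 : ℚ) = if r a a then 1 else 0 := by simp [hr.refl a]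
    _ ≤ _ := Finset.single_le_sum (f := fun b => if r a b then (1 : ℚ) else 0)
      (fun b _ => by split_ifs <;> norm_num) (Finset.mem_univ a)

lemma pp_ge_two (hr : Equivalence r) {a b : V} (hne : a ≠ b) (h : r a b) : 2 ≤ pp r a := by
  unfold pp
  have h1 : ∑ c ∈ ({a, b} : Finset V), (if r a c then (1 : ℚ) else 0) = 2 := by
    rw [Finset.sum_pair hne]; simp [hr.refl a, h]; norm_num
  rw [← h1]
  exact Finset.sum_le_sum_of_subset_of_nonneg (Finset.subset_univ _)
    fun b _ _ => by split_ifs <;> norm_num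

/-- the number of non-representatives -/
lemma nonrep_card (a : V) : (∑ v, if r a v ∧ v ≠ rp hr v then (1 : ℚ) else 0) = pp r a - 1 := by
  unfold pp
  have h1 : (∑ v, if r a v ∧ v = rp hr v then (1 : ℚ) else 0) = 1 := by
    rw [Finset.sum_eq_single (rp hr a)]
    · have : r a (rp hr a) := hr.symm (rp_rel hr a)
      simp [this, rp_rp]
    · intro b _ hb
      rw [if_neg]
      rintro ⟨h2, h3⟩
      exact hb (h3.trans (rp_eq hr h2).symm)
    · intro h; exact absurd (Finset.mem_univ _) h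
  rw [eq_sub_iff_add_eq]
  refine (congrArg (fun t => (∑ v, if r a v ∧ v ≠ rp hr v then (1 : ℚ) else 0) + t) h1.symm).trans ?_
  rw [← Finset.sum_add_distrib]
  refine Finset.sum_congr rfl fun v _ => ?_
  split_ifs <;> first | (exfalso; tauto) | norm_num

/-- the weights -/
noncomputable def ww (x y : V ⊕ V) : ℚ := match x, y with
  | Sum.inl a, Sum.inl b => if G.Adj a b then 1 else 0
  | Sum.inl a, Sum.inr v => if r a v ∧ v ≠ rp hr v then be G r Δ a else 0
  | Sum.inr v, Sum.inl a => if r a v ∧ v ≠ rp hr v then be G r Δ a else 0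
  | Sum.inr _, Sum.inr _ => 0

variable {G Δ}

lemma ww_symm (x y : V ⊕ V) : ww G hr Δ x y = ww G hr Δ y x := by
  rcases x with a | a <;> rcases y with b | b
  · simp only [ww]; rw [G.adj_comm]
  · rfl
  · rfl
  · rfl

lemma ww_adj {x y : V ⊕ V} (h : ww G hr Δ x y ≠ 0) : (GG G hr).Adj x y := by
  rcases x with a | a <;> rcases y with b | b
  · simp only [ww] at h
    by_contra h2
    exact h (if_neg h2)
  · simp only [ww] at h
    by_contra h2
    exact h (if_neg h2)
  · simp only [ww] at h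
    by_contra h2
    exact h (if_neg h2)
  · exact absurd rfl h

include hr in
lemma be_nonneg (htg : ∀ v, tg G r v ≤ Δ) (a : V) : 0 ≤ be G r Δ a := by
  have h1 : tt G r a ≤ Δ := by rw [← tg_eq]; exact_mod_cast htg a
  have h2 := dd_le_tt G hr a
  have h3 := pp_ge_one hr a
  have hD : (0 : ℚ) ≤ Δ := by positivity
  unfold be
  apply div_nonneg
  · exact mul_nonneg (by linarith) hD
  · nlinarith

lemma ww_nonneg (htg : ∀ v, tg G r v ≤ Δ) (x y : V ⊕ V) : 0 ≤ ww G hr Δ x y := by
  rcases x with a | a <;> rcases y with b | b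
  · simp only [ww]; split_ifs <;> norm_num
  · simp only [ww]; split_ifs
    · exact be_nonneg hr htg _
    · norm_num
  · simp only [ww]; split_ifs
    · exact be_nonneg hr htg _
    · norm_num
  · exact le_refl _

lemma row_inl (a : V) : ∑ y, ww G hr Δ (Sum.inl a) y = dd G a + (pp r a - 1) * be G r Δ a := by
  rw [Fintype.sum_sum_type]
  congr 1
  rw [← nonrep_card hr a, Finset.sum_mul]
  refine Finset.sum_congr rfl fun v _ => ?_
  simp only [ww]
  split_ifs <;> simp

lemma row_inl_le (htg : ∀ v, tg G r v ≤ Δ) (hΔ : 0 < Δ) (a : V) :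
    ∑ y, ww G hr Δ (Sum.inl a) y ≤ Δ := by
  rw [row_inl]
  have h1 : tt G r a ≤ Δ := by rw [← tg_eq]; exact_mod_cast htg a
  have h2 := dd_le_tt G hr a
  have h3 := pp_ge_one hr a
  have hD : (0 : ℚ) < Δ := by exact_mod_cast hΔ
  unfold be
  rcases eq_or_lt_of_le (show 0 ≤ pp r a * Δ - tt G r a by nlinarith) with h0 | h0
  · rw [← h0, div_zero, mul_zero]; linarith
  · have h4 : (pp r a - 1) * (((Δ : ℚ) - dd G a) * Δ / (pp r a * Δ - tt G r a)) ≤ Δ - dd G a := by
      rw [← mul_div_assoc, div_le_iff₀ h0]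
      nlinarith [mul_nonneg (show (0 : ℚ) ≤ Δ - dd G a by linarith) (show (0 : ℚ) ≤ Δ - tt G r a by linarith)]
    linarith

lemma row_inl_eq (hΔ : 0 < Δ) (a : V) (ht : tg G r a = Δ) :
    ∑ y, ww G hr Δ (Sum.inl a) y = Δ := by
  rw [row_inl]
  have h1 : tt G r a = Δ := by rw [← tg_eq, ht]
  have h2 := dd_le_tt G hr a
  have h3 := pp_ge_one hr a
  have hD : (0 : ℚ) < Δ := by exact_mod_cast hΔ
  unfold be
  rw [h1]
  rcases eq_or_lt_of_le h3 with h0 | h0
  · -- p = 1: the class is `{a}`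
    have h5 : dd G a = tt G r a := by
      refine le_antisymm h2 ?_
      have h6 : ∀ b, r a b → b = a := by
        intro b hb
        by_contra hne
        have := pp_ge_two hr (Ne.symm hne) hb
        linarith
      unfold tt
      rw [Finset.sum_eq_single a]
      · simp [hr.refl a]
      · intro b _ hb
        rw [if_neg (fun h => hb (h6 b h))]
      · intro h; exact absurd (Finset.mem_univ _) h
    rw [← h0, h5, h1]; ring
  · have h6 : pp r a * (Δ : ℚ) - Δ ≠ 0 := by
      have : 0 < (pp r a - 1) * (Δ : ℚ) := mul_pos (by linarith) hD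
      intro h; nlinarith
    field_simp
    ring

lemma row_inr (htg : ∀ v, tg G r v ≤ Δ) (hΔ : 0 < Δ) (v : V) (hv : v ≠ rp hr v) :
    ∑ y, ww G hr Δ (Sum.inr v) y = Δ := by
  have h1 : tt G r v ≤ Δ := by rw [← tg_eq]; exact_mod_cast htg v
  have h3 := pp_ge_two hr hv (hr.symm (rp_rel hr v))
  have hD : (0 : ℚ) < Δ := by exact_mod_cast hΔ
  rw [Fintype.sum_sum_type]
  have e1 : ∑ u, ww G hr Δ (Sum.inr v) (Sum.inr u) = 0 := Finset.sum_eq_zero fun u _ => rfl
  rw [e1, add_zero]
  have h0 : pp r v * (Δ : ℚ) - tt G r v ≠ 0 := by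
    have : 0 < pp r v * (Δ : ℚ) - tt G r v := by nlinarith
    exact this.ne'
  have e2 : ∀ a, ww G hr Δ (Sum.inr v) (Sum.inl a) =
      (if r v a then ((Δ : ℚ) - dd G a) else 0) * (Δ / (pp r v * Δ - tt G r v)) := by
    intro a
    simp only [ww]
    by_cases h : r a v
    · rw [if_pos ⟨h, hv⟩, if_pos (hr.symm h)]
      unfold be
      rw [tt_congr G h hr, pp_congr h hr]
      ring
    · rw [if_neg (fun h' => h h'.1), if_neg (fun h' => h (hr.symm h')), zero_mul]
  rw [Finset.sum_congr rfl fun a _ => e2 a, ← Finset.sum_mul]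
  have e3 : (∑ a, if r v a then ((Δ : ℚ) - dd G a) else 0) = pp r v * Δ - tt G r v := by
    unfold pp tt
    rw [Finset.sum_mul, ← Finset.sum_sub_distrib]
    refine Finset.sum_congr rfl fun a _ => ?_
    split_ifs <;> simp
  rw [e3]
  field_simp

lemma row_rep (v : V) (hv : v = rp hr v) : ∑ y, ww G hr Δ (Sum.inr v) y = 0 := by
  rw [Fintype.sum_sum_type]
  have e1 : ∑ u, ww G hr Δ (Sum.inr v) (Sum.inr u) = 0 := Finset.sum_eq_zero fun u _ => rfl
  have e2 : ∑ a, ww G hr Δ (Sum.inr v) (Sum.inl a) = 0 := by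
    refine Finset.sum_eq_zero fun a _ => ?_
    simp only [ww]
    rw [if_neg]
    exact fun h => h.2 hv
  rw [e1, e2, add_zero]

end weights

section main

variable {V : Type} [Fintype V] {G : SimpleGraph V} {r : V → V → Prop} (hr : Equivalence r) {Δ : ℕ}

/-- special sets -/
def Sp (r : V → V → Prop) (D : Finset (V ⊕ V)) : Prop :=
  ∃ a v, r a v ∧ Sum.inl a ∈ D ∧ Sum.inr v ∈ D

/-- closed sets -/
def Cl (G : SimpleGraph V) (hr : Equivalence r) (T : Set V) (A D : Finset (V ⊕ V)) : Prop :=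
  ∀ x ∈ D, x ∈ TT hr T ∧ x ∉ A ∧ ∀ y, (GG G hr).Adj x y → y ∈ D ∨ y ∈ A

lemma split_sum {T : Set V} {A D : Finset (V ⊕ V)} (hD : Cl G hr T A D) {x : V ⊕ V} (hx : x ∈ D) :
    ∑ y ∈ A, ww G hr Δ x y = ∑ y, ww G hr Δ x y - ∑ y ∈ D, ww G hr Δ x y := by
  have hdis : Disjoint A D := by
    rw [Finset.disjoint_left]
    intro z hz hz'
    exact (hD z hz').2.1 hz
  rw [eq_sub_iff_add_eq, ← Finset.sum_union hdis]
  refine Finset.sum_subset (Finset.subset_univ _) fun y _ hy => ?_
  by_contra h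
  have h1 := (hD x hx).2.2 y (ww_adj hr h)
  apply hy
  rw [Finset.mem_union]
  exact h1.symm

lemma tt_le (htg : ∀ v, tg G r v ≤ Δ) (a : V) : tt G r a ≤ Δ := by
  rw [← tg_eq]; exact_mod_cast htg a

/-- a set that is not special sends weight `Δ` to `A` -/
lemma weight_ge (hΔ : 0 < Δ) (htg : ∀ v, tg G r v ≤ Δ) {T : Set V}
    (hT : ∀ v ∈ T, tg G r v = Δ) (hbd : ∀ D : Finset V, (∀ x ∈ D, x ∈ T) → ¬ Bd G r Δ D)
    {A D : Finset (V ⊕ V)} (hodd : Odd D.card) (hD : Cl G hr T A D) (hns : ¬ Sp r D) :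
    (Δ : ℚ) ≤ ∑ x ∈ D, ∑ y ∈ A, ww G hr Δ x y := by
  have hnn : ∀ x : V ⊕ V, 0 ≤ ∑ y ∈ A, ww G hr Δ x y :=
    fun x => Finset.sum_nonneg fun y _ => ww_nonneg hr htg x y
  by_cases hex : ∃ v, Sum.inr v ∈ D
  · obtain ⟨v, hv⟩ := hex
    have h1 : ∑ y ∈ A, ww G hr Δ (Sum.inr v) y ≤ ∑ x ∈ D, ∑ y ∈ A, ww G hr Δ x y :=
      Finset.single_le_sum (f := fun x => ∑ y ∈ A, ww G hr Δ x y) (fun x _ => hnn x) hv
    refine le_trans ?_ h1
    rw [split_sum hr hD hv, row_inr hr htg hΔ v (hD _ hv).1]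
    have h2 : ∑ y ∈ D, ww G hr Δ (Sum.inr v) y = 0 := by
      refine Finset.sum_eq_zero fun y hy => ?_
      rcases y with a | u
      · simp only [ww]
        rw [if_neg]
        rintro ⟨h3, -⟩
        exact hns ⟨a, v, h3, hy, hv⟩
      · rfl
    rw [h2, sub_zero]
  · push Not at hex
    let D0 : Finset V := Finset.univ.filter fun a => Sum.inl a ∈ D
    have hmem : ∀ a, a ∈ D0 ↔ Sum.inl a ∈ D := fun a => by simp [D0]
    have hDD : D = D0.map Function.Embedding.inl := by
      ext x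
      rcases x with a | v
      · simp [hmem]
      · simp [hex v]
    have hsum : ∀ f : V ⊕ V → ℚ, ∑ x ∈ D, f x = ∑ a ∈ D0, f (Sum.inl a) := by
      intro f
      rw [hDD, Finset.sum_map]
      rfl
    have hcard : D.card = D0.card := by rw [hDD, Finset.card_map]
    have hD0T : ∀ a ∈ D0, a ∈ T := fun a ha => (hD _ ((hmem a).1 ha)).1
    have hrow : ∀ a ∈ D0, ∑ y ∈ A, ww G hr Δ (Sum.inl a) y =
        Δ - ∑ b ∈ D0, (if G.Adj a b then (1 : ℚ) else 0) := by
      intro a ha
      rw [split_sum hr hD ((hmem a).1 ha), row_inl_eq hr hΔ a (hT a (hD0T a ha)), hsum]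
      rfl
    by_cases htr : ∀ a ∈ D0, ∀ b ∈ D0, r a b → a = b
    · -- partial transversal
      rw [hsum, Finset.sum_congr rfl hrow, Finset.sum_sub_distrib, ← idg_eq]
      have h1 : ¬ (Δ * D0.card + 2 ≤ idg G D0 + Δ) := fun h2 =>
        hbd D0 hD0T ⟨hcard ▸ hodd, fun x hx => hT x (hD0T x hx), htr, h2⟩
      have h2 : idg G D0 + Δ ≤ Δ * D0.card := by
        obtain ⟨k, hk⟩ := idg_even G D0
        obtain ⟨j, hj⟩ : Odd D0.card := hcard ▸ hodd
        rw [hj] at h1 ⊢
        have e : Δ * (2 * j + 1) = 2 * (Δ * j) + Δ := by ring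
        rw [e] at h1 ⊢
        omega
      have h3 : ((idg G D0 : ℚ) + Δ) ≤ Δ * D0.card := by exact_mod_cast h2
      rw [Finset.sum_const, nsmul_eq_mul]
      linarith
    · push Not at htr
      obtain ⟨a, ha, b, hb, hab, hne⟩ := htr
      have key : ∀ a ∈ D0, (Δ : ℚ) - dd G a ≤ ∑ y ∈ A, ww G hr Δ (Sum.inl a) y := by
        intro a ha
        rw [hrow a ha]
        have : ∑ b ∈ D0, (if G.Adj a b then (1 : ℚ) else 0) ≤ dd G a := by
          unfold dd
          exact Finset.sum_le_sum_of_subset_of_nonneg (Finset.subset_univ _)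
            fun b _ _ => by split_ifs <;> norm_num
        linarith
      have h1 : ∑ c ∈ ({a, b} : Finset V), ∑ y ∈ A, ww G hr Δ (Sum.inl c) y ≤
          ∑ c ∈ D0, ∑ y ∈ A, ww G hr Δ (Sum.inl c) y := by
        refine Finset.sum_le_sum_of_subset_of_nonneg ?_ fun c _ _ => hnn _
        intro c hc
        rw [Finset.mem_insert, Finset.mem_singleton] at hc
        rcases hc with rfl | rfl
        · exact ha
        · exact hb
      rw [Finset.sum_pair hne] at h1
      rw [hsum]
      have h2 := key a ha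
      have h3 := key b hb
      have h4 := dd_add_le G hr hne hab
      have h5 := tt_le (r := r) htg a
      linarith

/-- representatives -/
def Rv (hr : Equivalence r) (x : V ⊕ V) : Prop := ∃ v, x = Sum.inr v ∧ v = rp hr v

lemma row_le (htg : ∀ v, tg G r v ≤ Δ) (hΔ : 0 < Δ) (x : V ⊕ V) :
    ∑ y, ww G hr Δ x y ≤ if Rv hr x then 0 else (Δ : ℚ) := by
  rcases x with a | v
  · rw [if_neg]
    · exact row_inl_le hr htg hΔ a
    · rintro ⟨v, h, -⟩
      exact absurd h (by simp)
  · by_cases hv : v = rp hr v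
    · rw [if_pos ⟨v, rfl, hv⟩, row_rep hr v hv]
    · rw [if_neg, row_inr hr htg hΔ v hv]
      rintro ⟨u, h, hu⟩
      rw [Sum.inr.injEq] at h
      subst h
      exact hv hu

/-- the Tutte condition of the gadget graph -/
lemma tutte_cond (hΔ : 0 < Δ) (htg : ∀ v, tg G r v ≤ Δ) {T : Set V}
    (hT : ∀ v ∈ T, tg G r v = Δ) (hbd : ∀ D : Finset V, (∀ x ∈ D, x ∈ T) → ¬ Bd G r Δ D)
    (A : Finset (V ⊕ V)) (𝒟 : Finset (Finset (V ⊕ V)))
    (h1 : ∀ D ∈ 𝒟, Odd D.card ∧ Cl G hr T A D)
    (h2 : ∀ D ∈ 𝒟, ∀ D' ∈ 𝒟, ∀ x, x ∈ D → x ∈ D' → D = D') : 𝒟.card ≤ A.card := by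
  rcases isEmpty_or_nonempty V with hV | hV
  · have : 𝒟 = ∅ := by
      rw [Finset.eq_empty_iff_forall_notMem]
      intro D hD
      obtain ⟨k, hk⟩ := (h1 D hD).1
      have h3 : D.Nonempty := by
        rw [← Finset.card_pos]; omega
      obtain ⟨x, hx⟩ := h3
      rcases x with x | x <;> exact hV.elim x
    rw [this]
    simp
  -- the sets that are not special
  have hN : ((𝒟.filter fun D => ¬ Sp r D).card : ℚ) * Δ ≤ ((A.filter fun x => ¬ Rv hr x).card : ℚ) * Δ := by
    calc ((𝒟.filter fun D => ¬ Sp r D).card : ℚ) * Δ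
        = ∑ D ∈ 𝒟.filter (fun D => ¬ Sp r D), (Δ : ℚ) := by rw [Finset.sum_const, nsmul_eq_mul]
      _ ≤ ∑ D ∈ 𝒟.filter (fun D => ¬ Sp r D), ∑ x ∈ D, ∑ y ∈ A, ww G hr Δ x y := by
          refine Finset.sum_le_sum fun D hD => ?_
          obtain ⟨hD1, hD2⟩ := Finset.mem_filter.1 hD
          exact weight_ge hr hΔ htg hT hbd (h1 D hD1).1 (h1 D hD1).2 hD2
      _ = ∑ x ∈ (𝒟.filter (fun D => ¬ Sp r D)).biUnion id, ∑ y ∈ A, ww G hr Δ x y := by
          rw [Finset.sum_biUnion]
          · rfl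
          · intro D hD D' hD' hne
            rw [Function.onFun, Finset.disjoint_left]
            intro x hx hx'
            exact hne (h2 D (Finset.mem_filter.1 hD).1 D' (Finset.mem_filter.1 hD').1 x hx hx')
      _ ≤ ∑ x, ∑ y ∈ A, ww G hr Δ x y :=
          Finset.sum_le_sum_of_subset_of_nonneg (Finset.subset_univ _)
            fun x _ _ => Finset.sum_nonneg fun y _ => ww_nonneg hr htg x y
      _ = ∑ y ∈ A, ∑ x, ww G hr Δ y x := by
          rw [Finset.sum_comm]
          exact Finset.sum_congr rfl fun y _ => Finset.sum_congr rfl fun x _ => ww_symm hr x y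
      _ ≤ ∑ y ∈ A, if Rv hr y then 0 else (Δ : ℚ) := Finset.sum_le_sum fun y _ => row_le hr htg hΔ y
      _ = ((A.filter fun x => ¬ Rv hr x).card : ℚ) * Δ := by
          rw [Finset.sum_ite, Finset.sum_const_zero, zero_add, Finset.sum_const, nsmul_eq_mul]
  have hD : (0 : ℚ) < Δ := by exact_mod_cast hΔ
  have hN' : (𝒟.filter fun D => ¬ Sp r D).card ≤ (A.filter fun x => ¬ Rv hr x).card := by
    have := le_of_mul_le_mul_right hN hD
    exact_mod_cast this
  -- the special sets
  have hS : (𝒟.filter fun D => Sp r D).card ≤ (A.filter fun x => Rv hr x).card := by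
    have hch : ∀ D : Finset (V ⊕ V), ∃ v : V, D ∈ 𝒟.filter (fun D => Sp r D) →
        ∃ a, r a v ∧ Sum.inl a ∈ D ∧ Sum.inr v ∈ D := by
      intro D
      by_cases h : D ∈ 𝒟.filter (fun D => Sp r D)
      · obtain ⟨a, v, h3, h4, h5⟩ := (Finset.mem_filter.1 h).2
        exact ⟨v, fun _ => ⟨a, h3, h4, h5⟩⟩
      · exact ⟨hV.some, fun h' => absurd h' h⟩
    choose f hf using hch
    refine Finset.card_le_card_of_injOn (fun D => Sum.inr (rp hr (f D))) ?_ ?_
    · intro D hD
      obtain ⟨a, h3, h4, h5⟩ := hf D hD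
      have h6 := (h1 D (Finset.mem_filter.1 hD).1).2 _ h5
      rw [Finset.mem_coe, Finset.mem_filter]
      refine ⟨?_, ⟨rp hr (f D), rfl, (rp_rp hr _).symm⟩⟩
      have h7 : (GG G hr).Adj (Sum.inr (f D)) (Sum.inr (rp hr (f D))) :=
        ⟨hr.symm (rp_rel hr _), Or.inr ⟨(rp_rp hr _).symm, h6.1⟩⟩
      rcases h6.2.2 _ h7 with h8 | h8
      · exfalso
        have h9 := ((h1 D (Finset.mem_filter.1 hD).1).2 _ h8).1
        exact h9 (rp_rp hr _).symm
      · exact h8
    · intro D hD D' hD' hEq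
      obtain ⟨a, h3, h4, h5⟩ := hf D hD
      obtain ⟨a', h3', h4', h5'⟩ := hf D' hD'
      have h6 : rp hr (f D) = rp hr (f D') := Sum.inr_injective hEq
      have h7 : r (f D) (f D') := rel_of_rp hr h6
      have h8 : (GG G hr).Adj (Sum.inl a') (Sum.inr (f D)) :=
        ⟨hr.trans h3' (hr.symm h7), ((h1 D (Finset.mem_filter.1 hD).1).2 _ h5).1⟩
      have h9 := ((h1 D' (Finset.mem_filter.1 hD').1).2 _ h4').2.2 _ h8
      rcases h9 with h9 | h9
      · exact h2 D (Finset.mem_filter.1 hD).1 D' (Finset.mem_filter.1 hD').1 _ h5 h9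
      · exact absurd h9 ((h1 D (Finset.mem_filter.1 hD).1).2 _ h5).2.1
  have e1 := Finset.card_filter_add_card_filter_not (s := 𝒟) (fun D => Sp r D)
  have e2 := Finset.card_filter_add_card_filter_not (s := A) (fun x => Rv hr x)
  omega


end main

end Cov

open Cov in
/-- the covering lemma for graphs with units -/
theorem t_COV : S_COV := by
  intro V _ G r hr hGr Δ hΔ htg T hTr hTf hbd
  obtain ⟨M, hMadj, hMsymm, hMuniq, hMcov⟩ := tutteT (GG G hr) (TT hr T)
    (fun A 𝒟 h1 h2 => tutte_cond hr hΔ htg hTf hbd A 𝒟 h1 h2)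
  let m : V → V → Prop := fun a b => M (Sum.inl a) (Sum.inl b)
  have hm : Mat G m := ⟨fun a b h => hMadj _ _ h, fun a b h => hMsymm _ _ h,
    fun a b b' h h' => Sum.inl_injective (hMuniq _ _ _ h h')⟩
  -- the classes
  let K : V → Finset V := fun x => Finset.univ.filter fun a => r x a
  let S : V → Finset V := fun x => (K x).filter fun a => ∃ b, m a b
  let K' : V → Finset V := fun x => (K x).erase (rp hr x)
  have hrep : ∀ x, rp hr x ∈ K x := fun x => by
    simp only [K, Finset.mem_filter, Finset.mem_univ, true_and]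
    exact hr.symm (rp_rel hr x)
  have hK' : ∀ x, (K' x).card + 1 = (K x).card := fun x => Finset.card_erase_add_one (hrep x)
  have hKne : ∀ x v, v ∈ K' x → v ≠ rp hr v := by
    intro x v hv hv'
    obtain ⟨h1, h2⟩ := Finset.mem_erase.1 hv
    have h3 : r x v := (Finset.mem_filter.1 h2).2
    exact h1 (hv'.trans (rp_eq hr h3).symm)
  have hScard : ∀ x, (S x).card ≤ 2 := by
    intro x
    let K1 : Finset V := (K' x).filter fun v => M (Sum.inr v) (Sum.inr (rp hr x))
    let K2 : Finset V := (K' x).filter fun v => ∃ a, M (Sum.inr v) (Sum.inl a)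
    have hsub : K' x ⊆ K1 ∪ K2 := by
      intro v hv
      obtain ⟨y, hy⟩ := hMcov (Sum.inr v) (hKne x v hv)
      rw [Finset.mem_union]
      rcases y with a | u
      · exact Or.inr (Finset.mem_filter.2 ⟨hv, a, hy⟩)
      · left
        refine Finset.mem_filter.2 ⟨hv, ?_⟩
        have h1 := hMadj _ _ hy
        have h2 : r v u := h1.1
        have h3 : r x v := (Finset.mem_filter.1 (Finset.mem_erase.1 hv).2).2
        rcases h1.2 with h4 | h4
        · exact absurd h4.1 (hKne x v hv)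
        · have : u = rp hr x := h4.1.trans (rp_eq hr (hr.trans h3 h2)).symm
          rw [← this]; exact hy
    have hc1 : K1.card ≤ 1 := by
      rw [Finset.card_le_one]
      intro a ha b hb
      have h1 := hMsymm _ _ (Finset.mem_filter.1 ha).2
      have h2 := hMsymm _ _ (Finset.mem_filter.1 hb).2
      exact Sum.inr_injective (hMuniq _ _ _ h1 h2)
    have hc2 : K2.card ≤ (K x \ S x).card := by
      have hch : ∀ v : V, ∃ a : V, v ∈ K2 → M (Sum.inr v) (Sum.inl a) := by
        intro v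
        by_cases h : v ∈ K2
        · obtain ⟨a, ha⟩ := (Finset.mem_filter.1 h).2
          exact ⟨a, fun _ => ha⟩
        · exact ⟨v, fun h' => absurd h' h⟩
      choose f hf using hch
      refine Finset.card_le_card_of_injOn f ?_ ?_
      · intro v hv
        have h1 := hf v hv
        have h2 : r x v := (Finset.mem_filter.1 (Finset.mem_erase.1 (Finset.mem_filter.1 hv).1).2).2
        have h3 := hMadj _ _ h1
        have h4 : r (f v) v := h3.1
        rw [Finset.mem_coe, Finset.mem_sdiff]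
        refine ⟨Finset.mem_filter.2 ⟨Finset.mem_univ _, hr.trans h2 (hr.symm h4)⟩, ?_⟩
        intro h5
        obtain ⟨b, hb⟩ := (Finset.mem_filter.1 h5).2
        have := hMuniq _ _ _ (hMsymm _ _ h1) hb
        exact absurd this (by simp)
      · intro v hv v' hv' hEq
        have h1 := hMsymm _ _ (hf v hv)
        have h2 := hMsymm _ _ (hf v' hv')
        rw [hEq] at h1
        exact Sum.inr_injective (hMuniq _ _ _ h1 h2)
    have h5 := Finset.card_le_card hsub
    have h6 := Finset.card_union_le K1 K2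
    have h7 : (K x \ S x).card + (S x).card = (K x).card :=
      Finset.card_sdiff_add_card_eq_card (Finset.filter_subset _ _)
    have h8 := hK' x
    omega
  refine ⟨m, hm, ?_, ?_⟩
  · intro x
    have hinj : Set.InjOn Prod.fst {p : V × V | r x p.1 ∧ m p.1 p.2} := by
      rintro ⟨a, b⟩ ⟨-, hab⟩ ⟨a', b'⟩ ⟨-, hab'⟩ h
      have h' : a = a' := h
      subst h'
      have h3 : b = b' := hm.uniq _ _ _ hab hab'
      rw [h3]
    rw [← hinj.encard_image]
    have hsub : Prod.fst '' {p : V × V | r x p.1 ∧ m p.1 p.2} ⊆ (S x : Set V) := by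
      rintro _ ⟨⟨a, b⟩, ⟨h1, h2⟩, rfl⟩
      rw [Finset.mem_coe]
      exact Finset.mem_filter.2 ⟨Finset.mem_filter.2 ⟨Finset.mem_univ _, h1⟩, b, h2⟩
    refine (Set.encard_le_encard hsub).trans ?_
    rw [Set.encard_coe_eq_coe_finsetCard]
    exact_mod_cast hScard x
  · intro t ht
    by_contra hcon
    push Not at hcon
    have hch : ∀ a : V, ∃ v : V, r t a → M (Sum.inl a) (Sum.inr v) := by
      intro a
      by_cases h : r t a
      · obtain ⟨y, hy⟩ := hMcov (Sum.inl a) (hTr t a h ht)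
        rcases y with b | v
        · exact absurd hy (hcon a b h)
        · exact ⟨v, fun _ => hy⟩
      · exact ⟨a, fun h' => absurd h' h⟩
    choose f hf using hch
    have h1 : (K t).card ≤ (K' t).card := by
      refine Finset.card_le_card_of_injOn f ?_ ?_
      · intro a ha
        have h2 : r t a := (Finset.mem_filter.1 ha).2
        have h3 := hMadj _ _ (hf a h2)
        have h4 : r a (f a) := h3.1
        rw [Finset.mem_coe, Finset.mem_erase]
        refine ⟨?_, Finset.mem_filter.2 ⟨Finset.mem_univ _, hr.trans h2 h4⟩⟩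
        intro h5
        exact h3.2 (h5.trans (rp_eq hr (hr.trans h2 h4)))
      · intro a ha b hb hEq
        have h2 := hMsymm _ _ (hf a (Finset.mem_filter.1 ha).2)
        have h3 := hMsymm _ _ (hf b (Finset.mem_filter.1 hb).2)
        rw [hEq] at h2
        exact Sum.inl_injective (hMuniq _ _ _ h2 h3)
    have h2 := hK' t
    omega

end Run7.h932
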