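import Pool.Agent.Run7.h932.U.Stm
import Pool.Agent.Run7.h932.U.Base

/-!
# Cutting out bad sets
-/

set_option autoImplicit false

namespace Run7.h932

open Set MeasureTheory SimpleGraph Pool.Q11.TwoEnd Pool.Q6.CI

namespace CUT

section Fin

variable {V : Type} [Fintype V]

/-- the bad sets in a finite part -/
def BadU (G : SimpleGraph V) (r : V → V → Prop) (l : V → ℕ) (Δ W b : ℕ) (K : Finset V) : Prop :=
  Bd G r Δ K ∧ (∀ x ∈ K, 5 ≤ l x ∧ l x + 5 ≤ W) ∧ ∀ x ∈ K, ∀ y ∈ K, l y ≤ l x + b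

/-- a maximal family of disjoint bad sets -/
theorem badFamU {G : SimpleGraph V} {r : V → V → Prop} (hr : Equivalence r) (l : V → ℕ)
    (Δ W b : ℕ) :
    ∃ ℱ : Finset (Finset V), (∀ K ∈ ℱ, BadU G r l Δ W b K) ∧
      (∀ K ∈ ℱ, ∀ K' ∈ ℱ, ∀ x ∈ K, ∀ y ∈ K', r x y → K = K') ∧
      ∀ K, BadU G r l Δ W b K → ∃ K' ∈ ℱ, ∃ x ∈ K, ∃ y ∈ K', r x y := by
  classical
  let P : Finset (Finset (Finset V)) := Finset.univ.filter fun ℱ =>
    (∀ K ∈ ℱ, BadU G r l Δ W b K) ∧ (∀ K ∈ ℱ, ∀ K' ∈ ℱ, ∀ x ∈ K, ∀ y ∈ K', r x y → K = K')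
  obtain ⟨ℱ, hℱ, hmax⟩ := Finset.exists_max_image P (fun ℱ => ℱ.card)
    ⟨∅, Finset.mem_filter.2 ⟨Finset.mem_univ _, by simp, by simp⟩⟩
  obtain ⟨-, h1, h2⟩ := Finset.mem_filter.1 hℱ
  refine ⟨ℱ, h1, h2, fun K hK => ?_⟩
  by_contra hcon
  push Not at hcon
  have hKne : K.Nonempty := by
    rw [← Finset.card_pos]
    obtain ⟨a, ha⟩ := hK.1.odd
    omega
  have hKn : K ∉ ℱ := by
    intro hKF
    obtain ⟨x, hx⟩ := hKne
    exact hcon K hKF x hx x hx (hr.refl x)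
  have hins : insert K ℱ ∈ P := by
    refine Finset.mem_filter.2 ⟨Finset.mem_univ _, ?_, ?_⟩
    · intro K' hK'
      rcases Finset.mem_insert.1 hK' with rfl | h
      · exact hK
      · exact h1 K' h
    · intro K1 hK1 K2 hK2 x hx y hy hxy
      rcases Finset.mem_insert.1 hK1 with rfl | h
      · rcases Finset.mem_insert.1 hK2 with rfl | h'
        · rfl
        · exact absurd hxy (hcon K2 h' x hx y hy)
      · rcases Finset.mem_insert.1 hK2 with rfl | h'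
        · exact absurd (hr.symm hxy) (hcon K1 h y hy x hx)
        · exact h2 K1 h K2 h' x hx y hy hxy
  have := hmax _ hins
  rw [Finset.card_insert_of_notMem hKn] at this
  omega

end Fin

section Transfer

variable {X : Type}

theorem idg_map {H : SimpleGraph X} {n : ℕ} {e : Fin n → X} (he : Function.Injective e)
    (K : Finset (Fin n)) {D : Finset X} (hD : ∀ y, y ∈ D ↔ ∃ i ∈ K, e i = y) :
    idg H D = idg (H.comap e) K := by
  unfold idg
  have h1 : {p : X × X | p.1 ∈ D ∧ p.2 ∈ D ∧ H.Adj p.1 p.2} =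
      Prod.map e e '' {q : Fin n × Fin n | q.1 ∈ K ∧ q.2 ∈ K ∧ (H.comap e).Adj q.1 q.2} := by
    ext ⟨a, b⟩
    constructor
    · rintro ⟨h2, h3, h4⟩
      obtain ⟨i, hi, rfl⟩ := (hD _).1 h2
      obtain ⟨j, hj, rfl⟩ := (hD _).1 h3
      exact ⟨(i, j), ⟨hi, hj, h4⟩, rfl⟩
    · rintro ⟨⟨i, j⟩, ⟨h2, h3, h4⟩, h5⟩
      rw [Prod.map_apply, Prod.mk.injEq] at h5
      obtain ⟨rfl, rfl⟩ := h5
      exact ⟨(hD _).2 ⟨i, h2, rfl⟩, (hD _).2 ⟨j, h3, rfl⟩, h4⟩
  rw [h1, ncard_image_of_injective _ (he.prodMap he)]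

theorem tg_map {H : SimpleGraph X} {E : X → X → Prop} {n : ℕ} {e : Fin n → X}
    (he : Function.Injective e) (i : Fin n)
    (h : ∀ y, E (e i) y → y ∈ range e ∧ ∀ z, H.Adj y z → z ∈ range e) :
    tg (H.comap e) (fun i j => E (e i) (e j)) i = tg H E (e i) := by
  unfold tg
  have h1 : dt H E (e i) = Prod.map e e '' dt (H.comap e) (fun i j => E (e i) (e j)) i := by
    ext ⟨a, b⟩
    constructor
    · rintro ⟨h2, h3⟩
      obtain ⟨⟨j, rfl⟩, h4⟩ := h a h2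
      obtain ⟨k, rfl⟩ := h4 b h3
      exact ⟨(j, k), ⟨h2, h3⟩, rfl⟩
    · rintro ⟨⟨j, k⟩, ⟨h2, h3⟩, h5⟩
      rw [Prod.map_apply, Prod.mk.injEq] at h5
      obtain ⟨rfl, rfl⟩ := h5
      exact ⟨h2, h3⟩
  rw [h1, ncard_image_of_injective _ (he.prodMap he)]

end Transfer

end CUT

open CUT

theorem t_CUT : S_CUT := by
  classical
  intro X _ _ H E hSt l W hLv Δ b
  have hE := hSt.eq
  have hlE : ∀ x y, E x y → l x = l y := by
    intro x y h
    have h1 := hLv.inv x y h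
    have h2 := hLv.inv y x (hE.symm h)
    omega
  set Hm := rs (cg H E) (mid l W) with hHm
  have hmidm : MeasurableSet (mid l W) :=
    (measurableSet_lt measurable_const hLv.ms).inter (measurableSet_lt hLv.ms measurable_const)
  have hHmB : BG Hm := BG.rs (cg_bg hE hSt.bg hSt.eb) hmidm
  have hlf : LF Hm := (cg_lf hE hSt.lf hSt.ef).mono (rs_le _ _)
  have hfin : FinC Hm := hLv.f1.mono (rs_mono le_rfl fun x hx => hx.2)
  have hθ : Measurable fun p : X × X => (ind (H.Adj p.1 p.2), ind (E p.1 p.2), l p.1) :=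
    (meas_ind hSt.bg).prodMk ((meas_ind hSt.eb).prodMk (hLv.ms.comp measurable_fst))
  obtain ⟨s, hs1, hs2, hs3⟩ := BC (E := Hm.Reachable) (Θ := ℕ × ℕ × ℕ) (reach_equiv Hm)
    (reach_meas hHmB fun x => (hlf x).countable) hfin
    (fun x y => (ind (H.Adj x y), ind (E x y), l x)) hθ
    (fun n t s => ∃ ℱ : Finset (Finset (Fin n)),
      (∀ K ∈ ℱ, BadU (gr fun i j => (t i j).1) (fun i j => (t i j).2.1 = 1)
        (fun i => (t i i).2.2) Δ W b K) ∧
      (∀ K ∈ ℱ, ∀ K' ∈ ℱ, ∀ x ∈ K, ∀ y ∈ K', (t x y).2.1 = 1 → K = K') ∧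
      (∀ K, BadU (gr fun i j => (t i j).1) (fun i j => (t i j).2.1 = 1)
        (fun i => (t i i).2.2) Δ W b K →
        ∃ K' ∈ ℱ, ∃ x ∈ K, ∃ y ∈ K', (t x y).2.1 = 1) ∧
      ∀ i j, s i j = 1 ↔ ∃ K ∈ ℱ, i ∈ K ∧ j ∈ K) (by
      intro x n e _ _
      have hr : Equivalence fun i j => ind (E (e i) (e j)) = 1 := by
        rw [ind_one (P := fun i j => E (e i) (e j))]
        exact ⟨fun i => hE.refl _, fun h => hE.symm h, fun h h' => hE.trans h h'⟩
      obtain ⟨ℱ, h1, h2, h3⟩ := badFamU (G := gr fun i j => ind (H.Adj (e i) (e j))) hr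
        (fun i => l (e i)) Δ W b
      exact ⟨fun i j => ind (∃ K ∈ ℱ, i ∈ K ∧ j ∈ K), ℱ, h1, h2, h3, fun i j => ind_eq⟩)
  have hre : ∀ x y, s x y = 1 → Hm.Reachable x y := by
    intro x y h
    by_contra h1
    rw [hs2 x y h1] at h
    exact absurd h (by norm_num)
  -- levels and reachability
  have hEr : ∀ y z, E y z → 5 ≤ l y → l y + 5 ≤ W → Hm.Reachable y z := by
    intro y z h h1 h2
    by_cases hyz : y = z
    · rw [hyz]
    · have := hlE y z h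
      exact SimpleGraph.Adj.reachable ⟨(cg_adj hE).2 ⟨hyz, Or.inr h⟩, ⟨by omega, by omega⟩,
        ⟨by omega, by omega⟩⟩
  have hHr : ∀ y z, H.Adj y z → 5 ≤ l y → l y + 5 ≤ W → Hm.Reachable y z := by
    intro y z h h1 h2
    have h3 := hLv.lip y z h
    have h4 := hLv.lip z y h.symm
    exact SimpleGraph.Adj.reachable ⟨(cg_adj hE).2 ⟨h.ne, Or.inl h⟩, ⟨by omega, by omega⟩,
        ⟨by omega, by omega⟩⟩
  -- the local structure
  have hloc : ∀ x, ∃ (n : ℕ) (e : Fin n → X) (ℱ : Finset (Finset (Fin n))),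
      Function.Injective e ∧ range e = {y | Hm.Reachable x y} ∧
      (∀ K ∈ ℱ, BadU (H.comap e) (fun i j => E (e i) (e j)) (fun i => l (e i)) Δ W b K) ∧
      (∀ K ∈ ℱ, ∀ K' ∈ ℱ, ∀ x ∈ K, ∀ y ∈ K', E (e x) (e y) → K = K') ∧
      (∀ K, BadU (H.comap e) (fun i j => E (e i) (e j)) (fun i => l (e i)) Δ W b K →
        ∃ K' ∈ ℱ, ∃ x ∈ K, ∃ y ∈ K', E (e x) (e y)) ∧
      ∀ i j, s (e i) (e j) = 1 ↔ ∃ K ∈ ℱ, i ∈ K ∧ j ∈ K := by
    intro x
    obtain ⟨n, e, he, hr, ℱ, h1, h2, h3, h4⟩ := hs3 x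
    have h1' : ∀ K ∈ ℱ, BadU (gr fun i j => ind (H.Adj (e i) (e j)))
        (fun i j => ind (E (e i) (e j)) = 1) (fun i => l (e i)) Δ W b K := h1
    have h2' : ∀ K ∈ ℱ, ∀ K' ∈ ℱ, ∀ x ∈ K, ∀ y ∈ K', ind (E (e x) (e y)) = 1 → K = K' := h2
    have h3' : ∀ K, BadU (gr fun i j => ind (H.Adj (e i) (e j)))
        (fun i j => ind (E (e i) (e j)) = 1) (fun i => l (e i)) Δ W b K →
        ∃ K' ∈ ℱ, ∃ x ∈ K, ∃ y ∈ K', ind (E (e x) (e y)) = 1 := h3
    rw [gr_ind, ind_one (P := fun i j => E (e i) (e j))] at h1' h3'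
    refine ⟨n, e, ℱ, he, hr, h1', fun K hK K' hK' x hx y hy h => h2' K hK K' hK' x hx y hy
      (ind_eq.2 h), fun K hK => ?_, h4⟩
    obtain ⟨K', hK', x, hx, y, hy, h⟩ := h3' K hK
    exact ⟨K', hK', x, hx, y, hy, ind_eq.1 h⟩
  -- class degrees
  have htg : ∀ {x : X} {n : ℕ} {e : Fin n → X}, Function.Injective e →
      range e = {y | Hm.Reachable x y} → ∀ i, 5 ≤ l (e i) → l (e i) + 5 ≤ W →
      tg (H.comap e) (fun i j => E (e i) (e j)) i = tg H E (e i) := by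
    intro x n e he hr i h1 h2
    refine tg_map he i fun y hy => ?_
    have hxi : Hm.Reachable x (e i) := by
      have : e i ∈ range e := ⟨i, rfl⟩
      rw [hr] at this
      exact this
    have hly := hlE _ _ hy
    have hxy : Hm.Reachable x y := hxi.trans (hEr _ _ hy h1 h2)
    refine ⟨by rw [hr]; exact hxy, fun z hz => ?_⟩
    rw [hr]
    exact hxy.trans (hHr y z hz (by omega) (by omega))
  refine ⟨s, hs1, ?_, ?_, hre, ?_, ?_, ?_, ?_⟩
  · -- symmetry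
    intro x y h
    obtain ⟨n, e, ℱ, he, hr, h1, h2, h3, h4⟩ := hloc x
    obtain ⟨i, rfl⟩ : x ∈ range e := by rw [hr]; exact SimpleGraph.Reachable.refl x
    obtain ⟨j, rfl⟩ : y ∈ range e := by rw [hr]; exact hre _ _ h
    obtain ⟨K, hK, hi, hj⟩ := (h4 i j).1 h
    exact (h4 j i).2 ⟨K, hK, hj, hi⟩
  · -- transitivity
    intro x y z h h'
    obtain ⟨n, e, ℱ, he, hr, h1, h2, h3, h4⟩ := hloc x
    obtain ⟨i, rfl⟩ : x ∈ range e := by rw [hr]; exact SimpleGraph.Reachable.refl x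
    obtain ⟨j, rfl⟩ : y ∈ range e := by rw [hr]; exact hre _ _ h
    obtain ⟨j', rfl⟩ : z ∈ range e := by rw [hr]; exact (hre _ _ h).trans (hre _ _ h')
    obtain ⟨K, hK, hi, hj⟩ := (h4 i j).1 h
    obtain ⟨K', hK', hj', hk⟩ := (h4 j j').1 h'
    have := h2 K hK K' hK' j hj j hj' (hE.refl _)
    subst this
    exact (h4 i j').2 ⟨K, hK, hi, hk⟩
  · -- zone
    intro x y h
    obtain ⟨n, e, ℱ, he, hr, h1, h2, h3, h4⟩ := hloc x
    obtain ⟨i, rfl⟩ : x ∈ range e := by rw [hr]; exact SimpleGraph.Reachable.refl x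
    obtain ⟨j, rfl⟩ : y ∈ range e := by rw [hr]; exact hre _ _ h
    obtain ⟨K, hK, hi, hj⟩ := (h4 i j).1 h
    obtain ⟨-, h5, h6⟩ := h1 K hK
    exact ⟨(h5 i hi).1, (h5 i hi).2, h6 i hi j hj⟩
  · -- transversal
    intro x y hx hy hxy
    obtain ⟨n, e, ℱ, he, hr, h1, h2, h3, h4⟩ := hloc x
    obtain ⟨i, rfl⟩ : x ∈ range e := by rw [hr]; exact SimpleGraph.Reachable.refl x
    obtain ⟨K, hK, hi, -⟩ := (h4 i i).1 hx
    obtain ⟨h5, h6, h7⟩ := h1 K hK
    obtain ⟨j, rfl⟩ : y ∈ range e := by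
      rw [hr]; exact hEr _ _ hxy (h6 i hi).1 (h6 i hi).2
    obtain ⟨K', hK', hj, -⟩ := (h4 j j).1 hy
    have := h2 K hK K' hK' i hi j hj hxy
    subst this
    rw [h5.tr i hi j hj hxy]
  · -- bad
    intro x h
    obtain ⟨n, e, ℱ, he, hr, h1, h2, h3, h4⟩ := hloc x
    obtain ⟨i, rfl⟩ : x ∈ range e := by rw [hr]; exact SimpleGraph.Reachable.refl x
    obtain ⟨K, hK, hi, -⟩ := (h4 i i).1 h
    obtain ⟨h5, h6, h7⟩ := h1 K hK
    have hmem : ∀ y, y ∈ K.map ⟨e, he⟩ ↔ ∃ j ∈ K, e j = y := by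
      intro y; rw [Finset.mem_map]; rfl
    refine ⟨K.map ⟨e, he⟩, ?_, ?_, ?_, ?_, ?_⟩
    · intro y
      rw [hmem]
      constructor
      · rintro ⟨j, hj, rfl⟩
        exact (h4 i j).2 ⟨K, hK, hi, hj⟩
      · intro hy
        obtain ⟨j, rfl⟩ : y ∈ range e := by rw [hr]; exact hre _ _ hy
        obtain ⟨K', hK', hi', hj'⟩ := (h4 i j).1 hy
        have := h2 K hK K' hK' i hi i hi' (hE.refl _)
        subst this
        exact ⟨j, hj', rfl⟩
    · rw [Finset.card_map]; exact h5.odd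
    · intro y hy
      obtain ⟨j, hj, rfl⟩ := (hmem y).1 hy
      rw [← htg he hr j (h6 j hj).1 (h6 j hj).2]
      exact h5.full j hj
    · intro y hy z hz hyz
      obtain ⟨j, hj, rfl⟩ := (hmem y).1 hy
      obtain ⟨k, hk, rfl⟩ := (hmem z).1 hz
      rw [h5.tr j hj k hk hyz]
    · rw [Finset.card_map, idg_map he K hmem]
      exact h5.ov
  · -- maximality
    intro D hD hDz hDr
    obtain ⟨x, hx⟩ : D.Nonempty := by
      rw [← Finset.card_pos]
      obtain ⟨a, ha⟩ := hD.odd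
      omega
    obtain ⟨n, e, ℱ, he, hr, h1, h2, h3, h4⟩ := hloc x
    let K : Finset (Fin n) := Finset.univ.filter fun i => e i ∈ D
    have hmemK : ∀ i, i ∈ K ↔ e i ∈ D := by intro i; simp [K]
    have hmem : ∀ y, y ∈ D ↔ ∃ i ∈ K, e i = y := by
      intro y
      constructor
      · intro hy
        obtain ⟨i, rfl⟩ : y ∈ range e := by rw [hr]; exact (hDr x hx y hy).1
        exact ⟨i, (hmemK i).2 hy, rfl⟩
      · rintro ⟨i, hi, rfl⟩
        exact (hmemK i).1 hi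
    have hKc : K.card = D.card := by
      have : D = K.map ⟨e, he⟩ := by
        ext y
        rw [hmem y, Finset.mem_map]
        rfl
      rw [this, Finset.card_map]
    have hKB : BadU (H.comap e) (fun i j => E (e i) (e j)) (fun i => l (e i)) Δ W b K := by
      refine ⟨⟨by rw [hKc]; exact hD.odd, ?_, ?_, ?_⟩, ?_, ?_⟩
      · intro i hi
        have hi' := (hmemK i).1 hi
        rw [htg he hr i (hDz _ hi').1 (hDz _ hi').2]
        exact hD.full _ hi'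
      · intro i hi j hj hij
        exact he (hD.tr _ ((hmemK i).1 hi) _ ((hmemK j).1 hj) hij)
      · rw [hKc, ← idg_map he K hmem]
        exact hD.ov
      · intro i hi
        exact hDz _ ((hmemK i).1 hi)
      · intro i hi j hj
        exact (hDr _ ((hmemK i).1 hi) _ ((hmemK j).1 hj)).2
    obtain ⟨K', hK', i, hi, j, hj, hij⟩ := h3 K hKB
    exact ⟨e i, (hmemK i).1 hi, e j, hij, (h4 j j).2 ⟨K', hK', hj, hj⟩⟩

end Run7.h932
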