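import Pool.Agent.Run7.h932.Main

/-!
# Graphs with units: definitions
A unit is a class of an equivalence relation `r`; every colour is on at most two darts of a unit.
-/

set_option autoImplicit false

namespace Run7.h932

open Set MeasureTheory SimpleGraph Pool.Q11.TwoEnd Pool.Q6.CI

section Gen

variable {V : Type}

/-- the darts at the class of `x` -/
def dt (G : SimpleGraph V) (r : V → V → Prop) (x : V) : Set (V × V) :=
  {p | r x p.1 ∧ G.Adj p.1 p.2}

/-- the class degree -/
noncomputable def tg (G : SimpleGraph V) (r : V → V → Prop) (x : V) : ℕ := (dt G r x).ncard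

/-- proper edge colourings with every colour on at most two darts of every class -/
structure UC (G : SimpleGraph V) (r : V → V → Prop) (n : ℕ) (c : V → V → ℕ) : Prop where
  pc : PC G n c
  cap : ∀ x a, {p | p ∈ dt G r x ∧ c p.1 p.2 = a}.encard ≤ 2

/-- colourable with units -/
def EU (G : SimpleGraph V) (r : V → V → Prop) (n : ℕ) : Prop := ∃ c : V → V → ℕ, UC G r n c

/-- twice the number of edges inside `D` -/
noncomputable def idg (G : SimpleGraph V) (D : Finset V) : ℕ :=
  {p : V × V | p.1 ∈ D ∧ p.2 ∈ D ∧ G.Adj p.1 p.2}.ncard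

/-- bad sets: overfull odd partial transversals of full classes -/
structure Bd (G : SimpleGraph V) (r : V → V → Prop) (Δ : ℕ) (D : Finset V) : Prop where
  odd : Odd D.card
  full : ∀ x ∈ D, tg G r x = Δ
  tr : ∀ x ∈ D, ∀ y ∈ D, r x y → x = y
  ov : Δ * D.card + 2 ≤ idg G D + Δ

/-- proper colourings with colours `< k` that avoid forbidden colours -/
structure VC (K : SimpleGraph V) (k : ℕ) (Φ : V → Finset ℕ) (c : V → V → ℕ) : Prop where
  pc : PC K k c
  av : ∀ i j, K.Adj i j → c i j ∉ Φ i

/-- the available colours at `w` -/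
noncomputable def avl (K : SimpleGraph V) (k : ℕ) (Φ : V → Finset ℕ) (c : V → V → ℕ) (w : V) :
    Finset ℕ := by
  classical
  exact (Finset.range k).filter fun a => a ∉ Φ w ∧ Miss K c w a

/-- the free colours -/
noncomputable def FR (k : ℕ) (Φ : V → Finset ℕ) : Finset ℕ := by
  classical
  exact (Finset.range k).filter fun a => ∀ v, a ∉ Φ v

/-- the colours that are forbidden somewhere, but not at `x` -/
noncomputable def NF (k : ℕ) (Φ : V → Finset ℕ) (x : V) : Finset ℕ := by
  classical
  exact (Finset.range k).filter fun a => (∃ v, a ∈ Φ v) ∧ a ∉ Φ x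

/-- distinct labels for the elements of `T` -/
def Lb (M : V → Finset ℕ) (P : Finset ℕ) (T : Finset V) : Prop :=
  ∃ f : V → ℕ, Set.InjOn f (T : Set V) ∧ ∀ z ∈ T, f z ∈ M z ∧ f z ∈ P

variable [Fintype V]

/-- the size of a class of forbidden colours -/
def cl (Φ : V → Finset ℕ) (a : ℕ) : ℕ := (Finset.univ.filter fun v => a ∈ Φ v).card

/-- the number of size two classes at `w` -/
def bn (Φ : V → Finset ℕ) (w : V) : ℕ := ((Φ w).filter fun a => cl Φ a = 2).card

/-- the neighbours -/
noncomputable def nb (K : SimpleGraph V) (x : V) : Finset V := by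
  classical
  exact Finset.univ.filter fun w => K.Adj x w

end Gen

section Bor

variable {X : Type}

/-- the graph with the edges inside the classes added -/
def cg (H : SimpleGraph X) (E : X → X → Prop) : SimpleGraph X :=
  SimpleGraph.fromRel fun a b => H.Adj a b ∨ E a b

/-- finite parts are colourable with units -/
def FCU (H : SimpleGraph X) (E : X → X → Prop) (k : ℕ) : Prop :=
  ∀ (n : ℕ) (e : Fin n → X), Function.Injective e → EU (H.comap e) (fun i j => E (e i) (e j)) k

/-- merging classes along a relation -/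
def mrg (E : X → X → Prop) (s : X → X → ℕ) (x y : X) : Prop :=
  E x y ∨ ∃ u v, E x u ∧ s u v = 1 ∧ E v y

variable [MeasurableSpace X] [StandardBorelSpace X]

/-- a Borel graph with units -/
structure St (H : SimpleGraph X) (E : X → X → Prop) : Prop where
  bg : BG H
  lf : LF H
  eq : Equivalence E
  eb : MeasurableSet {p : X × X | E p.1 p.2}
  ef : ∀ x, {y | E x y}.Finite
  ni : ∀ x y, H.Adj x y → ¬ E x y

/-- level functions with finite sides. Classes that are not level are well inside. -/
structure Lv (H : SimpleGraph X) (E : X → X → Prop) (l : X → ℕ) (W b : ℕ) : Prop where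
  ms : Measurable l
  inv : ∀ x y, E x y → l x = l y ∨ (5 ≤ l x ∧ l x + 5 ≤ W ∧ 5 ≤ l y ∧ l y + 5 ≤ W ∧ l y ≤ l x + b)
  lip : ∀ x y, H.Adj x y → l y ≤ l x + 1
  f1 : FinC (rs (cg H E) {x | l x < W})
  f2 : FinC (rs (cg H E) {x | 0 < l x})

/-- Borel colourings with units -/
def BCU (H : SimpleGraph X) (E : X → X → Prop) (k : ℕ) : Prop :=
  ∃ c : X → X → ℕ, Measurable (fun p : X × X => c p.1 p.2) ∧ UC H E k c

/-- a Borel maximal family of disjoint bad sets of small level variation -/
structure Ct (H : SimpleGraph X) (E : X → X → Prop) (l : X → ℕ) (W Δ b : ℕ) (s : X → X → ℕ) :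
    Prop where
  ms : Measurable fun p : X × X => s p.1 p.2
  sy : ∀ x y, s x y = 1 → s y x = 1
  ts : ∀ x y z, s x y = 1 → s y z = 1 → s x z = 1
  re : ∀ x y, s x y = 1 → (rs (cg H E) (mid l W)).Reachable x y
  zo : ∀ x y, s x y = 1 → 5 ≤ l x ∧ l x + 5 ≤ W ∧ l y ≤ l x + b
  tr : ∀ x y, s x x = 1 → s y y = 1 → E x y → x = y
  bd : ∀ x, s x x = 1 → ∃ D : Finset X, (∀ y, y ∈ D ↔ s x y = 1) ∧ Bd H E Δ D
  mx : ∀ D : Finset X, Bd H E Δ D → (∀ x ∈ D, 5 ≤ l x ∧ l x + 5 ≤ W) →
    (∀ x ∈ D, ∀ y ∈ D, (rs (cg H E) (mid l W)).Reachable x y ∧ l y ≤ l x + b) →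
    ∃ x ∈ D, ∃ y, E x y ∧ s y y = 1

end Bor

end Run7.h932
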