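import Pool.Agent.Run7.h932.U.Stm

/-!
# Extension of partial colourings for graphs with units
-/

set_option autoImplicit false

namespace Run7.h932

open Set MeasureTheory SimpleGraph Pool.Q11.TwoEnd Pool.Q6.CI

section Basic

variable {V : Type}

theorem dt_mono {G G' : SimpleGraph V} (h : G ≤ G') (r : V → V → Prop) (x : V) :
    dt G r x ⊆ dt G' r x := fun _ hp => ⟨hp.1, h hp.2⟩

theorem tg_mono {G G' : SimpleGraph V} (h : G ≤ G') (r : V → V → Prop) (x : V)
    (hf : (dt G' r x).Finite) : tg G r x ≤ tg G' r x :=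
  Set.ncard_le_ncard (dt_mono h r x) hf

theorem UC.mono {G G' : SimpleGraph V} {r : V → V → Prop} {n : ℕ} {c : V → V → ℕ}
    (h : UC G' r n c) (hle : G ≤ G') : UC G r n c where
  pc := ⟨fun v w h' => h.pc.lt v w (hle h'), fun v w h' => h.pc.symm v w (hle h'),
    fun v w w' h1 h2 => h.pc.inj v w w' (hle h1) (hle h2)⟩
  cap := by
    intro x a
    refine le_trans (Set.encard_le_encard ?_) (h.cap x a)
    rintro p ⟨hp1, hp2⟩
    exact ⟨dt_mono hle r x hp1, hp2⟩

theorem EU.mono {G G' : SimpleGraph V} {r : V → V → Prop} {n : ℕ} (h : EU G' r n)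
    (hle : G ≤ G') : EU G r n := by
  obtain ⟨c, hc⟩ := h
  exact ⟨c, hc.mono hle⟩

end Basic

variable {V : Type} [Fintype V]

/-- adding the missing edges one by one -/
theorem addAllU {F0 F : SimpleGraph V} {r : V → V → Prop} {n : ℕ} (h0 : F0 ≤ F)
    (h : EU F0 r n)
    (step : ∀ G' : SimpleGraph V, F0 ≤ G' → G' ≤ F → EU G' r n → ∀ x y, F.Adj x y →
      ¬ G'.Adj x y → EU (AddE G' x y) r n) : EU F r n := by
  classical
  have key : ∀ m : ℕ, ∀ G' : SimpleGraph V, F0 ≤ G' → G' ≤ F → EU G' r n →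
      (Finset.univ.filter fun p : V × V => F.Adj p.1 p.2 ∧ ¬ G'.Adj p.1 p.2).card ≤ m →
      EU F r n := by
    intro m
    induction m with
    | zero =>
      intro G' _ _ h3 h4
      refine h3.mono ?_
      intro a b hab
      by_contra hcon
      have : (a, b) ∈ (Finset.univ.filter fun p : V × V => F.Adj p.1 p.2 ∧ ¬ G'.Adj p.1 p.2) :=
        Finset.mem_filter.2 ⟨Finset.mem_univ _, hab, hcon⟩
      have := Finset.card_pos.2 ⟨_, this⟩
      omega
    | succ m ih =>
      intro G' h1 h2 h3 h4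
      by_cases hle : F ≤ G'
      · exact h3.mono hle
      · have : ∃ x y, F.Adj x y ∧ ¬ G'.Adj x y := by
          by_contra hcon
          push Not at hcon
          exact hle fun a b hab => hcon a b hab
        obtain ⟨x, y, hxy, hxy'⟩ := this
        have hadd := step G' h1 h2 h3 x y hxy hxy'
        refine ih (AddE G' x y) ?_ ?_ hadd ?_
        · intro a b hab
          rw [addE_adj]
          exact ⟨(h1 hab).ne, Or.inl (h1 hab)⟩
        · intro a b hab
          rw [addE_adj] at hab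
          rcases hab.2 with h5 | ⟨rfl, rfl⟩ | ⟨rfl, rfl⟩
          · exact h2 h5
          · exact hxy
          · exact hxy.symm
        · have hlt : (Finset.univ.filter fun p : V × V => F.Adj p.1 p.2 ∧
              ¬ (AddE G' x y).Adj p.1 p.2).card <
              (Finset.univ.filter fun p : V × V => F.Adj p.1 p.2 ∧ ¬ G'.Adj p.1 p.2).card := by
            apply Finset.card_lt_card
            refine ⟨?_, ?_⟩
            · intro p hp
              rw [Finset.mem_filter] at hp ⊢
              refine ⟨hp.1, hp.2.1, fun h5 => hp.2.2 ?_⟩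
              rw [addE_adj]
              exact ⟨h5.ne, Or.inl h5⟩
            · intro hsub
              have h5 : (x, y) ∈ (Finset.univ.filter fun p : V × V => F.Adj p.1 p.2 ∧
                  ¬ G'.Adj p.1 p.2) := Finset.mem_filter.2 ⟨Finset.mem_univ _, hxy, hxy'⟩
              have h6 := (Finset.mem_filter.1 (hsub h5)).2.2
              apply h6
              rw [addE_adj]
              exact ⟨hxy.ne, Or.inr (Or.inl ⟨rfl, rfl⟩)⟩
          omega
  exact key _ F0 le_rfl h0 h le_rfl

theorem t_EXT (hfan : S_FAN) : S_EXT := by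
  classical
  intro V _ F0 F r hr hin n h0 h M R Q A h1 h2 hMR h3 h3' h4 h5 h6
  have hfin : ∀ (G : SimpleGraph V) x, (dt G r x).Finite := fun _ _ => Set.toFinite _
  let F1 : SimpleGraph V := ⟨fun x y => F0.Adj x y ∨ (F.Adj x y ∧ x ∉ Q ∧ y ∉ Q),
    ⟨fun x y hxy => hxy.elim (fun h => Or.inl h.symm) fun h => Or.inr ⟨h.1.symm, h.2.2, h.2.1⟩⟩,
    ⟨fun x hx => hx.elim (fun h => h.ne rfl) fun h => h.1.ne rfl⟩⟩
  have h01 : F0 ≤ F1 := fun x y hxy => Or.inl hxy
  have h1F : F1 ≤ F := fun x y hxy => hxy.elim (fun h => h0 h) fun h => h.1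
  have hF1 : EU F1 r n := by
    refine addAllU h01 h fun G' hG1 hG2 hG3 x y hxy hxy' => ?_
    have key : ∀ x y, F1.Adj x y → ¬ G'.Adj x y → x ∈ A → EU (AddE G' x y) r n := by
      intro x y hxy hxy' hxA
      have hxy0 : ¬ F0.Adj x y := fun h => hxy' (hG1 h)
      have hxyQ : F.Adj x y ∧ x ∉ Q ∧ y ∉ Q := hxy.resolve_left hxy0
      have hxM := h1 x y hxyQ.1 hxy0
      obtain ⟨c, hc⟩ := hG3
      refine hfan V G' r hr (fun a b hab => hin a b (h1F (hG2 hab))) n c hc x y
        (hin x y hxyQ.1) hxy' ?_ ?_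
      · exact lt_of_le_of_lt (tg_mono (hG2.trans h1F) r x (hfin _ _))
          (h3' x (hMR hxM) hxyQ.2.1)
      · intro w hw
        have hwF : F.Adj x w ∧ w ∉ Q := by
          rcases hw with rfl | hw
          · exact ⟨hxyQ.1, hxyQ.2.2⟩
          · rcases hG2 hw with h7 | h7
            · exact absurd h7 (h6 x hxA w)
            · exact ⟨h7.1, h7.2.2⟩
        exact lt_of_le_of_lt (tg_mono (hG2.trans h1F) r w (hfin _ _))
          (h3' w (h2 x w hxM hwF.1) hwF.2)
    have hxy0 : ¬ F0.Adj x y := fun h => hxy' (hG1 h)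
    rcases h5 x y (h1F hxy) hxy0 with hxA | hyA
    · exact key x y hxy hxy' hxA
    · exact (key y x hxy.symm (fun h => hxy' h.symm) hyA).mono (addE_comm _ _ _)
  refine addAllU h1F hF1 fun G' hG1 hG2 hG3 x y hxy hxy' => ?_
  have key : ∀ x y, F.Adj x y → ¬ G'.Adj x y → x ∈ Q → EU (AddE G' x y) r n := by
    intro x y hxy hxy' hxQ
    have hxy0 : ¬ F0.Adj x y := fun h => hxy' (hG1 (h01 h))
    have hxM := h1 x y hxy hxy0
    obtain ⟨c, hc⟩ := hG3
    refine hfan V G' r hr (fun a b hab => hin a b (hG2 hab)) n c hc x y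
        (hin x y hxy) hxy' ?_ ?_
    · refine lt_of_lt_of_le ?_ (h3 x (hMR hxM))
      refine Set.ncard_lt_ncard ⟨dt_mono hG2 r x, fun hsub => ?_⟩ (hfin _ _)
      have h7 : (x, y) ∈ dt F r x := ⟨hr.refl x, hxy⟩
      exact hxy' (hsub h7).2
    · intro w hw
      have hwF : F.Adj x w := by
        rcases hw with rfl | hw
        · exact hxy
        · exact hG2 hw
      have hwR := h2 x w hxM hwF
      exact lt_of_le_of_lt (tg_mono hG2 r w (hfin _ _))
        (h3' w hwR (h4 x w hwF hxQ (hMR hxM) hwR))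
  by_cases hxQ : x ∈ Q
  · exact key x y hxy hxy' hxQ
  · by_cases hyQ : y ∈ Q
    · exact (key y x hxy.symm (fun h => hxy' h.symm) hyQ).mono (addE_comm _ _ _)
    · exact absurd (hG1 (Or.inr ⟨hxy, hxQ, hyQ⟩)) hxy'

end Run7.h932
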