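import Pool.Agent.Run7.h932.U.FAN0

/-!
# The fan lemma for graphs with units
-/

set_option autoImplicit false
set_option linter.unusedVariables false
set_option linter.unusedSectionVars false

namespace Run7.h932

open Set MeasureTheory SimpleGraph Pool.Q11.TwoEnd Pool.Q6.CI

namespace FAN

section conv

variable {V : Type}

theorem up_of_uc {G : SimpleGraph V} {r : V → V → Prop} (hr : Equivalence r) {n : ℕ}
    {c : V → V → ℕ} (h : UC G r n c) : UP G r n c := by
  refine ⟨h.pc, ?_⟩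
  rintro a u1 u2 u3 h12 h13 ⟨w1, a1, b1⟩ ⟨w2, a2, b2⟩ ⟨w3, a3, b3⟩
  by_contra hcon
  push Not at hcon
  obtain ⟨n12, n13, n23⟩ := hcon
  have hsub : ({(u1, w1), (u2, w2), (u3, w3)} : Set (V × V)) ⊆
      {p | p ∈ dt G r u1 ∧ c p.1 p.2 = a} := by
    intro p hp
    simp only [Set.mem_insert_iff, Set.mem_singleton_iff] at hp
    rcases hp with rfl | rfl | rfl
    · exact ⟨⟨hr.refl _, a1⟩, b1⟩
    · exact ⟨⟨h12, a2⟩, b2⟩
    · exact ⟨⟨h13, a3⟩, b3⟩
  have h3 : ({(u1, w1), (u2, w2), (u3, w3)} : Set (V × V)).encard = 3 := by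
    rw [Set.encard_insert_of_notMem, Set.encard_insert_of_notMem, Set.encard_singleton]
    · norm_num
    · simp only [Set.mem_singleton_iff, Prod.mk.injEq, not_and]
      exact fun h => absurd h n23
    · simp only [Set.mem_insert_iff, Set.mem_singleton_iff, Prod.mk.injEq, not_or, not_and]
      exact ⟨fun h => absurd h n12, fun h => absurd h n13⟩
  have h4 := (Set.encard_le_encard hsub).trans (h.cap u1 a)
  rw [h3] at h4
  exact absurd h4 (by decide)

theorem uc_of_up [Fintype V] {G : SimpleGraph V} {r : V → V → Prop} (hr : Equivalence r) {n : ℕ}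
    {c : V → V → ℕ} (h : UP G r n c) : UC G r n c := by
  classical
  refine ⟨h.pc, fun x a => ?_⟩
  have hfin : ({p | p ∈ dt G r x ∧ c p.1 p.2 = a} : Set (V × V)).Finite := Set.toFinite _
  rw [← hfin.cast_ncard_eq]
  by_contra hcon
  have hlt : 2 < ({p | p ∈ dt G r x ∧ c p.1 p.2 = a} : Set (V × V)).ncard := by
    by_contra h1
    push Not at h1
    exact hcon (by exact_mod_cast h1)
  rw [Set.two_lt_ncard_iff hfin] at hlt
  obtain ⟨p, q, s, hp, hq, hs, n1, n2, n3⟩ := hlt
  have key : ∀ p q : V × V, p ∈ ({p | p ∈ dt G r x ∧ c p.1 p.2 = a} : Set (V × V)) →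
      q ∈ ({p | p ∈ dt G r x ∧ c p.1 p.2 = a} : Set (V × V)) → p.1 = q.1 → p = q := by
    rintro ⟨p1, p2⟩ ⟨q1, q2⟩ hp hq he
    have he' : p1 = q1 := he
    subst he'
    have := h.pc.inj p1 p2 q2 hp.1.2 hq.1.2 (hp.2.trans hq.2.symm)
    rw [this]
  rcases h.cap a p.1 q.1 s.1 (hr.trans (hr.symm hp.1.1) hq.1.1) (hr.trans (hr.symm hp.1.1) hs.1.1)
    ⟨p.2, hp.1.2, hp.2⟩ ⟨q.2, hq.1.2, hq.2⟩ ⟨s.2, hs.1.2, hs.2⟩ with e | e | e
  · exact n1 (key p q hp hq e)
  · exact n2 (key p s hp hs e)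
  · exact n3 (key q s hq hs e)

/-- a colour that is missing at a whole class -/
theorem free [Fintype V] {G : SimpleGraph V} {r : V → V → Prop} {n : ℕ} (c : V → V → ℕ) {v : V}
    (h : tg G r v < n) : ∃ a < n, ∀ u, r v u → ¬ Hs G c u a := by
  classical
  by_contra hcon
  push Not at hcon
  have hsub : ((Finset.range n : Finset ℕ) : Set ℕ) ⊆
      (fun p : V × V => c p.1 p.2) '' (dt G r v) := by
    intro a ha
    rw [Finset.coe_range, Set.mem_Iio] at ha
    obtain ⟨u, hu, w, hw, he⟩ := hcon a ha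
    exact ⟨(u, w), ⟨hu, hw⟩, he⟩
  have h1 := Set.ncard_le_ncard hsub (Set.toFinite _)
  have h2 := Set.ncard_image_le (f := fun p : V × V => c p.1 p.2) (Set.toFinite (dt G r v))
  rw [Set.ncard_coe_finset, Finset.card_range] at h1
  have h3 : tg G r v = (dt G r v).ncard := rfl
  omega

end conv

theorem rmono {V : Type} {R S : V → V → Prop} (h : ∀ a b, R a b → S a b) {y w : V}
    (hw : Relation.ReflTransGen R y w) : Relation.ReflTransGen S y w := by
  induction hw with
  | refl => exact Relation.ReflTransGen.refl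
  | tail _ hab ih => exact ih.tail (h _ _ hab)

section main

variable {V : Type} [Fintype V] {G : SimpleGraph V} {r : V → V → Prop} {n : ℕ} {c : V → V → ℕ}

theorem sw_eq {α β : ℕ} (Q : V → Prop) {x v : V} (h1 : c x v ≠ α) (h2 : c x v ≠ β) :
    sw α β Q c x v = c x v := by
  unfold sw
  by_cases h : Q x
  · simp only [h, if_true]
    exact Equiv.swap_apply_of_ne_of_ne h1 h2
  · simp only [h, if_false]

theorem sw_neg {α β : ℕ} (Q : V → Prop) {x v : V} (h : ¬ Q x) : sw α β Q c x v = c x v := by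
  unfold sw
  simp only [h, if_false]

theorem ff_sw {α β : ℕ} (Q : V → Prop) {x u v : V} (h : FF G r c x u v) (h1 : c x v ≠ α)
    (h2 : c x v ≠ β) : FF G r (sw α β Q c) x u v := by
  refine ⟨h.1, ?_⟩
  rw [sw_eq Q h1 h2]
  exact av_sw_o Q u h1 h2 h.2

/-- an unpaired vertex -/
theorem fx_of {α β : ℕ} {π : V → V} (hG : Glob G r c α β π) {x v : V}
    (hα : ∀ u, r x u → ¬ Hs G c u α) (hr : Equivalence r) (hv : r x v) : π v = v := by
  by_contra h
  rcases hG.typ v h with h1 | h1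
  · exact hα v hv h1.1
  · exact hα (π v) (hr.trans hv (hG.cls v)) h1.2.2.1

theorem reach_adj {K : SimpleGraph V} {a u v : V} (h : K.Adj u v) :
    K.Reachable a u ↔ K.Reachable a v :=
  ⟨fun h1 => h1.trans h.reachable, fun h1 => h1.trans h.symm.reachable⟩

variable (hr : Equivalence r) (hni : ∀ a b, G.Adj a b → ¬ r a b) (hc : UP G r n c) {x y : V}
  (hxy : ¬ r x y) (hno : ¬ ∃ c', UP (AddE G x y) r n c') {α : ℕ} (hα : α < n)
  (hαx : ∀ u, r x u → ¬ Hs G c u α)

include hr hni hc hxy hno in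
theorem step1 {w : V} (hw : Relation.ReflTransGen (FF G r c x) y w) {β : ℕ} (hβ : β < n)
    (h1 : av G r c x β) (h2 : av G r c w β) : False :=
  hno (rotR hr hni hc hxy hw hβ h1 h2)

include hr hαx in
theorem avx : av G r c x α := ⟨hαx x (hr.refl x), fun u1 u2 r1 _ h1 _ => absurd h1 (hαx u1 r1)⟩

include hr hni hc hxy hno hα hαx in
theorem step2 {w : V} (hw : Relation.ReflTransGen (FF G r c x) y w) {β : ℕ} (hβ : β < n)
    (h2 : av G r c w β) : Hs G c x β := by
  by_contra hx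
  have h1 : ¬ av G r c x β := fun h => step1 hr hni hc hxy hno hw hβ h h2
  have h3 : ∃ v1 v2, r x v1 ∧ r x v2 ∧ Hs G c v1 β ∧ Hs G c v2 β ∧ v1 ≠ v2 := by
    by_contra hcon
    push Not at hcon
    exact h1 ⟨hx, fun u1 u2 r1 r2 a1 a2 => hcon u1 u2 r1 r2 a1 a2⟩
  obtain ⟨v1, v2, r1, r2, b1, b2, hne⟩ := h3
  have hwα : ¬ av G r c w α := fun h => step1 hr hni hc hxy hno hw hα (avx hr hαx) h
  obtain ⟨π, e, hG, hE⟩ := exists_glob hr hc α β {w}
    (fun u hu => by rw [Set.mem_singleton_iff.1 hu]; exact h2)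
    (fun u hu => by rw [Set.mem_singleton_iff.1 hu]; exact hwα)
    (fun u hu v hv _ => by rw [Set.mem_singleton_iff.1 hu, Set.mem_singleton_iff.1 hv])
  have hE := hE w rfl
  set K := KP hc.pc.symm α β hG.inv with hK
  have k2 := kp_two hc.pc hG
  have ke := kp_def hc.pc hG hE.fx (Or.inr hE.hb)
  have kv1 := kp_def hc.pc hG (fx_of hG hαx hr r1) (Or.inl (hαx v1 r1))
  have kv2 := kp_def hc.pc hG (fx_of hG hαx hr r2) (Or.inl (hαx v2 r2))
  have ne1 : e w ≠ v1 := fun h => hαx v1 r1 (h ▸ hE.ha)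
  have ne2 : e w ≠ v2 := fun h => hαx v2 r2 (h ▸ hE.ha)
  obtain ⟨v, hv1, hv2, hv3⟩ : ∃ v, r x v ∧ Hs G c v β ∧ ¬ K.Reachable v (e w) := by
    by_cases h : K.Reachable v1 (e w)
    · by_cases h' : K.Reachable v2 (e w)
      · exact absurd (comp_two K k2 ke kv1 kv2 ne1 ne2 h.symm h'.symm) hne
      · exact ⟨v2, r2, b2, h'⟩
    · exact ⟨v1, r1, b1, h⟩
  have hQ : ∀ u z, K.Adj u z → (K.Reachable v u ↔ K.Reachable v z) := fun u z h => reach_adj h
  have hQπ : ∀ u, (K.Reachable v u ↔ K.Reachable v (π u)) := by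
    intro u
    by_cases h : π u = u
    · rw [h]
    · exact hQ u (π u) (Or.inr ⟨fun h1 => h h1.symm, rfl⟩)
  have hup := up_sw hc hα hβ hG (fun u => K.Reachable v u) hQ
  have hw' : av G r (sw α β (fun u => K.Reachable v u) c) w β := by
    obtain ⟨e1, e2⟩ := hE.e2 (fun u => K.Reachable v u) (fun u _ => hQπ u) hv3
    refine ⟨fun h => e1 ((hs_sw_b _ w).1 h), fun u1 u2 s1 s2 t1 t2 => e2 u1 u2 s1 s2
      ((hs_sw_b _ u1).1 t1) ((hs_sw_b _ u2).1 t2)⟩
  have hx' : av G r (sw α β (fun u => K.Reachable v u) c) x β := by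
    have q : ∀ u, r x u → Ha G c β α (fun u => K.Reachable v u) u →
        ¬ K.Reachable v u ∧ Hs G c u β := by
      rintro u hu (h | h)
      · exact h
      · exact absurd h.2 (hαx u hu)
    refine ⟨fun h => hx (q x (hr.refl x) ((hs_sw_b _ x).1 h)).2, fun u1 u2 s1 s2 t1 t2 => ?_⟩
    obtain ⟨p1, p2⟩ := q u1 s1 ((hs_sw_b _ u1).1 t1)
    obtain ⟨p3, p4⟩ := q u2 s2 ((hs_sw_b _ u2).1 t2)
    rcases hc.cap β v u1 u2 (hr.trans (hr.symm hv1) s1) (hr.trans (hr.symm hv1) s2) hv2 p2 p4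
      with h | h | h
    · exact absurd (h ▸ SimpleGraph.Reachable.refl (G := K) v) p1
    · exact absurd (h ▸ SimpleGraph.Reachable.refl (G := K) v) p3
    · exact h
  have hch : Relation.ReflTransGen (FF G r (sw α β (fun u => K.Reachable v u) c) x) y w := by
    refine rmono (fun u z huz => ff_sw _ huz (fun h => ?_) (fun h => ?_)) hw
    · exact hαx x (hr.refl x) ⟨z, huz.1, h⟩
    · exact hx ⟨z, huz.1, h⟩
  exact step1 hr hni hup hxy hno hch hβ hx' hw'

include hr hni hc hxy hno hα hαx in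
theorem step3 {w w' : V} (hw : Relation.ReflTransGen (FF G r c x) y w)
    (hw' : Relation.ReflTransGen (FF G r c x) y w') (hww : ¬ r w w') {β : ℕ} (hβ : β < n)
    (h2 : av G r c w β) (h2' : av G r c w' β) : False := by
  obtain ⟨z, hz, hzβ⟩ := step2 hr hni hc hxy hno hα hαx hw hβ h2
  have hαβ : Hs G c x β := ⟨z, hz, hzβ⟩
  -- the first vertex
  obtain ⟨w1, hw1, ha1⟩ : ∃ w1, Relation.ReflTransGen (fun u v => FF G r c x u v ∧ v ≠ z) y w1 ∧
      av G r c w1 β := by
    have h0 : ∀ u, Relation.ReflTransGen (FF G r c x) y u →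
        Relation.ReflTransGen (fun u v => FF G r c x u v ∧ v ≠ z) y u ∨
        ∃ w1, Relation.ReflTransGen (fun u v => FF G r c x u v ∧ v ≠ z) y w1 ∧ av G r c w1 β := by
      intro u hu
      induction hu with
      | refl => exact Or.inl Relation.ReflTransGen.refl
      | @tail a b _ hab ih =>
        rcases ih with ih | ih
        · by_cases hb : b = z
          · right
            refine ⟨a, ih, ?_⟩
            have := hab.2
            rwa [hb, hzβ] at this
          · exact Or.inl (ih.tail ⟨hab, hb⟩)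
        · exact Or.inr ih
    rcases h0 w hw with h | h
    · exact ⟨w, h, h2⟩
    · exact h
  have hw1R : Relation.ReflTransGen (FF G r c x) y w1 := rmono (fun _ _ h => h.1) hw1
  obtain ⟨w2, hw2R, ha2, hnr⟩ : ∃ w2, Relation.ReflTransGen (FF G r c x) y w2 ∧ av G r c w2 β ∧
      ¬ r w1 w2 := by
    by_cases h : r w1 w
    · exact ⟨w', hw', h2', fun h' => hww (hr.trans (hr.symm h) h')⟩
    · exact ⟨w, hw, h2, h⟩
  have hn1 : ¬ av G r c w1 α := fun h => step1 hr hni hc hxy hno hw1R hα (avx hr hαx) h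
  have hn2 : ¬ av G r c w2 α := fun h => step1 hr hni hc hxy hno hw2R hα (avx hr hαx) h
  obtain ⟨π, e, hG, hE⟩ := exists_glob hr hc α β {w1, w2}
    (fun u hu => by
      rcases hu with h | h
      · rw [h]; exact ha1
      · rw [Set.mem_singleton_iff.1 h]; exact ha2)
    (fun u hu => by
      rcases hu with h | h
      · rw [h]; exact hn1
      · rw [Set.mem_singleton_iff.1 h]; exact hn2)
    (fun u hu v hv huv => by
      rcases hu with h | h <;> rcases hv with h' | h'
      · rw [h, h']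
      · rw [h, Set.mem_singleton_iff.1 h'] at huv
        exact absurd huv hnr
      · rw [Set.mem_singleton_iff.1 h, h'] at huv
        exact absurd (hr.symm huv) hnr
      · rw [Set.mem_singleton_iff.1 h, Set.mem_singleton_iff.1 h'])
  have hE1 := hE w1 (Or.inl rfl)
  have hE2 := hE w2 (Or.inr rfl)
  set K := KP hc.pc.symm α β hG.inv with hK
  have k2 := kp_two hc.pc hG
  have ke1 := kp_def hc.pc hG hE1.fx (Or.inr hE1.hb)
  have ke2 := kp_def hc.pc hG hE2.fx (Or.inr hE2.hb)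
  have kx := kp_def hc.pc hG (fx_of hG hαx hr (hr.refl x)) (Or.inl (hαx x (hr.refl x)))
  have ne1 : x ≠ e w1 := fun h => hαx x (hr.refl x) (h ▸ hE1.ha)
  have ne2 : x ≠ e w2 := fun h => hαx x (hr.refl x) (h ▸ hE2.ha)
  have ne12 : e w1 ≠ e w2 := fun h => hnr (hr.trans hE1.cls (h ▸ hr.symm hE2.cls))
  -- facts on swapping a set without `x`
  have hQ : ∀ v u z, K.Adj u z → (K.Reachable v u ↔ K.Reachable v z) := fun v u z h =>
    reach_adj h
  have hQπ : ∀ v u, (K.Reachable v u ↔ K.Reachable v (π u)) := by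
    intro v u
    by_cases h : π u = u
    · rw [h]
    · exact hQ v u (π u) (Or.inr ⟨fun h1 => h h1.symm, rfl⟩)
  have hx' : ∀ v, ¬ K.Reachable v x →
      av G r (sw α β (fun u => K.Reachable v u) c) x α := by
    intro v hv
    have q : ∀ u, r x u → Ha G c α β (fun u => K.Reachable v u) u →
        K.Reachable v u ∧ Hs G c u β := by
      rintro u hu (h | h)
      · exact absurd h.2 (hαx u hu)
      · exact h
    refine ⟨fun h => hv (q x (hr.refl x) ((hs_sw_a _ x).1 h)).1, fun u1 u2 s1 s2 t1 t2 => ?_⟩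
    obtain ⟨p1, p2⟩ := q u1 s1 ((hs_sw_a _ u1).1 t1)
    obtain ⟨p3, p4⟩ := q u2 s2 ((hs_sw_a _ u2).1 t2)
    rcases hc.cap β x u1 u2 s1 s2 hαβ p2 p4 with h | h | h
    · exact absurd (h ▸ p1) hv
    · exact absurd (h ▸ p3) hv
    · exact h
  have hne : ∀ u, G.Adj x u → u ≠ z → c x u ≠ α ∧ c x u ≠ β := by
    intro u hu hu'
    refine ⟨fun h => hαx x (hr.refl x) ⟨u, hu, h⟩, fun h => hu' ?_⟩
    exact hc.pc.inj x u z hu hz (h.trans hzβ.symm)
  by_cases hr1 : K.Reachable x (e w1)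
  · have hr2 : ¬ K.Reachable x (e w2) := fun h =>
      ne12 (comp_two K k2 kx ke1 ke2 ne1 ne2 hr1 h)
    have hv : ¬ K.Reachable (e w2) x := fun h => hr2 h.symm
    have hv1 : ¬ K.Reachable (e w2) (e w1) := fun h => hr2 (hr1.trans h.symm)
    have hup := up_sw hc hα hβ hG (fun u => K.Reachable (e w2) u) (hQ _)
    have g2 : av G r (sw α β (fun u => K.Reachable (e w2) u) c) w2 α := by
      obtain ⟨e1, e2⟩ := hE2.e1 (fun u => K.Reachable (e w2) u) (fun u _ => hQπ _ u)
        (SimpleGraph.Reachable.refl _)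
      exact ⟨fun h => e1 ((hs_sw_a _ w2).1 h), fun u1 u2 s1 s2 t1 t2 => e2 u1 u2 s1 s2
        ((hs_sw_a _ u1).1 t1) ((hs_sw_a _ u2).1 t2)⟩
    have g1 : av G r (sw α β (fun u => K.Reachable (e w2) u) c) w1 β := by
      obtain ⟨e1, e2⟩ := hE1.e2 (fun u => K.Reachable (e w2) u) (fun u _ => hQπ _ u) hv1
      exact ⟨fun h => e1 ((hs_sw_b _ w1).1 h), fun u1 u2 s1 s2 t1 t2 => e2 u1 u2 s1 s2
        ((hs_sw_b _ u1).1 t1) ((hs_sw_b _ u2).1 t2)⟩
    have c1 : Relation.ReflTransGen (FF G r (sw α β (fun u => K.Reachable (e w2) u) c) x) y w1 :=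
      rmono (fun u v huv => ff_sw _ huv.1 (hne v huv.1.1 huv.2).1 (hne v huv.1.1 huv.2).2) hw1
    have cz : Relation.ReflTransGen (FF G r (sw α β (fun u => K.Reachable (e w2) u) c) x) y z := by
      refine c1.tail ⟨hz, ?_⟩
      have hs : sw α β (fun u => K.Reachable (e w2) u) c x z = β := by
        rw [sw_neg _ hv, hzβ]
      rw [hs]
      exact g1
    have c2 : ∀ u, Relation.ReflTransGen (FF G r c x) y u →
        Relation.ReflTransGen (FF G r (sw α β (fun u => K.Reachable (e w2) u) c) x) y u := by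
      intro u hu
      induction hu with
      | refl => exact Relation.ReflTransGen.refl
      | @tail a b _ hab ih =>
        by_cases hb : b = z
        · rw [hb]; exact cz
        · exact ih.tail (ff_sw _ hab (hne b hab.1 hb).1 (hne b hab.1 hb).2)
    exact step1 hr hni hup hxy hno (c2 w2 hw2R) hα (hx' _ hv) g2
  · have hv : ¬ K.Reachable (e w1) x := fun h => hr1 h.symm
    have hup := up_sw hc hα hβ hG (fun u => K.Reachable (e w1) u) (hQ _)
    have g1 : av G r (sw α β (fun u => K.Reachable (e w1) u) c) w1 α := by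
      obtain ⟨e1, e2⟩ := hE1.e1 (fun u => K.Reachable (e w1) u) (fun u _ => hQπ _ u)
        (SimpleGraph.Reachable.refl _)
      exact ⟨fun h => e1 ((hs_sw_a _ w1).1 h), fun u1 u2 s1 s2 t1 t2 => e2 u1 u2 s1 s2
        ((hs_sw_a _ u1).1 t1) ((hs_sw_a _ u2).1 t2)⟩
    have c1 : Relation.ReflTransGen (FF G r (sw α β (fun u => K.Reachable (e w1) u) c) x) y w1 :=
      rmono (fun u v huv => ff_sw _ huv.1 (hne v huv.1.1 huv.2).1 (hne v huv.1.1 huv.2).2) hw1
    exact step1 hr hni hup hxy hno c1 hα (hx' _ hv) g1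

/-! ### the count -/

/-- the class bound -/
theorem class_le (hr : Equivalence r) (hc : UP G r n c) {x y w0 : V} (hyx : ¬ G.Adj x y)
    (J : Finset V) (hJ : ∀ u, u ∈ J → r w0 u ∧ (u = y ∨ G.Adj x u)) (hJne : J.Nonempty)
    (hxw : ¬ r w0 x) (ht : tg G r w0 < n) (A : V → Finset ℕ)
    (hA : ∀ u a, a ∈ A u ↔ a < n ∧ av G r c u a) : J.card ≤ (J.biUnion A).card := by
  classical
  by_cases h1 : J.card ≤ 1
  · obtain ⟨w, hw⟩ := hJne
    obtain ⟨a, ha, hfree⟩ := free c ht
    have hmem : a ∈ J.biUnion A := by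
      rw [Finset.mem_biUnion]
      refine ⟨w, hw, (hA w a).2 ⟨ha, ?_⟩⟩
      have hw0 := (hJ w hw).1
      exact ⟨hfree w hw0, fun u1 u2 r1 _ t1 _ => absurd t1 (hfree u1 (hr.trans hw0 r1))⟩
    exact h1.trans (Finset.card_pos.2 ⟨a, hmem⟩)
  · push Not at h1
    obtain ⟨D2, hD2⟩ : ∃ D2 : Finset ℕ, D2 = (Finset.range n).filter fun a => ∃ u1 u2, r w0 u1 ∧
        r w0 u2 ∧ Hs G c u1 a ∧ Hs G c u2 a ∧ u1 ≠ u2 := ⟨_, rfl⟩
    have mD2 : ∀ a, a ∈ D2 ↔ a < n ∧ ∃ u1 u2, r w0 u1 ∧
        r w0 u2 ∧ Hs G c u1 a ∧ Hs G c u2 a ∧ u1 ≠ u2 := fun a => by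
      rw [hD2, Finset.mem_filter, Finset.mem_range]
    have hsub : Finset.range n \ D2 ⊆ J.biUnion A := by
      intro a ha
      rw [Finset.mem_sdiff, Finset.mem_range, mD2] at ha
      obtain ⟨han, ha2⟩ := ha
      have huniq : ∀ u1 u2, r w0 u1 → r w0 u2 → Hs G c u1 a → Hs G c u2 a → u1 = u2 := by
        intro u1 u2 r1 r2 t1 t2
        by_contra h
        exact ha2 ⟨han, u1, u2, r1, r2, t1, t2, h⟩
      obtain ⟨p, hp, q, hq, hpq⟩ := Finset.one_lt_card.1 h1
      obtain ⟨w, hw, hwa⟩ : ∃ w ∈ J, ¬ Hs G c w a := by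
        by_contra hcon
        push Not at hcon
        exact hpq (huniq p q (hJ p hp).1 (hJ q hq).1 (hcon p hp) (hcon q hq))
      rw [Finset.mem_biUnion]
      refine ⟨w, hw, (hA w a).2 ⟨han, hwa, fun u1 u2 r1 r2 t1 t2 => ?_⟩⟩
      have hw0 := (hJ w hw).1
      exact huniq u1 u2 (hr.trans hw0 r1) (hr.trans hw0 r2) t1 t2
    have hc1 := Finset.card_le_card hsub
    have hD2s : D2 ⊆ Finset.range n := fun a ha => Finset.mem_range.2 ((mD2 a).1 ha).1
    rw [Finset.card_sdiff_of_subset hD2s, Finset.card_range] at hc1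
    -- darts
    have hex : ∀ a, a ∈ D2 → ∃ p : V × V, p ∈ dt G r w0 ∧ c p.1 p.2 = a ∧ p.2 ≠ x := by
      intro a ha
      obtain ⟨_, u1, u2, r1, r2, ⟨w1, hw1, e1⟩, ⟨w2, hw2, e2⟩, hne⟩ := (mD2 a).1 ha
      by_cases h1 : w1 = x
      · refine ⟨(u2, w2), ⟨r2, hw2⟩, e2, fun h2 => hne ?_⟩
        have h2 : w2 = x := h2
        rw [h1] at hw1 e1
        rw [h2] at hw2 e2
        have s1 := hc.pc.symm u1 x hw1
        have s2 := hc.pc.symm u2 x hw2
        exact hc.pc.inj x u1 u2 hw1.symm hw2.symm (by rw [← s1, ← s2, e1, e2])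
      · exact ⟨(u1, w1), ⟨r1, hw1⟩, e1, h1⟩
    have : Nonempty (V × V) := ⟨(x, x)⟩
    choose! f hf using hex
    have hS : ((D2.image f ∪ (J.erase y).image fun w => (w, x) : Finset (V × V)) :
        Set (V × V)) ⊆ dt G r w0 := by
      intro p hp
      rw [Finset.mem_coe, Finset.mem_union, Finset.mem_image, Finset.mem_image] at hp
      rcases hp with ⟨a, ha, rfl⟩ | ⟨w, hw, rfl⟩
      · exact (hf a ha).1
      · rw [Finset.mem_erase] at hw
        have h2 := hJ w hw.2
        rcases h2.2 with h3 | h3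
        · exact absurd h3 hw.1
        · exact ⟨h2.1, h3.symm⟩
    have hc2 := Set.ncard_le_ncard hS (Set.toFinite _)
    rw [Set.ncard_coe_finset, Finset.card_union_of_disjoint, Finset.card_image_of_injOn,
      Finset.card_image_of_injective] at hc2
    · have h3 : tg G r w0 = (dt G r w0).ncard := rfl
      have h4 := Finset.pred_card_le_card_erase (s := J) (a := y)
      have h5 := Finset.card_le_card hD2s
      rw [Finset.card_range] at h5
      omega
    · intro a b hab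
      exact (Prod.mk.inj hab).1
    · intro a ha b hb hab
      rw [← (hf a ha).2.1, ← (hf b hb).2.1]
      have hab' : f a = f b := hab
      rw [hab']
    · rw [Finset.disjoint_left]
      intro p hp hp'
      rw [Finset.mem_image] at hp hp'
      obtain ⟨a, ha, rfl⟩ := hp
      obtain ⟨w, hw, he⟩ := hp'
      exact (hf a ha).2.2 (by rw [← he])

include hr hni hc hxy hno hα hαx in
theorem count (hyx : ¬ G.Adj x y) (hdeg : ∀ w, w = y ∨ G.Adj x w → tg G r w < n) : False := by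
  classical
  obtain ⟨Rf, hRf⟩ : ∃ Rf : Finset V, Rf =
    Finset.univ.filter fun w => Relation.ReflTransGen (FF G r c x) y w := ⟨_, rfl⟩
  have mR : ∀ w, w ∈ Rf ↔ Relation.ReflTransGen (FF G r c x) y w := fun w => by
    rw [hRf, Finset.mem_filter]
    exact ⟨fun h => h.2, fun h => ⟨Finset.mem_univ _, h⟩⟩
  have hR1 : ∀ w ∈ Rf, w = y ∨ G.Adj x w := by
    intro w hw
    rcases Relation.ReflTransGen.cases_tail ((mR w).1 hw) with h | ⟨u, _, hu⟩
    · exact Or.inl h
    · exact Or.inr hu.1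
  obtain ⟨A, hA⟩ : ∃ A : V → Finset ℕ, ∀ u a, a ∈ A u ↔ a < n ∧ av G r c u a :=
    ⟨fun u => (Finset.range n).filter fun a => av G r c u a, fun u a => by
      rw [Finset.mem_filter, Finset.mem_range]⟩
  -- the colours
  have hub : (Rf.biUnion A).card + 1 ≤ Rf.card := by
    have hex : ∀ b, b ∈ Rf.biUnion A → ∃ z, z ∈ Rf.erase y ∧ G.Adj x z ∧ c x z = b := by
      intro b hb
      rw [Finset.mem_biUnion] at hb
      obtain ⟨w, hw, hbw⟩ := hb
      obtain ⟨hb1, hb2⟩ := (hA w b).1 hbw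
      obtain ⟨z, hz, hzb⟩ := step2 hr hni hc hxy hno hα hαx ((mR w).1 hw) hb1 hb2
      refine ⟨z, ?_, hz, hzb⟩
      rw [Finset.mem_erase]
      refine ⟨fun h => hyx (h ▸ hz), (mR z).2 (((mR w).1 hw).tail ⟨hz, ?_⟩)⟩
      rw [hzb]
      exact hb2
    have : Nonempty V := ⟨x⟩
    choose! f hf using hex
    have h1 : (Rf.biUnion A).card ≤ (Rf.erase y).card := by
      refine Finset.card_le_card_of_injOn f (fun b hb => (hf b hb).1) ?_
      intro a ha b hb hab
      have hab' : f a = f b := hab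
      rw [← (hf a ha).2.2, ← (hf b hb).2.2, hab']
    have hy : y ∈ Rf := (mR y).2 Relation.ReflTransGen.refl
    rw [Finset.card_erase_of_mem hy] at h1
    have := Finset.card_pos.2 ⟨y, hy⟩
    omega
  -- classes
  let s : Setoid V := ⟨r, hr⟩
  obtain ⟨rep, hrep, hrep2⟩ : ∃ rep : V → V, (∀ u, r (rep u) u) ∧
      ∀ u v, r u v → rep u = rep v := by
    refine ⟨fun u => (Quotient.mk s u).out, fun u => Quotient.exact (Quotient.out_eq
      (Quotient.mk s u)), fun u v h => ?_⟩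
    change (Quotient.mk s u).out = (Quotient.mk s v).out
    rw [Quotient.sound (s := s) h]
  have hlb : Rf.card ≤ (Rf.biUnion A).card := by
    have e1 : Rf.card = ∑ ρ ∈ Rf.image rep, (Rf.filter fun w => rep w = ρ).card :=
      Finset.card_eq_sum_card_image rep Rf
    have e2 : (Rf.biUnion A) = (Rf.image rep).biUnion fun ρ =>
        (Rf.filter fun w => rep w = ρ).biUnion A := by
      ext a
      simp only [Finset.mem_biUnion, Finset.mem_image, Finset.mem_filter]
      constructor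
      · rintro ⟨w, hw, ha⟩
        exact ⟨rep w, ⟨w, hw, rfl⟩, w, ⟨hw, rfl⟩, ha⟩
      · rintro ⟨_, _, w, ⟨hw, _⟩, ha⟩
        exact ⟨w, hw, ha⟩
    rw [e1, e2, Finset.card_biUnion]
    · refine Finset.sum_le_sum fun ρ hρ => ?_
      rw [Finset.mem_image] at hρ
      obtain ⟨w0, hw0, rfl⟩ := hρ
      have hcl : ∀ u, rep u = rep w0 → r w0 u := fun u hu => by
        have h2 := hrep w0
        rw [← hu] at h2
        exact hr.trans (hr.symm h2) (hrep u)
      refine class_le hr hc (x := x) (y := y) (w0 := w0) hyx _ ?_ ⟨w0, ?_⟩ ?_ (hdeg w0 (hR1 w0 hw0))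
        A hA
      · intro u hu
        rw [Finset.mem_filter] at hu
        exact ⟨hcl u hu.2, hR1 u hu.1⟩
      · rw [Finset.mem_filter]
        exact ⟨hw0, rfl⟩
      · intro h
        rcases hR1 w0 hw0 with h1 | h1
        · rw [h1] at h
          exact hxy (hr.symm h)
        · exact hni x w0 h1 (hr.symm h)
    · intro ρ hρ ρ' hρ' hne
      change Disjoint _ _
      rw [Finset.disjoint_left]
      intro a ha ha'
      rw [Finset.mem_biUnion] at ha ha'
      obtain ⟨w, hw, haw⟩ := ha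
      obtain ⟨w', hw', haw'⟩ := ha'
      rw [Finset.mem_filter] at hw hw'
      obtain ⟨b1, b2⟩ := (hA w a).1 haw
      obtain ⟨_, b3⟩ := (hA w' a).1 haw'
      refine step3 hr hni hc hxy hno hα hαx ((mR w).1 hw.1) ((mR w').1 hw'.1) (fun h => hne ?_)
        b1 b2 b3
      rw [← hw.2, ← hw'.2]
      exact hrep2 w w' h
  omega

end main

end FAN

theorem t_FAN : S_FAN := by
  intro V _ G r hr hni n c hc x y hxy hyx hx hdeg
  by_contra hno
  have hup := FAN.up_of_uc hr hc
  have hno' : ¬ ∃ c', FAN.UP (AddE G x y) r n c' := by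
    rintro ⟨c', hc'⟩
    exact hno ⟨c', FAN.uc_of_up hr hc'⟩
  obtain ⟨α, hα, hαx⟩ := FAN.free c hx
  exact FAN.count hr hni hup hxy hno' hα hαx hyx hdeg

end Run7.h932
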