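import Pool.Agent.Run7.h932.U.Stm

/-!
# The fan lemma for graphs with units
-/

set_option autoImplicit false
set_option linter.unusedVariables false
set_option linter.unusedSectionVars false

namespace Run7.h932

open Set MeasureTheory SimpleGraph Pool.Q11.TwoEnd Pool.Q6.CI

namespace FAN

section gen

variable {V : Type}

/-- colour `a` is present at `u` -/
def Hs (G : SimpleGraph V) (c : V → V → ℕ) (u : V) (a : ℕ) : Prop := ∃ w, G.Adj u w ∧ c u w = a

/-- proper with units, by vertices -/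
structure UP (G : SimpleGraph V) (r : V → V → Prop) (n : ℕ) (c : V → V → ℕ) : Prop where
  pc : PC G n c
  cap : ∀ a u1 u2 u3, r u1 u2 → r u1 u3 → Hs G c u1 a → Hs G c u2 a → Hs G c u3 a →
    u1 = u2 ∨ u1 = u3 ∨ u2 = u3

/-- `a` can be added at `u` -/
def av (G : SimpleGraph V) (r : V → V → Prop) (c : V → V → ℕ) (u : V) (a : ℕ) : Prop :=
  ¬ Hs G c u a ∧ ∀ u1 u2, r u u1 → r u u2 → Hs G c u1 a → Hs G c u2 a → u1 = u2

/-- the fan relation -/
def FF (G : SimpleGraph V) (r : V → V → Prop) (c : V → V → ℕ) (x u w : V) : Prop :=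
  G.Adj x w ∧ av G r c u (c x w)

theorem miss_of {G : SimpleGraph V} {c : V → V → ℕ} {u : V} {a : ℕ} (h : ¬ Hs G c u a) :
    Miss G c u a := fun w hw he => h ⟨w, hw, he⟩

theorem hs_mono {G G' : SimpleGraph V} (hle : G' ≤ G) {c : V → V → ℕ} {u : V} {a : ℕ}
    (h : Hs G' c u a) : Hs G c u a := by
  obtain ⟨w, hw, he⟩ := h
  exact ⟨w, hle hw, he⟩

theorem UP.mono {G G' : SimpleGraph V} {r : V → V → Prop} {n : ℕ} {c : V → V → ℕ}
    (h : UP G r n c) (hle : G' ≤ G) : UP G' r n c :=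
  ⟨⟨fun v w h1 => h.pc.lt v w (hle h1), fun v w h1 => h.pc.symm v w (hle h1),
    fun v w w' h1 h2 => h.pc.inj v w w' (hle h1) (hle h2)⟩,
    fun a u1 u2 u3 h12 h13 h1 h2 h3 => h.cap a u1 u2 u3 h12 h13 (hs_mono hle h1) (hs_mono hle h2)
      (hs_mono hle h3)⟩

/-! ### adding an edge -/

open Classical in
/-- the colouring with `x y` coloured `β` -/
noncomputable def cadd (x y : V) (β : ℕ) (c : V → V → ℕ) : V → V → ℕ :=
  fun a b => if (a = x ∧ b = y) ∨ (a = y ∧ b = x) then β else c a b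

theorem cadd_pos {x y : V} {β : ℕ} {c : V → V → ℕ} {a b : V}
    (h : (a = x ∧ b = y) ∨ (a = y ∧ b = x)) : cadd x y β c a b = β := if_pos h

theorem cadd_neg {x y : V} {β : ℕ} {c : V → V → ℕ} {a b : V}
    (h : ¬ ((a = x ∧ b = y) ∨ (a = y ∧ b = x))) : cadd x y β c a b = c a b := if_neg h

theorem pc_add {G : SimpleGraph V} {n : ℕ} {c : V → V → ℕ} (hc : PC G n c) {x y : V}
    (hxy : x ≠ y) {β : ℕ} (hβ : β < n) (hx : Miss G c x β) (hy : Miss G c y β) :
    PC (AddE G x y) n (cadd x y β c) := by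
  refine ⟨?_, ?_, ?_⟩
  · intro v w h
    rw [addE_adj] at h
    by_cases h1 : (v = x ∧ w = y) ∨ (v = y ∧ w = x)
    · rw [cadd_pos h1]
      exact hβ
    · rw [cadd_neg h1]
      rcases h.2 with h2 | h2
      · exact hc.lt v w h2
      · exact absurd h2 h1
  · intro v w h
    rw [addE_adj] at h
    by_cases h1 : (v = x ∧ w = y) ∨ (v = y ∧ w = x)
    · rw [cadd_pos h1, cadd_pos (by tauto)]
    · rw [cadd_neg h1, cadd_neg (by tauto)]
      rcases h.2 with h2 | h2
      · exact hc.symm v w h2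
      · exact absurd h2 h1
  · intro v w w' h h' he
    rw [addE_adj] at h h'
    by_cases h1 : (v = x ∧ w = y) ∨ (v = y ∧ w = x)
    · rw [cadd_pos h1] at he
      by_cases h2 : (v = x ∧ w' = y) ∨ (v = y ∧ w' = x)
      · rcases h1 with ⟨a1, a2⟩ | ⟨a1, a2⟩ <;> rcases h2 with ⟨b1, b2⟩ | ⟨b1, b2⟩
        · rw [a2, b2]
        · exact absurd (a1.symm.trans b1) hxy
        · exact absurd (b1.symm.trans a1) hxy
        · rw [a2, b2]
      · rw [cadd_neg h2] at he
        have h3 : G.Adj v w' := by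
          rcases h'.2 with h3 | h3
          · exact h3
          · exact absurd h3 h2
        rcases h1 with ⟨a1, a2⟩ | ⟨a1, a2⟩
        · rw [a1] at h3 he
          exact absurd he.symm (hx w' h3)
        · rw [a1] at h3 he
          exact absurd he.symm (hy w' h3)
    · rw [cadd_neg h1] at he
      have h3 : G.Adj v w := by
        rcases h.2 with h3 | h3
        · exact h3
        · exact absurd h3 h1
      by_cases h2 : (v = x ∧ w' = y) ∨ (v = y ∧ w' = x)
      · rw [cadd_pos h2] at he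
        rcases h2 with ⟨a1, a2⟩ | ⟨a1, a2⟩
        · rw [a1] at h3 he
          exact absurd he (hx w h3)
        · rw [a1] at h3 he
          exact absurd he (hy w h3)
      · rw [cadd_neg h2] at he
        have h4 : G.Adj v w' := by
          rcases h'.2 with h4 | h4
          · exact h4
          · exact absurd h4 h2
        exact hc.inj v w w' h3 h4 he

theorem hs_add {G : SimpleGraph V} {c : V → V → ℕ} {x y u : V} {β δ : ℕ} (hδ : δ ≠ β)
    (h : Hs (AddE G x y) (cadd x y β c) u δ) : Hs G c u δ := by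
  obtain ⟨w, hw, he⟩ := h
  rw [addE_adj] at hw
  by_cases h1 : (u = x ∧ w = y) ∨ (u = y ∧ w = x)
  · rw [cadd_pos h1] at he
    exact absurd he.symm hδ
  · rw [cadd_neg h1] at he
    rcases hw.2 with h3 | h3
    · exact ⟨w, h3, he⟩
    · exact absurd h3 h1

theorem hs_add_eq {G : SimpleGraph V} {c : V → V → ℕ} {x y u : V} {β : ℕ}
    (h : Hs (AddE G x y) (cadd x y β c) u β) : u = x ∨ u = y ∨ Hs G c u β := by
  obtain ⟨w, hw, he⟩ := h
  rw [addE_adj] at hw
  by_cases h1 : (u = x ∧ w = y) ∨ (u = y ∧ w = x)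
  · rcases h1 with h1 | h1
    · exact Or.inl h1.1
    · exact Or.inr (Or.inl h1.1)
  · rw [cadd_neg h1] at he
    rcases hw.2 with h3 | h3
    · exact Or.inr (Or.inr ⟨w, h3, he⟩)
    · exact absurd h3 h1

theorem av_add {G : SimpleGraph V} {r : V → V → Prop} {c : V → V → ℕ} {x y u : V} {β δ : ℕ}
    (hδ : δ ≠ β) (h : av G r c u δ) : av (AddE G x y) r (cadd x y β c) u δ :=
  ⟨fun h1 => h.1 (hs_add hδ h1), fun u1 u2 r1 r2 h1 h2 =>
    h.2 u1 u2 r1 r2 (hs_add hδ h1) (hs_add hδ h2)⟩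

theorem base {G : SimpleGraph V} {r : V → V → Prop} (hr : Equivalence r) {n : ℕ}
    {c : V → V → ℕ} (hc : UP G r n c) {x y : V} (hxy : ¬ r x y) {β : ℕ} (hβ : β < n)
    (hx : av G r c x β) (hy : av G r c y β) : UP (AddE G x y) r n (cadd x y β c) := by
  have hne : x ≠ y := fun h => hxy (h ▸ hr.refl x)
  refine ⟨pc_add hc.pc hne hβ (miss_of hx.1) (miss_of hy.1), ?_⟩
  intro a u1 u2 u3 h12 h13 h1 h2 h3
  by_cases ha : a = β
  · subst ha
    have h23 : r u2 u3 := hr.trans (hr.symm h12) h13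
    have key : ∀ p q s, r p q → r p s → Hs (AddE G x y) (cadd x y a c) q a →
        Hs (AddE G x y) (cadd x y a c) s a → (p = x ∨ p = y) → p = q ∨ p = s ∨ q = s := by
      intro p q s hpq hps hq hs hp
      rcases hp with rfl | rfl
      · rcases hs_add_eq hq with h | h | h
        · exact Or.inl h.symm
        · exact absurd (h ▸ hpq) hxy
        · rcases hs_add_eq hs with h' | h' | h'
          · exact Or.inr (Or.inl h'.symm)
          · exact absurd (h' ▸ hps) hxy
          · exact Or.inr (Or.inr (hx.2 q s hpq hps h h'))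
      · rcases hs_add_eq hq with h | h | h
        · exact absurd (hr.symm (h ▸ hpq)) hxy
        · exact Or.inl h.symm
        · rcases hs_add_eq hs with h' | h' | h'
          · exact absurd (hr.symm (h' ▸ hps)) hxy
          · exact Or.inr (Or.inl h'.symm)
          · exact Or.inr (Or.inr (hy.2 q s hpq hps h h'))
    rcases hs_add_eq h1 with e | e | e1
    · exact key u1 u2 u3 h12 h13 h2 h3 (Or.inl e)
    · exact key u1 u2 u3 h12 h13 h2 h3 (Or.inr e)
    rcases hs_add_eq h2 with e | e | e2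
    · have := key u2 u1 u3 (hr.symm h12) h23 h1 h3 (Or.inl e)
      tauto
    · have := key u2 u1 u3 (hr.symm h12) h23 h1 h3 (Or.inr e)
      tauto
    rcases hs_add_eq h3 with e | e | e3
    · have := key u3 u1 u2 (hr.symm h13) (hr.symm h23) h1 h2 (Or.inl e)
      tauto
    · have := key u3 u1 u2 (hr.symm h13) (hr.symm h23) h1 h2 (Or.inr e)
      tauto
    exact hc.cap a u1 u2 u3 h12 h13 e1 e2 e3
  · exact hc.cap a u1 u2 u3 h12 h13 (hs_add ha h1) (hs_add ha h2) (hs_add ha h3)

/-- the graph without the edge `x w` -/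
def delE (G : SimpleGraph V) (x w : V) : SimpleGraph V where
  Adj a b := G.Adj a b ∧ ¬ ((a = x ∧ b = w) ∨ (a = w ∧ b = x))
  symm := ⟨fun a b h => ⟨h.1.symm, fun h1 => h.2 (by tauto)⟩⟩
  loopless := ⟨fun a h => h.1.ne rfl⟩

theorem delE_le (G : SimpleGraph V) (x w : V) : delE G x w ≤ G := fun _ _ h => h.1

/-- rotating a fan -/
theorem rot {r : V → V → Prop} (hr : Equivalence r) {n : ℕ} {x : V} {β : ℕ} (hβ : β < n) :
    ∀ (l : List V) (G : SimpleGraph V) (c : V → V → ℕ) (y : V),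
      (∀ a b, G.Adj a b → ¬ r a b) → UP G r n c → ¬ r x y →
      (y :: l).Nodup → (y :: l).IsChain (FF G r c x) → av G r c x β →
      av G r c ((y :: l).getLast (List.cons_ne_nil _ _)) β → ∃ c', UP (AddE G x y) r n c' := by
  intro l
  induction l with
  | nil =>
    intro G c y hni hc hxy _ _ hx hy
    exact ⟨_, base hr hc hxy hβ hx hy⟩
  | cons w l ih =>
    intro G c y hni hc hxy hnd hch hx hy
    rw [List.isChain_cons_cons] at hch
    obtain ⟨⟨hxw, hmy⟩, hch⟩ := hch
    have hyl : y ∉ w :: l := by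
      rw [List.nodup_cons] at hnd
      exact hnd.1
    have hyw : y ≠ w := fun h => hyl (by rw [h]; exact List.mem_cons_self)
    have hndl : (w :: l).Nodup := by
      rw [List.nodup_cons] at hnd
      exact hnd.2
    have hxw' : x ≠ w := hxw.ne
    have hne : x ≠ y := fun h => hxy (h ▸ hr.refl x)
    have hxγ : Hs G c x (c x w) := ⟨w, hxw, rfl⟩
    -- without the edge
    have hc0 := hc.mono (delE_le G x w)
    have hx0 : av (delE G x w) r c x (c x w) := by
      have h0 : ¬ Hs (delE G x w) c x (c x w) := by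
        rintro ⟨z, hz, he⟩
        have := hc.pc.inj x z w hz.1 hxw he
        exact hz.2 (Or.inl ⟨rfl, this⟩)
      refine ⟨h0, fun u1 u2 r1 r2 h1 h2 => ?_⟩
      rcases hc.cap (c x w) x u1 u2 r1 r2 hxγ (hs_mono (delE_le G x w) h1)
        (hs_mono (delE_le G x w) h2) with h | h | h
      · exact absurd (h ▸ h1) h0
      · exact absurd (h ▸ h2) h0
      · exact h
    have hy0 : av (delE G x w) r c y (c x w) :=
      ⟨fun h => hmy.1 (hs_mono (delE_le G x w) h), fun u1 u2 r1 r2 h1 h2 =>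
        hmy.2 u1 u2 r1 r2 (hs_mono (delE_le G x w) h1) (hs_mono (delE_le G x w) h2)⟩
    have hc1 := base hr hc0 hxy (hc.pc.lt x w hxw) hx0 hy0
    set G1 := AddE (delE G x w) x y with hG1
    set c1 := cadd x y (c x w) c with hc1d
    have hav : ∀ u δ, δ ≠ c x w → av G r c u δ → av G1 r c1 u δ := by
      intro u δ hδ h
      apply av_add hδ
      exact ⟨fun h1 => h.1 (hs_mono (delE_le G x w) h1), fun u1 u2 r1 r2 h1 h2 =>
        h.2 u1 u2 r1 r2 (hs_mono (delE_le G x w) h1) (hs_mono (delE_le G x w) h2)⟩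
    have hni1 : ∀ a b, G1.Adj a b → ¬ r a b := by
      intro a b h
      rw [hG1, addE_adj] at h
      rcases h.2 with h1 | h1 | h1
      · exact hni a b h1.1
      · rw [h1.1, h1.2]
        exact hxy
      · rw [h1.1, h1.2]
        exact fun h2 => hxy (hr.symm h2)
    have hadd : AddE G1 x w = AddE G x y := by
      ext a b
      rw [addE_adj, hG1, addE_adj, addE_adj]
      change (a ≠ b ∧ ((a ≠ b ∧ ((G.Adj a b ∧ ¬ ((a = x ∧ b = w) ∨ (a = w ∧ b = x))) ∨
        (a = x ∧ b = y) ∨ (a = y ∧ b = x))) ∨ (a = x ∧ b = w) ∨ (a = w ∧ b = x))) ↔ _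
      have e1 : (a = x ∧ b = w) → G.Adj a b := by
        rintro ⟨rfl, rfl⟩
        exact hxw
      have e2 : (a = w ∧ b = x) → G.Adj a b := by
        rintro ⟨rfl, rfl⟩
        exact hxw.symm
      tauto
    rw [← hadd]
    have hadj : ∀ u ∈ w :: l, G.Adj x u := by
      intro u hu
      rcases List.mem_cons.1 hu with h | h
      · rw [h]; exact hxw
      · obtain ⟨l1, l2, rfl⟩ := List.append_of_mem h
        rw [show w :: (l1 ++ u :: l2) = (w :: l1) ++ u :: l2 from rfl] at hch
        rw [List.isChain_append] at hch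
        have h2 := hch.2.2 ((w :: l1).getLast (List.cons_ne_nil _ _))
          (by rw [List.getLast?_eq_getLast_of_ne_nil (List.cons_ne_nil _ _)]; rfl) u (by simp)
        exact h2.1
    refine ih G1 c1 w hni1 hc1 (hni x w hxw) hndl ?_ ?_ ?_
    · refine hch.imp_of_mem_tail_imp ?_
      intro a b ha hb hab
      have hb' : b ≠ w := by
        rintro rfl
        rw [List.tail_cons] at hb
        rw [List.nodup_cons] at hndl
        exact hndl.1 hb
      have hbm : b ∈ w :: l := List.mem_of_mem_tail hb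
      have hby : b ≠ y := fun h => hyl (h ▸ hbm)
      have hbx : b ≠ x := fun h => (hadj b hbm).ne h.symm
      have hcb : c1 x b = c x b := cadd_neg (by
        rintro (h1 | h1)
        · exact hby h1.2
        · exact hne h1.1)
      refine ⟨?_, ?_⟩
      · rw [hG1, addE_adj]
        refine ⟨fun h => hbx h.symm, Or.inl ⟨hab.1, ?_⟩⟩
        rintro (⟨_, h1⟩ | ⟨h1, _⟩)
        · exact hb' h1
        · exact hxw' h1
      · rw [hcb]
        exact hav a _ (fun h => hb' (hc.pc.inj x b w hab.1 hxw h)) hab.2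
    · exact hav x β (fun h => hx.1 (h ▸ hxγ)) hx
    · rw [List.getLast_cons (List.cons_ne_nil _ _)] at hy
      exact hav _ β (fun h => hx.1 (h ▸ hxγ)) hy

theorem nodup_chain {R : V → V → Prop} {y w : V} (h : Relation.ReflTransGen R y w) :
    ∃ l : List V, (y :: l).Nodup ∧ (y :: l).IsChain R ∧
      (y :: l).getLast (List.cons_ne_nil _ _) = w := by
  classical
  induction h with
  | refl => exact ⟨[], List.nodup_singleton _, List.isChain_singleton _, rfl⟩
  | @tail u w _ huw ih =>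
    obtain ⟨l, hnd, hch, hlast⟩ := ih
    by_cases hw : w ∈ y :: l
    · rcases List.mem_cons.1 hw with h1 | h1
      · exact ⟨[], List.nodup_singleton _, List.isChain_singleton _, h1.symm⟩
      · obtain ⟨l1, l2, rfl⟩ := List.append_of_mem h1
        rw [show y :: (l1 ++ w :: l2) = (y :: (l1 ++ [w])) ++ l2 by simp] at hnd hch
        refine ⟨l1 ++ [w], (List.nodup_append.1 hnd).1, (List.isChain_append.1 hch).1, by simp⟩
    · refine ⟨l ++ [w], ?_, ?_, by simp⟩
      · rw [show y :: (l ++ [w]) = (y :: l) ++ [w] from rfl, List.nodup_append]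
        refine ⟨hnd, List.nodup_singleton _, ?_⟩
        intro a ha b hb hab
        rw [List.mem_singleton] at hb
        rw [hb] at hab
        exact hw (hab ▸ ha)
      · rw [show y :: (l ++ [w]) = (y :: l) ++ [w] from rfl, List.isChain_append]
        refine ⟨hch, List.isChain_singleton _, ?_⟩
        intro a ha b hb
        rw [List.getLast?_eq_getLast_of_ne_nil (List.cons_ne_nil _ _)] at ha
        simp only [List.head?_cons, Option.mem_def, Option.some.injEq] at ha hb
        rw [← hb, ← ha, hlast]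
        exact huw

theorem rotR {r : V → V → Prop} (hr : Equivalence r) {n : ℕ} {G : SimpleGraph V}
    (hni : ∀ a b, G.Adj a b → ¬ r a b) {c : V → V → ℕ} (hc : UP G r n c) {x y : V}
    (hxy : ¬ r x y) {w : V} (h : Relation.ReflTransGen (FF G r c x) y w) {β : ℕ} (hβ : β < n)
    (hx : av G r c x β) (hw : av G r c w β) : ∃ c', UP (AddE G x y) r n c' := by
  obtain ⟨l, hnd, hch, hlast⟩ := nodup_chain h
  exact rot hr hβ l G c y hni hc hxy hnd hch hx (by rw [hlast]; exact hw)

/-! ### swaps -/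

/-- the vertices with colour `α` after the swap on `Q` -/
def Ha (G : SimpleGraph V) (c : V → V → ℕ) (α β : ℕ) (Q : V → Prop) (u : V) : Prop :=
  (¬ Q u ∧ Hs G c u α) ∨ (Q u ∧ Hs G c u β)

/-- a pairing at the class of `v` -/
structure Loc (G : SimpleGraph V) (r : V → V → Prop) (c : V → V → ℕ) (α β : ℕ) (v : V)
    (π : V → V) : Prop where
  inv : ∀ u, r v u → π (π u) = u
  cls : ∀ u, r v u → r v (π u)
  typ : ∀ u, r v u → π u ≠ u → (Hs G c u α ∧ ¬ Hs G c u β ∧ Hs G c (π u) β ∧ ¬ Hs G c (π u) α) ∨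
    (Hs G c u β ∧ ¬ Hs G c u α ∧ Hs G c (π u) α ∧ ¬ Hs G c (π u) β)
  cap : ∀ Q : V → Prop, (∀ u, r v u → (Q u ↔ Q (π u))) → ∀ u1 u2 u3, r v u1 → r v u2 → r v u3 →
    Ha G c α β Q u1 → Ha G c α β Q u2 → Ha G c α β Q u3 → u1 = u2 ∨ u1 = u3 ∨ u2 = u3

/-- the end of a marked vertex `w` -/
structure End (G : SimpleGraph V) (r : V → V → Prop) (c : V → V → ℕ) (α β : ℕ) (w : V)
    (π : V → V) (e : V) : Prop where
  cls : r w e
  ha : Hs G c e α
  hb : ¬ Hs G c e β
  fx : π e = e
  e1 : ∀ Q : V → Prop, (∀ u, r w u → (Q u ↔ Q (π u))) → Q e → ¬ Ha G c α β Q w ∧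
    ∀ u1 u2, r w u1 → r w u2 → Ha G c α β Q u1 → Ha G c α β Q u2 → u1 = u2
  e2 : ∀ Q : V → Prop, (∀ u, r w u → (Q u ↔ Q (π u))) → ¬ Q e → ¬ Ha G c β α Q w ∧
    ∀ u1 u2, r w u1 → r w u2 → Ha G c β α Q u1 → Ha G c β α Q u2 → u1 = u2

theorem exists_inv (A B : Finset V) (hd : ∀ u ∈ A, u ∉ B) (h : A.card ≤ B.card) :
    ∃ π : V → V, (∀ u, π (π u) = u) ∧ (∀ u ∈ A, π u ∈ B) ∧
      ∀ u, π u ≠ u → (u ∈ A ∧ π u ∈ B) ∨ (u ∈ B ∧ π u ∈ A) := by
  classical
  obtain ⟨B', hB', hcard⟩ := Finset.exists_subset_card_eq h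
  let σ : A ≃ B' := Finset.equivOfCardEq hcard.symm
  have hd' : ∀ u ∈ A, u ∉ B' := fun u hu hu' => hd u hu (hB' hu')
  let π : V → V := fun u => if hA : u ∈ A then (σ ⟨u, hA⟩ : V) else
    if hB : u ∈ B' then (σ.symm ⟨u, hB⟩ : V) else u
  have h1 : ∀ u (hA : u ∈ A), π u = σ ⟨u, hA⟩ := fun u hA => dif_pos hA
  have h2 : ∀ u (hB : u ∈ B'), π u = σ.symm ⟨u, hB⟩ := fun u hB => by
    have hA : u ∉ A := fun hA => hd' u hA hB
    change (if hA : u ∈ A then (σ ⟨u, hA⟩ : V) else
      if hB : u ∈ B' then (σ.symm ⟨u, hB⟩ : V) else u) = _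
    rw [dif_neg hA, dif_pos hB]
  have h3 : ∀ u, u ∉ A → u ∉ B' → π u = u := fun u hA hB => by
    change (if hA : u ∈ A then (σ ⟨u, hA⟩ : V) else
      if hB : u ∈ B' then (σ.symm ⟨u, hB⟩ : V) else u) = _
    rw [dif_neg hA, dif_neg hB]
  refine ⟨π, ?_, ?_, ?_⟩
  · intro u
    by_cases hA : u ∈ A
    · rw [h1 u hA, h2 _ (σ ⟨u, hA⟩).2]
      simp
    · by_cases hB : u ∈ B'
      · rw [h2 u hB, h1 _ (σ.symm ⟨u, hB⟩).2]
        simp
      · rw [h3 u hA hB, h3 u hA hB]
  · intro u hA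
    rw [h1 u hA]
    exact hB' (σ ⟨u, hA⟩).2
  · intro u hu
    by_cases hA : u ∈ A
    · left
      refine ⟨hA, ?_⟩
      rw [h1 u hA]
      exact hB' (σ ⟨u, hA⟩).2
    · by_cases hB : u ∈ B'
      · right
        refine ⟨hB' hB, ?_⟩
        rw [h2 u hB]
        exact (σ.symm ⟨u, hB⟩).2
      · exact absurd (h3 u hA hB) hu

theorem exists_loc [Fintype V] {G : SimpleGraph V} {r : V → V → Prop} (hr : Equivalence r)
    {n : ℕ} {c : V → V → ℕ} (hc : UP G r n c) (α β : ℕ) (v : V) : ∃ π, Loc G r c α β v π := by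
  classical
  set A : Finset V := Finset.univ.filter fun u => r v u ∧ Hs G c u α ∧ ¬ Hs G c u β with hA
  set B : Finset V := Finset.univ.filter fun u => r v u ∧ Hs G c u β ∧ ¬ Hs G c u α with hB
  have mA : ∀ u, u ∈ A ↔ r v u ∧ Hs G c u α ∧ ¬ Hs G c u β := fun u => by simp [hA]
  have mB : ∀ u, u ∈ B ↔ r v u ∧ Hs G c u β ∧ ¬ Hs G c u α := fun u => by simp [hB]
  rcases le_total A.card B.card with hle | hle
  · obtain ⟨π, p1, p2, p3⟩ := exists_inv A B (fun u hu hu' => ((mB u).1 hu').2.2 ((mA u).1 hu).2.1)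
      hle
    refine ⟨π, fun u _ => p1 u, ?_, ?_, ?_⟩
    · intro u hu
      by_cases h : π u = u
      · rw [h]; exact hu
      · rcases p3 u h with h1 | h1
        · exact ((mB _).1 h1.2).1
        · exact ((mA _).1 h1.2).1
    · intro u hu h
      rcases p3 u h with h1 | h1
      · have a1 := (mA _).1 h1.1
        have a2 := (mB _).1 h1.2
        exact Or.inl ⟨a1.2.1, a1.2.2, a2.2.1, a2.2.2⟩
      · have a1 := (mB _).1 h1.1
        have a2 := (mA _).1 h1.2
        exact Or.inr ⟨a1.2.1, a1.2.2, a2.2.1, a2.2.2⟩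
    · intro Q hQ u1 u2 u3 r1 r2 r3 h1 h2 h3
      obtain ⟨ψ, hψ⟩ : ∃ ψ : V → V, ψ = fun u => if u ∈ A then π u else u := ⟨_, rfl⟩
      have q1 : ∀ u, r v u → Ha G c α β Q u → r v (ψ u) ∧ Hs G c (ψ u) β := by
        intro u hu h
        rw [hψ]
        by_cases huA : u ∈ A
        · simp only [huA, if_true]
          have := (mB _).1 (p2 u huA)
          exact ⟨this.1, this.2.1⟩
        · simp only [huA, if_false]
          refine ⟨hu, ?_⟩
          rcases h with h | h
          · by_contra hb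
            exact huA ((mA u).2 ⟨hu, h.2, hb⟩)
          · exact h.2
      have hx : ∀ u u', r v u → Ha G c α β Q u → Ha G c α β Q u' → u ∈ A → u' ∉ A →
          π u = u' → False := by
        intro u u' hu h h' huA huA' he
        have a1 := (mA u).1 huA
        have a2 := (mB _).1 (p2 u huA)
        rcases h with h | h
        · rw [he] at a2
          rcases h' with h' | h'
          · exact a2.2.2 h'.2
          · have := (hQ u hu).2 (he ▸ h'.1)
            exact h.1 this
        · exact a1.2.2 h.2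
      have q2 : ∀ u u', r v u → r v u' → Ha G c α β Q u → Ha G c α β Q u' → ψ u = ψ u' → u = u' := by
        intro u u' hu hu' h h' he
        rw [hψ] at he
        by_cases huA : u ∈ A <;> by_cases huA' : u' ∈ A
        · simp only [huA, huA', if_true] at he
          rw [← p1 u, he, p1 u']
        · simp only [huA, huA', if_true, if_false] at he
          exact (hx u u' hu h h' huA huA' he).elim
        · simp only [huA, huA', if_true, if_false] at he
          exact (hx u' u hu' h' h huA' huA he.symm).elim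
        · simpa only [huA, huA', if_false] using he
      obtain ⟨s1, t1⟩ := q1 u1 r1 h1
      obtain ⟨s2, t2⟩ := q1 u2 r2 h2
      obtain ⟨s3, t3⟩ := q1 u3 r3 h3
      rcases hc.cap β (ψ u1) (ψ u2) (ψ u3) (hr.trans (hr.symm s1) s2) (hr.trans (hr.symm s1) s3)
        t1 t2 t3 with h | h | h
      · exact Or.inl (q2 u1 u2 r1 r2 h1 h2 h)
      · exact Or.inr (Or.inl (q2 u1 u3 r1 r3 h1 h3 h))
      · exact Or.inr (Or.inr (q2 u2 u3 r2 r3 h2 h3 h))
  · obtain ⟨π, p1, p2, p3⟩ := exists_inv B A (fun u hu hu' => ((mA u).1 hu').2.2 ((mB u).1 hu).2.1)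
      hle
    refine ⟨π, fun u _ => p1 u, ?_, ?_, ?_⟩
    · intro u hu
      by_cases h : π u = u
      · rw [h]; exact hu
      · rcases p3 u h with h1 | h1
        · exact ((mA _).1 h1.2).1
        · exact ((mB _).1 h1.2).1
    · intro u hu h
      rcases p3 u h with h1 | h1
      · have a1 := (mB _).1 h1.1
        have a2 := (mA _).1 h1.2
        exact Or.inr ⟨a1.2.1, a1.2.2, a2.2.1, a2.2.2⟩
      · have a1 := (mA _).1 h1.1
        have a2 := (mB _).1 h1.2
        exact Or.inl ⟨a1.2.1, a1.2.2, a2.2.1, a2.2.2⟩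
    · intro Q hQ u1 u2 u3 r1 r2 r3 h1 h2 h3
      obtain ⟨ψ, hψ⟩ : ∃ ψ : V → V, ψ = fun u => if u ∈ B then π u else u := ⟨_, rfl⟩
      have q1 : ∀ u, r v u → Ha G c α β Q u → r v (ψ u) ∧ Hs G c (ψ u) α := by
        intro u hu h
        rw [hψ]
        by_cases huA : u ∈ B
        · simp only [huA, if_true]
          have := (mA _).1 (p2 u huA)
          exact ⟨this.1, this.2.1⟩
        · simp only [huA, if_false]
          refine ⟨hu, ?_⟩
          rcases h with h | h
          · exact h.2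
          · by_contra hb
            exact huA ((mB u).2 ⟨hu, h.2, hb⟩)
      have hx : ∀ u u', r v u → Ha G c α β Q u → Ha G c α β Q u' → u ∈ B → u' ∉ B →
          π u = u' → False := by
        intro u u' hu h h' huA huA' he
        have a1 := (mB u).1 huA
        have a2 := (mA _).1 (p2 u huA)
        rcases h with h | h
        · exact a1.2.2 h.2
        · rw [he] at a2
          rcases h' with h' | h'
          · have := (hQ u hu).1 h.1
            rw [he] at this
            exact h'.1 this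
          · exact a2.2.2 h'.2
      have q2 : ∀ u u', r v u → r v u' → Ha G c α β Q u → Ha G c α β Q u' → ψ u = ψ u' → u = u' := by
        intro u u' hu hu' h h' he
        rw [hψ] at he
        by_cases huA : u ∈ B <;> by_cases huA' : u' ∈ B
        · simp only [huA, huA', if_true] at he
          rw [← p1 u, he, p1 u']
        · simp only [huA, huA', if_true, if_false] at he
          exact (hx u u' hu h h' huA huA' he).elim
        · simp only [huA, huA', if_true, if_false] at he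
          exact (hx u' u hu' h' h huA' huA he.symm).elim
        · simpa only [huA, huA', if_false] using he
      obtain ⟨s1, t1⟩ := q1 u1 r1 h1
      obtain ⟨s2, t2⟩ := q1 u2 r2 h2
      obtain ⟨s3, t3⟩ := q1 u3 r3 h3
      rcases hc.cap α (ψ u1) (ψ u2) (ψ u3) (hr.trans (hr.symm s1) s2) (hr.trans (hr.symm s1) s3)
        t1 t2 t3 with h | h | h
      · exact Or.inl (q2 u1 u2 r1 r2 h1 h2 h)
      · exact Or.inr (Or.inl (q2 u1 u3 r1 r3 h1 h3 h))
      · exact Or.inr (Or.inr (q2 u2 u3 r2 r3 h2 h3 h))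

theorem exists_end [Fintype V] {G : SimpleGraph V} {r : V → V → Prop} (hr : Equivalence r)
    {n : ℕ} {c : V → V → ℕ} (hc : UP G r n c) (α β : ℕ) {v w : V} (hvw : r v w)
    (hw1 : av G r c w β) (hw2 : ¬ av G r c w α) :
    ∃ π e, Loc G r c α β v π ∧ End G r c α β w π e := by
  classical
  have hβu : ∀ u1 u2, r v u1 → r v u2 → Hs G c u1 β → Hs G c u2 β → u1 = u2 := fun u1 u2 r1 r2 =>
    hw1.2 u1 u2 (hr.trans (hr.symm hvw) r1) (hr.trans (hr.symm hvw) r2)
  -- the end
  obtain ⟨e, hve, hea, heb, hwe⟩ : ∃ e, r v e ∧ Hs G c e α ∧ ¬ Hs G c e β ∧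
      (w = e ∨ ¬ Hs G c w α) := by
    by_cases hwa : Hs G c w α
    · exact ⟨w, hvw, hwa, hw1.1, Or.inl rfl⟩
    · have h1 : ∃ u1 u2, r w u1 ∧ r w u2 ∧ Hs G c u1 α ∧ Hs G c u2 α ∧ u1 ≠ u2 := by
        by_contra hcon
        push Not at hcon
        exact hw2 ⟨hwa, fun u1 u2 r1 r2 h1 h2 => hcon u1 u2 r1 r2 h1 h2⟩
      obtain ⟨u1, u2, r1, r2, h1, h2, hne⟩ := h1
      by_cases hb : Hs G c u1 β
      · refine ⟨u2, hr.trans hvw r2, h2, fun hb2 => hne ?_, Or.inr hwa⟩
        exact hw1.2 u1 u2 r1 r2 hb hb2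
      · exact ⟨u1, hr.trans hvw r1, h1, hb, Or.inr hwa⟩
  have hαu : ∀ u1 u2, r v u1 → r v u2 → Hs G c u1 α → Hs G c u2 α → u1 ≠ e → u2 ≠ e →
      u1 = u2 := by
    intro u1 u2 r1 r2 h1 h2 n1 n2
    rcases hc.cap α e u1 u2 (hr.trans (hr.symm hve) r1) (hr.trans (hr.symm hve) r2) hea h1 h2
      with h | h | h
    · exact absurd h.symm n1
    · exact absurd h.symm n2
    · exact h
  -- it is enough to have a pairing with uniqueness away from `e`
  suffices hmain : ∃ π : V → V, (∀ u, π (π u) = u) ∧ (∀ u, r v u → r v (π u)) ∧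
      (∀ u, r v u → π u ≠ u →
        (Hs G c u α ∧ ¬ Hs G c u β ∧ Hs G c (π u) β ∧ ¬ Hs G c (π u) α) ∨
        (Hs G c u β ∧ ¬ Hs G c u α ∧ Hs G c (π u) α ∧ ¬ Hs G c (π u) β)) ∧ π e = e ∧
      ∀ Q : V → Prop, (∀ u, r v u → (Q u ↔ Q (π u))) → ∀ u1 u2, r v u1 → r v u2 →
        Ha G c α β Q u1 → Ha G c α β Q u2 → u1 ≠ e → u2 ≠ e → u1 = u2 by
    obtain ⟨π, p1, p2, p3, p4, p5⟩ := hmain
    refine ⟨π, e, ⟨fun u _ => p1 u, p2, p3, ?_⟩, hr.trans (hr.symm hvw) hve, hea, heb, p4, ?_, ?_⟩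
    · intro Q hQ u1 u2 u3 r1 r2 r3 h1 h2 h3
      by_cases n1 : u1 = e
      · by_cases n2 : u2 = e
        · exact Or.inl (n1.trans n2.symm)
        · by_cases n3 : u3 = e
          · exact Or.inr (Or.inl (n1.trans n3.symm))
          · exact Or.inr (Or.inr (p5 Q hQ u2 u3 r2 r3 h2 h3 n2 n3))
      · by_cases n2 : u2 = e
        · by_cases n3 : u3 = e
          · exact Or.inr (Or.inr (n2.trans n3.symm))
          · exact Or.inr (Or.inl (p5 Q hQ u1 u3 r1 r3 h1 h3 n1 n3))
        · exact Or.inl (p5 Q hQ u1 u2 r1 r2 h1 h2 n1 n2)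
    · intro Q hQ hQe
      have hQ' : ∀ u, r v u → (Q u ↔ Q (π u)) := fun u hu => hQ u (hr.trans (hr.symm hvw) hu)
      have hne : ¬ Ha G c α β Q e := by
        rintro (h | h)
        · exact h.1 hQe
        · exact heb h.2
      refine ⟨?_, fun u1 u2 r1 r2 h1 h2 => p5 Q hQ' u1 u2 (hr.trans hvw r1) (hr.trans hvw r2) h1 h2
        (fun h => hne (h ▸ h1)) (fun h => hne (h ▸ h2))⟩
      rintro (h | h)
      · rcases hwe with h' | h'
        · exact h.1 (h' ▸ hQe)
        · exact h' h.2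
      · exact hw1.1 h.2
    · intro Q hQ hQe
      have hQ' : ∀ u, r v u → ((fun u => ¬ Q u) u ↔ (fun u => ¬ Q u) (π u)) := fun u hu =>
        not_congr (hQ u (hr.trans (hr.symm hvw) hu))
      have hconv : ∀ u, Ha G c β α Q u → Ha G c α β (fun u => ¬ Q u) u := by
        rintro u (h | h)
        · exact Or.inr ⟨h.1, h.2⟩
        · exact Or.inl ⟨not_not.2 h.1, h.2⟩
      have hne : ¬ Ha G c β α Q e := by
        rintro (h | h)
        · exact heb h.2
        · exact hQe h.1
      refine ⟨?_, fun u1 u2 r1 r2 h1 h2 => p5 _ hQ' u1 u2 (hr.trans hvw r1) (hr.trans hvw r2)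
        (hconv u1 h1) (hconv u2 h2) (fun h => hne (h ▸ h1)) (fun h => hne (h ▸ h2))⟩
      rintro (h | h)
      · exact hw1.1 h.2
      · rcases hwe with h' | h'
        · exact hQe (h' ▸ h.1)
        · exact h' h.2
  set A : Finset V := Finset.univ.filter fun u => r v u ∧ Hs G c u β ∧ ¬ Hs G c u α with hA
  set B : Finset V := Finset.univ.filter fun u => r v u ∧ Hs G c u α ∧ ¬ Hs G c u β ∧ u ≠ e with hB
  have mA : ∀ u, u ∈ A ↔ r v u ∧ Hs G c u β ∧ ¬ Hs G c u α := fun u => by simp [hA]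
  have mB : ∀ u, u ∈ B ↔ r v u ∧ Hs G c u α ∧ ¬ Hs G c u β ∧ u ≠ e := fun u => by simp [hB]
  by_cases hle : A.card ≤ B.card
  · obtain ⟨π, p1, p2, p3⟩ := exists_inv A B (fun u hu hu' => ((mA u).1 hu).2.2 ((mB u).1 hu').2.1)
      hle
    refine ⟨π, p1, ?_, ?_, ?_, ?_⟩
    · intro u hu
      by_cases h : π u = u
      · rw [h]; exact hu
      · rcases p3 u h with h1 | h1
        · exact ((mB _).1 h1.2).1
        · exact ((mA _).1 h1.2).1
    · intro u hu h
      rcases p3 u h with h1 | h1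
      · have a1 := (mA _).1 h1.1
        have a2 := (mB _).1 h1.2
        exact Or.inr ⟨a1.2.1, a1.2.2, a2.2.1, a2.2.2.1⟩
      · have a1 := (mB _).1 h1.1
        have a2 := (mA _).1 h1.2
        exact Or.inl ⟨a1.2.1, a1.2.2.1, a2.2.1, a2.2.2⟩
    · by_contra h
      rcases p3 e h with h1 | h1
      · exact heb ((mA _).1 h1.1).2.1
      · exact ((mB _).1 h1.1).2.2.2 rfl
    · intro Q hQ u1 u2 r1 r2 h1 h2 n1 n2
      obtain ⟨ψ, hψ⟩ : ∃ ψ : V → V, ψ = fun u => if u ∈ A then π u else u := ⟨_, rfl⟩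
      have q1 : ∀ u, r v u → Ha G c α β Q u → u ≠ e → r v (ψ u) ∧ Hs G c (ψ u) α ∧ ψ u ≠ e := by
        intro u hu h hne
        rw [hψ]
        by_cases huA : u ∈ A
        · simp only [huA, if_true]
          have := (mB _).1 (p2 u huA)
          exact ⟨this.1, this.2.1, this.2.2.2⟩
        · simp only [huA, if_false]
          refine ⟨hu, ?_, hne⟩
          rcases h with h | h
          · exact h.2
          · by_contra hb
            exact huA ((mA u).2 ⟨hu, h.2, hb⟩)
      have hx : ∀ u u', r v u → Ha G c α β Q u → Ha G c α β Q u' → u ∈ A → π u = u' → False := by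
        intro u u' hu h h' huA he
        have a1 := (mA u).1 huA
        have a2 := (mB _).1 (p2 u huA)
        rcases h with h | h
        · exact a1.2.2 h.2
        · rw [he] at a2
          rcases h' with h' | h'
          · have := (hQ u hu).1 h.1
            rw [he] at this
            exact h'.1 this
          · exact a2.2.2.1 h'.2
      obtain ⟨s1, t1, w1⟩ := q1 u1 r1 h1 n1
      obtain ⟨s2, t2, w2⟩ := q1 u2 r2 h2 n2
      have he := hαu _ _ s1 s2 t1 t2 w1 w2
      rw [hψ] at he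
      by_cases huA : u1 ∈ A <;> by_cases huA' : u2 ∈ A
      · simp only [huA, huA', if_true] at he
        rw [← p1 u1, he, p1 u2]
      · simp only [huA, huA', if_true, if_false] at he
        exact (hx u1 u2 r1 h1 h2 huA he).elim
      · simp only [huA, huA', if_true, if_false] at he
        exact (hx u2 u1 r2 h2 h1 huA' he.symm).elim
      · simpa only [huA, huA', if_false] using he
  · -- `B` is empty
    have hA1 : A.card ≤ 1 := by
      rw [Finset.card_le_one]
      intro a ha b hb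
      exact hβu a b ((mA a).1 ha).1 ((mA b).1 hb).1 ((mA a).1 ha).2.1 ((mA b).1 hb).2.1
    have hB0 : B = ∅ := by
      rw [← Finset.card_eq_zero]
      omega
    refine ⟨id, fun u => rfl, fun u hu => hu, fun u _ h => absurd rfl h, rfl, ?_⟩
    intro Q hQ u1 u2 r1 r2 h1 h2 n1 n2
    have q1 : ∀ u, r v u → Ha G c α β Q u → u ≠ e → Hs G c u β := by
      intro u hu h hne
      rcases h with h | h
      · by_contra hb
        have : u ∈ B := (mB u).2 ⟨hu, h.2, hb, hne⟩
        rw [hB0] at this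
        exact absurd this (Finset.notMem_empty u)
      · exact h.2
    exact hβu u1 u2 r1 r2 (q1 u1 r1 h1 n1) (q1 u2 r2 h2 n2)

/-- a global pairing -/
structure Glob (G : SimpleGraph V) (r : V → V → Prop) (c : V → V → ℕ) (α β : ℕ)
    (π : V → V) : Prop where
  inv : ∀ u, π (π u) = u
  cls : ∀ u, r u (π u)
  typ : ∀ u, π u ≠ u → (Hs G c u α ∧ ¬ Hs G c u β ∧ Hs G c (π u) β ∧ ¬ Hs G c (π u) α) ∨
    (Hs G c u β ∧ ¬ Hs G c u α ∧ Hs G c (π u) α ∧ ¬ Hs G c (π u) β)
  cap : ∀ Q : V → Prop, (∀ u, (Q u ↔ Q (π u))) → ∀ u1 u2 u3, r u1 u2 → r u1 u3 →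
    Ha G c α β Q u1 → Ha G c α β Q u2 → Ha G c α β Q u3 → u1 = u2 ∨ u1 = u3 ∨ u2 = u3

theorem exists_glob [Fintype V] {G : SimpleGraph V} {r : V → V → Prop} (hr : Equivalence r)
    {n : ℕ} {c : V → V → ℕ} (hc : UP G r n c) (α β : ℕ) (W : Set V)
    (hW1 : ∀ w ∈ W, av G r c w β) (hW2 : ∀ w ∈ W, ¬ av G r c w α)
    (hW3 : ∀ w ∈ W, ∀ w' ∈ W, r w w' → w = w') :
    ∃ (π : V → V) (e : V → V), Glob G r c α β π ∧ ∀ w ∈ W, End G r c α β w π (e w) := by
  classical
  have hloc : ∀ v, ∃ (π : V → V) (e : V), Loc G r c α β v π ∧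
      ∀ w ∈ W, r v w → End G r c α β w π e := by
    intro v
    by_cases h : ∃ w ∈ W, r v w
    · obtain ⟨w, hw, hvw⟩ := h
      obtain ⟨π, e, h1, h2⟩ := exists_end hr hc α β hvw (hW1 w hw) (hW2 w hw)
      refine ⟨π, e, h1, fun w' hw' hvw' => ?_⟩
      have := hW3 w hw w' hw' (hr.trans (hr.symm hvw) hvw')
      subst this
      exact h2
    · push Not at h
      obtain ⟨π, h1⟩ := exists_loc hr hc α β v
      exact ⟨π, v, h1, fun w hw hvw => absurd hvw (h w hw)⟩
  choose P E hP hE using hloc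
  let s : Setoid V := ⟨r, hr⟩
  let rep : V → V := fun u => (Quotient.mk s u).out
  have hrep : ∀ u, r (rep u) u := fun u => Quotient.exact (Quotient.out_eq (Quotient.mk s u))
  have hrep2 : ∀ u v, r u v → rep u = rep v := fun u v h => by
    change (Quotient.mk s u).out = (Quotient.mk s v).out
    rw [Quotient.sound (s := s) h]
  let π : V → V := fun u => P (rep u) u
  have hπ : ∀ v u, r v u → π u = P (rep v) u := fun v u h => by
    change P (rep u) u = _
    rw [hrep2 v u h]
  have hcls : ∀ u, r u (π u) := fun u =>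
    hr.trans (hr.symm (hrep u)) ((hP (rep u)).cls u (hrep u))
  refine ⟨π, fun w => E (rep w), ⟨?_, hcls, ?_, ?_⟩, ?_⟩
  · intro u
    rw [hπ u (π u) (hcls u)]
    exact (hP (rep u)).inv u (hrep u)
  · intro u hu
    exact (hP (rep u)).typ u (hrep u) hu
  · intro Q hQ u1 u2 u3 h12 h13 h1 h2 h3
    refine (hP (rep u1)).cap Q (fun u hu => ?_) u1 u2 u3 (hrep u1) (hr.trans (hrep u1) h12)
      (hr.trans (hrep u1) h13) h1 h2 h3
    have := hQ u
    rwa [hπ u1 u (hr.trans (hr.symm (hrep u1)) hu)] at this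
  · intro w hw
    have h := hE (rep w) w hw (hrep w)
    have hcl : ∀ Q : V → Prop, (∀ u, r w u → (Q u ↔ Q (π u))) →
        ∀ u, r w u → (Q u ↔ Q (P (rep w) u)) := by
      intro Q hQ u hu
      have := hQ u hu
      rwa [hπ w u hu] at this
    refine ⟨h.cls, h.ha, h.hb, ?_, fun Q hQ => h.e1 Q (hcl Q hQ), fun Q hQ => h.e2 Q (hcl Q hQ)⟩
    rw [hπ w _ h.cls]
    exact h.fx

/-- the Kempe graph with pairings -/
def KP {G : SimpleGraph V} {c : V → V → ℕ} (hs : ∀ v w, G.Adj v w → c v w = c w v) (α β : ℕ)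
    {π : V → V} (hπ : ∀ u, π (π u) = u) : SimpleGraph V where
  Adj u v := (Kem G c hs α β).Adj u v ∨ (u ≠ v ∧ π u = v)
  symm := ⟨fun u v h => by
    rcases h with h | h
    · exact Or.inl h.symm
    · refine Or.inr ⟨h.1.symm, ?_⟩
      rw [← h.2, hπ]⟩
  loopless := ⟨fun u h => by
    rcases h with h | h
    · exact h.ne rfl
    · exact h.1 rfl⟩

section kp

variable {G : SimpleGraph V} {r : V → V → Prop} {n : ℕ} {c : V → V → ℕ} {α β : ℕ} {π : V → V}

theorem kp_two (hc : PC G n c) (hG : Glob G r c α β π) :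
    ∀ v a b d, (KP hc.symm α β hG.inv).Adj v a → (KP hc.symm α β hG.inv).Adj v b →
      (KP hc.symm α β hG.inv).Adj v d → a = b ∨ a = d ∨ b = d := by
  intro v a b d ha hb hd
  by_cases hv : π v = v
  · have key : ∀ z, (KP hc.symm α β hG.inv).Adj v z → (Kem G c hc.symm α β).Adj v z := by
      rintro z (h | h)
      · exact h
      · exact absurd (hv.symm.trans h.2) h.1
    have ha := key a ha
    have hb := key b hb
    have hd := key d hd
    rcases ha.2 with h3 | h3 <;> rcases hb.2 with h4 | h4 <;> rcases hd.2 with h5 | h5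
    · left; exact hc.inj v a b ha.1 hb.1 (h3.trans h4.symm)
    · left; exact hc.inj v a b ha.1 hb.1 (h3.trans h4.symm)
    · right; left; exact hc.inj v a d ha.1 hd.1 (h3.trans h5.symm)
    · right; right; exact hc.inj v b d hb.1 hd.1 (h4.trans h5.symm)
    · right; right; exact hc.inj v b d hb.1 hd.1 (h4.trans h5.symm)
    · right; left; exact hc.inj v a d ha.1 hd.1 (h3.trans h5.symm)
    · left; exact hc.inj v a b ha.1 hb.1 (h3.trans h4.symm)
    · left; exact hc.inj v a b ha.1 hb.1 (h3.trans h4.symm)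
  · -- exactly one colour at `v`
    obtain ⟨γ, hγ⟩ : ∃ γ, ∀ z, (Kem G c hc.symm α β).Adj v z → G.Adj v z ∧ c v z = γ := by
      rcases hG.typ v hv with h | h
      · refine ⟨α, fun z hz => ⟨hz.1, ?_⟩⟩
        rcases hz.2 with h1 | h1
        · exact h1
        · exact absurd ⟨z, hz.1, h1⟩ h.2.1
      · refine ⟨β, fun z hz => ⟨hz.1, ?_⟩⟩
        rcases hz.2 with h1 | h1
        · exact absurd ⟨z, hz.1, h1⟩ h.2.1
        · exact h1
    have keq : ∀ z z', (Kem G c hc.symm α β).Adj v z → (Kem G c hc.symm α β).Adj v z' →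
        z = z' := fun z z' h h' =>
      hc.inj v z z' (hγ z h).1 (hγ z' h').1 ((hγ z h).2.trans (hγ z' h').2.symm)
    rcases ha with ha | ha <;> rcases hb with hb | hb <;> rcases hd with hd | hd
    · exact Or.inl (keq _ _ ha hb)
    · exact Or.inl (keq _ _ ha hb)
    · exact Or.inr (Or.inl (keq _ _ ha hd))
    · exact Or.inr (Or.inr (hb.2.symm.trans hd.2))
    · exact Or.inr (Or.inr (keq _ _ hb hd))
    · exact Or.inr (Or.inl (ha.2.symm.trans hd.2))
    · exact Or.inl (ha.2.symm.trans hb.2)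
    · exact Or.inl (ha.2.symm.trans hb.2)

theorem kp_def (hc : PC G n c) (hG : Glob G r c α β π) {v : V} (hv : π v = v)
    (h : ¬ Hs G c v α ∨ ¬ Hs G c v β) :
    ∀ a d, (KP hc.symm α β hG.inv).Adj v a → (KP hc.symm α β hG.inv).Adj v d → a = d := by
  intro a d ha hd
  have key : ∀ z, (KP hc.symm α β hG.inv).Adj v z → (Kem G c hc.symm α β).Adj v z := by
    rintro z (h | h)
    · exact h
    · exact absurd (hv.symm.trans h.2) h.1
  have ha := key a ha
  have hd := key d hd
  rcases h with h | h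
  · have k1 : c v a = β := by
      rcases ha.2 with h1 | h1
      · exact absurd ⟨a, ha.1, h1⟩ h
      · exact h1
    have k2 : c v d = β := by
      rcases hd.2 with h1 | h1
      · exact absurd ⟨d, hd.1, h1⟩ h
      · exact h1
    exact hc.inj v a d ha.1 hd.1 (k1.trans k2.symm)
  · have k1 : c v a = α := by
      rcases ha.2 with h1 | h1
      · exact h1
      · exact absurd ⟨a, ha.1, h1⟩ h
    have k2 : c v d = α := by
      rcases hd.2 with h1 | h1
      · exact h1
      · exact absurd ⟨d, hd.1, h1⟩ h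
    exact hc.inj v a d ha.1 hd.1 (k1.trans k2.symm)

open Classical in
/-- the swapped colouring -/
noncomputable def sw (α β : ℕ) (Q : V → Prop) (c : V → V → ℕ) : V → V → ℕ :=
  fun v w => if Q v then Equiv.swap α β (c v w) else c v w

theorem hs_sw_a (Q : V → Prop) (u : V) : Hs G (sw α β Q c) u α ↔ Ha G c α β Q u := by
  unfold Hs Ha sw
  by_cases hQ : Q u
  · simp only [hQ, if_true, not_true_eq_false, false_and, true_and, false_or]
    constructor
    · rintro ⟨w, hw, he⟩
      refine ⟨w, hw, ?_⟩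
      have h3 := congrArg (Equiv.swap α β) he
      rwa [Equiv.swap_apply_self, Equiv.swap_apply_left] at h3
    · rintro ⟨w, hw, he⟩
      exact ⟨w, hw, by rw [he, Equiv.swap_apply_right]⟩
  · simp only [hQ, if_false, not_false_eq_true, true_and, false_and, or_false]
    rfl

theorem hs_sw_b (Q : V → Prop) (u : V) : Hs G (sw α β Q c) u β ↔ Ha G c β α Q u := by
  unfold Hs Ha sw
  by_cases hQ : Q u
  · simp only [hQ, if_true, not_true_eq_false, false_and, true_and, false_or]
    constructor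
    · rintro ⟨w, hw, he⟩
      refine ⟨w, hw, ?_⟩
      have h3 := congrArg (Equiv.swap α β) he
      rwa [Equiv.swap_apply_self, Equiv.swap_apply_right] at h3
    · rintro ⟨w, hw, he⟩
      exact ⟨w, hw, by rw [he, Equiv.swap_apply_left]⟩
  · simp only [hQ, if_false, not_false_eq_true, true_and, false_and, or_false]
    rfl

theorem hs_sw_o (Q : V → Prop) (u : V) {δ : ℕ} (h1 : δ ≠ α) (h2 : δ ≠ β) :
    Hs G (sw α β Q c) u δ ↔ Hs G c u δ := by
  unfold Hs sw
  by_cases hQ : Q u
  · simp only [hQ, if_true]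
    constructor
    · rintro ⟨w, hw, he⟩
      refine ⟨w, hw, ?_⟩
      have h3 := congrArg (Equiv.swap α β) he
      rwa [Equiv.swap_apply_self, Equiv.swap_apply_of_ne_of_ne h1 h2] at h3
    · rintro ⟨w, hw, he⟩
      exact ⟨w, hw, by rw [he, Equiv.swap_apply_of_ne_of_ne h1 h2]⟩
  · simp only [hQ, if_false]

theorem av_sw_o (Q : V → Prop) (u : V) {δ : ℕ} (h1 : δ ≠ α) (h2 : δ ≠ β) (h : av G r c u δ) :
    av G r (sw α β Q c) u δ :=
  ⟨fun h3 => h.1 ((hs_sw_o Q u h1 h2).1 h3), fun u1 u2 r1 r2 h3 h4 =>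
    h.2 u1 u2 r1 r2 ((hs_sw_o Q u1 h1 h2).1 h3) ((hs_sw_o Q u2 h1 h2).1 h4)⟩

theorem up_sw (hc : UP G r n c) (hα : α < n) (hβ : β < n) (hG : Glob G r c α β π)
    (Q : V → Prop) (hQ : ∀ u v, (KP hc.pc.symm α β hG.inv).Adj u v → (Q u ↔ Q v)) :
    UP G r n (sw α β Q c) := by
  classical
  have hQπ : ∀ u, (Q u ↔ Q (π u)) := by
    intro u
    by_cases h : π u = u
    · rw [h]
    · exact hQ u (π u) (Or.inr ⟨fun h1 => h h1.symm, rfl⟩)
  have hsw : sw α β Q c = fun v w => if Q v then Equiv.swap α β (c v w) else c v w := by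
    funext v w
    unfold sw
    by_cases h : Q v
    · simp only [h, if_true]
    · simp only [h, if_false]
  refine ⟨?_, ?_⟩
  · rw [hsw]
    exact swap_PC hc.pc hα hβ Q fun v w h h1 => hQ v w (Or.inl ⟨h, h1⟩)
  · intro a u1 u2 u3 h12 h13 h1 h2 h3
    by_cases ha : a = α
    · subst ha
      rw [hs_sw_a] at h1 h2 h3
      exact hG.cap Q hQπ u1 u2 u3 h12 h13 h1 h2 h3
    · by_cases hb : a = β
      · subst hb
        rw [hs_sw_b] at h1 h2 h3
        have hconv : ∀ u, Ha G c a α Q u → Ha G c α a (fun u => ¬ Q u) u := by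
          rintro u (h | h)
          · exact Or.inr ⟨h.1, h.2⟩
          · exact Or.inl ⟨not_not.2 h.1, h.2⟩
        exact hG.cap (fun u => ¬ Q u) (fun u => not_congr (hQπ u)) u1 u2 u3 h12 h13 (hconv _ h1)
          (hconv _ h2) (hconv _ h3)
      · rw [hs_sw_o Q _ ha hb] at h1 h2 h3
        exact hc.cap a u1 u2 u3 h12 h13 h1 h2 h3

end kp

end gen

end FAN

end Run7.h932
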