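import Pool.Agent.Run7.h932.U.Base

/-!
# Merging keeps the finite parts colourable
-/

set_option autoImplicit false

namespace Run7.h932

open Set MeasureTheory SimpleGraph Pool.Q11.TwoEnd Pool.Q6.CI

theorem tg_comap_le {X : Type} {G : SimpleGraph X} {E : X → X → Prop} {n : ℕ} {e : Fin n → X}
    (he : Function.Injective e) (i : Fin n) (hf : (dt G E (e i)).Finite) :
    tg (G.comap e) (fun i j => E (e i) (e j)) i ≤ tg G E (e i) := by
  unfold tg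
  rw [← ncard_image_of_injective _ (he.prodMap he)]
  refine ncard_le_ncard ?_ hf
  rintro _ ⟨⟨a, b⟩, ⟨h1, h2⟩, rfl⟩
  exact ⟨h1, h2⟩

theorem eq_comap {X : Type} {E : X → X → Prop} (hE : Equivalence E) {n : ℕ} (e : Fin n → X) :
    Equivalence fun i j => E (e i) (e j) :=
  ⟨fun _ => hE.refl _, fun h => hE.symm h, fun h h' => hE.trans h h'⟩

theorem t_FCE (hext : S_EXT) : S_FCE := by
  intro X H Ho E E' l W Δ hlf hE hE' hef hle hni hlip hW hdeg hmr hcol n e he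
  have hlfo : LF Ho := hlf.mono hle
  set F := Ho.comap e with hF
  let F0 : SimpleGraph (Fin n) := ⟨fun i j => F.Adj i j ∧
    ((l (e i) ≤ 2 ∨ W ≤ l (e i) + 2) ∧ (l (e j) ≤ 2 ∨ W ≤ l (e j) + 2)),
    ⟨fun i j h => ⟨h.1.symm, h.2.2, h.2.1⟩⟩, ⟨fun i h => h.1.ne rfl⟩⟩
  have hF0 : EU F0 (fun i j => E' (e i) (e j)) (Δ + 1) := by
    obtain ⟨c, hc⟩ := hcol n e he
    refine ⟨c, ?_, ?_⟩
    · exact ⟨fun i j h => hc.pc.lt i j (hle h.1), fun i j h => hc.pc.symm i j (hle h.1),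
        fun i j j' h h' => hc.pc.inj i j j' (hle h.1) (hle h'.1)⟩
    · intro i a
      refine le_trans (Set.encard_le_encard ?_) (hc.cap i a)
      rintro ⟨j, j'⟩ ⟨⟨h1, h2⟩, h3⟩
      refine ⟨⟨?_, hle h2.1⟩, h3⟩
      by_contra h4
      have h5 := hmr (e j) (e i) (hE'.symm h1) fun h => h4 (hE.symm h)
      have h6 : l (e j) ≤ 2 ∨ W ≤ l (e j) + 2 := h2.2.1
      omega
  have htg : ∀ i : Fin n, 0 < l (e i) → l (e i) < W →
      tg F (fun i j => E' (e i) (e j)) i ≤ Δ := fun i h1 h2 =>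
    (tg_comap_le he i (dt_finite hlfo hef _)).trans (hdeg _ h1 h2)
  refine hext (Fin n) F0 F (fun i j => E' (e i) (e j)) (eq_comap hE' e)
    (fun a b hab => hni _ _ hab) (Δ + 1) (fun i j h => h.1) hF0
    {i | 2 ≤ l (e i) ∧ l (e i) + 2 ≤ W} {i | 0 < l (e i) ∧ l (e i) < W} ∅
    {i | 3 ≤ l (e i) ∧ l (e i) + 3 ≤ W} ?_ ?_ ?_ ?_ ?_ ?_ ?_ ?_
  · intro i j hij hij0
    have h1 := hlip _ _ (hle hij)
    have h2 := hlip _ _ (hle hij.symm)
    have h3 : ¬ ((l (e i) ≤ 2 ∨ W ≤ l (e i) + 2) ∧ (l (e j) ≤ 2 ∨ W ≤ l (e j) + 2)) :=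
      fun h => hij0 ⟨hij, h⟩
    constructor <;> omega
  · intro i j hi hij
    have h1 := hlip _ _ (hle hij)
    have h2 := hlip _ _ (hle hij.symm)
    have h3 : 2 ≤ l (e i) := hi.1
    have h4 : l (e i) + 2 ≤ W := hi.2
    exact ⟨by omega, by omega⟩
  · intro i hi
    have h3 : 2 ≤ l (e i) := hi.1
    have h4 : l (e i) + 2 ≤ W := hi.2
    exact ⟨by omega, by omega⟩
  · intro i hi
    have := htg i hi.1 hi.2
    omega
  · intro i hi _
    have := htg i hi.1 hi.2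
    omega
  · intro i j _ hi
    exact absurd hi (Set.notMem_empty i)
  · intro i j hij hij0
    have h1 := hlip _ _ (hle hij)
    have h2 := hlip _ _ (hle hij.symm)
    have h3 : ¬ ((l (e i) ≤ 2 ∨ W ≤ l (e i) + 2) ∧ (l (e j) ≤ 2 ∨ W ≤ l (e j) + 2)) :=
      fun h => hij0 ⟨hij, h⟩
    by_contra hcon
    push Not at hcon
    have h4 : ¬ (3 ≤ l (e i) ∧ l (e i) + 3 ≤ W) := hcon.1
    have h5 : ¬ (3 ≤ l (e j) ∧ l (e j) + 3 ≤ W) := hcon.2
    omega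
  · rintro i ⟨h1, h2⟩ j ⟨-, h3, -⟩
    omega

end Run7.h932
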