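import Pool.Agent.Run7.h932.U.Stm

/-!
# The finite gluing lemma
-/

set_option autoImplicit false

namespace Run7.h932

open Set SimpleGraph Pool.Q11.TwoEnd Pool.Q6.CI

namespace GLF

theorem inj_exists {α : Type} (A : Finset α) (B : Finset ℕ) (h : A.card ≤ B.card) :
    ∃ f : α → ℕ, Set.InjOn f (A : Set α) ∧ ∀ x ∈ A, f x ∈ B := by
  classical
  obtain ⟨B', hB', hc⟩ := Finset.exists_subset_card_eq h
  let e := Finset.equivOfCardEq hc.symm
  refine ⟨fun x => if hx : x ∈ A then (e ⟨x, hx⟩ : ℕ) else 0, ?_, ?_⟩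
  · intro x hx y hy hxy
    have hx' : x ∈ A := hx
    have hy' : y ∈ A := hy
    simp only [hx', hy', dif_pos] at hxy
    have := e.injective (Subtype.ext hxy)
    exact congrArg Subtype.val this
  · intro x hx
    simp only [hx, dif_pos]
    exact hB' (e ⟨x, hx⟩).2

theorem ind_pos {P : Prop} (h : P) : ind P = 1 := ind_eq.2 h

theorem ind_neg {P : Prop} (h : ¬ P) : ind P = 0 := by
  classical
  unfold ind; simp [h]

theorem sum_class {n : ℕ} {r : Fin n → Fin n → Prop} (hr : Equivalence r) {D : Finset (Fin n)}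
    (h1 : ∀ i, ∃ j ∈ D, r i j) (h2 : ∀ i ∈ D, ∀ j ∈ D, r i j → i = j) (g : Fin n → ℕ) :
    ∑ i ∈ D, ∑ j, ind (r i j) * g j = ∑ j, g j := by
  classical
  rw [Finset.sum_comm]
  refine Finset.sum_congr rfl fun j _ => ?_
  obtain ⟨i0, hi0, hr0⟩ := h1 j
  rw [Finset.sum_eq_single i0]
  · rw [ind_pos (hr.symm hr0), one_mul]
  · intro i hi hne
    rw [ind_neg, zero_mul]
    intro h
    exact hne (h2 i hi i0 hi0 (hr.trans h hr0))
  · intro h
    exact absurd hi0 h

theorem card_prod {n : ℕ} (P : Fin n × Fin n → Prop) [DecidablePred P] :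
    (Finset.univ.filter P).card = ∑ i, (Finset.univ.filter fun j => P (i, j)).card := by
  simp only [Finset.card_filter]
  rw [Fintype.sum_prod_type]

theorem dg_eq {n : ℕ} (K : SimpleGraph (Fin n)) (i : Fin n) [DecidablePred fun j => K.Adj i j] :
    dg K i = (Finset.univ.filter fun j => K.Adj i j).card := by
  unfold dg
  congr

theorem tg_sum {n : ℕ} (K : SimpleGraph (Fin n)) (r : Fin n → Fin n → Prop) (i : Fin n) :
    tg K r i = ∑ j, ind (r i j) * dg K j := by
  classical
  unfold tg dt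
  have h1 : {p : Fin n × Fin n | r i p.1 ∧ K.Adj p.1 p.2} =
      ((Finset.univ.filter fun p : Fin n × Fin n => r i p.1 ∧ K.Adj p.1 p.2 : Finset _) :
        Set (Fin n × Fin n)) := by
    ext p; simp
  rw [h1, Set.ncard_coe_finset, card_prod]
  refine Finset.sum_congr rfl fun j _ => ?_
  rw [dg_eq]
  by_cases h : r i j
  · rw [ind_pos h, one_mul]
    congr 1
    ext k
    simp [h]
  · rw [ind_neg h, zero_mul]
    rw [Finset.card_eq_zero]
    ext k
    simp [h]

/-- the graph inside `D` -/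
def KD {n : ℕ} (K : SimpleGraph (Fin n)) (D : Finset (Fin n)) : SimpleGraph (Fin n) where
  Adj i j := K.Adj i j ∧ i ∈ D ∧ j ∈ D
  symm := ⟨fun _ _ h => ⟨h.1.symm, h.2.2, h.2.1⟩⟩
  loopless := ⟨fun _ h => h.1.ne rfl⟩

theorem idg_sum {n : ℕ} (K : SimpleGraph (Fin n)) (D : Finset (Fin n)) :
    idg K D = ∑ i, dg (KD K D) i := by
  classical
  unfold idg
  have h1 : {p : Fin n × Fin n | p.1 ∈ D ∧ p.2 ∈ D ∧ K.Adj p.1 p.2} =
      ((Finset.univ.filter fun p : Fin n × Fin n => (KD K D).Adj p.1 p.2 : Finset _) :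
        Set (Fin n × Fin n)) := by
    ext p; simp [KD]; tauto
  rw [h1, Set.ncard_coe_finset, card_prod]
  refine Finset.sum_congr rfl fun j _ => ?_
  rw [dg_eq]

theorem dg_split {n : ℕ} (K : SimpleGraph (Fin n)) (D : Finset (Fin n)) (i : Fin n)
    [DecidablePred fun j => K.Adj i j ∧ ¬ (i ∈ D ∧ j ∈ D)] :
    dg K i = dg (KD K D) i + (Finset.univ.filter fun j => K.Adj i j ∧ ¬ (i ∈ D ∧ j ∈ D)).card := by
  classical
  rw [dg_eq, dg_eq, ← Finset.card_union_of_disjoint]
  · congr 1
    ext j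
    simp only [Finset.mem_filter, Finset.mem_univ, true_and, Finset.mem_union]
    unfold KD
    simp only
    tauto
  · rw [Finset.disjoint_left]
    intro j hj hj'
    simp only [Finset.mem_filter, Finset.mem_univ, true_and] at hj hj'
    exact hj'.2 hj.2

end GLF

open GLF in
theorem t_GLF : ∀ Δ, LemP2 Δ → S_GLF Δ := by
  classical
  intro Δ hP2 n K r hr hKr D Ψ hΨ hD1 hD2 htg hidg hcl
  set LD : Finset (Fin n × Fin n) :=
    Finset.univ.filter fun p => K.Adj p.1 p.2 ∧ ¬ (p.1 ∈ D ∧ p.2 ∈ D) with hLD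
  have memLD : ∀ i j, (i, j) ∈ LD ↔ K.Adj i j ∧ ¬ (i ∈ D ∧ j ∈ D) := by
    intro i j; rw [hLD]; simp
  -- counting
  have hLDc : LD.card = ∑ i, (Finset.univ.filter fun j => K.Adj i j ∧ ¬ (i ∈ D ∧ j ∈ D)).card := by
    rw [hLD, card_prod]
  have htot : ∑ i, dg K i = idg K D + LD.card := by
    rw [hLDc, idg_sum, ← Finset.sum_add_distrib]
    exact Finset.sum_congr rfl fun i _ => dg_split K D i
  have hmain : ∑ i, dg K i + ∑ i, (Ψ i).card ≤ Δ * D.card := by
    rw [← sum_class hr hD1 hD2 (fun i => dg K i), ← sum_class hr hD1 hD2 (fun i => (Ψ i).card),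
      ← Finset.sum_add_distrib]
    calc ∑ i ∈ D, (∑ j, ind (r i j) * dg K j + ∑ j, ind (r i j) * (Ψ j).card)
        ≤ ∑ i ∈ D, Δ := Finset.sum_le_sum fun i _ => by rw [← tg_sum]; exact htg i
      _ = Δ * D.card := by rw [Finset.sum_const, smul_eq_mul, mul_comm]
  have hcount : LD.card + ∑ i, (Ψ i).card + 2 ≤ Δ := by omega
  -- the colours of the loops
  set U : Finset ℕ := Finset.univ.biUnion Ψ with hU
  have hUc : U.card ≤ ∑ i, (Ψ i).card := Finset.card_biUnion_le
  have memU : ∀ a, a ∈ U ↔ ∃ i, a ∈ Ψ i := by intro a; rw [hU]; simp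
  have hUs : U ⊆ Finset.range (Δ + 1) := by
    intro a ha
    obtain ⟨i, hi⟩ := (memU a).1 ha
    exact hΨ i hi
  set LE : Finset (Sym2 (Fin n)) := LD.image fun p => s(p.1, p.2) with hLE
  have hLEc : LE.card ≤ LD.card := Finset.card_image_le
  obtain ⟨f, hfi, hfB⟩ := inj_exists LE (Finset.range (Δ + 1) \ U) (by
    rw [Finset.card_sdiff_of_subset hUs, Finset.card_range]
    omega)
  have memLE : ∀ i j, (i, j) ∈ LD → s(i, j) ∈ LE := fun i j h =>
    Finset.mem_image.2 ⟨(i, j), h, rfl⟩
  have hfr : ∀ i j, (i, j) ∈ LD → f s(i, j) < Δ + 1 := fun i j h =>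
    Finset.mem_range.1 (Finset.mem_sdiff.1 (hfB _ (memLE i j h))).1
  have hfU : ∀ i j, (i, j) ∈ LD → f s(i, j) ∉ U := fun i j h =>
    (Finset.mem_sdiff.1 (hfB _ (memLE i j h))).2
  have hinj : ∀ i j i' j', (i, j) ∈ LD → (i', j') ∈ LD → f s(i, j) = f s(i', j') →
      s(i, j) = s(i', j') := fun i j i' j' h h' he =>
    hfi (Finset.mem_coe.2 (memLE i j h)) (Finset.mem_coe.2 (memLE i' j' h')) he
  set LC : Fin n → Finset ℕ := fun i =>
    (Finset.univ.filter fun j => K.Adj i j ∧ ¬ (i ∈ D ∧ j ∈ D)).image fun j => f s(i, j) with hLC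
  have memLC : ∀ i a, a ∈ LC i ↔ ∃ j, (i, j) ∈ LD ∧ f s(i, j) = a := by
    intro i a
    rw [hLC]
    simp only [Finset.mem_image, Finset.mem_filter, Finset.mem_univ, true_and, memLD]
  have hLCc : ∀ i, (LC i).card ≤
      (Finset.univ.filter fun j => K.Adj i j ∧ ¬ (i ∈ D ∧ j ∈ D)).card := fun i =>
    Finset.card_image_le
  set W : Fin n → Finset ℕ := fun i => U.filter fun a => ∃ j j', j ≠ j' ∧ j ≠ i ∧ j' ≠ i ∧
    r i j ∧ r i j' ∧ a ∈ Ψ j ∧ a ∈ Ψ j' with hW
  have hWc : ∀ i, (Ψ i ∪ W i).card ≤ ∑ j, ind (r i j) * (Ψ j).card := by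
    intro i
    have h1 : Ψ i ∪ W i ⊆ (Finset.univ.filter fun j => r i j).biUnion Ψ := by
      intro a ha
      rw [Finset.mem_biUnion]
      rcases Finset.mem_union.1 ha with h | h
      · exact ⟨i, by simp [hr.refl i], h⟩
      · obtain ⟨-, j, j', -, -, -, h1, -, h2, -⟩ := Finset.mem_filter.1 h
        exact ⟨j, by simp [h1], h2⟩
    refine (Finset.card_le_card h1).trans (Finset.card_biUnion_le.trans (le_of_eq ?_))
    rw [Finset.sum_filter]
    refine Finset.sum_congr rfl fun j _ => ?_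
    by_cases h : r i j
    · rw [if_pos h, ind_pos h, one_mul]
    · rw [if_neg h, ind_neg h, zero_mul]
  set Φ : Fin n → Finset ℕ := fun i => if i ∈ D then Ψ i ∪ W i ∪ LC i else ∅ with hΦ
  have hΦD : ∀ i ∈ D, Φ i = Ψ i ∪ W i ∪ LC i := fun i hi => by rw [hΦ]; simp [hi]
  have hΦn : ∀ i, i ∉ D → Φ i = ∅ := fun i hi => by rw [hΦ]; simp [hi]
  have hΦc : ∀ i ∈ D, (Φ i).card ≤ (∑ j, ind (r i j) * (Ψ j).card) +
      (Finset.univ.filter fun j => K.Adj i j ∧ ¬ (i ∈ D ∧ j ∈ D)).card := by
    intro i hi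
    rw [hΦD i hi]
    refine (Finset.card_union_le _ _).trans ?_
    exact Nat.add_le_add (hWc i) (hLCc i)
  obtain ⟨c0, hc0⟩ := hP2 n (KD K D) Φ (by
      intro i
      by_cases hi : i ∈ D
      · rw [hΦD i hi]
        intro a ha
        rcases Finset.mem_union.1 ha with h | h
        · rcases Finset.mem_union.1 h with h | h
          · exact hΨ i h
          · exact hUs (Finset.mem_filter.1 h).1
        · obtain ⟨j, hj, rfl⟩ := (memLC i a).1 h
          exact Finset.mem_range.2 (hfr i j hj)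
      · rw [hΦn i hi]; simp) (by
      intro i
      by_cases hi : i ∈ D
      · have h1 := hΦc i hi
        have h2 := dg_split K D i
        have h3 := htg i
        have h4 : dg K i ≤ tg K r i := by
          rw [tg_sum]
          have : dg K i = ind (r i i) * dg K i := by rw [ind_pos (hr.refl i), one_mul]
          rw [this]
          exact Finset.single_le_sum (f := fun j => ind (r i j) * dg K j)
            (fun _ _ => Nat.zero_le _) (Finset.mem_univ i)
        omega
      · rw [hΦn i hi, Finset.card_empty, add_zero, dg_eq]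
        have : (Finset.univ.filter fun j => (KD K D).Adj i j) = ∅ := by
          ext j
          simp only [Finset.mem_filter, Finset.mem_univ, true_and, Finset.notMem_empty, iff_false]
          exact fun h => hi h.2.1
        rw [this, Finset.card_empty]
        omega) (by
      have h1 : ∑ i, (Φ i).card = ∑ i ∈ D, (Φ i).card := by
        symm
        refine Finset.sum_subset (Finset.subset_univ _) fun i _ hi => ?_
        rw [hΦn i hi, Finset.card_empty]
      have h2 : ∑ i ∈ D, (Φ i).card ≤ ∑ i ∈ D, ((∑ j, ind (r i j) * (Ψ j).card) +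
          (Finset.univ.filter fun j => K.Adj i j ∧ ¬ (i ∈ D ∧ j ∈ D)).card) :=
        Finset.sum_le_sum hΦc
      rw [Finset.sum_add_distrib, sum_class hr hD1 hD2 (fun j => (Ψ j).card)] at h2
      have h3 : ∑ i ∈ D, (Finset.univ.filter fun j => K.Adj i j ∧ ¬ (i ∈ D ∧ j ∈ D)).card ≤
          LD.card := by
        rw [hLDc]
        exact Finset.sum_le_sum_of_subset (Finset.subset_univ _)
      omega) (by
      intro a
      unfold cl
      by_cases haU : a ∈ U
      · -- not a colour of a loop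
        refine le_trans ?_ (hcl a)
        unfold cl
        have h1 : ∀ i ∈ Finset.univ.filter (fun v => a ∈ Φ v), i ∈ D ∧ ∃ j, r i j ∧ a ∈ Ψ j := by
          intro i hi
          rw [Finset.mem_filter] at hi
          have hiD : i ∈ D := by
            by_contra h
            rw [hΦn i h] at hi
            exact absurd hi.2 (Finset.notMem_empty _)
          refine ⟨hiD, ?_⟩
          rw [hΦD i hiD] at hi
          rcases Finset.mem_union.1 hi.2 with h | h
          · rcases Finset.mem_union.1 h with h | h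
            · exact ⟨i, hr.refl i, h⟩
            · obtain ⟨-, j, j', -, -, -, h1, -, h2, -⟩ := Finset.mem_filter.1 h
              exact ⟨j, h1, h2⟩
          · obtain ⟨j, hj, rfl⟩ := (memLC i a).1 h
            exact absurd haU (hfU i j hj)
        choose! J hJ using fun i hi => (h1 i hi).2
        refine Finset.card_le_card_of_injOn J ?_ ?_
        · intro i hi
          simp only [Finset.coe_filter, Finset.mem_univ, true_and, Set.mem_ofPred_eq]
          exact (hJ i hi).2
        · intro i hi i' hi' he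
          have h2 := (hJ i hi).1
          have h3 := (hJ i' hi').1
          rw [← he] at h3
          exact hD2 i (h1 i hi).1 i' (h1 i' hi').1 (hr.trans h2 (hr.symm h3))
      · -- a colour of a loop
        by_cases hex : ∃ i j, (i, j) ∈ LD ∧ f s(i, j) = a
        · obtain ⟨i0, j0, h0, rfl⟩ := hex
          have : (Finset.univ.filter fun v => f s(i0, j0) ∈ Φ v) ⊆ {i0, j0} := by
            intro i hi
            rw [Finset.mem_filter] at hi
            have hiD : i ∈ D := by
              by_contra h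
              rw [hΦn i h] at hi
              exact absurd hi.2 (Finset.notMem_empty _)
            rw [hΦD i hiD] at hi
            rcases Finset.mem_union.1 hi.2 with h | h
            · rcases Finset.mem_union.1 h with h | h
              · exact absurd ((memU _).2 ⟨i, h⟩) haU
              · exact absurd (Finset.mem_filter.1 h).1 haU
            · obtain ⟨j, hj, he⟩ := (memLC i _).1 h
              have := hinj _ _ _ _ hj h0 he
              rw [Sym2.eq_iff] at this
              rw [Finset.mem_insert, Finset.mem_singleton]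
              tauto
          exact (Finset.card_le_card this).trans Finset.card_le_two
        · have : (Finset.univ.filter fun v => a ∈ Φ v) = ∅ := by
            ext i
            simp only [Finset.mem_filter, Finset.mem_univ, true_and, Finset.notMem_empty,
              iff_false]
            intro hi
            have hiD : i ∈ D := by
              by_contra h
              rw [hΦn i h] at hi
              exact absurd hi (Finset.notMem_empty _)
            rw [hΦD i hiD] at hi
            rcases Finset.mem_union.1 hi with h | h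
            · rcases Finset.mem_union.1 h with h | h
              · exact absurd ((memU _).2 ⟨i, h⟩) haU
              · exact absurd (Finset.mem_filter.1 h).1 haU
            · obtain ⟨j, hj, he⟩ := (memLC i _).1 h
              exact hex ⟨i, j, hj, he⟩
          rw [this, Finset.card_empty]
          omega)
  set c : Fin n → Fin n → ℕ := fun i j => if i ∈ D ∧ j ∈ D then c0 i j else f s(i, j) with hc
  have hcD : ∀ i j, i ∈ D → j ∈ D → c i j = c0 i j := fun i j hi hj => by rw [hc]; simp [hi, hj]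
  have hcL : ∀ i j, ¬ (i ∈ D ∧ j ∈ D) → c i j = f s(i, j) := fun i j h => by
    rw [hc]; simp only [if_neg h]
  have hcross : ∀ v w w', K.Adj v w → K.Adj v w' → v ∈ D → w ∈ D → w' ∉ D → c v w ≠ c v w' := by
    intro v w w' h h' hv hw hw' he
    rw [hcD v w hv hw, hcL v w' (fun h => hw' h.2)] at he
    refine hc0.av v w ⟨h, hv, hw⟩ ?_
    rw [hΦD v hv, he]
    exact Finset.mem_union_right _ ((memLC v _).2 ⟨w', (memLD v w').2 ⟨h', fun h => hw' h.2⟩, rfl⟩)
  refine ⟨c, ⟨⟨?_, ?_, ?_⟩, ?_⟩, ?_⟩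
  · intro v w h
    by_cases hD : v ∈ D ∧ w ∈ D
    · rw [hcD v w hD.1 hD.2]
      exact hc0.pc.lt v w ⟨h, hD⟩
    · rw [hcL v w hD]
      exact hfr v w ((memLD v w).2 ⟨h, hD⟩)
  · intro v w h
    by_cases hD : v ∈ D ∧ w ∈ D
    · rw [hcD v w hD.1 hD.2, hcD w v hD.2 hD.1]
      exact hc0.pc.symm v w ⟨h, hD⟩
    · rw [hcL v w hD, hcL w v (fun h => hD ⟨h.2, h.1⟩), Sym2.eq_swap]
  · intro v w w' h h' he
    by_cases hv : v ∈ D
    · by_cases hw : w ∈ D
      · by_cases hw' : w' ∈ D
        · rw [hcD v w hv hw, hcD v w' hv hw'] at he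
          exact hc0.pc.inj v w w' ⟨h, hv, hw⟩ ⟨h', hv, hw'⟩ he
        · exact absurd he (hcross v w w' h h' hv hw hw')
      · by_cases hw' : w' ∈ D
        · exact absurd he.symm (hcross v w' w h' h hv hw' hw)
        · have h1 : ¬ (v ∈ D ∧ w ∈ D) := fun h => hw h.2
          have h2 : ¬ (v ∈ D ∧ w' ∈ D) := fun h => hw' h.2
          rw [hcL v w h1, hcL v w' h2] at he
          have := hinj _ _ _ _ ((memLD v w).2 ⟨h, h1⟩) ((memLD v w').2 ⟨h', h2⟩) he
          rwa [Sym2.congr_right] at this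
    · have h1 : ¬ (v ∈ D ∧ w ∈ D) := fun h => hv h.1
      have h2 : ¬ (v ∈ D ∧ w' ∈ D) := fun h => hv h.1
      rw [hcL v w h1, hcL v w' h2] at he
      have := hinj _ _ _ _ ((memLD v w).2 ⟨h, h1⟩) ((memLD v w').2 ⟨h', h2⟩) he
      rwa [Sym2.congr_right] at this
  · intro i j h hmem
    by_cases hD : i ∈ D ∧ j ∈ D
    · rw [hcD i j hD.1 hD.2] at hmem
      refine hc0.av i j ⟨h, hD⟩ ?_
      rw [hΦD i hD.1]
      exact Finset.mem_union_left _ (Finset.mem_union_left _ hmem)
    · rw [hcL i j hD] at hmem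
      exact hfU i j ((memLD i j).2 ⟨h, hD⟩) ((memU _).2 ⟨i, hmem⟩)
  · intro i a
    obtain ⟨j0, hj0, hrj0⟩ := hD1 i
    set S : Set (Fin n × Fin n) := {p | p ∈ dt K r i ∧ c p.1 p.2 = a} with hS
    set S1 : Set (Fin n × Fin n) := {p | p ∈ S ∧ p.1 ∈ D ∧ p.2 ∈ D} with hS1
    set S2 : Set (Fin n × Fin n) := {p | p ∈ S ∧ ¬ (p.1 ∈ D ∧ p.2 ∈ D)} with hS2
    have hS12 : S = S1 ∪ S2 := by
      ext p
      simp only [hS1, hS2, Set.mem_union, Set.mem_ofPred_eq]
      tauto
    have h1 : S1.ncard ≤ 1 := by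
      rw [Set.ncard_le_one (Set.toFinite _)]
      rintro ⟨x, y⟩ ⟨⟨⟨hx1, hx2⟩, hx3⟩, hx4, hx5⟩ ⟨x', y'⟩ ⟨⟨⟨hx1', hx2'⟩, hx3'⟩, hx4', hx5'⟩
      simp only at hx1 hx2 hx3 hx4 hx5 hx1' hx2' hx3' hx4' hx5'
      have e1 : x = x' := hD2 x hx4 x' hx4' (hr.trans (hr.symm hx1) hx1')
      subst e1
      rw [hcD _ _ hx4 hx5] at hx3
      rw [hcD _ _ hx4 hx5'] at hx3'
      rw [hc0.pc.inj x y y' ⟨hx2, hx4, hx5⟩ ⟨hx2', hx4, hx5'⟩ (hx3.trans hx3'.symm)]
    have h2 : S2.ncard ≤ 1 := by
      rw [Set.ncard_le_one (Set.toFinite _)]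
      rintro ⟨x, y⟩ ⟨⟨⟨hx1, hx2⟩, hx3⟩, hx4⟩ ⟨x', y'⟩ ⟨⟨⟨hx1', hx2'⟩, hx3'⟩, hx4'⟩
      simp only at hx1 hx2 hx3 hx4 hx1' hx2' hx3' hx4'
      rw [hcL _ _ hx4] at hx3
      rw [hcL _ _ hx4'] at hx3'
      have := hinj _ _ _ _ ((memLD x y).2 ⟨hx2, hx4⟩) ((memLD x' y').2 ⟨hx2', hx4'⟩)
        (hx3.trans hx3'.symm)
      rw [Sym2.eq_iff] at this
      rcases this with ⟨rfl, rfl⟩ | ⟨rfl, rfl⟩
      · rfl
      · exact absurd (hr.trans (hr.symm hx1) hx1') (hKr _ _ hx2)
    have h3 : S.ncard ≤ S1.ncard + S2.ncard := by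
      rw [hS12]; exact Set.ncard_union_le _ _
    have hsum : ∑ j, ind (r i j ∧ a ∈ Ψ j) =
        (Finset.univ.filter fun j => r i j ∧ a ∈ Ψ j).card := by
      rw [Finset.card_filter]
      refine Finset.sum_congr rfl fun j _ => ?_
      by_cases h : r i j ∧ a ∈ Ψ j
      · rw [ind_pos h, if_pos h]
      · rw [ind_neg h, if_neg h]
    rw [hsum]
    rcases S2.eq_empty_or_nonempty with hS2e | ⟨⟨x, y⟩, hxy⟩
    · rw [hS2e, Set.ncard_empty, add_zero] at h3
      rcases S1.eq_empty_or_nonempty with hS1e | ⟨⟨x, y⟩, hxy⟩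
      · rw [hS1e, Set.ncard_empty] at h3
        have h4 : (Finset.univ.filter fun j => r i j ∧ a ∈ Ψ j).card ≤ cl Ψ a := by
          unfold cl
          refine Finset.card_le_card fun j hj => ?_
          rw [Finset.mem_filter] at hj ⊢
          exact ⟨hj.1, hj.2.2⟩
        have := hcl a
        omega
      · obtain ⟨⟨⟨hx1, hx2⟩, hx3⟩, hx4, hx5⟩ := hxy
        simp only at hx1 hx2 hx3 hx4 hx5
        rw [hcD _ _ hx4 hx5] at hx3
        have hav : a ∉ Φ x := by
          rw [← hx3]; exact hc0.av x y ⟨hx2, hx4, hx5⟩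
        rw [hΦD x hx4] at hav
        have h4 : (Finset.univ.filter fun j => r i j ∧ a ∈ Ψ j).card ≤ 1 := by
          rw [Finset.card_le_one]
          intro j hj j' hj'
          rw [Finset.mem_filter] at hj hj'
          by_contra hne
          have hjx : j ≠ x := by
            rintro rfl
            exact hav (Finset.mem_union_left _ (Finset.mem_union_left _ hj.2.2))
          have hjx' : j' ≠ x := by
            rintro rfl
            exact hav (Finset.mem_union_left _ (Finset.mem_union_left _ hj'.2.2))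
          refine hav (Finset.mem_union_left _ (Finset.mem_union_right _
            (Finset.mem_filter.2 ⟨(memU a).2 ⟨j, hj.2.2⟩, j, j', hne, hjx, hjx',
              hr.trans (hr.symm hx1) hj.2.1, hr.trans (hr.symm hx1) hj'.2.1, hj.2.2, hj'.2.2⟩)))
        omega
    · obtain ⟨⟨⟨hx1, hx2⟩, hx3⟩, hx4⟩ := hxy
      simp only at hx1 hx2 hx3 hx4
      rw [hcL _ _ hx4] at hx3
      have haU : a ∉ U := by
        rw [← hx3]; exact hfU x y ((memLD x y).2 ⟨hx2, hx4⟩)
      have h4 : (Finset.univ.filter fun j => r i j ∧ a ∈ Ψ j) = ∅ := by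
        ext j
        simp only [Finset.mem_filter, Finset.mem_univ, true_and, Finset.notMem_empty, iff_false]
        exact fun h => haU ((memU a).2 ⟨j, h.2⟩)
      rw [h4, Finset.card_empty]
      omega

end Run7.h932
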