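import Pool.Agent.Run7.h932.U.Stm

/-!
# GLU: colouring the edges that were cut out
-/

set_option autoImplicit false

namespace Run7.h932

open Set MeasureTheory SimpleGraph Pool.Q11.TwoEnd Pool.Q6.CI

namespace GLU

theorem dt_fin {X : Type} {H : SimpleGraph X} {E : X → X → Prop} (hlf : LF H)
    (hef : ∀ x, {y | E x y}.Finite) (x : X) : (dt H E x).Finite := by
  refine ((hef x).biUnion fun y _ => (hlf y).image fun z => (y, z)).subset ?_
  rintro ⟨a, b⟩ ⟨h1, h2⟩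
  exact mem_biUnion h1 ⟨b, h2, rfl⟩

theorem card_le_two {α β : Type} {S : Finset α} {T : Set β} (f : α → β)
    (hi : Set.InjOn f (S : Set α)) (hm : ∀ a ∈ S, f a ∈ T) (hT : T.encard ≤ 2) : S.card ≤ 2 := by
  have h1 : (f '' (S : Set α)).encard ≤ 2 := by
    refine (encard_le_encard ?_).trans hT
    rintro _ ⟨a, ha, rfl⟩
    exact hm a ha
  rw [hi.encard_image, Set.encard_coe_eq_coe_finsetCard] at h1
  exact_mod_cast h1

theorem sum_ind {α : Type} [Fintype α] (P : α → Prop) [DecidablePred P] (f : α → ℕ) :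
    ∑ j, ind (P j) * f j = ∑ j ∈ Finset.univ.filter P, f j := by
  rw [Finset.sum_filter]
  refine Finset.sum_congr rfl fun j _ => ?_
  unfold ind
  by_cases h : P j
  · rw [if_pos h, if_pos h, one_mul]
  · rw [if_neg h, if_neg h, zero_mul]

theorem sum_ind' {α : Type} [Fintype α] (P : α → Prop) [DecidablePred P] :
    ∑ j, ind (P j) = (Finset.univ.filter P).card := by
  rw [Finset.card_filter]
  refine Finset.sum_congr rfl fun j _ => ?_
  unfold ind
  by_cases h : P j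
  · rw [if_pos h, if_pos h]
  · rw [if_neg h, if_neg h]

/-- the colours at a vertex -/
noncomputable def ps {X : Type} (Ho : SimpleGraph X) (c0 : X → X → ℕ) (k : ℕ) (x : X) :
    Finset ℕ := by
  classical
  exact (Finset.range k).filter fun a => ∃ z, Ho.Adj x z ∧ c0 x z = a

theorem mem_ps {X : Type} {Ho : SimpleGraph X} {c0 : X → X → ℕ} {k : ℕ} {x : X} {a : ℕ} :
    a ∈ ps Ho c0 k x ↔ a < k ∧ ∃ z, Ho.Adj x z ∧ c0 x z = a := by
  classical
  unfold ps
  rw [Finset.mem_filter, Finset.mem_range]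

/-- the other end of the edge -/
noncomputable def oe {X : Type} (Ho : SimpleGraph X) (c0 : X → X → ℕ) (x : X) (a : ℕ) : X := by
  classical
  exact if h : ∃ z, Ho.Adj x z ∧ c0 x z = a then h.choose else x

theorem oe_spec {X : Type} {Ho : SimpleGraph X} {c0 : X → X → ℕ} {k : ℕ} {x : X} {a : ℕ}
    (h : a ∈ ps Ho c0 k x) : Ho.Adj x (oe Ho c0 x a) ∧ c0 x (oe Ho c0 x a) = a := by
  classical
  have h1 := (mem_ps.1 h).2
  unfold oe
  rw [dif_pos h1]
  exact h1.choose_spec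

variable {X : Type} [MeasurableSpace X] [StandardBorelSpace X] {H : SimpleGraph X}
  {E : X → X → Prop}

/-- The finite lemma on a merged class. -/
theorem local_col (hSt : St H E) {l : X → ℕ} {W Δ b : ℕ} {s : X → X → ℕ}
    (hCt : Ct H E l W Δ b s) (hSt' : St (mn H (mrg E s)) (mrg E s)) (hG : S_GLF Δ)
    {c0 : X → X → ℕ} (hc0 : UC (mn H (mrg E s)) (mrg E s) (Δ + 1) c0) {x : X} {n : ℕ}
    {e : Fin n → X} (he : Function.Injective e) (hr : range e = {y | mrg E s x y}) :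
    ∃ s' : Fin n → Fin n → ℕ,
      VC (H.comap e) (Δ + 1) (fun i => ps (mn H (mrg E s)) c0 (Δ + 1) (e i)) s' ∧
      ∀ i a, (∑ j, ind (E (e i) (e j) ∧ a ∈ ps (mn H (mrg E s)) c0 (Δ + 1) (e j))) +
        {p | p ∈ dt (H.comap e) (fun i j => E (e i) (e j)) i ∧ s' p.1 p.2 = a}.ncard ≤ 2 := by
  classical
  set E' := mrg E s with hE'
  set Ho := mn H E' with hHo
  set Ψ : Fin n → Finset ℕ := fun i => ps Ho c0 (Δ + 1) (e i) with hΨ
  have hEE : ∀ a b, E a b → E' a b := fun a b h => Or.inl h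
  have hin : ∀ i, E' x (e i) := fun i => by
    have : e i ∈ range e := ⟨i, rfl⟩
    rw [hr] at this
    exact this
  have hij : ∀ i j, E' (e i) (e j) := fun i j => hSt'.eq.trans (hSt'.eq.symm (hin i)) (hin j)
  have hout : ∀ i y, E' (e i) y → ∃ j, e j = y := by
    intro i y h
    have : y ∈ {y | E' x y} := hSt'.eq.trans (hin i) h
    rw [← hr] at this
    exact this
  have hcl : ∀ a, cl Ψ a ≤ 2 := by
    intro a
    refine card_le_two (T := {p | p ∈ dt Ho E' x ∧ c0 p.1 p.2 = a})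
      (fun i => (e i, oe Ho c0 (e i) a)) ?_ ?_ (hc0.cap x a)
    · intro i _ j _ h
      exact he (congrArg Prod.fst h)
    · intro i hi
      have h1 := oe_spec (Finset.mem_filter.1 hi).2
      exact ⟨⟨hin i, h1.1⟩, h1.2⟩
  by_cases hm : ∃ i, s (e i) (e i) = 1
  · obtain ⟨i0, hi0⟩ := hm
    have hself : ∀ {u v}, s u v = 1 → s u u = 1 ∧ s v v = 1 := fun {u v} h =>
      ⟨hCt.ts _ _ _ h (hCt.sy _ _ h), hCt.ts _ _ _ (hCt.sy _ _ h) h⟩
    have hD1 : ∀ {y z}, E' y z → s y y = 1 → s z z = 1 → s y z = 1 := by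
      intro y z h hy hz
      rcases h with h | ⟨u, v, h1, h2, h3⟩
      · rw [← hCt.tr y z hy hz h]; exact hy
      · have h4 := hself h2
        rw [hCt.tr y u hy h4.1 h1, ← hCt.tr v z h4.2 hz h3]
        exact h2
    obtain ⟨D', hD', hBd⟩ := hCt.bd (e i0) hi0
    set D : Finset (Fin n) := Finset.univ.filter fun i => s (e i) (e i) = 1 with hD
    have hDD : e '' (D : Set (Fin n)) = (D' : Set X) := by
      ext y
      constructor
      · rintro ⟨i, hi, rfl⟩
        have h1 := (Finset.mem_filter.1 (Finset.mem_coe.1 hi)).2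
        exact Finset.mem_coe.2 ((hD' _).2 (hD1 (hij i0 i) hi0 h1))
      · intro hy
        have h1 := (hD' _).1 (Finset.mem_coe.1 hy)
        have h2 : E' (e i0) y :=
          Or.inr ⟨e i0, y, hSt.eq.refl _, h1, hSt.eq.refl _⟩
        obtain ⟨j, rfl⟩ := hout i0 y h2
        exact ⟨j, Finset.mem_coe.2 (Finset.mem_filter.2 ⟨Finset.mem_univ _, (hself h1).2⟩), rfl⟩
    have hmeet : ∀ i, ∃ j ∈ D, E (e i) (e j) := by
      intro i
      rcases hij i i0 with h | ⟨u, v, h1, h2, h3⟩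
      · exact ⟨i0, Finset.mem_filter.2 ⟨Finset.mem_univ _, hi0⟩, h⟩
      · obtain ⟨j, rfl⟩ := hout i u (Or.inl h1)
        exact ⟨j, Finset.mem_filter.2 ⟨Finset.mem_univ _, (hself h2).1⟩, h1⟩
    have htg : ∀ i, tg H E (e i) = Δ := by
      intro i
      obtain ⟨j, hj, h⟩ := hmeet i
      have h1 : e j ∈ D' := by
        rw [← Finset.mem_coe, ← hDD]
        exact ⟨j, Finset.mem_coe.2 hj, rfl⟩
      rw [← hBd.full _ h1]
      unfold tg dt
      congr 1
      ext p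
      exact ⟨fun hp => ⟨hSt.eq.trans (hSt.eq.symm h) hp.1, hp.2⟩,
        fun hp => ⟨hSt.eq.trans h hp.1, hp.2⟩⟩
    have hsum : ∀ i, tg (H.comap e) (fun i j => E (e i) (e j)) i +
        (∑ j, ind (E (e i) (e j)) * (Ψ j).card) ≤ Δ := by
      intro i
      rw [← htg i, sum_ind, ← Finset.card_sigma]
      have hf := dt_fin hSt.lf hSt.ef (e i)
      have h1 : tg (H.comap e) (fun i j => E (e i) (e j)) i ≤
          {p | p ∈ dt H E (e i) ∧ E' p.1 p.2}.ncard := by
        unfold tg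
        rw [← ncard_image_of_injective _ (he.prodMap he)]
        refine ncard_le_ncard ?_ (hf.subset fun p hp => hp.1)
        rintro _ ⟨⟨a, b⟩, hab, rfl⟩
        exact ⟨⟨hab.1, hab.2⟩, hij a b⟩
      have h2 : (Finset.sigma (Finset.univ.filter fun j => E (e i) (e j)) Ψ).card ≤
          {p | p ∈ dt H E (e i) ∧ ¬ E' p.1 p.2}.ncard := by
        rw [← Set.ncard_coe_finset]
        refine ncard_le_ncard_of_injOn (fun q => (e q.1, oe Ho c0 (e q.1) q.2)) ?_ ?_
          (hf.subset fun p hp => hp.1)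
        · rintro ⟨j, a⟩ hq
          obtain ⟨hq1, hq2⟩ := Finset.mem_sigma.1 (Finset.mem_coe.1 hq)
          have h3 := oe_spec hq2
          exact ⟨⟨(Finset.mem_filter.1 hq1).2, h3.1.1⟩, h3.1.2.1⟩
        · rintro ⟨j, a⟩ hq ⟨j', a'⟩ hq' h
          obtain ⟨-, hq2⟩ := Finset.mem_sigma.1 (Finset.mem_coe.1 hq)
          obtain ⟨-, hq2'⟩ := Finset.mem_sigma.1 (Finset.mem_coe.1 hq')
          simp only [Prod.mk.injEq] at h
          have h4 := he h.1
          subst h4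
          have h5 : c0 (e j) (oe Ho c0 (e j) a) = a := (oe_spec hq2).2
          have h6 : c0 (e j) (oe Ho c0 (e j) a') = a' := (oe_spec hq2').2
          have h7 : a = a' := by
            have h8 : oe Ho c0 (e j) a = oe Ho c0 (e j) a' := h.2
            rw [h8] at h5
            exact h5.symm.trans h6
          subst h7
          rfl
      have h3 : {p | p ∈ dt H E (e i) ∧ E' p.1 p.2}.ncard +
          {p | p ∈ dt H E (e i) ∧ ¬ E' p.1 p.2}.ncard = tg H E (e i) := by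
        rw [← ncard_union_eq _ (hf.subset fun p hp => hp.1) (hf.subset fun p hp => hp.1)]
        · unfold tg
          congr 1
          ext p
          constructor
          · rintro (h | h)
            · exact h.1
            · exact h.1
          · intro h
            by_cases h4 : E' p.1 p.2
            · exact Or.inl ⟨h, h4⟩
            · exact Or.inr ⟨h, h4⟩
        · rw [Set.disjoint_left]
          intro p h h'
          exact h'.2 h.2
      omega
    have hov : Δ * D.card + 2 ≤ idg (H.comap e) D + Δ := by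
      have h1 := hBd.ov
      have h2 : D.card = D'.card := by
        rw [← Set.ncard_coe_finset, ← Set.ncard_coe_finset, ← hDD, ncard_image_of_injective _ he]
      have h3 : idg (H.comap e) D = idg H D' := by
        unfold idg
        rw [← ncard_image_of_injective _ (he.prodMap he)]
        congr 1
        ext ⟨a, b⟩
        constructor
        · rintro ⟨⟨i, j⟩, ⟨h4, h5, h6⟩, h7⟩
          rw [Prod.map_apply, Prod.mk.injEq] at h7
          obtain ⟨rfl, rfl⟩ := h7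
          refine ⟨?_, ?_, h6⟩
          · rw [← Finset.mem_coe, ← hDD]; exact ⟨i, Finset.mem_coe.2 h4, rfl⟩
          · rw [← Finset.mem_coe, ← hDD]; exact ⟨j, Finset.mem_coe.2 h5, rfl⟩
        · rintro ⟨h4, h5, h6⟩
          simp only at h4 h5 h6
          rw [← Finset.mem_coe, ← hDD] at h4 h5
          obtain ⟨i, hi, rfl⟩ := h4
          obtain ⟨j, hj, rfl⟩ := h5
          exact ⟨(i, j), ⟨Finset.mem_coe.1 hi, Finset.mem_coe.1 hj, h6⟩, rfl⟩
      rw [h2, h3]
      exact h1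
    exact hG n (H.comap e) (fun i j => E (e i) (e j))
      ⟨fun i => hSt.eq.refl _, fun h => hSt.eq.symm h, fun h h' => hSt.eq.trans h h'⟩
      (fun i j h => hSt.ni _ _ h) D Ψ (fun i => Finset.filter_subset _ _)
      (fun i => hmeet i) (fun i hi j hj h => he (hCt.tr _ _ (Finset.mem_filter.1 hi).2
        (Finset.mem_filter.1 hj).2 h)) hsum hov hcl
  · have hno : ∀ i j, ¬ (H.comap e).Adj i j := by
      intro i j h
      rcases hij i j with h1 | ⟨u, v, h1, h2, h3⟩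
      · exact hSt.ni _ _ h h1
      · obtain ⟨k, rfl⟩ := hout i u (Or.inl h1)
        exact hm ⟨k, hCt.ts _ _ _ h2 (hCt.sy _ _ h2)⟩
    refine ⟨fun _ _ => 0, ⟨⟨fun i j h => absurd h (hno i j), fun i j h => absurd h (hno i j),
      fun i j j' h => absurd h (hno i j)⟩, fun i j h => absurd h (hno i j)⟩, fun i a => ?_⟩
    have h1 : {p : Fin n × Fin n | p ∈ dt (H.comap e) (fun i j => E (e i) (e j)) i ∧
        (fun _ _ => 0 : Fin n → Fin n → ℕ) p.1 p.2 = a} = ∅ := by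
      rw [Set.eq_empty_iff_forall_notMem]
      rintro ⟨i', j'⟩ ⟨h, -⟩
      exact hno _ _ h.2
    rw [h1, Set.ncard_empty, add_zero, sum_ind']
    refine le_trans (Finset.card_le_card ?_) (hcl a)
    intro j hj
    exact Finset.mem_filter.2 ⟨Finset.mem_univ _, (Finset.mem_filter.1 hj).2.2⟩

/-- the colours at a vertex, from a table -/
noncomputable def tp (Δ : ℕ) {n : ℕ} (t : Fin n → Fin n → ℕ × ℕ × (Fin (Δ + 1) → ℕ))
    (i : Fin n) : Finset ℕ := by
  classical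
  exact (Finset.range (Δ + 1)).filter fun a => ∃ h : a < Δ + 1, (t i i).2.2 ⟨a, h⟩ = 1

/-- the table -/
noncomputable def th (H : SimpleGraph X) (E : X → X → Prop) (Ho : SimpleGraph X) (c0 : X → X → ℕ)
    (Δ : ℕ) (x y : X) : ℕ × ℕ × (Fin (Δ + 1) → ℕ) :=
  (ind (H.Adj x y), ind (E x y), fun a => ind (∃ z, Ho.Adj x z ∧ c0 x z = a))

omit [MeasurableSpace X] [StandardBorelSpace X] in
theorem tp_th {Ho : SimpleGraph X} {c0 : X → X → ℕ} {Δ n : ℕ} (e : Fin n → X) :
    tp Δ (fun i j => th H E Ho c0 Δ (e i) (e j)) = fun i => ps Ho c0 (Δ + 1) (e i) := by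
  classical
  funext i
  ext a
  rw [mem_ps]
  unfold tp
  rw [Finset.mem_filter, Finset.mem_range]
  constructor
  · rintro ⟨h1, h2, h3⟩
    exact ⟨h1, ind_eq.1 h3⟩
  · rintro ⟨h1, h2⟩
    exact ⟨h1, h1, ind_eq.2 h2⟩

/-- the local property -/
def Ph (Δ : ℕ) (n : ℕ) (t : Fin n → Fin n → ℕ × ℕ × (Fin (Δ + 1) → ℕ))
    (s' : Fin n → Fin n → ℕ) : Prop :=
  VC (gr fun i j => (t i j).1) (Δ + 1) (tp Δ t) s' ∧
    ∀ i a, (∑ j, ind ((t i j).2.1 = 1 ∧ a ∈ tp Δ t j)) +
      {p | p ∈ dt (gr fun i j => (t i j).1) (fun i j => (t i j).2.1 = 1) i ∧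
        s' p.1 p.2 = a}.ncard ≤ 2

omit [MeasurableSpace X] [StandardBorelSpace X] in
theorem Ph_th {Ho : SimpleGraph X} {c0 : X → X → ℕ} {Δ n : ℕ} (e : Fin n → X)
    {s' : Fin n → Fin n → ℕ} :
    Ph Δ n (fun i j => th H E Ho c0 Δ (e i) (e j)) s' ↔
      (VC (H.comap e) (Δ + 1) (fun i => ps Ho c0 (Δ + 1) (e i)) s' ∧
      ∀ i a, (∑ j, ind (E (e i) (e j) ∧ a ∈ ps Ho c0 (Δ + 1) (e j))) +
        {p | p ∈ dt (H.comap e) (fun i j => E (e i) (e j)) i ∧ s' p.1 p.2 = a}.ncard ≤ 2) := by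
  unfold Ph
  rw [tp_th]
  have h1 : (gr fun i j => (th H E Ho c0 Δ (e i) (e j)).1) = H.comap e := gr_ind e
  have h2 : (fun i j => (th H E Ho c0 Δ (e i) (e j)).2.1 = 1) = fun i j => E (e i) (e j) := by
    funext i j
    exact propext ind_eq
  rw [h1, h2]
  have h3 : ∀ i a, (∑ j, ind ((th H E Ho c0 Δ (e i) (e j)).2.1 = 1 ∧
      a ∈ ps Ho c0 (Δ + 1) (e j))) = ∑ j, ind (E (e i) (e j) ∧ a ∈ ps Ho c0 (Δ + 1) (e j)) := by
    intro i a
    refine Finset.sum_congr rfl fun j _ => ?_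
    have h4 : ((th H E Ho c0 Δ (e i) (e j)).2.1 = 1) = E (e i) (e j) := propext ind_eq
    rw [h4]
  simp only [h3]

end GLU

open GLU in
theorem t_GLU : S_GLU := by
  classical
  intro X _ _ H E hSt l W Δ b s hCt hSt' hG hcol
  obtain ⟨c0, hc0m, hc0⟩ := hcol
  set E' := mrg E s with hE'
  set Ho := mn H E' with hHo
  have hEE : ∀ a b, E a b → E' a b := fun a b h => Or.inl h
  obtain ⟨δ, hδm, hδ⟩ := sec_enum H.Adj hSt.bg fun x => (hSt.lf x).countable
  have hθ2 : Measurable fun p : X × X => fun a : Fin (Δ + 1) =>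
      ind (∃ z, Ho.Adj p.1 z ∧ c0 p.1 z = a) := by
    refine measurable_pi_lambda _ fun a => ?_
    refine meas_ind (P := fun p : X × X => ∃ z, Ho.Adj p.1 z ∧ c0 p.1 z = a) ?_
    have h1 : MeasurableSet {x | ∃ z, Ho.Adj x z ∧ c0 x z = a} :=
      ex_meas (R := fun x z => Ho.Adj x z ∧ c0 x z = a) hδm
        (MeasurableSet.inter hSt'.bg (measurableSet_eq_fun hc0m measurable_const))
        fun x y h => hδ x y h.1.1
    exact h1.preimage measurable_fst
  have hθ : Measurable fun p : X × X => th H E Ho c0 Δ p.1 p.2 :=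
    (meas_ind hSt.bg).prodMk ((meas_ind hSt.eb).prodMk hθ2)
  obtain ⟨s', hs1, -, hs3⟩ := BC (E := E') hSt'.eq hSt'.eb hSt'.ef (th H E Ho c0 Δ) hθ (Ph Δ) (by
    intro x n e he hr
    obtain ⟨s', h⟩ := local_col hSt hCt hSt' hG hc0 he hr
    exact ⟨s', (Ph_th e).2 h⟩)
  refine ⟨fun x y => if E' x y then s' x y else c0 x y, Measurable.ite hSt'.eb hs1 hc0m, ?_⟩
  -- the cases
  have hHo' : ∀ x y, H.Adj x y → ¬ E' x y → Ho.Adj x y := fun x y h h1 =>
    ⟨h, h1, fun h2 => h1 (hSt'.eq.symm h2)⟩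
  have hN : ∀ x y, H.Adj x y → E' x y → s' x y < Δ + 1 ∧ s' x y = s' y x ∧
      (∀ z, Ho.Adj x z → c0 x z ≠ s' x y) ∧
      ∀ y', H.Adj x y' → E' x y' → s' x y = s' x y' → y = y' := by
    intro x y h hxy
    obtain ⟨n, e, he, hr, h1⟩ := hs3 x
    rw [Ph_th] at h1
    obtain ⟨h1, -⟩ := h1
    obtain ⟨i, rfl⟩ : x ∈ range e := by rw [hr]; exact hSt'.eq.refl x
    obtain ⟨j, rfl⟩ : y ∈ range e := by rw [hr]; exact hxy
    refine ⟨h1.pc.lt i j h, h1.pc.symm i j h, ?_, ?_⟩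
    · intro z hz hzz
      have h3 := hc0.pc.lt _ _ hz
      exact h1.av i j h (mem_ps.2 ⟨hzz ▸ h3, z, hz, hzz⟩)
    · intro y' h' hxy' heq
      obtain ⟨j', rfl⟩ : y' ∈ range e := by rw [hr]; exact hxy'
      rw [h1.pc.inj i j j' h h' heq]
  refine ⟨⟨?_, ?_, ?_⟩, ?_⟩
  · intro x y h
    by_cases h1 : E' x y
    · rw [if_pos h1]; exact (hN x y h h1).1
    · rw [if_neg h1]; exact hc0.pc.lt _ _ (hHo' x y h h1)
  · intro x y h
    beta_reduce
    by_cases h1 : E' x y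
    · rw [if_pos h1, if_pos (hSt'.eq.symm h1)]; exact (hN x y h h1).2.1
    · rw [if_neg h1, if_neg fun h2 => h1 (hSt'.eq.symm h2)]
      exact hc0.pc.symm _ _ (hHo' x y h h1)
  · intro x y y' h h' heq
    beta_reduce at heq
    by_cases h1 : E' x y <;> by_cases h1' : E' x y'
    · rw [if_pos h1, if_pos h1'] at heq
      exact (hN x y h h1).2.2.2 y' h' h1' heq
    · rw [if_pos h1, if_neg h1'] at heq
      exact absurd heq.symm ((hN x y h h1).2.2.1 y' (hHo' _ _ h' h1'))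
    · rw [if_neg h1, if_pos h1'] at heq
      exact absurd heq ((hN x y' h' h1').2.2.1 y (hHo' _ _ h h1))
    · rw [if_neg h1, if_neg h1'] at heq
      exact hc0.pc.inj _ _ _ (hHo' _ _ h h1) (hHo' _ _ h' h1') heq
  · intro x a
    obtain ⟨n, e, he, hr, h1⟩ := hs3 x
    rw [Ph_th] at h1
    obtain ⟨-, h1⟩ := h1
    obtain ⟨i, rfl⟩ : x ∈ range e := by rw [hr]; exact hSt'.eq.refl x
    have hf := dt_fin hSt.lf hSt.ef (e i)
    set S : Set (X × X) := {p | p ∈ dt H E (e i) ∧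
      (fun x y => if E' x y then s' x y else c0 x y) p.1 p.2 = a} with hS
    have hSf : S.Finite := hf.subset fun p hp => hp.1
    have hS1 : {p | p ∈ S ∧ E' p.1 p.2}.ncard ≤
        {p | p ∈ dt (H.comap e) (fun i j => E (e i) (e j)) i ∧ s' (e p.1) (e p.2) = a}.ncard := by
      rw [← ncard_image_of_injective _ (he.prodMap he)]
      refine ncard_le_ncard ?_ (Set.toFinite _)
      rintro ⟨u, v⟩ ⟨⟨⟨h2, h3⟩, h4⟩, h5⟩
      simp only at h2 h3 h4 h5
      rw [if_pos h5] at h4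
      obtain ⟨j, rfl⟩ : u ∈ range e := by rw [hr]; exact hEE _ _ h2
      obtain ⟨k, rfl⟩ : v ∈ range e := by rw [hr]; exact hSt'.eq.trans (hEE _ _ h2) h5
      exact ⟨(j, k), ⟨⟨h2, h3⟩, h4⟩, rfl⟩
    have hS2 : {p | p ∈ S ∧ ¬ E' p.1 p.2}.ncard ≤
        ∑ j, ind (E (e i) (e j) ∧ a ∈ ps Ho c0 (Δ + 1) (e j)) := by
      rw [sum_ind', ← Set.ncard_coe_finset, ← ncard_image_of_injective _ he]
      refine ncard_le_ncard_of_injOn Prod.fst ?_ ?_ (Set.toFinite _)
      · rintro ⟨u, v⟩ ⟨⟨⟨h2, h3⟩, h4⟩, h5⟩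
        simp only at h2 h3 h4 h5
        rw [if_neg h5] at h4
        obtain ⟨j, rfl⟩ : u ∈ range e := by rw [hr]; exact hEE _ _ h2
        have h6 := hHo' _ _ h3 h5
        refine ⟨j, Finset.mem_coe.2 (Finset.mem_filter.2 ⟨Finset.mem_univ _, h2,
          mem_ps.2 ⟨h4 ▸ hc0.pc.lt _ _ h6, v, h6, h4⟩⟩), rfl⟩
      · rintro ⟨u, v⟩ ⟨⟨⟨h2, h3⟩, h4⟩, h5⟩ ⟨u', v'⟩ ⟨⟨⟨h2', h3'⟩, h4'⟩, h5'⟩ huu
        simp only at h2 h3 h4 h5 h2' h3' h4' h5' huu
        subst huu
        rw [if_neg h5] at h4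
        rw [if_neg h5'] at h4'
        rw [hc0.pc.inj _ _ _ (hHo' _ _ h3 h5) (hHo' _ _ h3' h5') (h4.trans h4'.symm)]
    have hS3 : S.ncard ≤ {p | p ∈ S ∧ E' p.1 p.2}.ncard + {p | p ∈ S ∧ ¬ E' p.1 p.2}.ncard := by
      refine le_trans (ncard_le_ncard (t := {p | p ∈ S ∧ E' p.1 p.2} ∪
        {p | p ∈ S ∧ ¬ E' p.1 p.2}) ?_ ((hSf.subset fun p hp => hp.1).union
          (hSf.subset fun p hp => hp.1))) (ncard_union_le _ _)
      intro p hp
      by_cases h4 : E' p.1 p.2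
      · exact Or.inl ⟨hp, h4⟩
      · exact Or.inr ⟨hp, h4⟩
    have h2 := h1 i a
    have h3 : S.ncard ≤ 2 := by omega
    rw [← hSf.cast_ncard_eq]
    exact_mod_cast h3

end Run7.h932
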