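import Pool.Agent.Run7.h932.U.Stm
import Pool.Agent.Run7.h932.U.Base

/-!
# LEV: new levels
-/

set_option autoImplicit false

namespace Run7.h932

open Set MeasureTheory SimpleGraph Pool.Q11.TwoEnd Pool.Q6.CI

namespace LEV

section Fin

variable {V : Type} {G : SimpleGraph V} {r : V → V → Prop} {D : Finset V}

/-- the vertices deep inside a set -/
def core (G : SimpleGraph V) (r : V → V → Prop) (D : Finset V) : ℕ → Set V
  | 0 => {x | (∃ y ∈ D, r x y) ∧ ∀ y z, r x y → G.Adj y z → y ∈ D ∧ z ∈ D}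
  | i + 1 => {x | x ∈ core G r D i ∧ ∀ y z, r x y → G.Adj y z → z ∈ core G r D i}

theorem core_inv (hr : Equivalence r) (i : ℕ) {x y : V} (h : r x y) (hx : x ∈ core G r D i) :
    y ∈ core G r D i := by
  induction i with
  | zero =>
    obtain ⟨⟨w, hw, hxw⟩, h2⟩ := hx
    exact ⟨⟨w, hw, hr.trans (hr.symm h) hxw⟩, fun a b ha hb => h2 a b (hr.trans h ha) hb⟩
  | succ i ih =>
    obtain ⟨h1, h2⟩ := hx
    exact ⟨ih h1, fun a b ha hb => h2 a b (hr.trans h ha) hb⟩

theorem core_zero {i : ℕ} {x : V} (hx : x ∈ core G r D i) : x ∈ core G r D 0 := by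
  induction i with
  | zero => exact hx
  | succ i ih => exact ih hx.1

theorem dts_le (hf : ∀ x, (dt G r x).Finite) {Δ : ℕ} (hr : Equivalence r)
    (hfull : ∀ x ∈ D, tg G r x = Δ) (S : Set (V × V))
    (hS : ∀ p ∈ S, ∃ x ∈ D, p ∈ dt G r x) : S.Finite ∧ S.ncard ≤ Δ * D.card := by
  classical
  have h1 : S ⊆ ((D.biUnion fun x => (hf x).toFinset : Finset (V × V)) : Set (V × V)) := by
    intro p hp
    obtain ⟨x, hx, hpx⟩ := hS p hp
    exact Finset.mem_coe.2 (Finset.mem_biUnion.2 ⟨x, hx, (hf x).mem_toFinset.2 hpx⟩)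
  refine ⟨(Finset.finite_toSet _).subset h1, ?_⟩
  refine (ncard_le_ncard h1 (Finset.finite_toSet _)).trans ?_
  rw [ncard_coe_finset]
  refine Finset.card_biUnion_le.trans ?_
  have h2 : ∀ x ∈ D, ((hf x).toFinset).card = Δ := by
    intro x hx
    rw [← ncard_eq_toFinset_card _ (hf x)]
    exact hfull x hx
  rw [Finset.sum_congr rfl h2, Finset.sum_const, smul_eq_mul, mul_comm]

theorem idg_le (hf : ∀ x, (dt G r x).Finite) {Δ : ℕ} (hr : Equivalence r)
    (hfull : ∀ x ∈ D, tg G r x = Δ) : idg G D ≤ Δ * D.card :=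
  (dts_le hf hr hfull _ fun p hp => ⟨p.1, hp.1, hr.refl _, hp.2.2⟩).2

/-- few vertices are not in the core -/
theorem c0_card (hf : ∀ x, (dt G r x).Finite) {Δ : ℕ} (hr : Equivalence r)
    (hB : Bd G r Δ D) (A : Finset V) (hA : ∀ x ∈ A, x ∈ D ∧ x ∉ core G r D 0) :
    A.card + 2 ≤ Δ := by
  classical
  have hex : ∀ x ∈ A, ∃ p : V × V, p ∈ dt G r x ∧ ¬ (p.1 ∈ D ∧ p.2 ∈ D) := by
    intro x hx
    obtain ⟨hxD, hxc⟩ := hA x hx
    by_contra hcon
    push Not at hcon
    refine hxc ⟨⟨x, hxD, hr.refl x⟩, fun y z hy hz => ?_⟩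
    have := hcon (y, z) ⟨hy, hz⟩
    exact ⟨this.1, this.2⟩
  choose! f hf1 hf2 using hex
  have hU := dts_le hf hr hB.full {p | ∃ x ∈ D, p ∈ dt G r x} fun p hp => hp
  have hI : {p : V × V | p.1 ∈ D ∧ p.2 ∈ D ∧ G.Adj p.1 p.2} ⊆ {p | ∃ x ∈ D, p ∈ dt G r x} :=
    fun p hp => ⟨p.1, hp.1, hr.refl _, hp.2.2⟩
  have h1 : A.card ≤ ({p | ∃ x ∈ D, p ∈ dt G r x} \
      {p : V × V | p.1 ∈ D ∧ p.2 ∈ D ∧ G.Adj p.1 p.2}).ncard := by
    rw [← ncard_coe_finset]
    refine ncard_le_ncard_of_injOn f ?_ ?_ (hU.1.subset diff_subset)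
    · intro x hx
      have hx' := Finset.mem_coe.1 hx
      exact ⟨⟨x, (hA x hx').1, hf1 x hx'⟩, fun h => hf2 x hx' ⟨h.1, h.2.1⟩⟩
    · intro x hx y hy hxy
      have hx' := Finset.mem_coe.1 hx
      have hy' := Finset.mem_coe.1 hy
      have h2 := (hf1 x hx').1
      have h3 := (hf1 y hy').1
      rw [← hxy] at h3
      exact hB.tr x (hA x hx').1 y (hA y hy').1 (hr.trans h2 (hr.symm h3))
  have h2 := ncard_diff_add_ncard_of_subset hI hU.1
  have h3 := hB.ov
  unfold idg at h3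
  have h4 := hU.2
  omega

theorem ci_card (hf : ∀ x, (dt G r x).Finite) {Δ : ℕ} (hr : Equivalence r)
    (hB : Bd G r Δ D) [DecidableEq V] (i : ℕ) (A B : Finset V)
    (hA : ∀ x, x ∈ A ↔ x ∈ D ∧ x ∉ core G r D i)
    (hAB : ∀ x, x ∈ B ↔ x ∈ D ∧ x ∉ core G r D (i + 1)) :
    B.card ≤ (1 + Δ) * A.card := by
  classical
  have h1 : B ⊆ A ∪ A.biUnion fun z => (hf z).toFinset.image Prod.snd := by
    intro x hx
    obtain ⟨hxD, hxc⟩ := (hAB x).1 hx
    rw [Finset.mem_union]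
    by_cases hxi : x ∈ core G r D i
    · right
      have h2 : ∃ y z, r x y ∧ G.Adj y z ∧ z ∉ core G r D i := by
        by_contra hcon
        push Not at hcon
        exact hxc ⟨hxi, fun y z hy hz => hcon y z hy hz⟩
      obtain ⟨y, z, hy, hz, hzc⟩ := h2
      obtain ⟨hyD, hzD⟩ := (core_zero hxi).2 y z hy hz
      have hxy := hB.tr x hxD y hyD hy
      subst hxy
      rw [Finset.mem_biUnion]
      refine ⟨z, (hA z).2 ⟨hzD, hzc⟩, Finset.mem_image.2 ⟨(z, x), ?_, rfl⟩⟩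
      exact (hf z).mem_toFinset.2 ⟨hr.refl z, hz.symm⟩
    · exact Or.inl ((hA x).2 ⟨hxD, hxi⟩)
  refine (Finset.card_le_card h1).trans ((Finset.card_union_le _ _).trans ?_)
  have h2 : (A.biUnion fun z => (hf z).toFinset.image Prod.snd).card ≤ A.card * Δ := by
    refine Finset.card_biUnion_le.trans ?_
    have h3 : ∀ z ∈ A, ((hf z).toFinset.image Prod.snd).card ≤ Δ := by
      intro z hz
      refine Finset.card_image_le.trans ?_
      rw [← ncard_eq_toFinset_card _ (hf z)]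
      exact (hB.full z ((hA z).1 hz).1).le
    refine (Finset.sum_le_card_nsmul _ _ _ h3).trans ?_
    rw [smul_eq_mul]
  calc A.card + _ ≤ A.card + A.card * Δ := by omega
    _ = (1 + Δ) * A.card := by ring

theorem core_card (hf : ∀ x, (dt G r x).Finite) {Δ : ℕ} (hr : Equivalence r)
    (hB : Bd G r Δ D) (i : ℕ) : ∀ (A : Finset V), (∀ x, x ∈ A ↔ x ∈ D ∧ x ∉ core G r D i) →
    A.card ≤ Δ * (1 + Δ) ^ i := by
  classical
  induction i with
  | zero =>
    intro A hA
    have := c0_card hf hr hB A fun x hx => (hA x).1 hx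
    rw [pow_zero, mul_one]
    omega
  | succ i ih =>
    intro B hB'
    have h1 := ih (D.filter fun x => x ∉ core G r D i) fun x => Finset.mem_filter
    have h2 := ci_card hf hr hB i _ B (fun x => Finset.mem_filter) hB'
    calc B.card ≤ (1 + Δ) * (D.filter fun x => x ∉ core G r D i).card := h2
      _ ≤ (1 + Δ) * (Δ * (1 + Δ) ^ i) := Nat.mul_le_mul_left _ h1
      _ = Δ * (1 + Δ) ^ (i + 1) := by ring

theorem core_ne (hf : ∀ x, (dt G r x).Finite) {Δ b : ℕ} (hr : Equivalence r)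
    (hB : Bd G r Δ D) (i : ℕ) (hb : Δ * (1 + Δ) ^ i ≤ b) (hD : b < D.card) :
    ∃ x ∈ D, x ∈ core G r D i := by
  by_contra hcon
  push Not at hcon
  have := core_card hf hr hB i D fun x => ⟨fun h => ⟨h, hcon x h⟩, fun h => h.1⟩
  omega

/-- an odd part of a bad set is bad -/
theorem bd_part (hf : ∀ x, (dt G r x).Finite) {Δ : ℕ} (hr : Equivalence r)
    (hB : Bd G r Δ D) (D1 D2 : Finset V) (h1 : D1 ⊆ D) (h2 : D2 ⊆ D)
    (hc : D1.card + D2.card = D.card)
    (he : ∀ x ∈ D, ∀ y ∈ D, G.Adj x y → (x ∈ D1 ∧ y ∈ D1) ∨ (x ∈ D2 ∧ y ∈ D2))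
    (hodd : Odd D1.card) : Bd G r Δ D1 := by
  refine ⟨hodd, fun x hx => hB.full x (h1 hx), fun x hx y hy => hB.tr x (h1 hx) y (h1 hy), ?_⟩
  have h3 := hB.ov
  have h4 : idg G D2 ≤ Δ * D2.card := idg_le hf hr fun x hx => hB.full x (h2 hx)
  have h5 : idg G D ≤ idg G D1 + idg G D2 := by
    unfold idg
    refine le_trans (ncard_le_ncard (t := {p : V × V | p.1 ∈ D1 ∧ p.2 ∈ D1 ∧ G.Adj p.1 p.2} ∪
      {p : V × V | p.1 ∈ D2 ∧ p.2 ∈ D2 ∧ G.Adj p.1 p.2}) ?_ ?_) (ncard_union_le _ _)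
    · rintro p ⟨h6, h7, h8⟩
      rcases he _ h6 _ h7 h8 with h | h
      · exact Or.inl ⟨h.1, h.2, h8⟩
      · exact Or.inr ⟨h.1, h.2, h8⟩
    · refine (dts_le hf hr hB.full _ ?_).1
      rintro p (h | h)
      · exact ⟨p.1, h1 h.1, hr.refl _, h.2.2⟩
      · exact ⟨p.1, h2 h.1, hr.refl _, h.2.2⟩
  rw [← hc] at h3
  have h6 : Δ * (D1.card + D2.card) = Δ * D1.card + Δ * D2.card := by ring
  omega

/-- a small minimal bad set has small level variation -/
theorem min_var (hf : ∀ x, (dt G r x).Finite) {Δ b : ℕ} (hr : Equivalence r)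
    (hB : Bd G r Δ D) (hmin : ∀ D' ⊂ D, ¬ Bd G r Δ D') {l : V → ℕ}
    (hlip : ∀ x y, G.Adj x y → l y ≤ l x + 1) (hb : D.card ≤ b) :
    ∀ x ∈ D, ∀ y ∈ D, l y ≤ l x + b := by
  classical
  intro x hx y hy
  by_contra hcon
  have h1 : ∃ c ∈ Finset.Icc (l x) (l y), c ∉ D.image l := by
    by_contra h
    push Not at h
    have h2 : (Finset.Icc (l x) (l y)).card ≤ (D.image l).card := Finset.card_le_card h
    have h3 := Finset.card_image_le (s := D) (f := l)
    rw [Nat.card_Icc] at h2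
    omega
  obtain ⟨c, hc, hcD⟩ := h1
  have hne : ∀ z ∈ D, l z ≠ c := fun z hz h => hcD (Finset.mem_image.2 ⟨z, hz, h⟩)
  obtain ⟨hc1, hc2⟩ := Finset.mem_Icc.1 hc
  have hcx := hne x hx
  have hcy := hne y hy
  set D1 := D.filter fun z => l z < c with hD1
  set D2 := D.filter fun z => c < l z with hD2
  have hcard : D1.card + D2.card = D.card := by
    have h2 : D2 = D.filter fun z => ¬ l z < c := by
      refine Finset.filter_congr fun z hz => ?_
      have := hne z hz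
      omega
    rw [h2]
    exact Finset.card_filter_add_card_filter_not _
  have hedge : ∀ u ∈ D, ∀ v ∈ D, G.Adj u v → (u ∈ D1 ∧ v ∈ D1) ∨ (u ∈ D2 ∧ v ∈ D2) := by
    intro u hu v hv huv
    have h2 := hlip u v huv
    have h3 := hlip v u huv.symm
    have h4 := hne u hu
    have h5 := hne v hv
    rcases lt_or_gt_of_ne h4 with h | h
    · exact Or.inl ⟨Finset.mem_filter.2 ⟨hu, h⟩, Finset.mem_filter.2 ⟨hv, by omega⟩⟩
    · exact Or.inr ⟨Finset.mem_filter.2 ⟨hu, h⟩, Finset.mem_filter.2 ⟨hv, by omega⟩⟩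
  have hs1 : D1 ⊂ D := by
    refine ⟨Finset.filter_subset _ _, fun h => ?_⟩
    have := (Finset.mem_filter.1 (h hy)).2
    omega
  have hs2 : D2 ⊂ D := by
    refine ⟨Finset.filter_subset _ _, fun h => ?_⟩
    have := (Finset.mem_filter.1 (h hx)).2
    omega
  have hodd := hB.odd
  rw [← hcard] at hodd
  rcases Nat.even_or_odd D1.card with h | h
  · have h2 : Odd D2.card := by
      rcases Nat.even_or_odd D2.card with h' | h'
      · exact absurd hodd (Nat.not_odd_iff_even.2 (h.add h'))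
      · exact h'
    exact hmin D2 hs2 (bd_part hf hr hB D2 D1 hs2.1 hs1.1 (by omega)
      (fun u hu v hv huv => (hedge u hu v hv huv).symm) h2)
  · exact hmin D1 hs1 (bd_part hf hr hB D1 D2 hs1.1 hs2.1 hcard hedge h)

theorem ex_min {Δ : ℕ} (hB : Bd G r Δ D) :
    ∃ D0 ⊆ D, Bd G r Δ D0 ∧ ∀ D' ⊂ D0, ¬ Bd G r Δ D' := by
  classical
  revert hB
  refine Finset.strongInductionOn D ?_
  intro D ih hB
  by_cases h : ∃ D' ⊂ D, Bd G r Δ D'
  · obtain ⟨D', h1, h2⟩ := h
    obtain ⟨D0, h3, h4, h5⟩ := ih D' h1 h2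
    exact ⟨D0, h3.trans h1.1, h4, h5⟩
  · push Not at h
    exact ⟨D, Finset.Subset.refl D, hB, h⟩

end Fin

section Tra

variable {V X : Type} {e : V → X} {H : SimpleGraph X} {E : X → X → Prop}

theorem tr_tg (he : Function.Injective e) {i : V}
    (hcl : ∀ y, E (e i) y → y ∈ range e ∧ ∀ z, H.Adj y z → z ∈ range e) :
    tg H E (e i) = tg (H.comap e) (fun a b => E (e a) (e b)) i := by
  unfold tg
  rw [← ncard_image_of_injective (dt (H.comap e) (fun a b => E (e a) (e b)) i) (he.prodMap he)]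
  congr 1
  ext ⟨y, z⟩
  constructor
  · rintro ⟨h1, h2⟩
    obtain ⟨⟨a, rfl⟩, h3⟩ := hcl y h1
    obtain ⟨b, rfl⟩ := h3 z h2
    exact ⟨(a, b), ⟨h1, h2⟩, rfl⟩
  · rintro ⟨⟨a, b⟩, ⟨h1, h2⟩, h3⟩
    rw [Prod.map_apply, Prod.mk.injEq] at h3
    obtain ⟨rfl, rfl⟩ := h3
    exact ⟨h1, h2⟩

theorem tr_idg (he : Function.Injective e) (D : Finset V) :
    idg H (D.map ⟨e, he⟩) = idg (H.comap e) D := by
  unfold idg
  rw [← ncard_image_of_injective {p : V × V | p.1 ∈ D ∧ p.2 ∈ D ∧ (H.comap e).Adj p.1 p.2}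
    (he.prodMap he)]
  congr 1
  ext ⟨y, z⟩
  constructor
  · rintro ⟨h1, h2, h3⟩
    obtain ⟨a, ha, rfl⟩ := Finset.mem_map.1 h1
    obtain ⟨b, hb, rfl⟩ := Finset.mem_map.1 h2
    exact ⟨(a, b), ⟨ha, hb, h3⟩, rfl⟩
  · rintro ⟨⟨a, b⟩, ⟨h1, h2, h3⟩, h4⟩
    rw [Prod.map_apply, Prod.mk.injEq] at h4
    obtain ⟨rfl, rfl⟩ := h4
    exact ⟨Finset.mem_map.2 ⟨a, h1, rfl⟩, Finset.mem_map.2 ⟨b, h2, rfl⟩, h3⟩

theorem tr_mem (he : Function.Injective e) {D : Finset V} {a : V} :
    e a ∈ D.map ⟨e, he⟩ ↔ a ∈ D := Finset.mem_map' ⟨e, he⟩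

theorem tr_bd (he : Function.Injective e) (hE : Equivalence E) {Δ : ℕ} (D : Finset V)
    (hcl : ∀ i, ∀ j ∈ D, E (e i) (e j) → ∀ y, E (e i) y → y ∈ range e ∧
      ∀ z, H.Adj y z → z ∈ range e) :
    Bd H E Δ (D.map ⟨e, he⟩) ↔ Bd (H.comap e) (fun a b => E (e a) (e b)) Δ D := by
  constructor
  · intro h
    have h1 := h.odd
    have h2 := h.ov
    rw [Finset.card_map] at h1 h2
    rw [tr_idg] at h2
    refine ⟨h1, fun x hx => ?_, fun x hx y hy hxy => ?_, h2⟩
    · rw [← tr_tg he (hcl x x hx (hE.refl _))]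
      exact h.full _ ((tr_mem he).2 hx)
    · exact he (h.tr _ ((tr_mem he).2 hx) _ ((tr_mem he).2 hy) hxy)
  · intro h
    have h1 := h.odd
    have h2 := h.ov
    refine ⟨?_, fun x hx => ?_, fun x hx y hy hxy => ?_, ?_⟩
    · rw [Finset.card_map]; exact h1
    · obtain ⟨a, ha, rfl⟩ := Finset.mem_map.1 hx
      show tg H E (e a) = Δ
      rw [tr_tg he (hcl a a ha (hE.refl _))]
      exact h.full a ha
    · obtain ⟨a, ha, rfl⟩ := Finset.mem_map.1 hx
      obtain ⟨b, hb, rfl⟩ := Finset.mem_map.1 hy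
      rw [h.tr a ha b hb hxy]
    · rw [Finset.card_map, tr_idg]; exact h2

theorem tr_core (he : Function.Injective e) (D : Finset V)
    (hcl : ∀ i, ∀ j ∈ D, E (e i) (e j) → ∀ y, E (e i) y → y ∈ range e ∧
      ∀ z, H.Adj y z → z ∈ range e) (k : ℕ) :
    ∀ i, e i ∈ core H E (D.map ⟨e, he⟩) k ↔
      i ∈ core (H.comap e) (fun a b => E (e a) (e b)) D k := by
  induction k with
  | zero =>
    intro i
    constructor
    · rintro ⟨⟨y, hy, hxy⟩, h2⟩
      obtain ⟨j, hj, rfl⟩ := Finset.mem_map.1 hy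
      refine ⟨⟨j, hj, hxy⟩, fun a b hab hadj => ?_⟩
      have := h2 (e a) (e b) hab hadj
      rw [tr_mem he, tr_mem he] at this
      exact this
    · rintro ⟨⟨j, hj, hij⟩, h2⟩
      refine ⟨⟨e j, (tr_mem he).2 hj, hij⟩, fun y z hy hz => ?_⟩
      obtain ⟨⟨a, rfl⟩, h3⟩ := hcl i j hj hij y hy
      obtain ⟨b, rfl⟩ := h3 z hz
      rw [tr_mem he, tr_mem he]
      exact h2 a b hy hz
  | succ k ih =>
    intro i
    constructor
    · rintro ⟨h1, h2⟩
      exact ⟨(ih i).1 h1, fun a b hab hadj => (ih b).1 (h2 (e a) (e b) hab hadj)⟩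
    · rintro ⟨h1, h2⟩
      obtain ⟨j, hj, hij⟩ := (core_zero h1).1
      refine ⟨(ih i).2 h1, fun y z hy hz => ?_⟩
      obtain ⟨⟨a, rfl⟩, h3⟩ := hcl i j hj hij y hy
      obtain ⟨b, rfl⟩ := h3 z hz
      exact (ih b).2 (h2 a b hy hz)

end Tra

section Meas

variable {X : Type} [MeasurableSpace X] [StandardBorelSpace X]

theorem BCset {Θ : Type} [Countable Θ] [MeasurableSpace Θ] [MeasurableSingletonClass Θ]
    {R : X → X → Prop} (hR : Equivalence R) (hm : MeasurableSet {p : X × X | R p.1 p.2})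
    (hfin : ∀ x, {y | R x y}.Finite) (θ : X → X → Θ) (hθ : Measurable fun p : X × X => θ p.1 p.2)
    (Z : Set X) (Q : (n : ℕ) → (Fin n → Fin n → Θ) → Fin n → Prop)
    (hQ : ∀ (n : ℕ) (e : Fin n → X) (i : Fin n), Function.Injective e →
      range e = {y | R (e i) y} → (e i ∈ Z ↔ Q n (fun i j => θ (e i) (e j)) i)) :
    MeasurableSet Z := by
  obtain ⟨s, hs1, -, hs3⟩ := BC hR hm hfin θ hθ (fun n t s => ∀ i, s i i = 1 ↔ Q n t i) (by
    intro x n e he hr
    exact ⟨fun i _ => ind (Q n (fun i j => θ (e i) (e j)) i), fun i => ind_eq⟩)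
  have h1 : Z = {x | s x x = 1} := by
    ext x
    obtain ⟨n, e, he, hr, h⟩ := hs3 x
    obtain ⟨i, rfl⟩ : x ∈ range e := by rw [hr]; exact hR.refl x
    have h2 : range e = {y | R (e i) y} := by
      rw [hr]
    rw [hQ n e i he h2]
    exact (h i).symm
  rw [h1]
  exact measurableSet_eq_fun (hs1.comp (measurable_id.prodMk measurable_id)) measurable_const

/-- the points at distance at most `i` -/
def lv (H : SimpleGraph X) (E : X → X → Prop) (S : Set X) : ℕ → Set X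
  | 0 => S
  | i + 1 => lv H E S i ∪ {x | ∃ y, E x y ∧ y ∈ {y | ∃ z, H.Adj y z ∧ z ∈ lv H E S i}}

theorem lv_meas {H : SimpleGraph X} {E : X → X → Prop} (hSt : St H E) {S : Set X}
    (hS : MeasurableSet S) (i : ℕ) : MeasurableSet (lv H E S i) := by
  obtain ⟨δ, hδm, hδ⟩ := sec_enum H.Adj hSt.bg fun x => (hSt.lf x).countable
  obtain ⟨ε, hεm, hε⟩ := sec_enum E hSt.eb fun x => (hSt.ef x).countable
  induction i with
  | zero => exact hS
  | succ i ih =>
    refine ih.union ?_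
    have h1 : MeasurableSet {y | ∃ z, H.Adj y z ∧ z ∈ lv H E S i} :=
      ex_meas (R := fun y z => H.Adj y z ∧ z ∈ lv H E S i) hδm
        (MeasurableSet.inter hSt.bg (measurable_snd ih)) fun x y h => hδ x y h.1
    exact ex_meas (R := fun x y => E x y ∧ y ∈ {y | ∃ z, H.Adj y z ∧ z ∈ lv H E S i}) hεm
      (MeasurableSet.inter hSt.eb (measurable_snd h1)) fun x y h => hε x y h.1

omit [MeasurableSpace X] [StandardBorelSpace X] in
theorem lv_mono {H : SimpleGraph X} {E : X → X → Prop} {S : Set X} {i j : ℕ} (h : i ≤ j) :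
    lv H E S i ⊆ lv H E S j := by
  induction j with
  | zero => rw [Nat.le_zero.1 h]
  | succ j ih =>
    rcases Nat.lt_or_ge i (j + 1) with h1 | h1
    · exact (ih (by omega)).trans subset_union_left
    · rw [le_antisymm h h1]

omit [MeasurableSpace X] [StandardBorelSpace X] in
theorem lv_inv {H : SimpleGraph X} {E : X → X → Prop} (hE : Equivalence E) {S : Set X}
    (hS : ∀ x y, E x y → x ∈ S → y ∈ S) (i : ℕ) :
    ∀ x y, E x y → x ∈ lv H E S i → y ∈ lv H E S i := by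
  induction i with
  | zero => exact hS
  | succ i ih =>
    rintro x y h (h1 | ⟨z, hz, h1⟩)
    · exact Or.inl (ih x y h h1)
    · exact Or.inr ⟨z, hE.trans (hE.symm h) hz, h1⟩

end Meas

end LEV

open LEV in
theorem t_LEV : S_LEV := by
  classical
  intro X _ _ H E hSt l W Δ b W' hLv htg hb hW hno
  have hE := hSt.eq
  -- the zone
  have hz : ∀ x y, E x y → 5 ≤ l x ∧ l x + 5 ≤ W → 5 ≤ l y ∧ l y + 5 ≤ W := by
    intro x y h h1
    rcases hLv.inv x y h with h2 | h2
    · rw [← h2]; exact h1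
    · exact ⟨h2.2.2.1, h2.2.2.2.1⟩
  have hmid : ∀ x, 5 ≤ l x ∧ l x + 5 ≤ W → x ∈ mid l W := by
    intro x h
    exact ⟨by omega, by omega⟩
  set R : X → X → Prop := (rs (cg H E) (mid l W)).Reachable with hR
  have hRE : ∀ x y, E x y → (5 ≤ l x ∧ l x + 5 ≤ W) → R x y := by
    intro x y h h1
    by_cases hxy : x = y
    · rw [hxy]
    · exact SimpleGraph.Adj.reachable ⟨(cg_adj hE).2 ⟨hxy, Or.inr h⟩, hmid x h1, hmid y (hz x y h h1)⟩
  have hRH : ∀ x y, H.Adj x y → (5 ≤ l x ∧ l x + 5 ≤ W) → R x y := by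
    intro x y h h1
    have h2 := hLv.lip x y h
    have h3 := hLv.lip y x h.symm
    exact SimpleGraph.Adj.reachable ⟨(cg_adj hE).2 ⟨h.ne, Or.inl h⟩, hmid x h1,
      ⟨by omega, by omega⟩⟩
  have hReq : Equivalence R := reach_equiv _
  have hmidm : MeasurableSet (mid l W) :=
    (measurableSet_lt measurable_const hLv.ms).inter (measurableSet_lt hLv.ms measurable_const)
  have hRm : MeasurableSet {p : X × X | R p.1 p.2} :=
    reach_meas ((cg_bg hE hSt.bg hSt.eb).rs hmidm) fun x =>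
      (((cg_lf hE hSt.lf hSt.ef).mono (rs_le _ _)) x).countable
  have hRf : ∀ x, {y | R x y}.Finite := hLv.f1.mono (rs_mono le_rfl fun x hx => hx.2)
  have hdf : ∀ x, (dt H E x).Finite := dt_finite hSt.lf hSt.ef
  set Z : Set X := {x | ∃ D : Finset X, Bd H E Δ D ∧ (∀ y ∈ D, 5 ≤ l y ∧ l y + 5 ≤ W) ∧
    (∀ y ∈ D, ∀ z ∈ D, R y z) ∧ x ∈ core H E D W'} with hZ
  have hZm : MeasurableSet Z := by
    refine BCset hReq hRm hRf (fun x y => (ind (H.Adj x y), ind (E x y), l x))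
      ((meas_ind hSt.bg).prodMk ((meas_ind hSt.eb).prodMk (hLv.ms.comp measurable_fst))) Z
      (fun n t i => ∃ D : Finset (Fin n),
        Bd (gr fun i j => (t i j).1) (fun i j => (t i j).2.1 = 1) Δ D ∧
        (∀ y ∈ D, 5 ≤ (t y y).2.2 ∧ (t y y).2.2 + 5 ≤ W) ∧
        i ∈ core (gr fun i j => (t i j).1) (fun i j => (t i j).2.1 = 1) D W') ?_
    intro n e i he hr
    show e i ∈ Z ↔ ∃ D : Finset (Fin n),
        Bd (gr fun i j => ind (H.Adj (e i) (e j))) (fun i j => ind (E (e i) (e j)) = 1) Δ D ∧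
        (∀ y ∈ D, 5 ≤ l (e y) ∧ l (e y) + 5 ≤ W) ∧
        i ∈ core (gr fun i j => ind (H.Adj (e i) (e j))) (fun i j => ind (E (e i) (e j)) = 1) D W'
    rw [gr_ind, ind_one (P := fun i j => E (e i) (e j))]
    have hre : ∀ j, R (e i) (e j) := by
      intro j
      have : e j ∈ range e := ⟨j, rfl⟩
      rw [hr] at this
      exact this
    have hrr : ∀ j y, R (e j) y → y ∈ range e := by
      intro j y h
      rw [hr]
      exact hReq.trans (hre j) h
    have hcl : ∀ D : Finset (Fin n), (∀ y ∈ D, 5 ≤ l (e y) ∧ l (e y) + 5 ≤ W) →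
        ∀ i, ∀ j ∈ D, E (e i) (e j) → ∀ y, E (e i) y → y ∈ range e ∧
          ∀ z, H.Adj y z → z ∈ range e := by
      intro D hD i j hj hij y hy
      have h1 := hz _ _ (hE.symm hij) (hD j hj)
      have h2 := hRE _ _ hy h1
      have h3 := hz _ _ hy h1
      exact ⟨hrr i y h2, fun z hyz => hrr i z (hReq.trans h2 (hRH y z hyz h3))⟩
    constructor
    · rintro ⟨D, h1, h2, h3, h4⟩
      obtain ⟨d, hd, hid⟩ := (core_zero h4).1
      have h5 : ∀ y ∈ D, y ∈ range e := by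
        intro y hy
        refine hrr i y (hReq.trans ?_ (h3 d hd y hy))
        exact hReq.symm (hRE _ _ (hE.symm hid) (h2 d hd))
      have h6 : (Finset.univ.filter fun j => e j ∈ D).map ⟨e, he⟩ = D := by
        ext y
        constructor
        · intro hy
          obtain ⟨j, hj, rfl⟩ := Finset.mem_map.1 hy
          exact (Finset.mem_filter.1 hj).2
        · intro hy
          obtain ⟨j, rfl⟩ := h5 y hy
          exact (tr_mem he).2 (Finset.mem_filter.2 ⟨Finset.mem_univ _, hy⟩)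
      have h7 : ∀ j ∈ (Finset.univ.filter fun j => e j ∈ D), 5 ≤ l (e j) ∧ l (e j) + 5 ≤ W :=
        fun j hj => h2 _ (Finset.mem_filter.1 hj).2
      refine ⟨Finset.univ.filter fun j => e j ∈ D, ?_, h7, ?_⟩
      · rw [← tr_bd he hE _ (hcl _ h7), h6]
        exact h1
      · rw [← tr_core he _ (hcl _ h7), h6]
        exact h4
    · rintro ⟨D, h1, h2, h3⟩
      refine ⟨D.map ⟨e, he⟩, (tr_bd he hE _ (hcl _ h2)).2 h1, ?_, ?_,
        (tr_core he _ (hcl _ h2) _ _).2 h3⟩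
      · intro y hy
        obtain ⟨j, hj, rfl⟩ := Finset.mem_map.1 hy
        exact h2 j hj
      · intro y hy z hz'
        obtain ⟨j, hj, rfl⟩ := Finset.mem_map.1 hy
        obtain ⟨k, hk, rfl⟩ := Finset.mem_map.1 hz'
        exact hReq.trans (hReq.symm (hre j)) (hre k)
  have hZE : ∀ x y, E x y → x ∈ Z → y ∈ Z := by
    rintro x y h ⟨D, h1, h2, h3, h4⟩
    exact ⟨D, h1, h2, h3, core_inv hE _ h h4⟩
  set S0 : Set X := {x | l x ≤ 4} ∪ Z with hS0
  have hS0m : MeasurableSet S0 := (measurableSet_le hLv.ms measurable_const).union hZm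
  have hS0E : ∀ x y, E x y → x ∈ S0 → y ∈ S0 := by
    rintro x y h (h1 | h1)
    · left
      have h1' : l x ≤ 4 := h1
      show l y ≤ 4
      rcases hLv.inv x y h with h2 | h2
      · omega
      · omega
    · exact Or.inr (hZE x y h h1)
  have hSm := lv_meas hSt hS0m
  have hSE := lv_inv (H := H) hE hS0E
  set S := lv H E S0 with hS
  -- the points in `S i`
  have hclaim : ∀ i, i ≤ W' → ∀ x ∈ S i, l x ≤ 4 + i * (b + 1) ∨
      ∃ D : Finset X, Bd H E Δ D ∧ (∀ y ∈ D, 5 ≤ l y ∧ l y + 5 ≤ W) ∧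
        (∀ y ∈ D, ∀ z ∈ D, R y z) ∧ x ∈ core H E D (W' - i) := by
    intro i
    induction i with
    | zero =>
      rintro - x (h | h)
      · left
        have h' : l x ≤ 4 := h
        omega
      · right
        exact h
    | succ i ih =>
      rintro hi x (h | ⟨y, hxy, z, hyz, hzS⟩)
      · rcases ih (by omega) x h with h1 | ⟨D, h1, h2, h3, h4⟩
        · left
          have : (i + 1) * (b + 1) = i * (b + 1) + (b + 1) := by ring
          omega
        · right
          refine ⟨D, h1, h2, h3, ?_⟩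
          have h5 : W' - i = (W' - (i + 1)) + 1 := by omega
          rw [h5] at h4
          exact h4.1
      · rcases ih (by omega) z hzS with h1 | ⟨D, h1, h2, h3, h4⟩
        · left
          have h2 := hLv.lip z y hyz.symm
          have h3 : l x ≤ l y + b := by
            rcases hLv.inv y x (hE.symm hxy) with h4 | h4
            · omega
            · omega
          have : (i + 1) * (b + 1) = i * (b + 1) + (b + 1) := by ring
          omega
        · right
          refine ⟨D, h1, h2, h3, ?_⟩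
          have h5 : W' - i = (W' - (i + 1)) + 1 := by omega
          rw [h5] at h4
          exact core_inv hE _ (hE.symm hxy) (h4.2 z y (hE.refl z) hyz.symm)
  set l' : X → ℕ := fun x => ∑ i ∈ Finset.range W', ind (x ∉ S i) with hl'
  have hSmono : ∀ i j, i ≤ j → S i ⊆ S j := fun i j h => lv_mono h
  have h0 : ∀ x, 0 < l' x → x ∉ S0 := by
    intro x hx hxS
    have : l' x = 0 := by
      refine Finset.sum_eq_zero fun i _ => ?_
      unfold ind
      rw [if_neg]
      exact fun h => h (hSmono 0 i (Nat.zero_le _) hxS)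
    omega
  have hW' : ∀ x, l' x < W' → ∃ i, i < W' ∧ x ∈ S i := by
    intro x hx
    by_contra hcon
    push Not at hcon
    have : l' x = W' := by
      have h1 : ∀ i ∈ Finset.range W', ind (x ∉ S i) = 1 := fun i hi =>
        ind_eq.2 (hcon i (Finset.mem_range.1 hi))
      show ∑ i ∈ Finset.range W', ind (x ∉ S i) = W'
      rw [Finset.sum_congr rfl h1]
      simp
    omega
  have hup : ∀ x, l' x < W' → l x + 5 ≤ W := by
    intro x hx
    obtain ⟨i, hi, hxi⟩ := hW' x hx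
    rcases hclaim i (by omega) x hxi with h1 | ⟨D, h1, h2, h3, h4⟩
    · have h2 : i * (b + 1) ≤ (W' + 2) * (b + 1) := Nat.mul_le_mul_right _ (by omega)
      omega
    · obtain ⟨d, hd, hxd⟩ := (core_zero h4).1
      exact (hz d x (hE.symm hxd) (h2 d hd)).2
  refine ⟨l', Z, ⟨?_, ?_, ?_, ?_, ?_⟩, hZm, hZE, ?_, ?_⟩
  · exact Finset.measurable_sum _ fun i _ => meas_ind (hSm i).compl
  · intro x y h
    left
    refine Finset.sum_congr rfl fun i _ => ?_
    have h1 : (x ∉ S i) = (y ∉ S i) := by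
      refine propext ⟨fun h2 h3 => h2 (hSE i y x (hE.symm h) h3), fun h2 h3 => h2 (hSE i x y h h3)⟩
    rw [h1]
  · intro x y h
    have hstep : ∀ i, ind (y ∉ S (i + 1)) ≤ ind (x ∉ S i) := by
      intro i
      by_cases h1 : x ∈ S i
      · have h2 : y ∈ S (i + 1) := Or.inr ⟨y, hE.refl y, x, h.symm, h1⟩
        unfold ind
        rw [if_neg (not_not.2 h2)]
        exact Nat.zero_le _
      · rw [ind_eq.2 h1]
        unfold ind
        split_ifs <;> norm_num
    show ∑ i ∈ Finset.range W', ind (y ∉ S i) ≤ ∑ i ∈ Finset.range W', ind (x ∉ S i) + 1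
    rcases Nat.eq_zero_or_pos W' with h1 | h1
    · rw [h1]; simp
    · obtain ⟨n, hn⟩ : ∃ n, W' = n + 1 := ⟨W' - 1, by omega⟩
      rw [hn, Finset.sum_range_succ', Finset.sum_range_succ]
      have h2 : ∑ i ∈ Finset.range n, ind (y ∉ S (i + 1)) ≤ ∑ i ∈ Finset.range n, ind (x ∉ S i) :=
        Finset.sum_le_sum fun i _ => hstep i
      have h3 : ind (y ∉ S 0) ≤ 1 := by
        unfold ind
        split_ifs <;> norm_num
      omega
  · refine hLv.f1.mono (rs_mono le_rfl fun x hx => ?_)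
    have h1 : l' x < W' := hx
    have := hup x h1
    show l x < W
    omega
  · refine hLv.f2.mono (rs_mono le_rfl fun x hx => ?_)
    have h1 : 0 < l' x := hx
    have h2 := h0 x h1
    show 0 < l x
    by_contra h3
    exact h2 (Or.inl (by show l x ≤ 4; omega))
  · intro x h1 h2
    have h3 := h0 x h1
    refine ⟨?_, hup x h2, fun h => h3 (Or.inr h)⟩
    by_contra h4
    exact h3 (Or.inl (by show l x ≤ 4; omega))
  · intro D hD hDz hDR
    obtain ⟨D0, h1, h2, h3⟩ := ex_min hD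
    by_cases h4 : D0.card ≤ b
    · exfalso
      refine hno D0 h2 (fun x hx => hDz x (h1 hx)) fun x hx y hy =>
        ⟨hDR x (h1 hx) y (h1 hy), min_var hdf hE h2 h3 hLv.lip h4 x hx y hy⟩
    · obtain ⟨x, hx, hxc⟩ := core_ne hdf hE h2 W' hb (by omega)
      exact ⟨x, h1 hx, D0, h2, fun y hy => hDz y (h1 hy), fun y hy z hz => hDR y (h1 hy) z (h1 hz),
        hxc⟩

end Run7.h932
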