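import Pool.Agent.Run7.h932.U.Stm

/-!
# Merging the classes that meet a cut set
-/

set_option autoImplicit false

namespace Run7.h932

open Set MeasureTheory SimpleGraph Pool.Q11.TwoEnd Pool.Q6.CI

namespace MRG

variable {X : Type}

theorem s_refl {s : X → X → ℕ} (sy : ∀ x y, s x y = 1 → s y x = 1)
    (ts : ∀ x y z, s x y = 1 → s y z = 1 → s x z = 1) {x y : X} (h : s x y = 1) :
    s x x = 1 := ts _ _ _ h (sy _ _ h)

theorem mrg_equiv {E : X → X → Prop} {s : X → X → ℕ} (hE : Equivalence E)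
    (sy : ∀ x y, s x y = 1 → s y x = 1) (ts : ∀ x y z, s x y = 1 → s y z = 1 → s x z = 1)
    (tr : ∀ x y, s x x = 1 → s y y = 1 → E x y → x = y) : Equivalence (mrg E s) := by
  refine ⟨fun x => Or.inl (hE.refl x), ?_, ?_⟩
  · rintro x y (h | ⟨u, v, h1, h2, h3⟩)
    · exact Or.inl (hE.symm h)
    · exact Or.inr ⟨v, u, hE.symm h3, sy _ _ h2, hE.symm h1⟩
  · rintro x y z (h | ⟨u, v, h1, h2, h3⟩) (h' | ⟨u', v', h1', h2', h3'⟩)
    · exact Or.inl (hE.trans h h')
    · exact Or.inr ⟨u', v', hE.trans h h1', h2', h3'⟩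
    · exact Or.inr ⟨u, v, h1, h2, hE.trans h3 h'⟩
    · have hvu : v = u' := by
        refine tr v u' (ts _ _ _ (sy _ _ h2) h2) (ts _ _ _ h2' (sy _ _ h2')) (hE.trans h3 h1')
      subst hvu
      exact Or.inr ⟨u, v', h1, ts _ _ _ h2 h2', h3'⟩

theorem Lv_zero {H : SimpleGraph X} [MeasurableSpace X] [StandardBorelSpace X]
    {E : X → X → Prop} (hE : Equivalence E) {l : X → ℕ} {W : ℕ}
    (h : Lv H E l W 0) {x y : X} (hxy : E x y) : l x = l y := by
  rcases h.inv x y hxy with h1 | h1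
  · exact h1
  · rcases h.inv y x (hE.symm hxy) with h2 | h2
    · exact h2.symm
    · have := h1.2.2.2.2
      have := h2.2.2.2.2
      omega

/-- reachability after merging -/
theorem reach_mrg {H : SimpleGraph X} {E : X → X → Prop} {s : X → X → ℕ} {Y Z : Set X}
    (hZY : Z ⊆ Y) (hE : Equivalence E) (hEY : ∀ x y, E x y → x ∈ Y → y ∈ Y)
    (re : ∀ x y, s x y = 1 → (rs (cg H E) Z).Reachable x y) {x y : X}
    (h : (rs (cg (mn H (mrg E s)) (mrg E s)) Y).Reachable x y) :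
    (rs (cg H E) Y).Reachable x y := by
  have hEr : ∀ {x y : X}, E x y → x ∈ Y → (rs (cg H E) Y).Reachable x y := by
    intro x y hxy hx
    by_cases hne : x = y
    · rw [hne]
    · refine SimpleGraph.Adj.reachable ⟨?_, hx, hEY _ _ hxy hx⟩
      unfold cg
      rw [SimpleGraph.fromRel_adj]
      exact ⟨hne, Or.inl (Or.inr hxy)⟩
  have hMr : ∀ {x y : X}, mrg E s x y → x ∈ Y → y ∈ Y → (rs (cg H E) Y).Reachable x y := by
    rintro x y (h | ⟨u, v, h1, h2, h3⟩) hx hy
    · exact hEr h hx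
    · refine (hEr h1 hx).trans (SimpleGraph.Reachable.trans ?_
        (hEr (hE.symm h3) hy).symm)
      exact (re _ _ h2).mono (rs_mono le_rfl hZY)
  obtain ⟨p⟩ := h
  induction p with
  | nil => exact SimpleGraph.Reachable.refl _
  | @cons a b c hab p ih =>
    refine SimpleGraph.Reachable.trans ?_ ih
    obtain ⟨h1, h2, h3⟩ := hab
    unfold cg at h1
    rw [SimpleGraph.fromRel_adj] at h1
    obtain ⟨hne, (h4 | h4) | (h4 | h4)⟩ := h1
    · refine SimpleGraph.Adj.reachable ⟨?_, h2, h3⟩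
      unfold cg
      rw [SimpleGraph.fromRel_adj]
      exact ⟨hne, Or.inl (Or.inl h4.1)⟩
    · exact hMr h4 h2 h3
    · refine SimpleGraph.Adj.reachable ⟨?_, h2, h3⟩
      unfold cg
      rw [SimpleGraph.fromRel_adj]
      exact ⟨hne, Or.inl (Or.inl h4.1.symm)⟩
    · exact (hMr h4 h3 h2).symm

/-- finitely many darts -/
theorem dt_fin {H : SimpleGraph X} (hlf : LF H) {E : X → X → Prop}
    (hfin : ∀ x, {y | E x y}.Finite) (x : X) : (dt H E x).Finite := by
  refine ((hfin x).biUnion fun y _ => (hlf y).image fun z => (y, z)).subset ?_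
  rintro ⟨a, b⟩ ⟨h1, h2⟩
  exact mem_biUnion h1 ⟨b, h2, rfl⟩

/-- a merged class has few darts -/
theorem tg_merged {H : SimpleGraph X} (hlf : LF H) {E : X → X → Prop} (hE : Equivalence E)
    (hfin : ∀ x, {y | E x y}.Finite) {s : X → X → ℕ} (sy : ∀ x y, s x y = 1 → s y x = 1)
    (ts : ∀ x y z, s x y = 1 → s y z = 1 → s x z = 1)
    (tr : ∀ x y, s x x = 1 → s y y = 1 → E x y → x = y) {Δ : ℕ}
    (bd : ∀ x, s x x = 1 → ∃ D : Finset X, (∀ y, y ∈ D ↔ s x y = 1) ∧ Bd H E Δ D)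
    {x u : X} (hxu : E x u) (hu : s u u = 1) :
    tg (mn H (mrg E s)) (mrg E s) x + 2 ≤ Δ := by
  classical
  obtain ⟨D, hD1, hD2⟩ := bd u hu
  have hM := mrg_equiv hE sy ts tr
  -- the merged class
  have hcl : ∀ a, mrg E s x a → ∃ d ∈ D, E d a := by
    rintro a (h | ⟨u', v, h1, h2, h3⟩)
    · exact ⟨u, (hD1 u).2 hu, hE.trans (hE.symm hxu) h⟩
    · have : u = u' := tr u u' hu (ts _ _ _ h2 (sy _ _ h2)) (hE.trans (hE.symm hxu) h1)
      subst this
      exact ⟨v, (hD1 v).2 h2, h3⟩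
  have hcl' : ∀ d ∈ D, mrg E s x d := fun d hd => Or.inr ⟨u, d, hxu, (hD1 d).1 hd, hE.refl d⟩
  set A := dt (mn H (mrg E s)) (mrg E s) x with hA
  set B := {p : X × X | p.1 ∈ D ∧ p.2 ∈ D ∧ H.Adj p.1 p.2} with hB
  have hU : (⋃ d ∈ D, dt H E d).Finite := by
    refine Set.Finite.biUnion D.finite_toSet fun d _ => dt_fin hlf hfin d
  have hAB : A ∪ B ⊆ ⋃ d ∈ D, dt H E d := by
    rintro ⟨a, b⟩ (⟨h1, h2⟩ | ⟨h1, h2, h3⟩)
    · obtain ⟨d, hd, hda⟩ := hcl a h1
      simp only [mem_iUnion]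
      exact ⟨d, hd, hda, h2.1⟩
    · simp only [mem_iUnion]
      exact ⟨a, h1, hE.refl a, h3⟩
  have hdis : Disjoint A B := by
    rw [Set.disjoint_left]
    rintro ⟨a, b⟩ ⟨h1, h2⟩ ⟨h3, h4, h5⟩
    exact h2.2.1 (hM.trans (hM.symm (hcl' a h3)) (hcl' b h4))
  have h1 : A.ncard + B.ncard ≤ (⋃ d ∈ D, dt H E d).ncard := by
    rw [← ncard_union_eq hdis (hU.subset (subset_union_left.trans hAB))
      (hU.subset (subset_union_right.trans hAB))]
    exact ncard_le_ncard hAB hU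
  have h2 : (⋃ d ∈ D, dt H E d).ncard ≤ ∑ d ∈ D, tg H E d := by
    exact Finset.set_ncard_biUnion_le D fun d => dt H E d
  have h3 : ∑ d ∈ D, tg H E d = Δ * D.card := by
    rw [Finset.sum_congr rfl fun d hd => hD2.full d hd, Finset.sum_const, smul_eq_mul, mul_comm]
  have h4 := hD2.ov
  have h5 : B.ncard = idg H D := rfl
  have h6 : A.ncard = tg (mn H (mrg E s)) (mrg E s) x := rfl
  omega

end MRG

open MRG

theorem t_MRG : S_MRG := by
  classical
  intro X _ _ H E hSt l W hLv Δ b hdeg s hCt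
  have hE := hSt.eq
  have hM := mrg_equiv hE hCt.sy hCt.ts hCt.tr
  have hl0 : ∀ {x y}, E x y → l x = l y := fun h => Lv_zero hE hLv h
  have hmidfin : FinC (rs (cg H E) (mid l W)) :=
    hLv.f1.mono (rs_mono le_rfl fun x hx => hx.2)
  have hsf : ∀ x, {y | s x y = 1}.Finite := fun x =>
    (hmidfin x).subset fun y hy => hCt.re x y hy
  have hMf : ∀ x, {y | mrg E s x y}.Finite := by
    intro x
    refine ((hSt.ef x).union ((hSt.ef x).biUnion fun u _ => (hsf u).biUnion fun v _ =>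
      hSt.ef v)).subset ?_
    rintro y (h | ⟨u, v, h1, h2, h3⟩)
    · exact Or.inl h
    · exact Or.inr (mem_biUnion h1 (mem_biUnion h2 h3))
  have hMB : MeasurableSet {p : X × X | mrg E s p.1 p.2} := by
    obtain ⟨δ, hδm, hδ⟩ := sec_enum E hSt.eb fun x => (hSt.ef x).countable
    have h1 : {p : X × X | mrg E s p.1 p.2} = {p : X × X | E p.1 p.2} ∪
        ⋃ n : ℕ, ⋃ m : ℕ, ({p : X × X | E p.1 (δ n p.1)} ∩
          ({p : X × X | s (δ n p.1) (δ m p.2) = 1} ∩ {p : X × X | E (δ m p.2) p.2})) := by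
      ext ⟨x, y⟩
      simp only [mem_union, mem_iUnion, mem_inter_iff, Set.mem_ofPred_eq]
      constructor
      · rintro (h | ⟨u, v, h1, h2, h3⟩)
        · exact Or.inl h
        · right
          obtain ⟨n, rfl⟩ := hδ x u h1
          obtain ⟨m, rfl⟩ := hδ y v (hE.symm h3)
          exact ⟨n, m, h1, h2, h3⟩
      · rintro (h | ⟨n, m, h1, h2, h3⟩)
        · exact Or.inl h
        · exact Or.inr ⟨_, _, h1, h2, h3⟩
    rw [h1]
    refine MeasurableSet.union hSt.eb (MeasurableSet.iUnion fun n => MeasurableSet.iUnion fun m =>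
      MeasurableSet.inter ?_ (MeasurableSet.inter ?_ ?_))
    · exact meas_rel hSt.eb measurable_fst ((hδm n).comp measurable_fst)
    · exact measurableSet_eq_fun (hCt.ms.comp (((hδm n).comp measurable_fst).prodMk
        ((hδm m).comp measurable_snd))) measurable_const
    · exact meas_rel hSt.eb ((hδm m).comp measurable_snd) measurable_snd
  have hMB' : MeasurableSet {p : X × X | mrg E s p.2 p.1} :=
    meas_rel hMB measurable_snd measurable_fst
  have hHo : BG (mn H (mrg E s)) := MeasurableSet.inter hSt.bg (hMB.compl.inter hMB'.compl)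
  have hlfo : LF (mn H (mrg E s)) := hSt.lf.mono (mn_le _ _)
  have hzone : ∀ x y, mrg E s x y → ¬ E x y →
      5 ≤ l x ∧ l x + 5 ≤ W ∧ 5 ≤ l y ∧ l y + 5 ≤ W ∧ l y ≤ l x + b := by
    rintro x y (h | ⟨u, v, h1, h2, h3⟩) hne
    · exact absurd h hne
    · have e1 := hl0 h1
      have e2 := hl0 h3
      obtain ⟨h4, h5, h6⟩ := hCt.zo u v h2
      obtain ⟨h7, h8, h9⟩ := hCt.zo v u (hCt.sy _ _ h2)
      refine ⟨?_, ?_, ?_, ?_, ?_⟩ <;> omega
  -- reachability
  have hr : ∀ {Y : Set X}, mid l W ⊆ Y → (∀ x y, E x y → x ∈ Y → y ∈ Y) → ∀ {x y : X},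
      (rs (cg (mn H (mrg E s)) (mrg E s)) Y).Reachable x y → (rs (cg H E) Y).Reachable x y :=
    fun {Y} hY hY' {x y} h => reach_mrg hY hE hY' hCt.re h
  -- unmerged classes
  have hun : ∀ x, (∀ u, E x u → s u u ≠ 1) → ∀ y, mrg E s x y → E x y := by
    rintro x hx y (h | ⟨u, v, h1, h2, h3⟩)
    · exact h
    · exact absurd (hCt.ts _ _ _ h2 (hCt.sy _ _ h2)) (hx u h1)
  have hunt : ∀ x, (∀ u, E x u → s u u ≠ 1) →
      tg (mn H (mrg E s)) (mrg E s) x ≤ tg H E x := by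
    intro x hx
    refine ncard_le_ncard ?_ (dt_fin hSt.lf hSt.ef x)
    rintro ⟨a, b⟩ ⟨h1, h2⟩
    exact ⟨hun x hx a h1, h2.1⟩
  refine ⟨⟨hHo, hlfo, hM, hMB, hMf, fun x y h => h.2.1⟩, ⟨hLv.ms, ?_, ?_, ?_, ?_⟩, ?_, ?_, ?_⟩
  · intro x y hxy
    by_cases h : E x y
    · exact Or.inl (hl0 h)
    · exact Or.inr (hzone x y hxy h)
  · intro x y hxy
    exact hLv.lip x y hxy.1
  · intro x
    refine (hLv.f1 x).subset fun y hy => ?_
    refine hr (fun z hz => hz.2) (fun u v huv hu => ?_) hy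
    show l v < W
    have h1 : l u < W := hu
    rw [← hl0 huv]; exact h1
  · intro x
    refine (hLv.f2 x).subset fun y hy => ?_
    refine hr (fun z hz => hz.1) (fun u v huv hu => ?_) hy
    show 0 < l v
    have h1 : 0 < l u := hu
    rw [← hl0 huv]; exact h1
  · intro x hx1 hx2
    by_cases h : ∃ u, E x u ∧ s u u = 1
    · obtain ⟨u, hu1, hu2⟩ := h
      have := tg_merged hSt.lf hE hSt.ef hCt.sy hCt.ts hCt.tr hCt.bd hu1 hu2
      omega
    · push Not at h
      exact (hunt x h).trans (hdeg x hx1 hx2)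
  · intro x y h1 h2
    have := hzone x y h1 h2
    exact ⟨this.1, this.2.1⟩
  · intro D hD hDz hDr
    have hnm : ∀ x ∈ D, ∀ u, E x u → s u u ≠ 1 := by
      intro x hx u hu1 hu2
      have h1 := tg_merged hSt.lf hE hSt.ef hCt.sy hCt.ts hCt.tr hCt.bd hu1 hu2
      have h2 := hD.full x hx
      omega
    have hBd : Bd H E Δ D := by
      refine ⟨hD.odd, ?_, ?_, ?_⟩
      · intro x hx
        have h1 := hunt x (hnm x hx)
        have h2 := hD.full x hx
        have h3 := hDz x hx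
        have h4 := hdeg x (by omega) (by omega)
        omega
      · intro x hx y hy hxy
        exact hD.tr x hx y hy (Or.inl hxy)
      · have h1 : idg (mn H (mrg E s)) D ≤ idg H D := by
          refine ncard_le_ncard ?_ ?_
          · rintro ⟨a, b⟩ ⟨h1, h2, h3⟩
            exact ⟨h1, h2, h3.1⟩
          · refine (D.finite_toSet.prod D.finite_toSet).subset ?_
            rintro ⟨a, b⟩ ⟨h1, h2, h3⟩
            exact ⟨h1, h2⟩
        have h2 := hD.ov
        omega
    obtain ⟨x, hx, y, hxy, hy⟩ := hCt.mx D hBd hDz fun x hx y hy =>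
      ⟨hr subset_rfl (fun u v huv hu => ⟨by rw [← hl0 huv]; exact hu.1,
        by rw [← hl0 huv]; exact hu.2⟩) (hDr x hx y hy).1, (hDr x hx y hy).2⟩
    exact hnm x hx y hxy hy

end Run7.h932
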