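import Pool.Agent.Run7.h932.U.Peel2

/-!
# The induction with units
-/

set_option autoImplicit false

namespace Run7.h932

open Set MeasureTheory SimpleGraph Pool.Q11.TwoEnd Pool.Q6.CI

theorem cap_zero {X : Type} {H : SimpleGraph X} {E : X → X → Prop} (hcol : FCU H E 1) (x : X) :
    (dt H E x).encard ≤ 2 := by
  classical
  by_contra hcon
  push Not at hcon
  have h3 : (3 : ℕ∞) ≤ (dt H E x).encard := Order.add_one_le_of_lt hcon
  obtain ⟨T, hT, hT3⟩ := Set.exists_subset_encard_eq h3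
  have hTf : T.Finite := Set.finite_of_encard_eq_coe (k := 3) hT3
  let F : Finset X := insert x (hTf.toFinset.image Prod.fst ∪ hTf.toFinset.image Prod.snd)
  let e : Fin F.card → X := fun i => (F.equivFin.symm i : X)
  have he : Function.Injective e := fun i j hij => F.equivFin.symm.injective (Subtype.ext hij)
  have hr : ∀ y ∈ F, ∃ i, e i = y := fun y hy => ⟨F.equivFin ⟨y, hy⟩, by simp [e]⟩
  obtain ⟨c, hc⟩ := hcol _ e he
  obtain ⟨i, hi⟩ := hr x (Finset.mem_insert_self _ _)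
  have h4 : T ⊆ Prod.map e e '' {q | q ∈ dt (H.comap e) (fun i j => E (e i) (e j)) i ∧
      c q.1 q.2 = 0} := by
    rintro ⟨y, z⟩ hp
    obtain ⟨j, rfl⟩ := hr y (Finset.mem_insert_of_mem (Finset.mem_union_left _
      (Finset.mem_image.2 ⟨_, hTf.mem_toFinset.2 hp, rfl⟩)))
    obtain ⟨j', rfl⟩ := hr z (Finset.mem_insert_of_mem (Finset.mem_union_right _
      (Finset.mem_image.2 ⟨_, hTf.mem_toFinset.2 hp, rfl⟩)))
    obtain ⟨h5, h6⟩ := hT hp
    refine ⟨(j, j'), ⟨⟨?_, h6⟩, ?_⟩, rfl⟩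
    · show E (e i) (e j)
      rw [hi]; exact h5
    · have := hc.pc.lt j j' h6
      show c j j' = 0
      omega
  have h5 := Set.encard_le_encard h4
  rw [(he.prodMap he).encard_image, hT3] at h5
  have h6 := h5.trans (hc.cap i 0)
  exact absurd h6 (by decide)

theorem mainU (hGLF : ∀ Δ, S_GLF Δ) (hCUT : S_CUT) (hMRG : S_MRG) (hGLU : S_GLU) (hLEV : S_LEV)
    (hPEEL : S_PEEL) (hFCE : S_FCE) (X : Type) [MeasurableSpace X] [StandardBorelSpace X] :
    ∀ Δ : ℕ, ∃ W : ℕ, ∀ (H : SimpleGraph X) (E : X → X → Prop) (l : X → ℕ), St H E →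
      Lv H E l W 0 → (∀ x, 0 < l x → l x < W → tg H E x ≤ Δ) → FCU H E (Δ + 1) →
      BCU H E (Δ + 1) := by
  classical
  intro Δ
  induction Δ with
  | zero =>
    refine ⟨0, fun H E l hSt hLv hdeg hcol => ?_⟩
    refine ⟨fun _ _ => 0, measurable_const, ⟨fun _ _ _ => by norm_num, fun _ _ _ => rfl, ?_⟩, ?_⟩
    · intro v w w' h h' _
      by_contra hne
      have hinj : Function.Injective ![v, w, w'] := by
        intro i j hij
        have h1 := h.ne
        have h2 := h'.ne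
        fin_cases i <;> fin_cases j <;> simp_all
      obtain ⟨c, hc⟩ := hcol 3 ![v, w, w'] hinj
      have h1 := hc.pc.lt 0 1 h
      have h2 := hc.pc.lt 0 2 h'
      have h3 := hc.pc.inj 0 1 2 h h' (by omega)
      exact absurd h3 (by decide)
    · intro x a
      exact (Set.encard_le_encard fun p hp => hp.1).trans (cap_zero hcol x)
  | succ Δ ih =>
    obtain ⟨W', hW'⟩ := ih
    set b : ℕ := (Δ + 1) * (1 + (Δ + 1)) ^ W' with hb
    set W : ℕ := 20 + (W' + 2) * (b + 1) with hW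
    refine ⟨W, fun H E l hSt hLv hdeg hcol => ?_⟩
    obtain ⟨s, hCt⟩ := hCUT X H E hSt l W hLv (Δ + 1) b
    obtain ⟨hSt', hLv', hdeg', hmr, hbad⟩ := hMRG X H E hSt l W hLv (Δ + 1) b hdeg s hCt
    refine hGLU X H E hSt l W (Δ + 1) b s hCt hSt' (hGLF _) ?_
    set E' := mrg E s with hE'
    set Ho := mn H E' with hHo
    have hW20 : 20 ≤ W := by rw [hW]; exact Nat.le_add_right _ _
    have hcol' : FCU Ho E' (Δ + 1 + 1) := hFCE X H Ho E E' l W (Δ + 1) hSt.lf hSt.eq hSt'.eq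
      hSt'.ef (mn_le _ _) hSt'.ni hLv.lip (by omega) hdeg' hmr hcol
    obtain ⟨l', Z, hLv2, hZm, hZE, hZmid, hZbad⟩ := hLEV X Ho E' hSt' l W (Δ + 1) b W' hLv' hdeg'
      (by rw [hb]) (by rw [hW]) hbad
    obtain ⟨L, hLm, hLM, hLcap, hLcov, hLcol⟩ := hPEEL X Ho E' hSt' l W (Δ + 1) b hLv'
      (by omega) (by omega) hdeg' hcol' Z hZm hZE (by
        intro D h1 h2 h3
        obtain ⟨x, hx, hxZ⟩ := hZbad D h1 (fun x hx => ⟨(h2 x hx).1, (h2 x hx).2.1⟩) h3
        exact (h2 x hx).2.2 hxZ)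
    set H1 := mn Ho L with hH1
    have hH1le : H1 ≤ Ho := mn_le _ _
    have hLm' : MeasurableSet {p : X × X | L p.2 p.1} :=
      hLm.preimage (measurable_snd.prodMk measurable_fst)
    have hH1B : BG H1 := MeasurableSet.inter hSt'.bg (hLm.compl.inter hLm'.compl)
    have hSt1 : St H1 E' := ⟨hH1B, hSt'.lf.mono hH1le, hSt'.eq, hSt'.eb, hSt'.ef,
      fun x y hxy => hSt'.ni x y (hH1le hxy)⟩
    have hLv1 : Lv H1 E' l' W' 0 := ⟨hLv2.ms, hLv2.inv, fun x y h => hLv2.lip x y (hH1le h),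
      hLv2.f1.mono (rs_mono (cg_mono hH1le) (Subset.refl _)),
      hLv2.f2.mono (rs_mono (cg_mono hH1le) (Subset.refl _))⟩
    obtain ⟨c1, hc1m, hc1⟩ := hW' H1 E' l' hSt1 hLv1 (by
      intro x h1 h2
      obtain ⟨h3, h4, h5⟩ := hZmid x h1 h2
      have h6 := hdeg' x (by omega) (by omega)
      have h7 := tg_mono hH1le E' x (dt_finite hSt'.lf hSt'.ef x)
      by_cases h8 : tg Ho E' x = Δ + 1
      · obtain ⟨a, b, hab1, hab2⟩ := hLcov x h3 h4 h5 h8
        have h9 : tg H1 E' x < tg Ho E' x := by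
          refine ncard_lt_ncard ?_ (dt_finite hSt'.lf hSt'.ef x)
          refine ⟨dt_mono hH1le E' x, fun hsub => ?_⟩
          have h10 : (a, b) ∈ dt H1 E' x := hsub ⟨hab1, hLM.adj _ _ hab2⟩
          exact h10.2.2.1 hab2
        omega
      · omega) hLcol
    refine ⟨fun x y => if L x y then Δ + 1 else c1 x y, Measurable.ite hLm measurable_const hc1m,
      ⟨?_, ?_, ?_⟩, ?_⟩
    · intro x y h
      by_cases h1 : L x y
      · rw [if_pos h1]; omega
      · rw [if_neg h1]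
        have := hc1.pc.lt x y ⟨h, h1, fun h2 => h1 (hLM.symm _ _ h2)⟩
        omega
    · intro x y h
      by_cases h1 : L x y
      · rw [if_pos h1, if_pos (hLM.symm _ _ h1)]
      · have h2 : ¬ L y x := fun h2 => h1 (hLM.symm _ _ h2)
        rw [if_neg h1, if_neg h2]
        exact hc1.pc.symm x y ⟨h, h1, h2⟩
    · intro x y y' h h' heq
      beta_reduce at heq
      by_cases h1 : L x y <;> by_cases h1' : L x y'
      · exact hLM.uniq x y y' h1 h1'
      · rw [if_pos h1, if_neg h1'] at heq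
        have := hc1.pc.lt x y' ⟨h', h1', fun h2 => h1' (hLM.symm _ _ h2)⟩
        omega
      · rw [if_neg h1, if_pos h1'] at heq
        have := hc1.pc.lt x y ⟨h, h1, fun h2 => h1 (hLM.symm _ _ h2)⟩
        omega
      · rw [if_neg h1, if_neg h1'] at heq
        exact hc1.pc.inj x y y' ⟨h, h1, fun h2 => h1 (hLM.symm _ _ h2)⟩
          ⟨h', h1', fun h2 => h1' (hLM.symm _ _ h2)⟩ heq
    · intro x a
      by_cases ha : a = Δ + 1
      · refine le_trans (Set.encard_le_encard ?_) (hLcap x)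
        rintro ⟨y, z⟩ ⟨⟨h1, h2⟩, h3⟩
        refine ⟨h1, ?_⟩
        by_contra h4
        have h4' : ¬ L y z := h4
        have h3' : (if L y z then Δ + 1 else c1 y z) = a := h3
        rw [if_neg h4'] at h3'
        have := hc1.pc.lt y z ⟨h2, h4', fun h2 => h4' (hLM.symm _ _ h2)⟩
        omega
      · refine le_trans (Set.encard_le_encard ?_) (hc1.cap x a)
        rintro ⟨y, z⟩ ⟨⟨h1, h2⟩, h3⟩
        have h3' : (if L y z then Δ + 1 else c1 y z) = a := h3
        by_cases h4 : L y z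
        · rw [if_pos h4] at h3'
          exact absurd h3'.symm ha
        · rw [if_neg h4] at h3'
          exact ⟨⟨h1, h2, h4, fun h5 => h4 (hLM.symm _ _ h5)⟩, h3'⟩

theorem t_MAIN : S_MAIN := by
  classical
  intro hP hGLF hCOV hEXT hCOLC hCUT hMRG hGLU hLEV hPEEL hFCE X _ _ G d hG hd hasi
  have hlf : LF G := fun x => Set.finite_of_encard_le_coe (hd x)
  have hdeg : ∀ x, (G.neighborSet x).ncard ≤ d := by
    intro x
    have h1 := hd x
    rw [← (hlf x).cast_ncard_eq] at h1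
    exact_mod_cast h1
  obtain ⟨W, hW⟩ := mainU hGLF hCUT hMRG hGLU hLEV hPEEL hFCE X d
  obtain ⟨l, hl1, hl2, hl3, hl4⟩ := level hG hlf hasi W
  have hEq : Equivalence (fun x y : X => x = y) := ⟨fun _ => rfl, fun h => h.symm,
    fun h h' => h.trans h'⟩
  have hcg : cg G (fun x y : X => x = y) ≤ G := by
    intro x y h
    have h1 := (cg_adj hEq).1 h
    exact h1.2.resolve_right h1.1
  have hSt : St G (fun x y : X => x = y) := ⟨hG, hlf, hEq, diag_meas,
    fun x => (Set.finite_singleton x).subset fun y hy => (Eq.symm hy : y = x),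
    fun x y h => h.ne⟩
  have hLv : Lv G (fun x y : X => x = y) l W 0 := ⟨hl1, fun x y h => Or.inl (by rw [h]), hl2,
    hl3.mono (rs_mono hcg (Subset.refl _)), hl4.mono (rs_mono hcg (Subset.refl _))⟩
  obtain ⟨c, hc1, hc2⟩ := hW G (fun x y : X => x = y) l hSt hLv (by
    intro x _ _
    have h1 : dt G (fun x y : X => x = y) x = (fun z => (x, z)) '' G.neighborSet x := by
      ext ⟨a, b⟩
      constructor
      · rintro ⟨h1, h2⟩
        have h1' : x = a := h1
        subst h1'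
        exact ⟨b, h2, rfl⟩
      · rintro ⟨z, hz, h1⟩
        rw [Prod.mk.injEq] at h1
        obtain ⟨rfl, rfl⟩ := h1
        exact ⟨rfl, hz⟩
    unfold tg
    rw [h1, ncard_image_of_injective _ (Prod.mk_right_injective x)]
    exact hdeg x) (by
    intro n e he
    obtain ⟨c, hc⟩ := vizing (G := G.comap e) fun v => (dg_comap_le he le_rfl hlf v).trans (hdeg _)
    refine ⟨c, hc, ?_⟩
    intro i a
    have h1 : {p | p ∈ dt (G.comap e) (fun i j => e i = e j) i ∧ c p.1 p.2 = a}.encard ≤ 1 := by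
      rw [Set.encard_le_one_iff]
      rintro ⟨j, j'⟩ ⟨k, k'⟩ ⟨⟨h1, h2⟩, h3⟩ ⟨⟨h4, h5⟩, h6⟩
      have h7 : i = j := he h1
      have h8 : i = k := he h4
      subst h7
      subst h8
      have h9 := hc.inj i j' k' h2 h5 (h3.trans h6.symm)
      rw [h9]
    exact h1.trans (by norm_num))
  refine ⟨fun p => c p.1 p.2, hc1, fun x y h => ⟨hc2.pc.lt x y h, hc2.pc.symm x y h⟩, ?_⟩
  intro x y z h h' hne heq
  exact hne (hc2.pc.inj x y z h h' heq)

end Run7.h932
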