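import Pool.Agent.Run7.h932.U.COV
import Pool.Agent.Run7.h932.U.CUT
import Pool.Agent.Run7.h932.U.GLF
import Pool.Agent.Run7.h932.U.GLU
import Pool.Agent.Run7.h932.U.MRG
import Pool.Agent.Run7.h932.U.LEV
import Pool.Agent.Run7.h932.U.MainU
import Pool.Agent.Run7.h932.U.A1
import Pool.Agent.Run7.h932.U.A0
import Pool.Agent.Run7.h932.U.FAN
import Pool.Agent.Run7.h24.U.A2

/-!
# Vizing's theorem for Borel graphs of asymptotic separation index at most one: assembly
-/

set_option autoImplicit false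

namespace Run7.h932

/-- the finite extension lemma -/
theorem lemP2 : ∀ Δ, LemP2 Δ := t_A0 t_A1 Run7.h24.U.t_A2

theorem vizing_asi_one (X : Type) [MeasurableSpace X] [StandardBorelSpace X]
    (G : SimpleGraph X) (d : ℕ) (hG : MeasurableSet {p : X × X | G.Adj p.1 p.2})
    (hd : ∀ x : X, (G.neighborSet x).encard ≤ (d : ℕ∞))
    (hasi : ∀ r : ℕ, ∃ U : Fin 2 → Set X, (∀ i, MeasurableSet (U i)) ∧ (⋃ i, U i) = Set.univ ∧
        ∀ (i : Fin 2) (x : X),
          {y : X | (SimpleGraph.fromRel (fun a b : X =>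
              a ∈ U i ∧ b ∈ U i ∧ ∃ p : G.Walk a b, p.length ≤ r)).Reachable x y}.Finite) :
    ∃ c : X × X → ℕ, Measurable c ∧
        (∀ x y : X, G.Adj x y → c (x, y) < d + 1 ∧ c (x, y) = c (y, x)) ∧
        ∀ x y z : X, G.Adj x y → G.Adj x z → y ≠ z → c (x, y) ≠ c (x, z) := by
  have hEXT := t_EXT t_FAN
  exact t_MAIN lemP2 (fun D => t_GLF D (lemP2 D)) t_COV hEXT t_COLC t_CUT t_MRG t_GLU t_LEV
    (t_PEEL t_COV hEXT t_COLC) (t_FCE hEXT) X G d hG hd hasi

end Run7.h932
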