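import Pool.Agent.Run7.h932.U.Fce

/-!
# Peeling off one colour class, with units
-/

set_option autoImplicit false

namespace Run7.h932

open Set MeasureTheory SimpleGraph Pool.Q11.TwoEnd Pool.Q6.CI

/-- extending a matching with capacities to a maximal one, by edges between uncovered classes -/
theorem maxMatU {V : Type} [Fintype V] {G : SimpleGraph V} {r : V → V → Prop} (hr : Equivalence r)
    (hin : ∀ a b, G.Adj a b → ¬ r a b) {m : V → V → Prop} (hm : Mat G m)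
    (hm2 : ∀ x, {p : V × V | r x p.1 ∧ m p.1 p.2}.encard ≤ 2) (U : Set V)
    (hU : ∀ a b, m a b → a ∈ U) :
    ∃ m' : V → V → Prop, Mat G m' ∧ (∀ a b, m a b → m' a b) ∧ (∀ a b, m' a b → a ∈ U) ∧
      (∀ x, {p : V × V | r x p.1 ∧ m' p.1 p.2}.encard ≤ 2) ∧
      ∀ x y, G.Adj x y → x ∈ U → y ∈ U → (∃ a b, r x a ∧ m' a b) ∨ ∃ a b, r y a ∧ m' a b := by
  classical
  let P : Finset (V → V → Prop) := Finset.univ.filter fun m' => Mat G m' ∧
    (∀ a b, m a b → m' a b) ∧ (∀ a b, m' a b → a ∈ U) ∧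
    ∀ x, {p : V × V | r x p.1 ∧ m' p.1 p.2}.encard ≤ 2
  let cnt : (V → V → Prop) → ℕ := fun m' => {p : V × V | m' p.1 p.2}.ncard
  obtain ⟨m', hm', hmax⟩ := Finset.exists_max_image P cnt
    ⟨m, Finset.mem_filter.2 ⟨Finset.mem_univ _, hm, fun a b h => h, hU, hm2⟩⟩
  obtain ⟨-, h1, h2, h3, h4⟩ := Finset.mem_filter.1 hm'
  refine ⟨m', h1, h2, h3, h4, ?_⟩
  intro x y hxy hx hy
  by_contra hcon
  push Not at hcon
  obtain ⟨hcx, hcy⟩ := hcon
  let m'' : V → V → Prop := fun a b => m' a b ∨ (a = x ∧ b = y) ∨ (a = y ∧ b = x)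
  have hm'' : m'' ∈ P := by
    refine Finset.mem_filter.2 ⟨Finset.mem_univ _, ⟨?_, ?_, ?_⟩, ?_, ?_, ?_⟩
    · rintro a b (h | ⟨rfl, rfl⟩ | ⟨rfl, rfl⟩)
      · exact h1.adj _ _ h
      · exact hxy
      · exact hxy.symm
    · rintro a b (h | h | h)
      · exact Or.inl (h1.symm _ _ h)
      · exact Or.inr (Or.inr ⟨h.2, h.1⟩)
      · exact Or.inr (Or.inl ⟨h.2, h.1⟩)
    · rintro a b b' (h | ⟨ha, hb⟩ | ⟨ha, hb⟩) (h' | ⟨ha', hb'⟩ | ⟨ha', hb'⟩)
      · exact h1.uniq _ _ _ h h'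
      · rw [ha'] at h; exact absurd h (hcx x _ (hr.refl x))
      · rw [ha'] at h; exact absurd h (hcy y _ (hr.refl y))
      · rw [ha] at h'; exact absurd h' (hcx x _ (hr.refl x))
      · rw [hb, hb']
      · exact absurd (ha.symm.trans ha') hxy.ne
      · rw [ha] at h'; exact absurd h' (hcy y _ (hr.refl y))
      · exact absurd (ha'.symm.trans ha) hxy.ne
      · rw [hb, hb']
    · intro a b h; exact Or.inl (h2 a b h)
    · rintro a b (h | ⟨rfl, rfl⟩ | ⟨rfl, rfl⟩)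
      · exact h3 _ _ h
      · exact hx
      · exact hy
    · intro z
      by_cases hzx : r z x
      · have h5 : {p : V × V | r z p.1 ∧ m'' p.1 p.2} ⊆ {(x, y)} := by
          rintro ⟨a, b⟩ ⟨h6, h7 | ⟨rfl, rfl⟩ | ⟨rfl, rfl⟩⟩
          · exact absurd h7 (hcx a b (hr.trans (hr.symm hzx) h6))
          · exact rfl
          · exact absurd (hr.trans (hr.symm hzx) h6) (hin _ _ hxy)
        refine (Set.encard_le_encard h5).trans ?_
        rw [Set.encard_singleton]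
        norm_num
      · by_cases hzy : r z y
        · have h5 : {p : V × V | r z p.1 ∧ m'' p.1 p.2} ⊆ {(y, x)} := by
            rintro ⟨a, b⟩ ⟨h6, h7 | ⟨rfl, rfl⟩ | ⟨rfl, rfl⟩⟩
            · exact absurd h7 (hcy a b (hr.trans (hr.symm hzy) h6))
            · exact absurd h6 hzx
            · exact rfl
          refine (Set.encard_le_encard h5).trans ?_
          rw [Set.encard_singleton]
          norm_num
        · refine le_trans (Set.encard_le_encard ?_) (h4 z)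
          rintro ⟨a, b⟩ ⟨h6, h7 | ⟨rfl, rfl⟩ | ⟨rfl, rfl⟩⟩
          · exact ⟨h6, h7⟩
          · exact absurd h6 hzx
          · exact absurd h6 hzy
  have h5 := hmax m'' hm''
  have h6 : cnt m' < cnt m'' := by
    refine Set.ncard_lt_ncard ?_ (Set.toFinite _)
    refine ⟨fun p hp => Or.inl hp, fun hsub => ?_⟩
    have h7 : (x, y) ∈ {p : V × V | m'' p.1 p.2} := Or.inr (Or.inl ⟨rfl, rfl⟩)
    exact hcx x y (hr.refl x) (hsub h7)
  omega

theorem tg_comap_eq {X : Type} {G0 H : SimpleGraph X} {E : X → X → Prop} {n : ℕ} {e : Fin n → X}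
    (he : Function.Injective e) (hle : G0 ≤ H) (v : Fin n)
    (h : ∀ y, E (e v) y → y ∈ range e ∧ ∀ z, H.Adj y z → z ∈ range e ∧ G0.Adj y z) :
    tg (G0.comap e) (fun i j => E (e i) (e j)) v = tg H E (e v) := by
  unfold tg
  rw [← ncard_image_of_injective _ (he.prodMap he)]
  congr 1
  ext ⟨y, z⟩
  constructor
  · rintro ⟨⟨a, b⟩, ⟨h1, h2⟩, h3⟩
    rw [Prod.map_apply, Prod.mk.injEq] at h3
    obtain ⟨rfl, rfl⟩ := h3
    exact ⟨h1, hle h2⟩
  · rintro ⟨h1, h2⟩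
    obtain ⟨⟨a, rfl⟩, h3⟩ := h y h1
    obtain ⟨⟨b, rfl⟩, h4⟩ := h3 z h2
    exact ⟨(a, b), ⟨h1, h4⟩, rfl⟩

theorem idg_map_le {X : Type} {G0 : SimpleGraph X} {n : ℕ} {e : Fin n → X}
    (he : Function.Injective e) {G1 : SimpleGraph (Fin n)} (hle : G1 ≤ G0.comap e)
    (D : Finset (Fin n)) : idg G1 D ≤ idg G0 (D.map ⟨e, he⟩) := by
  unfold idg
  rw [← ncard_image_of_injective _ (he.prodMap he)]
  refine ncard_le_ncard ?_ ?_
  · rintro _ ⟨⟨a, b⟩, ⟨h1, h2, h3⟩, rfl⟩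
    exact ⟨Finset.mem_map.2 ⟨a, h1, rfl⟩, Finset.mem_map.2 ⟨b, h2, rfl⟩, hle h3⟩
  · refine ((D.map ⟨e, he⟩) ×ˢ (D.map ⟨e, he⟩)).finite_toSet.subset ?_
    rintro ⟨a, b⟩ ⟨h1, h2, -⟩
    exact Finset.mem_coe.2 (Finset.mem_product.2 ⟨h1, h2⟩)

theorem Bd_map {X : Type} {G0 : SimpleGraph X} {E : X → X → Prop} {n : ℕ} {e : Fin n → X}
    (he : Function.Injective e) {G1 : SimpleGraph (Fin n)} (hle : G1 ≤ G0.comap e) {Δ : ℕ}
    {D : Finset (Fin n)} (hD : Bd G1 (fun i j => E (e i) (e j)) Δ D)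
    (hfull : ∀ i ∈ D, tg G0 E (e i) = Δ) : Bd G0 E Δ (D.map ⟨e, he⟩) := by
  refine ⟨?_, ?_, ?_, ?_⟩
  · rw [Finset.card_map]; exact hD.odd
  · intro x hx
    obtain ⟨i, hi, rfl⟩ := Finset.mem_map.1 hx
    exact hfull i hi
  · intro x hx y hy hxy
    obtain ⟨i, hi, rfl⟩ := Finset.mem_map.1 hx
    obtain ⟨j, hj, rfl⟩ := Finset.mem_map.1 hy
    rw [hD.tr i hi j hj hxy]
  · have h1 := hD.ov
    have h2 := idg_map_le he hle D
    rw [Finset.card_map]
    omega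

theorem FCU.mono {X : Type} {H H' : SimpleGraph X} {E : X → X → Prop} {k : ℕ} (h : FCU H' E k)
    (hle : H ≤ H') : FCU H E k := fun n e he => (h n e he).mono fun _ _ hab => hle hab

theorem rs_comap_tg_zero {V : Type} {G : SimpleGraph V} {r : V → V → Prop} (v : V)
    (h : ∀ a b, r v a → ¬ G.Adj a b) : tg G r v = 0 := by
  unfold tg
  rw [Set.ncard_eq_zero (s := dt G r v) (by
    have : dt G r v = ∅ := by
      ext p
      exact ⟨fun hp => absurd hp.2 (h p.1 p.2 hp.1), fun hp => absurd hp (Set.notMem_empty _)⟩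
    rw [this]; exact Set.finite_empty)]
  ext p
  exact ⟨fun hp => absurd hp.2 (h p.1 p.2 hp.1), fun hp => absurd hp (Set.notMem_empty _)⟩

end Run7.h932
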