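import Pool.Agent.Run7.h932.U.Peel

/-!
# Peeling off one colour class, with units: the theorem
-/

set_option autoImplicit false

namespace Run7.h932

open Set MeasureTheory SimpleGraph Pool.Q11.TwoEnd Pool.Q6.CI

theorem t_PEEL (hCOV : S_COV) (hEXT : S_EXT) (hCOLC : S_COLC) : S_PEEL := by
  classical
  intro X _ _ H E hSt l W Δ b hLv hΔ hW hdeg hcol Z hZm hZE hNB
  have hE := hSt.eq
  have hH := hSt.bg
  have hlf := hSt.lf
  have hl := hLv.ms
  have hlip := hLv.lip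
  have hinv := hLv.inv
  have hmlt : MeasurableSet {x | l x < W} := measurableSet_lt hl measurable_const
  have hmgt : MeasurableSet {x | 0 < l x} := measurableSet_lt measurable_const hl
  have hElt : ∀ x y, E x y → x ∈ {x | l x < W} → y ∈ {x | l x < W} := by
    intro x y h hx
    have hx' : l x < W := hx
    show l y < W
    rcases hinv x y h with h1 | h1 <;> omega
  have hEgt : ∀ x y, E x y → x ∈ {x | 0 < l x} → y ∈ {x | 0 < l x} := by
    intro x y h hx
    have hx' : 0 < l x := hx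
    show 0 < l y
    rcases hinv x y h with h1 | h1 <;> omega
  obtain ⟨ci, hci1, hci2⟩ := hCOLC X H E hSt {x | l x < W} hmlt hElt hLv.f1 (Δ + 1)
    (hcol.mono (rs_le _ _))
  obtain ⟨co, hco1, hco2⟩ := hCOLC X H E hSt {x | 0 < l x} hmgt hEgt hLv.f2 (Δ + 1)
    (hcol.mono (rs_le _ _))
  -- the outer matching
  let L0 : X → X → Prop := fun x y => H.Adj x y ∧
    ((l x ≤ 2 ∧ l y ≤ 2 ∧ ci x y = Δ) ∨ (W ≤ l x + 2 ∧ W ≤ l y + 2 ∧ co x y = Δ))
  have hin : ∀ {x y}, H.Adj x y → l x ≤ 2 → l y ≤ 2 → (rs H {x | l x < W}).Adj x y := by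
    intro x y h h1 h2
    exact ⟨h, by show l x < W; omega, by show l y < W; omega⟩
  have hout : ∀ {x y}, H.Adj x y → W ≤ l x + 2 → W ≤ l y + 2 → (rs H {x | 0 < l x}).Adj x y := by
    intro x y h h1 h2
    exact ⟨h, by show 0 < l x; omega, by show 0 < l y; omega⟩
  have hL0m : MeasurableSet {p : X × X | L0 p.1 p.2} := by
    have hl1 : Measurable fun p : X × X => l p.1 := hl.comp measurable_fst
    have hl2 : Measurable fun p : X × X => l p.2 := hl.comp measurable_snd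
    refine MeasurableSet.inter hH (MeasurableSet.union ?_ ?_)
    · exact (measurableSet_le hl1 measurable_const).inter
        ((measurableSet_le hl2 measurable_const).inter
          (measurableSet_eq_fun hci1 measurable_const))
    · exact (measurableSet_le measurable_const (hl1.add_const 2)).inter
        ((measurableSet_le measurable_const (hl2.add_const 2)).inter
          (measurableSet_eq_fun hco1 measurable_const))
  have hL0s : ∀ x y, L0 x y → L0 y x := by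
    rintro x y ⟨h, ⟨h1, h2, h3⟩ | ⟨h1, h2, h3⟩⟩
    · exact ⟨h.symm, Or.inl ⟨h2, h1, by rw [← hci2.pc.symm x y (hin h h1 h2)]; exact h3⟩⟩
    · exact ⟨h.symm, Or.inr ⟨h2, h1, by rw [← hco2.pc.symm x y (hout h h1 h2)]; exact h3⟩⟩
  have hL0u : ∀ x y y', L0 x y → L0 x y' → y = y' := by
    rintro x y y' ⟨h, ⟨h1, h2, h3⟩ | ⟨h1, h2, h3⟩⟩ ⟨h', ⟨h1', h2', h3'⟩ | ⟨h1', h2', h3'⟩⟩
    · exact hci2.pc.inj x y y' (hin h h1 h2) (hin h' h1' h2') (h3.trans h3'.symm)
    · omega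
    · omega
    · exact hco2.pc.inj x y y' (hout h h1 h2) (hout h' h1' h2') (h3.trans h3'.symm)
  have hL0l : ∀ x y, L0 x y → l x ≤ 2 ∨ W ≤ l x + 2 := by
    rintro x y ⟨h, ⟨h1, h2, h3⟩ | ⟨h1, h2, h3⟩⟩
    · exact Or.inl h1
    · exact Or.inr h1
  -- levels of classes
  have hlow : ∀ x y, E x y → l x ≤ 2 → l y ≤ 2 := by
    intro x y h h1
    rcases hinv x y h with h2 | h2 <;> omega
  have hhigh : ∀ x y, E x y → W ≤ l x + 2 → W ≤ l y + 2 := by
    intro x y h h1
    rcases hinv x y h with h2 | h2 <;> omega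
  have hL0c : ∀ x, {p : X × X | E x p.1 ∧ L0 p.1 p.2}.encard ≤ 2 := by
    intro x
    by_cases h1 : l x ≤ 2
    · refine le_trans (Set.encard_le_encard ?_) (hci2.cap x Δ)
      rintro ⟨y, z⟩ ⟨h2, h3, h4⟩
      have h5 := hlow x y h2 h1
      rcases h4 with ⟨h6, h7, h8⟩ | ⟨h6, h7, h8⟩
      · exact ⟨⟨h2, hin h3 h6 h7⟩, h8⟩
      · have h6' : W ≤ l y + 2 := h6
        have h5' : l y ≤ 2 := h5
        omega
    · by_cases h1' : W ≤ l x + 2
      · refine le_trans (Set.encard_le_encard ?_) (hco2.cap x Δ)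
        rintro ⟨y, z⟩ ⟨h2, h3, h4⟩
        have h5 := hhigh x y h2 h1'
        rcases h4 with ⟨h6, h7, h8⟩ | ⟨h6, h7, h8⟩
        · have h6' : l y ≤ 2 := h6
          have h5' : W ≤ l y + 2 := h5
          omega
        · exact ⟨⟨h2, hout h3 h6 h7⟩, h8⟩
      · have : {p : X × X | E x p.1 ∧ L0 p.1 p.2} = ∅ := by
          ext ⟨y, z⟩
          refine ⟨?_, fun h => absurd h (Set.notMem_empty _)⟩
          rintro ⟨h2, h3⟩
          exfalso
          rcases hL0l y z h3 with h4 | h4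
          · exact h1 (hlow y x (hE.symm h2) h4)
          · exact h1' (hhigh y x (hE.symm h2) h4)
        rw [this, Set.encard_empty]
        norm_num
  let cov : X → Prop := fun x => ∃ y, E x y ∧ ∃ z, L0 y z
  obtain ⟨δ, hδm, hδ⟩ := sec_enum H.Adj hH fun x => (hlf x).countable
  obtain ⟨δE, hδEm, hδE⟩ := sec_enum E hSt.eb fun x => (hSt.ef x).countable
  have hcov0m : MeasurableSet {x | ∃ z, L0 x z} := ex_meas hδm hL0m fun x y h => hδ x y h.1
  have hcovm : MeasurableSet {x | cov x} :=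
    ex_meas (R := fun x y => E x y ∧ ∃ z, L0 y z) hδEm
      (MeasurableSet.inter hSt.eb (hcov0m.preimage measurable_snd)) fun x y h => hδE x y h.1
  have hcovl : ∀ x, cov x → l x ≤ 2 ∨ W ≤ l x + 2 := by
    rintro x ⟨y, h, z, h1⟩
    rcases hL0l y z h1 with h2 | h2
    · exact Or.inl (hlow y x (hE.symm h) h2)
    · exact Or.inr (hhigh y x (hE.symm h) h2)
  have hcovE : ∀ x y, E x y → cov x → cov y := by
    rintro x y h ⟨u, h1, h2⟩
    exact ⟨u, hE.trans (hE.symm h) h1, h2⟩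
  -- the middle
  set Hm := rs H (mid l W) with hHm
  have hmidm : MeasurableSet (mid l W) := hmgt.inter hmlt
  have hmidE : ∀ x y, E x y → x ∈ mid l W → y ∈ mid l W :=
    fun x y h hx => ⟨hEgt x y h hx.1, hElt x y h hx.2⟩
  have hHmB : BG Hm := BG.rs hH hmidm
  have hHmle : Hm ≤ H := rs_le _ _
  set Cm := rs (cg H E) (mid l W) with hCm
  have hCmB : BG Cm := BG.rs (cg_bg hE hH hSt.eb) hmidm
  have hCmfin : FinC Cm := hLv.f1.mono (rs_mono le_rfl fun x hx => hx.2)
  have hCmlf : LF Cm := (cg_lf hE hlf hSt.ef).mono (rs_le _ _)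
  have hCmE : ∀ x y, E x y → x ∈ mid l W → Cm.Reachable x y := by
    intro x y h hx
    by_cases hxy : x = y
    · rw [hxy]
    · exact SimpleGraph.Adj.reachable ⟨(cg_adj hE).2 ⟨hxy, Or.inr h⟩, hx, hmidE x y h hx⟩
  have hCmH : ∀ x y, Hm.Adj x y → Cm.Reachable x y := fun x y h =>
    SimpleGraph.Adj.reachable ⟨(cg_adj hE).2 ⟨h.1.ne, Or.inl h.1⟩, h.2⟩
  have hθ : Measurable fun p : X × X => (ind (Hm.Adj p.1 p.2), ind (E p.1 p.2), l p.1,
      ind (cov p.1), ind (p.1 ∈ Z)) :=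
    (meas_ind hHmB).prodMk ((meas_ind hSt.eb).prodMk ((hl.comp measurable_fst).prodMk
      ((meas_ind (P := fun p : X × X => cov p.1) (hcovm.preimage measurable_fst)).prodMk
        (meas_ind (P := fun p : X × X => p.1 ∈ Z) (hZm.preimage measurable_fst)))))
  obtain ⟨s, hs1, hs2, hs3⟩ := BC (E := Cm.Reachable) (Θ := ℕ × ℕ × ℕ × ℕ × ℕ) (reach_equiv Cm)
    (reach_meas hCmB fun x => (hCmlf x).countable) hCmfin
    (fun x y => (ind (Hm.Adj x y), ind (E x y), l x, ind (cov x), ind (x ∈ Z))) hθ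
    (fun n t s => ∃ m : Fin n → Fin n → Prop, Mat (gr fun i j => (t i j).1) m ∧
      (∀ i j, m i j → (t i i).2.2.2.1 ≠ 1) ∧
      (∀ i, {p : Fin n × Fin n | (t i p.1).2.1 = 1 ∧ m p.1 p.2}.encard ≤ 2) ∧
      (∀ i, 5 ≤ (t i i).2.2.1 → (t i i).2.2.1 + 5 ≤ W → (t i i).2.2.2.2 ≠ 1 →
        tg (gr fun i j => (t i j).1) (fun i j => (t i j).2.1 = 1) i = Δ →
        ∃ j j', (t i j).2.1 = 1 ∧ m j j') ∧
      (∀ i j, (gr fun i j => (t i j).1).Adj i j → (t i i).2.2.2.1 ≠ 1 → (t j j).2.2.2.1 ≠ 1 →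
        (∃ a b, (t i a).2.1 = 1 ∧ m a b) ∨ ∃ a b, (t j a).2.1 = 1 ∧ m a b) ∧
      ∀ i j, s i j = 1 ↔ m i j) (by
      intro x n e he hr
      beta_reduce
      show ∃ s : Fin n → Fin n → ℕ, ∃ m : Fin n → Fin n → Prop,
        Mat (gr fun i j => ind (Hm.Adj (e i) (e j))) m ∧
        (∀ i j, m i j → ind (cov (e i)) ≠ 1) ∧
        (∀ i, {p : Fin n × Fin n | ind (E (e i) (e p.1)) = 1 ∧ m p.1 p.2}.encard ≤ 2) ∧
        (∀ i, 5 ≤ l (e i) → l (e i) + 5 ≤ W → ind (e i ∈ Z) ≠ 1 →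
          tg (gr fun i j => ind (Hm.Adj (e i) (e j))) (fun i j => ind (E (e i) (e j)) = 1) i = Δ →
          ∃ j j', ind (E (e i) (e j)) = 1 ∧ m j j') ∧
        (∀ i j, (gr fun i j => ind (Hm.Adj (e i) (e j))).Adj i j → ind (cov (e i)) ≠ 1 →
          ind (cov (e j)) ≠ 1 →
          (∃ a b, ind (E (e i) (e a)) = 1 ∧ m a b) ∨ ∃ a b, ind (E (e j) (e a)) = 1 ∧ m a b) ∧
        ∀ i j, s i j = 1 ↔ m i j
      simp only [gr_ind, ind_eq, ne_eq]
      set G' := Hm.comap e with hG'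
      set r' : Fin n → Fin n → Prop := fun i j => E (e i) (e j) with hr'
      have hr'E : Equivalence r' := eq_comap hE e
      have hin' : ∀ a b, G'.Adj a b → ¬ r' a b := fun a b hab => hSt.ni _ _ hab.1
      have hfinG : ∀ (G : SimpleGraph (Fin n)) v, (dt G r' v).Finite := fun _ _ => Set.toFinite _
      have htg : ∀ i, tg G' r' i ≤ Δ := by
        intro i
        by_cases hi : e i ∈ mid l W
        · exact (tg_comap_le he i (dt_finite (hlf.mono hHmle) hSt.ef _)).trans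
            ((tg_mono hHmle E _ (dt_finite hlf hSt.ef _)).trans (hdeg _ hi.1 hi.2))
        · have h0 : tg G' r' i = 0 := rs_comap_tg_zero (G := G') (r := r') i
            fun a b (h1 : E (e i) (e a)) (h2 : Hm.Adj (e a) (e b)) =>
              hi (hmidE _ _ (hE.symm h1) h2.2.1)
          rw [h0]
          exact Nat.zero_le _
      let Y : Set (Fin n) := {i | 4 ≤ l (e i) ∧ l (e i) + 4 ≤ W}
      let T : Set (Fin n) := {i | 5 ≤ l (e i) ∧ l (e i) + 5 ≤ W ∧ e i ∉ Z ∧ tg G' r' i = Δ}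
      have hTr : ∀ a b, r' a b → a ∈ T → b ∈ T := by
        rintro a b hab ⟨h1, h2, h3, h4⟩
        refine ⟨?_, ?_, fun h => h3 (hZE _ _ (hE.symm hab) h), ?_⟩
        · rcases hinv _ _ hab with h5 | h5 <;> omega
        · rcases hinv _ _ hab with h5 | h5 <;> omega
        · rw [← tg_congr hr'E hab]; exact h4
      have hTY : ∀ i ∈ T, ∀ j, G'.Adj i j → (rs G' Y).Adj i j := by
        intro i hi j hij
        have h1 := hlip _ _ hij.1
        have h2 := hlip _ _ hij.1.symm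
        have h3 := hi.1
        have h4 := hi.2.1
        refine ⟨hij, ⟨by omega, by omega⟩, ⟨by omega, by omega⟩⟩
      have htgT : ∀ i ∈ T, tg (rs G' Y) r' i = Δ := by
        intro i hi
        rw [← hi.2.2.2]
        unfold tg
        congr 1
        ext p
        exact ⟨fun h => ⟨h.1, h.2.1⟩, fun h => ⟨h.1, hTY _ (hTr i p.1 h.1 hi) _ h.2⟩⟩
      have hreach : ∀ i j, Cm.Reachable (e i) (e j) := by
        intro i j
        have h3 : ∀ i, Cm.Reachable x (e i) := by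
          intro i
          have : e i ∈ range e := ⟨i, rfl⟩
          rw [hr] at this
          exact this
        exact (h3 i).symm.trans (h3 j)
      have hrange : ∀ (i : Fin n) (y : X), Cm.Reachable (e i) y → y ∈ range e := by
        intro i y hy
        rw [hr]
        have : e i ∈ range e := ⟨i, rfl⟩
        rw [hr] at this
        exact SimpleGraph.Reachable.trans this hy
      have hfullT : ∀ i ∈ T, tg H E (e i) = Δ := by
        intro i hi
        rw [← hi.2.2.2]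
        symm
        refine tg_comap_eq he hHmle i fun y hy => ?_
        have h3 := hi.1
        have h4 := hi.2.1
        have hmi : e i ∈ mid l W := ⟨by show 0 < l (e i); omega, by show l (e i) < W; omega⟩
        have hly : 5 ≤ l y ∧ l y + 5 ≤ W := by
          rcases hinv _ _ hy with h5 | h5 <;> omega
        refine ⟨hrange i y (hCmE _ _ hy hmi), fun z hz => ?_⟩
        have h6 : Hm.Adj y z := mid_adj hlip (by omega) (by omega) hz
        exact ⟨hrange i z ((hCmE _ _ hy hmi).trans (hCmH _ _ h6)), h6⟩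
      obtain ⟨m, hm1, hm2, hm3⟩ := hCOV (Fin n) (rs G' Y) r' hr'E (fun a b hab => hin' a b hab.1)
        Δ hΔ (fun v => (tg_mono (rs_le _ _) r' v (hfinG _ _)).trans (htg v)) T hTr htgT (by
          intro D hDT hDB
          refine hNB (D.map ⟨e, he⟩) ?_ ?_ ?_
          · exact Bd_map he (G1 := rs G' Y)
              (fun a b hab => hHmle (show Hm.Adj (e a) (e b) from hab.1)) hDB
              fun i hi => hfullT i (hDT i hi)
          · intro y hy
            obtain ⟨i, hi, rfl⟩ := Finset.mem_map.1 hy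
            exact ⟨(hDT i hi).1, (hDT i hi).2.1, (hDT i hi).2.2.1⟩
          · intro y hy z hz
            obtain ⟨i, hi, rfl⟩ := Finset.mem_map.1 hy
            obtain ⟨j, hj, rfl⟩ := Finset.mem_map.1 hz
            exact hreach i j)
      have hm1' : Mat G' m := ⟨fun a b h => (hm1.adj a b h).1, hm1.symm, hm1.uniq⟩
      obtain ⟨m', h1, h2, h3, h4, h5⟩ := maxMatU hr'E hin' hm1' hm2 {i | ¬ cov (e i)} (by
        intro a b hab hcova
        have h3 := (hm1.adj a b hab).2.1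
        have h4 : 4 ≤ l (e a) := h3.1
        have h5 : l (e a) + 4 ≤ W := h3.2
        rcases hcovl _ hcova with h | h <;> omega)
      refine ⟨fun i j => ind (m' i j), m', h1, ?_, h4, ?_, ?_, fun i j => ind_eq⟩
      · intro i j hij
        exact h3 i j hij
      · intro i h6 h7 h8 h9
        obtain ⟨a, b, hab1, hab2⟩ := hm3 i ⟨h6, h7, h8, h9⟩
        exact ⟨a, b, hab1, h2 _ _ hab2⟩
      · intro i j hij h6 h7
        exact h5 i j hij h6 h7)
  have hE0 : ∀ x y, s x y = 1 → Cm.Reachable x y := by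
    intro x y h
    by_contra h1
    rw [hs2 x y h1] at h
    exact absurd h (by norm_num)
  have hloc : ∀ x, ∃ (n : ℕ) (e : Fin n → X), Function.Injective e ∧
      range e = {y | Cm.Reachable x y} ∧ ∃ m : Fin n → Fin n → Prop, Mat (Hm.comap e) m ∧
      (∀ i j, m i j → ¬ cov (e i)) ∧
      (∀ i, {p : Fin n × Fin n | E (e i) (e p.1) ∧ m p.1 p.2}.encard ≤ 2) ∧
      (∀ i, 5 ≤ l (e i) → l (e i) + 5 ≤ W → e i ∉ Z →
        tg (Hm.comap e) (fun i j => E (e i) (e j)) i = Δ → ∃ j j', E (e i) (e j) ∧ m j j') ∧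
      (∀ i j, (Hm.comap e).Adj i j → ¬ cov (e i) → ¬ cov (e j) →
        (∃ a b, E (e i) (e a) ∧ m a b) ∨ ∃ a b, E (e j) (e a) ∧ m a b) ∧
      ∀ i j, s (e i) (e j) = 1 ↔ m i j := by
    intro x
    obtain ⟨n, e, he, hr, m, h1, h2, h3, h4, h5, h6⟩ := hs3 x
    simp only [gr_ind, ind_eq, ne_eq] at h1 h2 h3 h4 h5
    exact ⟨n, e, he, hr, m, h1, h2, h3, h4, h5, h6⟩
  have hmem : ∀ {x : X} {n : ℕ} {e : Fin n → X}, range e = {y | Cm.Reachable x y} →
      ∀ y, Cm.Reachable x y → ∃ i, e i = y := by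
    intro x n e hr y hy
    have : y ∈ range e := by rw [hr]; exact hy
    exact this
  have hsadj : ∀ x y, s x y = 1 → Hm.Adj x y ∧ s y x = 1 ∧ ¬ cov x := by
    intro x y h
    obtain ⟨n, e, he, hr, m, h1, h2, h3, h4, h5, h6⟩ := hloc x
    obtain ⟨i, rfl⟩ := hmem hr x (SimpleGraph.Reachable.refl x)
    obtain ⟨j, rfl⟩ := hmem hr y (hE0 _ _ h)
    have h7 := (h6 i j).1 h
    exact ⟨h1.adj i j h7, (h6 j i).2 (h1.symm i j h7), h2 i j h7⟩
  have hsuniq : ∀ x y y', s x y = 1 → s x y' = 1 → y = y' := by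
    intro x y y' h h'
    obtain ⟨n, e, he, hr, m, h1, h2, h3, h4, h5, h6⟩ := hloc x
    obtain ⟨i, rfl⟩ := hmem hr x (SimpleGraph.Reachable.refl x)
    obtain ⟨j, rfl⟩ := hmem hr y (hE0 _ _ h)
    obtain ⟨j', rfl⟩ := hmem hr y' (hE0 _ _ h')
    rw [h1.uniq i j j' ((h6 i j).1 h) ((h6 i j').1 h')]
  have hscap : ∀ x, {p : X × X | E x p.1 ∧ s p.1 p.2 = 1}.encard ≤ 2 := by
    intro x
    by_cases hx : x ∈ mid l W
    · obtain ⟨n, e, he, hr, m, h1, h2, h3, h4, h5, h6⟩ := hloc x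
      obtain ⟨i, rfl⟩ := hmem hr x (SimpleGraph.Reachable.refl x)
      have h7 : {p : X × X | E (e i) p.1 ∧ s p.1 p.2 = 1} = Prod.map e e ''
          {p : Fin n × Fin n | E (e i) (e p.1) ∧ m p.1 p.2} := by
        ext ⟨y, z⟩
        constructor
        · rintro ⟨h8, h9⟩
          have h10 := hCmE _ _ h8 hx
          obtain ⟨j, rfl⟩ := hmem hr y h10
          obtain ⟨j', rfl⟩ := hmem hr z (h10.trans (hE0 _ _ h9))
          exact ⟨(j, j'), ⟨h8, (h6 j j').1 h9⟩, rfl⟩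
        · rintro ⟨⟨j, j'⟩, ⟨h8, h9⟩, h10⟩
          rw [Prod.map_apply, Prod.mk.injEq] at h10
          obtain ⟨rfl, rfl⟩ := h10
          exact ⟨h8, (h6 j j').2 h9⟩
      rw [h7, (he.prodMap he).encard_image]
      exact h3 i
    · have : {p : X × X | E x p.1 ∧ s p.1 p.2 = 1} = ∅ := by
        ext ⟨y, z⟩
        refine ⟨?_, fun h => absurd h (Set.notMem_empty _)⟩
        rintro ⟨h2, h3⟩
        exact absurd (hmidE y x (hE.symm h2) (hsadj y z h3).1.2.1) hx
      rw [this, Set.encard_empty]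
      norm_num
  have hscov : ∀ x, 5 ≤ l x → l x + 5 ≤ W → x ∉ Z → tg H E x = Δ →
      ∃ a b, E x a ∧ s a b = 1 := by
    intro x h6 h7 h7' h8
    obtain ⟨n, e, he, hr, m, h1, h2, h3, h4, h5, h9⟩ := hloc x
    obtain ⟨i, rfl⟩ := hmem hr x (SimpleGraph.Reachable.refl x)
    have hmi : e i ∈ mid l W := ⟨by show 0 < l (e i); omega, by show l (e i) < W; omega⟩
    rw [← tg_comap_eq he hHmle i (fun y hy => by
      have hly : 5 ≤ l y ∧ l y + 5 ≤ W := by
        rcases hinv _ _ hy with h5 | h5 <;> omega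
      refine ⟨hmem hr y (hCmE _ _ hy hmi), fun z hz => ?_⟩
      have h6 : Hm.Adj y z := mid_adj hlip (by omega) (by omega) hz
      exact ⟨hmem hr z ((hCmE _ _ hy hmi).trans (hCmH _ _ h6)), h6⟩)] at h8
    obtain ⟨j, j', hj1, hj2⟩ := h4 i h6 h7 h7' h8
    exact ⟨e j, e j', hj1, (h9 j j').2 hj2⟩
  have hsmax : ∀ x y, Hm.Adj x y → ¬ cov x → ¬ cov y →
      (∃ a b, E x a ∧ s a b = 1) ∨ ∃ a b, E y a ∧ s a b = 1 := by
    intro x y hxy h6 h7
    obtain ⟨n, e, he, hr, m, h1, h2, h3, h4, h5, h9⟩ := hloc x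
    obtain ⟨i, rfl⟩ := hmem hr x (SimpleGraph.Reachable.refl x)
    obtain ⟨j, rfl⟩ := hmem hr y (hCmH _ _ hxy)
    rcases h5 i j hxy h6 h7 with ⟨a, b, ha, hb⟩ | ⟨a, b, ha, hb⟩
    · exact Or.inl ⟨e a, e b, ha, (h9 a b).2 hb⟩
    · exact Or.inr ⟨e a, e b, ha, (h9 a b).2 hb⟩
  have hcov0 : ∀ x y, L0 x y → cov x := fun x y h => ⟨x, hE.refl x, y, h⟩
  -- the matching
  let L : X → X → Prop := fun x y => L0 x y ∨ s x y = 1
  have hLs : ∀ x y, L x y → L y x := by
    rintro x y (h | h)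
    · exact Or.inl (hL0s x y h)
    · exact Or.inr (hsadj x y h).2.1
  have hLH : ∀ x y, L x y → H.Adj x y := by
    rintro x y (h | h)
    · exact h.1
    · exact (hsadj x y h).1.1
  refine ⟨L, hL0m.union (measurableSet_eq_fun hs1 measurable_const), ⟨hLH, hLs, ?_⟩, ?_, ?_, ?_⟩
  · rintro x y y' (h | h) (h' | h')
    · exact hL0u x y y' h h'
    · exact absurd (hcov0 _ _ h) (hsadj x y' h').2.2
    · exact absurd (hcov0 _ _ h') (hsadj x y h).2.2
    · exact hsuniq x y y' h h'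
  · intro x
    by_cases hx : cov x
    · refine le_trans (Set.encard_le_encard ?_) (hL0c x)
      rintro ⟨y, z⟩ ⟨h1, h2 | h2⟩
      · exact ⟨h1, h2⟩
      · exact absurd (hcovE x y h1 hx) (hsadj y z h2).2.2
    · refine le_trans (Set.encard_le_encard ?_) (hscap x)
      rintro ⟨y, z⟩ ⟨h1, h2 | h2⟩
      · exact absurd (hcovE y x (hE.symm h1) (hcov0 _ _ h2)) hx
      · exact ⟨h1, h2⟩
  · intro x h1 h2 h2' h3
    obtain ⟨a, b, h4, h5⟩ := hscov x h1 h2 h2' h3
    exact ⟨a, b, h4, Or.inr h5⟩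
  · intro n e he
    set F := (mn H L).comap e with hF
    set r' : Fin n → Fin n → Prop := fun i j => E (e i) (e j) with hr'
    have hr'E : Equivalence r' := eq_comap hE e
    let F0 : SimpleGraph (Fin n) := ⟨fun i j => F.Adj i j ∧
      ((l (e i) ≤ 2 ∧ l (e j) ≤ 2) ∨ (W ≤ l (e i) + 2 ∧ W ≤ l (e j) + 2)),
      ⟨fun i j h => ⟨h.1.symm, h.2.elim (fun h => Or.inl ⟨h.2, h.1⟩) fun h => Or.inr ⟨h.2, h.1⟩⟩⟩,
      ⟨fun i h => h.1.ne rfl⟩⟩
    have hF0 : EU F0 r' Δ := by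
      refine ⟨fun i j => if l (e i) ≤ 2 then ci (e i) (e j) else co (e i) (e j), ⟨?_, ?_, ?_⟩, ?_⟩
      · rintro i j ⟨h, ⟨h1, h2⟩ | ⟨h1, h2⟩⟩
        · rw [if_pos h1]
          have h3 := hci2.pc.lt _ _ (hin h.1 h1 h2)
          have h4 : ci (e i) (e j) ≠ Δ := fun h4 => h.2.1 (Or.inl ⟨h.1, Or.inl ⟨h1, h2, h4⟩⟩)
          omega
        · rw [if_neg (by omega)]
          have h3 := hco2.pc.lt _ _ (hout h.1 h1 h2)
          have h4 : co (e i) (e j) ≠ Δ := fun h4 => h.2.1 (Or.inl ⟨h.1, Or.inr ⟨h1, h2, h4⟩⟩)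
          omega
      · rintro i j ⟨h, ⟨h1, h2⟩ | ⟨h1, h2⟩⟩
        · rw [if_pos h1, if_pos h2]
          exact hci2.pc.symm _ _ (hin h.1 h1 h2)
        · rw [if_neg (by omega), if_neg (by omega)]
          exact hco2.pc.symm _ _ (hout h.1 h1 h2)
      · rintro i j j' ⟨h, ⟨h1, h2⟩ | ⟨h1, h2⟩⟩ ⟨h', ⟨h1', h2'⟩ | ⟨h1', h2'⟩⟩ heq
        · rw [if_pos h1, if_pos h1] at heq
          exact he (hci2.pc.inj _ _ _ (hin h.1 h1 h2) (hin h'.1 h1' h2') heq)
        · omega
        · omega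
        · have h6 : ¬ l (e i) ≤ 2 := by omega
          rw [if_neg h6, if_neg h6] at heq
          exact he (hco2.pc.inj _ _ _ (hout h.1 h1 h2) (hout h'.1 h1' h2') heq)
      · intro i a
        rw [← (he.prodMap he).encard_image]
        by_cases h1 : l (e i) ≤ 2
        · refine le_trans (Set.encard_le_encard ?_) (hci2.cap (e i) a)
          rintro _ ⟨⟨j, j'⟩, ⟨⟨h2, h3⟩, h4⟩, rfl⟩
          have h5 : l (e j) ≤ 2 := hlow _ _ h2 h1
          have h4' : (if l (e j) ≤ 2 then ci (e j) (e j') else co (e j) (e j')) = a := h4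
          rw [if_pos h5] at h4'
          have h6 : l (e j) ≤ 2 ∧ l (e j') ≤ 2 := by
            rcases h3.2 with h6 | h6
            · exact h6
            · have h6' : W ≤ l (e j) + 2 := h6.1
              exfalso; omega
          exact ⟨⟨h2, hin h3.1.1 h6.1 h6.2⟩, h4'⟩
        · refine le_trans (Set.encard_le_encard ?_) (hco2.cap (e i) a)
          rintro _ ⟨⟨j, j'⟩, ⟨⟨h2, h3⟩, h4⟩, rfl⟩
          have h5 : ¬ l (e j) ≤ 2 := fun h => h1 (hlow _ _ (hE.symm h2) h)
          have h4' : (if l (e j) ≤ 2 then ci (e j) (e j') else co (e j) (e j')) = a := h4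
          rw [if_neg h5] at h4'
          have h6 : W ≤ l (e j) + 2 ∧ W ≤ l (e j') + 2 := by
            rcases h3.2 with h6 | h6
            · exact absurd h6.1 h5
            · exact h6
          exact ⟨⟨h2, hout h3.1.1 h6.1 h6.2⟩, h4'⟩
    have hlfm : LF (mn H L) := hlf.mono (mn_le _ _)
    have htgm : ∀ x, 0 < l x → l x < W → tg (mn H L) E x ≤ Δ := fun x h1 h2 =>
      (tg_mono (mn_le _ _) E x (dt_finite hlf hSt.ef x)).trans (hdeg x h1 h2)
    have hnoL : ∀ x, 0 < l x → l x < W → tg (mn H L) E x = Δ → ∀ a b, E x a → ¬ L a b := by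
      intro x h1 h2 h3 a b hxa hb
      have h4 : tg (mn H L) E x < tg H E x := by
        refine ncard_lt_ncard ?_ (dt_finite hlf hSt.ef x)
        refine ⟨dt_mono (mn_le _ _) E x, fun hsub => ?_⟩
        have h5 : (a, b) ∈ dt (mn H L) E x := hsub ⟨hxa, hLH _ _ hb⟩
        exact h5.2.2.1 hb
      have := hdeg _ h1 h2
      omega
    have htgF : ∀ i : Fin n, tg F r' i ≤ tg (mn H L) E (e i) := fun i =>
      tg_comap_le he i (dt_finite hlfm hSt.ef _)
    refine hEXT (Fin n) F0 F r' hr'E (fun a b hab => hSt.ni _ _ hab.1) Δ (fun i j h => h.1) hF0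
      {i | 2 ≤ l (e i) ∧ l (e i) + 2 ≤ W}
      {i | 0 < l (e i) ∧ l (e i) < W} {i | tg (mn H L) E (e i) = Δ}
      {i | 3 ≤ l (e i) ∧ l (e i) + 3 ≤ W} ?_ ?_ ?_ ?_ ?_ ?_ ?_ ?_
    · intro i j hij hij0
      have h1 := hlip _ _ hij.1
      have h2 := hlip _ _ hij.1.symm
      constructor
      · by_contra h3
        exact hij0 ⟨hij, Or.inl ⟨by omega, by omega⟩⟩
      · by_contra h3
        exact hij0 ⟨hij, Or.inr ⟨by omega, by omega⟩⟩
    · intro i j hi hij
      have h1 := hlip _ _ hij.1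
      have h2 := hlip _ _ hij.1.symm
      have h3 : 2 ≤ l (e i) := hi.1
      have h4 : l (e i) + 2 ≤ W := hi.2
      exact ⟨by omega, by omega⟩
    · intro i hi
      have h3 : 2 ≤ l (e i) := hi.1
      have h4 : l (e i) + 2 ≤ W := hi.2
      exact ⟨by omega, by omega⟩
    · intro i hi
      exact (htgF i).trans (htgm _ hi.1 hi.2)
    · intro i hi hiQ
      have h1 := htgF i
      have h2 := htgm _ hi.1 hi.2
      have h3 : tg (mn H L) E (e i) ≠ Δ := hiQ
      omega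
    · intro i j hij hiQ hiR hjR hjQ
      have h1 := hnoL (e i) hiR.1 hiR.2 hiQ
      have h2 := hnoL (e j) hjR.1 hjR.2 hjQ
      have h3 : Hm.Adj (e i) (e j) := ⟨hij.1, hiR, hjR⟩
      have h4 : ∀ x, (∀ a b, E x a → ¬ L a b) → ¬ cov x := by
        rintro x h ⟨y, hy, z, hz⟩
        exact h y z hy (Or.inl hz)
      rcases hsmax _ _ h3 (h4 _ h1) (h4 _ h2) with ⟨a, b, ha, hb⟩ | ⟨a, b, ha, hb⟩
      · exact h1 a b ha (Or.inr hb)
      · exact h2 a b ha (Or.inr hb)
    · intro i j hij hij0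
      have h1 := hlip _ _ hij.1
      have h2 := hlip _ _ hij.1.symm
      by_contra hcon
      push Not at hcon
      have h3 : ¬ (3 ≤ l (e i) ∧ l (e i) + 3 ≤ W) := hcon.1
      have h4 : ¬ (3 ≤ l (e j) ∧ l (e j) + 3 ≤ W) := hcon.2
      apply hij0
      refine ⟨hij, ?_⟩
      by_cases h5 : l (e i) ≤ 2
      · left
        refine ⟨h5, ?_⟩
        omega
      · right
        refine ⟨by omega, by omega⟩
    · rintro i ⟨h1, h2⟩ j ⟨-, ⟨h3, -⟩ | ⟨h3, -⟩⟩
      · omega
      · omega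

end Run7.h932
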