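import Pool.Agent.Run7.h932.U.Defs

/-!
# Graphs with units: the statements of the pieces
-/

set_option autoImplicit false

namespace Run7.h932

open Set MeasureTheory SimpleGraph Pool.Q11.TwoEnd Pool.Q6.CI

/-! ## Finite pieces -/

/-- the fan lemma for graphs with units -/
def S_FAN : Prop :=
  ∀ (V : Type) [Fintype V] (G : SimpleGraph V) (r : V → V → Prop), Equivalence r →
    (∀ a b, G.Adj a b → ¬ r a b) → ∀ (n : ℕ) (c : V → V → ℕ), UC G r n c →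
    ∀ x y : V, ¬ r x y → ¬ G.Adj x y → tg G r x < n →
    (∀ w, w = y ∨ G.Adj x w → tg G r w < n) → EU (AddE G x y) r n

/-- the covering lemma for graphs with units -/
def S_COV : Prop :=
  ∀ (V : Type) [Fintype V] (G : SimpleGraph V) (r : V → V → Prop), Equivalence r →
    (∀ a b, G.Adj a b → ¬ r a b) → ∀ Δ : ℕ, 0 < Δ → (∀ v, tg G r v ≤ Δ) →
    ∀ T : Set V, (∀ a b, r a b → a ∈ T → b ∈ T) → (∀ v ∈ T, tg G r v = Δ) →
    (∀ D : Finset V, (∀ x ∈ D, x ∈ T) → ¬ Bd G r Δ D) →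
    ∃ m : V → V → Prop, Mat G m ∧ (∀ x, {p : V × V | r x p.1 ∧ m p.1 p.2}.encard ≤ 2) ∧
      ∀ t ∈ T, ∃ a b, r t a ∧ m a b

/-- extension of partial colourings across a zone -/
def S_EXT : Prop :=
  ∀ (V : Type) [Fintype V] (F0 F : SimpleGraph V) (r : V → V → Prop), Equivalence r →
    (∀ a b, F.Adj a b → ¬ r a b) → ∀ n : ℕ, F0 ≤ F → EU F0 r n → ∀ M R Q A : Set V,
    (∀ x y, F.Adj x y → ¬ F0.Adj x y → x ∈ M) →
    (∀ x y, x ∈ M → F.Adj x y → y ∈ R) → M ⊆ R →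
    (∀ v ∈ R, tg F r v ≤ n) → (∀ v ∈ R, v ∉ Q → tg F r v < n) →
    (∀ x y, F.Adj x y → x ∈ Q → x ∈ R → y ∈ R → y ∉ Q) →
    (∀ x y, F.Adj x y → ¬ F0.Adj x y → x ∈ A ∨ y ∈ A) →
    (∀ x ∈ A, ∀ y, ¬ F0.Adj x y) → EU F r n

/-- extension from a small coloured boundary in which every colour occurs at most twice -/
def LemP2 (Δ : ℕ) : Prop :=
  ∀ (n : ℕ) (K : SimpleGraph (Fin n)) (Φ : Fin n → Finset ℕ),
    (∀ i, Φ i ⊆ Finset.range (Δ + 1)) → (∀ i, dg K i + (Φ i).card ≤ Δ) →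
    (∑ i, (Φ i).card) + 2 ≤ Δ → (∀ a, cl Φ a ≤ 2) →
    ∃ c : Fin n → Fin n → ℕ, VC K (Δ + 1) Φ c

/-- LemP2, first part: at a good vertex of an edge-critical counterexample (Kempe swaps). -/
def S_A1 : Prop :=
  ∀ (V : Type) [Fintype V] [DecidableEq V] (K : SimpleGraph V) (k : ℕ) (Φ : V → Finset ℕ),
    (∀ v, Φ v ⊆ Finset.range k) → (∀ v, dg K v + (Φ v).card + 1 ≤ k) → (∀ a, cl Φ a ≤ 2) →
    (¬ ∃ c, VC K k Φ c) → (∀ K' : SimpleGraph V, K' < K → ∃ c, VC K' k Φ c) →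
    ∀ x : V, bn Φ x ≤ 1 →
    -- MP1
    (∀ c, VC (delV K x) k Φ c → ∀ F ⊆ nb K x,
      Lb (avl (delV K x) k Φ c) (NF k Φ x) (nb K x \ F) → (FR k Φ).card + 1 ≤ F.card) ∧
    -- MP2
    (∀ c, VC (delV K x) k Φ c → ∀ F ⊆ nb K x, F.card = (FR k Φ).card + 1 →
      Lb (avl (delV K x) k Φ c) (NF k Φ x) (nb K x \ F) → ∀ w ∈ F, ∀ z ∈ F, w ≠ z → bn Φ w ≤ 1 →
      ∀ b ∈ FR k Φ, b ∈ avl (delV K x) k Φ c w → b ∈ avl (delV K x) k Φ c z → False) ∧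
    -- there is a start
    ((nb K x).Nonempty → ∃ c, VC (delV K x) k Φ c ∧ ∃ F ⊆ nb K x, F.card = (FR k Φ).card + 1 ∧
      Lb (avl (delV K x) k Φ c) (NF k Φ x) (nb K x \ F))

/-- LemP2, second part: the extremal counting argument. -/
def S_A2 : Prop :=
  ∀ (V : Type) [Fintype V] [DecidableEq V] (K : SimpleGraph V) (k : ℕ) (Φ : V → Finset ℕ),
    (∀ v, Φ v ⊆ Finset.range k) → (∀ v, dg K v + (Φ v).card + 1 ≤ k) → (∀ a, cl Φ a ≤ 2) →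
    (∑ v, (Φ v).card) + 3 ≤ k → ∀ x : V, (Φ x).card ≤ 1 →
    (∀ c, VC (delV K x) k Φ c → ∀ F ⊆ nb K x,
      Lb (avl (delV K x) k Φ c) (NF k Φ x) (nb K x \ F) → (FR k Φ).card + 1 ≤ F.card) →
    (∀ c, VC (delV K x) k Φ c → ∀ F ⊆ nb K x, F.card = (FR k Φ).card + 1 →
      Lb (avl (delV K x) k Φ c) (NF k Φ x) (nb K x \ F) → ∀ w ∈ F, ∀ z ∈ F, w ≠ z → bn Φ w ≤ 1 →
      ∀ b ∈ FR k Φ, b ∈ avl (delV K x) k Φ c w → b ∈ avl (delV K x) k Φ c z → False) →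
    ¬ ∃ c, VC (delV K x) k Φ c ∧ ∃ F ⊆ nb K x, F.card = (FR k Φ).card + 1 ∧
      Lb (avl (delV K x) k Φ c) (NF k Φ x) (nb K x \ F)

/-- assembling LemP2 -/
def S_A0 : Prop := S_A1 → S_A2 → ∀ Δ, LemP2 Δ

/-- the finite gluing lemma: `K` is the graph inside a merged class, `Ψ i` are the colours of the
darts at `i` that leave the merged class -/
def S_GLF (Δ : ℕ) : Prop :=
  ∀ (n : ℕ) (K : SimpleGraph (Fin n)) (r : Fin n → Fin n → Prop), Equivalence r →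
    (∀ i j, K.Adj i j → ¬ r i j) → ∀ (D : Finset (Fin n)) (Ψ : Fin n → Finset ℕ),
    (∀ i, Ψ i ⊆ Finset.range (Δ + 1)) → (∀ i, ∃ j ∈ D, r i j) →
    (∀ i ∈ D, ∀ j ∈ D, r i j → i = j) →
    (∀ i, tg K r i + (∑ j, ind (r i j) * (Ψ j).card) ≤ Δ) →
    Δ * D.card + 2 ≤ idg K D + Δ → (∀ a, cl Ψ a ≤ 2) →
    ∃ c : Fin n → Fin n → ℕ, VC K (Δ + 1) Ψ c ∧
      ∀ i a, (∑ j, ind (r i j ∧ a ∈ Ψ j)) + {p | p ∈ dt K r i ∧ c p.1 p.2 = a}.ncard ≤ 2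

/-! ## Borel pieces -/

/-- colouring with finite components -/
def S_COLC : Prop :=
  ∀ (X : Type) [MeasurableSpace X] [StandardBorelSpace X] (H : SimpleGraph X)
    (E : X → X → Prop), St H E → ∀ Y : Set X, MeasurableSet Y →
    (∀ x y, E x y → x ∈ Y → y ∈ Y) → FinC (rs (cg H E) Y) → ∀ k, FCU (rs H Y) E k →
    BCU (rs H Y) E k

/-- cutting out bad sets of small level variation -/
def S_CUT : Prop :=
  ∀ (X : Type) [MeasurableSpace X] [StandardBorelSpace X] (H : SimpleGraph X)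
    (E : X → X → Prop), St H E → ∀ (l : X → ℕ) (W : ℕ), Lv H E l W 0 → ∀ Δ b : ℕ,
    ∃ s : X → X → ℕ, Ct H E l W Δ b s

/-- merging the classes that meet a cut set -/
def S_MRG : Prop :=
  ∀ (X : Type) [MeasurableSpace X] [StandardBorelSpace X] (H : SimpleGraph X)
    (E : X → X → Prop), St H E → ∀ (l : X → ℕ) (W : ℕ), Lv H E l W 0 → ∀ Δ b : ℕ,
    (∀ x, 0 < l x → l x < W → tg H E x ≤ Δ) → ∀ s : X → X → ℕ, Ct H E l W Δ b s →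
    St (mn H (mrg E s)) (mrg E s) ∧ Lv (mn H (mrg E s)) (mrg E s) l W b ∧
    (∀ x, 0 < l x → l x < W → tg (mn H (mrg E s)) (mrg E s) x ≤ Δ) ∧
    (∀ x y, mrg E s x y → ¬ E x y → 5 ≤ l x ∧ l x + 5 ≤ W) ∧
    ∀ D : Finset X, Bd (mn H (mrg E s)) (mrg E s) Δ D → (∀ x ∈ D, 5 ≤ l x ∧ l x + 5 ≤ W) →
      (∀ x ∈ D, ∀ y ∈ D, (rs (cg (mn H (mrg E s)) (mrg E s)) (mid l W)).Reachable x y ∧
        l y ≤ l x + b) → False

/-- colouring the edges that were cut out -/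
def S_GLU : Prop :=
  ∀ (X : Type) [MeasurableSpace X] [StandardBorelSpace X] (H : SimpleGraph X)
    (E : X → X → Prop), St H E → ∀ (l : X → ℕ) (W Δ b : ℕ) (s : X → X → ℕ), Ct H E l W Δ b s →
    St (mn H (mrg E s)) (mrg E s) → S_GLF Δ →
    BCU (mn H (mrg E s)) (mrg E s) (Δ + 1) → BCU H E (Δ + 1)

/-- new levels -/
def S_LEV : Prop :=
  ∀ (X : Type) [MeasurableSpace X] [StandardBorelSpace X] (H : SimpleGraph X)
    (E : X → X → Prop), St H E → ∀ (l : X → ℕ) (W Δ b W' : ℕ), Lv H E l W b →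
    (∀ x, 0 < l x → l x < W → tg H E x ≤ Δ) →
    Δ * (1 + Δ) ^ W' ≤ b → 20 + (W' + 2) * (b + 1) ≤ W →
    (∀ D : Finset X, Bd H E Δ D → (∀ x ∈ D, 5 ≤ l x ∧ l x + 5 ≤ W) →
      (∀ x ∈ D, ∀ y ∈ D, (rs (cg H E) (mid l W)).Reachable x y ∧ l y ≤ l x + b) → False) →
    ∃ (l' : X → ℕ) (Z : Set X), Lv H E l' W' 0 ∧ MeasurableSet Z ∧
      (∀ x y, E x y → x ∈ Z → y ∈ Z) ∧
      (∀ x, 0 < l' x → l' x < W' → 5 ≤ l x ∧ l x + 5 ≤ W ∧ x ∉ Z) ∧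
      ∀ D : Finset X, Bd H E Δ D → (∀ x ∈ D, 5 ≤ l x ∧ l x + 5 ≤ W) →
        (∀ x ∈ D, ∀ y ∈ D, (rs (cg H E) (mid l W)).Reachable x y) → ∃ x ∈ D, x ∈ Z

/-- peeling off one colour class -/
def S_PEEL : Prop :=
  ∀ (X : Type) [MeasurableSpace X] [StandardBorelSpace X] (H : SimpleGraph X)
    (E : X → X → Prop), St H E → ∀ (l : X → ℕ) (W Δ b : ℕ), Lv H E l W b → 0 < Δ → 8 ≤ W →
    (∀ x, 0 < l x → l x < W → tg H E x ≤ Δ) → FCU H E (Δ + 1) → ∀ Z : Set X, MeasurableSet Z →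
    (∀ x y, E x y → x ∈ Z → y ∈ Z) →
    (∀ D : Finset X, Bd H E Δ D → (∀ x ∈ D, 5 ≤ l x ∧ l x + 5 ≤ W ∧ x ∉ Z) →
      (∀ x ∈ D, ∀ y ∈ D, (rs (cg H E) (mid l W)).Reachable x y) → False) →
    ∃ L : X → X → Prop, MeasurableSet {p : X × X | L p.1 p.2} ∧ Mat H L ∧
      (∀ x, {p : X × X | E x p.1 ∧ L p.1 p.2}.encard ≤ 2) ∧
      (∀ x, 5 ≤ l x → l x + 5 ≤ W → x ∉ Z → tg H E x = Δ → ∃ a b, E x a ∧ L a b) ∧
      FCU (mn H L) E Δ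

/-- the finite parts stay colourable after merging -/
def S_FCE : Prop :=
  ∀ (X : Type) (H Ho : SimpleGraph X) (E E' : X → X → Prop) (l : X → ℕ) (W Δ : ℕ),
    LF H → Equivalence E → Equivalence E' → (∀ x, {y | E' x y}.Finite) → Ho ≤ H → (∀ x y, Ho.Adj x y → ¬ E' x y) →
    (∀ x y, H.Adj x y → l y ≤ l x + 1) → 8 ≤ W →
    (∀ x, 0 < l x → l x < W → tg Ho E' x ≤ Δ) →
    (∀ x y, E' x y → ¬ E x y → 5 ≤ l x ∧ l x + 5 ≤ W) → FCU H E (Δ + 1) → FCU Ho E' (Δ + 1)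

/-- the induction, and the theorem -/
def S_MAIN : Prop :=
  (∀ Δ, LemP2 Δ) → (∀ Δ, S_GLF Δ) → S_COV → S_EXT → S_COLC → S_CUT → S_MRG → S_GLU → S_LEV →
    S_PEEL → S_FCE →
  ∀ (X : Type) [MeasurableSpace X] [StandardBorelSpace X] (G : SimpleGraph X) (d : ℕ),
    MeasurableSet {p : X × X | G.Adj p.1 p.2} →
    (∀ x : X, (G.neighborSet x).encard ≤ (d : ℕ∞)) →
    (∀ r : ℕ, ∃ U : Fin 2 → Set X, (∀ i, MeasurableSet (U i)) ∧ (⋃ i, U i) = Set.univ ∧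
        ∀ (i : Fin 2) (x : X),
          {y : X | (SimpleGraph.fromRel (fun a b : X =>
              a ∈ U i ∧ b ∈ U i ∧ ∃ p : G.Walk a b, p.length ≤ r)).Reachable x y}.Finite) →
    ∃ c : X × X → ℕ, Measurable c ∧
        (∀ x y : X, G.Adj x y → c (x, y) < d + 1 ∧ c (x, y) = c (y, x)) ∧
        ∀ x y z : X, G.Adj x y → G.Adj x z → y ≠ z → c (x, y) ≠ c (x, z)

end Run7.h932
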